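import Pool.Agent.Lib.MP_d439b2_co.ST.Spec

/-!
# MP_d439b2_co, ST/Bd: there are few labels
-/

set_option autoImplicit false

namespace Pool.Agent.MPd439b2.ST

open Pool.Agent.MPd439b2 Pool.Agent.MPd439b2.Rep

theorem tBd : S_Bd := by
  classical
  intro V _ G B f w p k q b n r₁ L C hB h1 hS hn
  have hs := hS.sys
  have hn0 : 0 < n := by omega
  have hfin : L.Finite := by
    refine Set.Finite.subset (Set.finite_range (lab G B f)) fun l hl => ?_
    obtain ⟨x, -, hx⟩ := hS.att 0 hn0 l hl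
    exact ⟨x, hx⟩
  refine ⟨hfin, ?_⟩
  obtain ⟨x₀, hx₀⟩ := hs.nk 0 hn0
  have : Nonempty V := ⟨x₀⟩
  -- the number of the labels of one class of `B`
  have key : ∀ a, (hfin.toFinset.filter (fun l => l.1 = true ∧ l.2.1 = a)).card ≤ r₁ := by
    intro a
    by_contra hcon
    rw [not_le] at hcon
    obtain ⟨T, hT, hTc⟩ := Finset.exists_subset_card_eq hcon.le
    let e := (Finset.equivFinOfCardEq hTc).symm
    have hmem : ∀ i : Fin r₁, (e i).1 ∈ L ∧ (e i).1.1 = true ∧ (e i).1.2.1 = a := by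
      intro i
      have h2 := hT (e i).2
      rw [Finset.mem_filter, Set.Finite.mem_toFinset] at h2
      exact ⟨h2.1, h2.2.1, h2.2.2⟩
    have hch : ∀ i : ℕ, ∃ x z : V, ∀ hi : i < r₁, x ∈ C i ∧ lab G B f x = (e ⟨i, hi⟩).1 ∧
        x ∈ B ∧ z ∈ C i ∧ z ∉ B ∧ ¬ G.Adj x z := by
      intro i
      by_cases hi : i < r₁
      · obtain ⟨x, hx, hxl⟩ := hS.att i (by omega) _ (hmem ⟨i, hi⟩).1
        have hxB : x ∈ B := by
          by_contra hxB
          rw [lab_A hxB] at hxl
          have h3 := (hmem ⟨i, hi⟩).2.1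
          rw [← hxl] at h3
          exact Bool.false_ne_true h3
        obtain ⟨z, hz, hzB, hxz⟩ := hs.legK (by omega) hx hxB
        exact ⟨x, z, fun _ => ⟨hx, hxl, hxB, hz, hzB, hxz⟩⟩
      · exact ⟨x₀, x₀, fun hi' => (hi hi').elim⟩
    choose x z hxz using hch
    refine h1 x z ?_ (fun i hi => ⟨(hxz i hi).2.2.1, (hxz i hi).2.2.2.2.1⟩) ?_ ?_
    · exact hs.tp id (fun i hi => by simp only [id]; omega) (fun i _ j _ hij => hij) x z
        (fun i hi => ⟨(hxz i hi).1, (hxz i hi).2.2.1⟩)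
        (fun i hi => ⟨(hxz i hi).2.2.2.1, (hxz i hi).2.2.2.2.1⟩)
        (fun i hi => (hxz i hi).2.2.2.2.2)
    · have hf : ∀ i, i < r₁ → f (x i) = a := by
        intro i hi
        have h2 := (hxz i hi).2.1
        rw [lab_B (hxz i hi).2.2.1] at h2
        rw [← (hmem ⟨i, hi⟩).2.2, ← h2]
      intro i hi j hj
      rw [hf i hi, hf j hj]
    · intro i hi j hj hij hnb
      have h2 := (hxz i hi).2.1
      have h3 := (hxz j hj).2.1
      rw [lab_B (hxz i hi).2.2.1] at h2
      rw [lab_B (hxz j hj).2.2.1] at h3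
      have hfi : f (x i) = a := by rw [← (hmem ⟨i, hi⟩).2.2, ← h2]
      have hfj : f (x j) = a := by rw [← (hmem ⟨j, hj⟩).2.2, ← h3]
      have h4 : (e ⟨i, hi⟩).1 = (e ⟨j, hj⟩).1 := by
        rw [← h2, ← h3, hfi, hfj, hnb]
      have h5 := e.injective (Subtype.ext h4)
      exact hij (Fin.mk.inj_iff.1 h5)
  rw [Set.ncard_eq_toFinset_card L hfin]
  have hsub : hfin.toFinset ⊆ (Finset.range p).image (fun c => ((false, c, ∅) : Bool × ℕ × Set V)) ∪
      (Finset.range w).biUnion
        (fun a => hfin.toFinset.filter (fun l => l.1 = true ∧ l.2.1 = a)) := by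
    intro l hl
    rw [Set.Finite.mem_toFinset] at hl
    obtain ⟨x, -, hx⟩ := hS.att 0 hn0 l hl
    rw [Finset.mem_union, Finset.mem_image, Finset.mem_biUnion]
    by_cases hxB : x ∈ B
    · right
      refine ⟨f x, Finset.mem_range.2 (hB.fB x hxB), ?_⟩
      rw [Finset.mem_filter, Set.Finite.mem_toFinset]
      refine ⟨hl, ?_⟩
      rw [← hx, lab_B hxB]
      exact ⟨rfl, rfl⟩
    · left
      exact ⟨f x, Finset.mem_range.2 (hB.fA x hxB), by rw [← hx, lab_A hxB]⟩
  calc hfin.toFinset.card ≤ _ := Finset.card_le_card hsub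
    _ ≤ _ := Finset.card_union_le _ _
    _ ≤ p + w * r₁ := by
      refine Nat.add_le_add ?_ ?_
      · exact Finset.card_image_le.trans (Finset.card_range p).le
      · have h2 := Finset.card_biUnion_le_card_mul (Finset.range w)
          (fun a => hfin.toFinset.filter (fun l => l.1 = true ∧ l.2.1 = a)) r₁
          (fun a _ => key a)
        rwa [Finset.card_range] at h2

end Pool.Agent.MPd439b2.ST
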