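import Pool.Agent.Lib.MP_d439b2_co.ST.Spec

/-!
# MP_d439b2_co, ST/Cell: the cell theorem
-/

set_option autoImplicit false

namespace Pool.Agent.MPd439b2.ST

open Pool.Agent.MPd439b2 Pool.Agent.MPd439b2.Rep

namespace CellM

private theorem sysL_mono {V : Type} {G : SimpleGraph V} {B : Set V} {f : V → ℕ} {b n n' : ℕ}
    {L : Set (Bool × ℕ × Set V)} {C : ℕ → Set V} (h : SysL G B f b L n C) (hn : n' ≤ n) :
    SysL G B f b L n' C :=
  ⟨h.sys.mono hn, fun i hi => h.att i (lt_of_lt_of_le hi hn)⟩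

/-- The induction over the number of labels. -/
private theorem induct (h4 : S_Rd) (h5 : S_Bd) (w p r₀ r₁ : ℕ) (d : ℕ) : ∃ nd : ℕ, r₁ + 1 ≤ nd ∧
    ∀ (b k q : ℕ) (V : Type) [Finite V] (G : SimpleGraph V) (B : Set V) (f : V → ℕ), Fcs G →
    Bas G B f w p k q → Hy1 G B f r₁ → Hy2 G r₀ → MC G ((p + w * r₁) * (r₀ + 1) ^ p) b →
    ∀ (L : Set (Bool × ℕ × Set V)) (C : ℕ → Set V), SysL G B f b L nd C →
    L.ncard + d ≠ p + w * r₁ + 1 := by
  induction d with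
  | zero =>
    refine ⟨r₁ + 1, le_rfl, fun b k q V _ G B f _ hb hy1 _ _ L C hL => ?_⟩
    have := (h5 V G B f w p k q b (r₁ + 1) r₁ L C hb hy1 hL le_rfl).2
    omega
  | succ d ih =>
    obtain ⟨nd, hnd, hd⟩ := ih
    obtain ⟨n, hn⟩ := h4 w p r₀ r₁ (p + w * r₁) nd
    refine ⟨max n (r₁ + 1), le_max_right _ _, fun b k q V _ G B f hf hb hy1 hy2 hmc L C hL hcon => ?_⟩
    obtain ⟨hfin, hcard⟩ := h5 V G B f w p k q b _ r₁ L C hb hy1 hL (le_max_right _ _)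
    obtain ⟨l, hl, C', hC'⟩ := hn V G B f k q b L C hf hb hy1 hy2 hmc hcard
      (sysL_mono hL (le_max_left _ _))
    refine hd b k q V G B f hf hb hy1 hy2 hmc (insert l L) C' hC' ?_
    rw [Set.ncard_insert_of_notMem hl hfin]
    omega

/-- Pigeonhole for sets of subsets. -/
private theorem pigeon {T : Type} (n r n₀ : ℕ) (S : ℕ → Set T) (I : Set ℕ) (N : Set T)
    (hI : I.Finite) (hIc : I.ncard < r) (hN : N.Finite) (hNc : N.ncard < r)
    (hS : ∀ i < n, i ∉ I → S i ⊆ N) (hn : r + 2 ^ r * n₀ + 1 ≤ n) :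
    ∃ (σ : ℕ → ℕ) (X : Set T), X ⊆ N ∧ (∀ i < n₀, σ i < n ∧ S (σ i) = X) ∧
      ∀ i < n₀, ∀ j < n₀, i ≠ j → σ i ≠ σ j := by
  classical
  let s : Finset ℕ := (Finset.range n).filter (fun i => i ∉ I)
  let t : Finset (Set T) := hN.finite_subsets.toFinset
  have ht : t.card ≤ 2 ^ r := by
    have h1 : t.card = 2 ^ N.ncard := by
      rw [← Set.ncard_eq_toFinset_card _ hN.finite_subsets]
      exact Set.ncard_powerset N hN
    rw [h1]
    exact Nat.pow_le_pow_right (by norm_num) hNc.le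
  have hs : n ≤ s.card + I.ncard := by
    have h1 : (Finset.range n) ⊆ s ∪ hI.toFinset := by
      intro i hi
      rw [Finset.mem_union, Finset.mem_filter, Set.Finite.mem_toFinset]
      by_cases h : i ∈ I
      · exact Or.inr h
      · exact Or.inl ⟨hi, h⟩
    have h2 := (Finset.card_le_card h1).trans (Finset.card_union_le _ _)
    rw [Finset.card_range, ← Set.ncard_eq_toFinset_card _ hI] at h2
    exact h2
  have hmaps : ∀ i ∈ s, S i ∈ t := by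
    intro i hi
    rw [Finset.mem_filter, Finset.mem_range] at hi
    rw [Set.Finite.mem_toFinset]
    exact hS i hi.1 hi.2
  have hlt : t.card * n₀ < s.card := by
    have h1 : t.card * n₀ ≤ 2 ^ r * n₀ := Nat.mul_le_mul_right _ ht
    omega
  obtain ⟨X, hX, hXc⟩ := Finset.exists_lt_card_fiber_of_mul_lt_card_of_maps_to hmaps hlt
  set u := s.filter (fun i => S i = X) with hu
  have hmem : ∀ i ∈ u, i < n ∧ S i = X := by
    intro i hi
    rw [hu, Finset.mem_filter, Finset.mem_filter, Finset.mem_range] at hi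
    exact ⟨hi.1.1, hi.2⟩
  refine ⟨fun i => if h : i < u.card then u.orderEmbOfFin rfl ⟨i, h⟩ else 0, X, ?_, ?_, ?_⟩
  · exact (Set.Finite.mem_toFinset hN.finite_subsets).mp hX
  · intro i hi
    have h1 : i < u.card := lt_trans hi hXc
    simp only [dif_pos h1]
    exact hmem _ (Finset.orderEmbOfFin_mem u rfl _)
  · intro i hi j hj hij h
    have h1 : i < u.card := lt_trans hi hXc
    have h2 : j < u.card := lt_trans hj hXc
    simp only [dif_pos h1, dif_pos h2] at h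
    have h3 := (u.orderEmbOfFin rfl).injective h
    exact hij (congrArg Fin.val h3)

end CellM

open CellM in
theorem tCell (h1 : S_H1) (h2 : S_H2) (h3 : S_Gr) (h4 : S_Rd) (h5 : S_Bd) : S_Cell := by
  classical
  intro w p k q
  obtain ⟨r₁, hr₁⟩ := h1 w p k q
  obtain ⟨r₀, hr₀⟩ := h2
  choose nd hnd hd using induct h4 h5 w p r₀ r₁
  obtain ⟨n₀, hn₀⟩ : ∃ n₀, ∀ d ∈ Finset.range (p + w * r₁ + 2), nd d ≤ n₀ := by
    refine ⟨(Finset.range (p + w * r₁ + 2)).sup nd, fun d hd => Finset.le_sup hd⟩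
  refine ⟨(p + w * r₁) * (r₀ + 1) ^ p, r₁ + 2 ^ r₁ * n₀ + 1, ?_⟩
  intro b hb V _ G B f hf hbas hmc a j ⟨P, Q, hPQ, hdis⟩
  have hy1 := hr₁ V G B f hf hbas
  have hy2 := hr₀ V G hf
  have hne : ∀ i < r₁ + 2 ^ r₁ * n₀ + 1, (P i).Nonempty ∧ (Q i).Nonempty := fun i hi =>
    (hPQ i hi).2.2.1.two (by have := (hPQ i hi).2.2.2; omega)
  have hPB : ∀ i < r₁ + 2 ^ r₁ * n₀ + 1, ∀ x ∈ P i, x ∈ B ∧ f x = a := fun i hi x hx =>
    (hPQ i hi).1 hx
  have hQB : ∀ i < r₁ + 2 ^ r₁ * n₀ + 1, ∀ x ∈ Q i, x ∉ B ∧ f x = j := fun i hi x hx =>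
    (hPQ i hi).2.1 hx
  obtain ⟨x₀, -⟩ := (hne 0 (by omega)).1
  have hr1 : 1 ≤ r₁ := by
    by_contra hcon
    have h0 : r₁ = 0 := by omega
    subst h0
    refine hy1 (fun _ => x₀) (fun _ => x₀) ⟨?_, ?_, ?_, ?_, ?_, ?_⟩ ?_ ?_ ?_ <;>
      exact fun i hi => absurd hi (Nat.not_lt_zero i)
  have hnot : ¬ ∃ (φ : ℕ → ℕ) (v : ℕ → Set V), (∀ i < r₁, φ i < r₁ + 2 ^ r₁ * n₀ + 1 ∧
      v i ∈ (nB G B) '' P (φ i)) ∧ ∀ i < r₁, ∀ j < r₁, i ≠ j → φ i ≠ φ j ∧ v i ≠ v j := by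
    rintro ⟨φ, v, hφv, hne'⟩
    have hx : ∀ i, ∃ x, i < r₁ → x ∈ P (φ i) ∧ nB G B x = v i := by
      intro i
      by_cases hi : i < r₁
      · obtain ⟨x, hx, hxv⟩ := (hφv i hi).2
        exact ⟨x, fun _ => ⟨hx, hxv⟩⟩
      · exact ⟨x₀, fun h => absurd h hi⟩
    choose x hx using hx
    have hz : ∀ i, ∃ z, i < r₁ → z ∈ Q (φ i) ∧ nA G (x i) z := by
      intro i
      by_cases hi : i < r₁
      · obtain ⟨z, hz, hxz⟩ := (hPQ _ (hφv i hi).1).2.2.1.nbK (hne _ (hφv i hi).1).2 (hx i hi).1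
        exact ⟨z, fun _ => ⟨hz, hxz⟩⟩
      · exact ⟨x₀, fun h => absurd h hi⟩
    choose z hz using hz
    have hxB : ∀ i < r₁, x i ∈ B ∧ f (x i) = a := fun i hi => hPB _ (hφv i hi).1 _ (hx i hi).1
    have hzB : ∀ i < r₁, z i ∉ B ∧ f (z i) = j := fun i hi => hQB _ (hφv i hi).1 _ (hz i hi).1
    have hxne : ∀ i < r₁, ∀ j < r₁, i ≠ j → x i ≠ x j := by
      intro i hi j hj hij h
      apply (hne' i hi j hj hij).2
      rw [← (hx i hi).2, ← (hx j hj).2, h]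
    refine hy1 x z ⟨?_, hxne, ?_, ?_, ?_, ?_⟩ ?_ ?_ ?_
    · intro i hi l hl h
      exact (hzB l hl).1 (h ▸ (hxB i hi).1)
    · intro i hi l hl hil h
      exact Set.disjoint_left.1 (hdis _ (hφv i hi).1 _ (hφv l hl).1 (hne' i hi l hl hil).1).2.1
        (hz i hi).1 (h ▸ (hz l hl).1)
    · intro i hi l hl hil
      refine iff_of_true (hbas.cl _ (hxB i hi).1 _ (hxB l hl).1 ?_ (hxne i hi l hl hil)) rfl
      rw [(hxB i hi).2, (hxB l hl).2]
    · intro i hi l hl hil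
      refine iff_of_false (hbas.stb (hzB i hi).1 (hzB l hl).1 ?_) (by simp)
      rw [(hzB i hi).2, (hzB l hl).2]
    · intro i hi l hl
      by_cases hil : i = l
      · subst hil
        exact iff_of_false (hz i hi).2 (by simp)
      · refine iff_of_true ?_ (by simp [hil])
        exact not_not.mp ((hdis _ (hφv i hi).1 _ (hφv l hl).1 (hne' i hi l hl hil).1).2.2 _
          (hx i hi).1 _ (hz l hl).1)
    · exact fun i hi => ⟨(hxB i hi).1, (hzB i hi).1⟩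
    · intro i hi l hl
      rw [(hxB i hi).2, (hxB l hl).2]
    · intro i hi l hl hil
      rw [(hx i hi).2, (hx l hl).2]
      exact (hne' i hi l hl hil).2
  obtain ⟨I, N, hI, hIc, hN, hNc, hIN⟩ := h3 (Set V) (r₁ + 2 ^ r₁ * n₀ + 1) r₁
    (fun i => (nB G B) '' P i) hr1 hnot
  obtain ⟨σ, X, -, hσ, hσ'⟩ := pigeon (r₁ + 2 ^ r₁ * n₀ + 1) r₁ n₀ (fun i => (nB G B) '' P i) I N hI
    hIc hN hNc hIN le_rfl
  let L : Set (Bool × ℕ × Set V) := {l | (∃ Y ∈ X, l = (true, a, Y)) ∨ l = (false, j, ∅)}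
  have hLB : ∀ x ∈ B, lab G B f x ∈ L → f x = a := by
    intro x hx hl
    rw [lab_B hx] at hl
    rcases hl with ⟨Y, -, h⟩ | h
    · exact congrArg (fun z => z.2.1) h
    · exact absurd (congrArg Prod.fst h) (by simp)
  have hLA : ∀ x, x ∉ B → lab G B f x ∈ L → f x = j := by
    intro x hx hl
    rw [lab_A hx] at hl
    rcases hl with ⟨Y, -, h⟩ | h
    · exact absurd (congrArg Prod.fst h) (by simp)
    · exact congrArg (fun z => z.2.1) h
  have hCB : ∀ i < n₀, ∀ x, x ∈ B → x ∈ P (σ i) ∪ Q (σ i) → x ∈ P (σ i) := by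
    intro i hi x hx h
    exact h.resolve_right fun h' => (hQB _ (hσ i hi).1 _ h').1 hx
  have hCA : ∀ i < n₀, ∀ x, x ∉ B → x ∈ P (σ i) ∪ Q (σ i) → x ∈ Q (σ i) := by
    intro i hi x hx h
    exact h.resolve_left fun h' => hx (hPB _ (hσ i hi).1 _ h').1
  have hCP : ∀ i < n₀, (P (σ i) ∪ Q (σ i)) ∩ B = P (σ i) := by
    intro i hi
    ext x
    exact ⟨fun h => hCB i hi x h.2 h.1, fun h => ⟨Or.inl h, (hPB _ (hσ i hi).1 _ h).1⟩⟩
  have hCQ : ∀ i < n₀, (P (σ i) ∪ Q (σ i)) \ B = Q (σ i) := by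
    intro i hi
    ext x
    exact ⟨fun h => hCA i hi x h.2 h.1, fun h => ⟨Or.inr h, (hQB _ (hσ i hi).1 _ h).1⟩⟩
  have hlabP : ∀ i < n₀, ∀ x ∈ P (σ i), lab G B f x ∈ L := by
    intro i hi x hx
    obtain ⟨hxB, hxa⟩ := hPB _ (hσ i hi).1 _ hx
    rw [lab_B hxB, hxa]
    exact Or.inl ⟨nB G B x, (hσ i hi).2 ▸ ⟨x, hx, rfl⟩, rfl⟩
  have hlabQ : ∀ i < n₀, ∀ x ∈ Q (σ i), lab G B f x = (false, j, ∅) := by
    intro i hi x hx
    obtain ⟨hxB, hxa⟩ := hQB _ (hσ i hi).1 _ hx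
    rw [lab_A hxB, hxa]
  have hsys : SysL G B f b L n₀ (fun i => P (σ i) ∪ Q (σ i)) := by
    refine ⟨⟨fun x hx => hx.1, fun x hx => hx.1, ?_, ?_, ?_, ?_, ?_, ?_, ?_, ?_, ?_⟩, ?_⟩
    · intro x hx y hy hxy
      refine hbas.cl x hx.1 y hy.1 ?_ hxy
      rw [hLB x hx.1 hx.2, hLB y hy.1 hy.2]
    · intro x hx y hy
      refine hbas.stb hx.1 hy.1 ?_
      rw [hLA x hx.1 hx.2, hLA y hy.1 hy.2]
    · rintro i hi x (hx | hx)
      · exact Or.inl ⟨(hPB _ (hσ i hi).1 _ hx).1, hlabP i hi x hx⟩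
      · refine Or.inr ⟨(hQB _ (hσ i hi).1 _ hx).1, ?_⟩
        rw [hlabQ i hi x hx]
        exact Or.inr rfl
    · intro i hi
      change Cn (nA G) ((P (σ i) ∪ Q (σ i)) ∩ B) ((P (σ i) ∪ Q (σ i)) \ B)
      rw [hCP i hi, hCQ i hi]
      exact (hPQ _ (hσ i hi).1).2.2.1
    · intro i hi
      change ((P (σ i) ∪ Q (σ i)) ∩ B).Nonempty
      rw [hCP i hi]
      exact (hne _ (hσ i hi).1).1
    · intro i hi
      change ((P (σ i) ∪ Q (σ i)) \ B).Nonempty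
      rw [hCQ i hi]
      exact (hne _ (hσ i hi).1).2
    · intro i hi
      have h6 : Disjoint (P (σ i)) (Q (σ i)) := by
        rw [Set.disjoint_left]
        intro x hx hx'
        exact (hQB _ (hσ i hi).1 _ hx').1 (hPB _ (hσ i hi).1 _ hx).1
      change b < (P (σ i) ∪ Q (σ i)).ncard
      rw [Set.ncard_union_eq h6 (Set.toFinite _) (Set.toFinite _)]
      exact (hPQ _ (hσ i hi).1).2.2.2
    · intro i hi l hl hil
      have h6 := hdis _ (hσ i hi).1 _ (hσ l hl).1 (hσ' i hi l hl hil)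
      rw [Set.disjoint_left]
      intro x hx hx'
      by_cases hxB : x ∈ B
      · exact Set.disjoint_left.1 h6.1 (hCB i hi x hxB hx) (hCB l hl x hxB hx')
      · exact Set.disjoint_left.1 h6.2.1 (hCA i hi x hxB hx) (hCA l hl x hxB hx')
    · intro i hi l hl hil x hx hxB y hy hyB
      have h6 := hdis _ (hσ i hi).1 _ (hσ l hl).1 (hσ' i hi l hl hil)
      exact not_not.mp (h6.2.2 x (hCB i hi x hxB hx) y (hCA l hl y hyB hy))
    · intro i hi l hl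
      rcases hl with ⟨Y, hY, rfl⟩ | rfl
      · rw [← (hσ i hi).2] at hY
        obtain ⟨x, hx, rfl⟩ := hY
        obtain ⟨hxB, hxa⟩ := hPB _ (hσ i hi).1 _ hx
        exact ⟨x, Or.inl hx, by rw [lab_B hxB, hxa]⟩
      · obtain ⟨x, hx⟩ := (hne _ (hσ i hi).1).2
        exact ⟨x, Or.inr hx, hlabQ i hi x hx⟩
  have hn0 : r₁ + 1 ≤ n₀ := (hnd 0).trans (hn₀ 0 (Finset.mem_range.mpr (by omega)))
  obtain ⟨hLf, hLc⟩ := h5 V G B f w p k q b n₀ r₁ L _ hbas hy1 hsys hn0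
  have hL1 : 1 ≤ L.ncard := by
    rw [Nat.one_le_iff_ne_zero, Ne, Set.ncard_eq_zero hLf]
    intro h0
    have : ((false, j, ∅) : Bool × ℕ × Set V) ∈ L := Or.inr rfl
    rw [h0] at this
    exact this
  have hdd : p + w * r₁ + 1 - L.ncard ∈ Finset.range (p + w * r₁ + 2) :=
    Finset.mem_range.mpr (by omega)
  exact hd (p + w * r₁ + 1 - L.ncard) b k q V G B f hf hbas hy1 hy2 hmc L _
    (sysL_mono hsys (hn₀ _ hdd)) (by omega)

end Pool.Agent.MPd439b2.ST
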