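import Pool.Agent.Lib.MP_d439b2_co.ST.Spec

/-!
# MP_d439b2_co, ST/Cr: the cut-rank of a good cell
-/

set_option autoImplicit false

namespace Pool.Agent.MPd439b2.ST

open Pool.Agent.MPd439b2 Pool.Agent.MPd439b2.Rep

/-- if `F` is determined by `K` on `X` then `F` has at most as many values as `K` -/
private theorem cr_img {α β γ : Type} [Finite β] {X : Set α} (F : α → γ) (K : α → β)
    (h : ∀ x ∈ X, ∀ y ∈ X, K x = K y → F x = F y) : (F '' X).ncard ≤ (K '' X).ncard := by
  classical
  rcases X.eq_empty_or_nonempty with rfl | ⟨x₀, hx₀⟩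
  · simp
  let g : β → γ := fun b => if hb : ∃ x ∈ X, K x = b then F hb.choose else F x₀
  have hsub : F '' X ⊆ g '' (K '' X) := by
    rintro _ ⟨x, hx, rfl⟩
    refine ⟨K x, ⟨x, hx, rfl⟩, ?_⟩
    have hb : ∃ y ∈ X, K y = K x := ⟨x, hx, rfl⟩
    simp only [g, dif_pos hb]
    exact h _ hb.choose_spec.1 _ hx hb.choose_spec.2
  exact (Set.ncard_le_ncard hsub ((Set.toFinite (K '' X)).image g)).trans
    (Set.ncard_image_le (Set.toFinite _))

theorem tCr : S_Cr := by
  classical
  intro V _ G B f w p k q M r Z X L N hB hL hLM hXL h1 h2 hN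
  refine (H1T.rk_le_rows G X Xᶜ).trans ?_
  -- the rows and the keys
  have hLf : Finite L := hL.to_subtype
  let lb : V → Option L := fun x => if hx : lab G B f x ∈ L then some ⟨_, hx⟩ else none
  let K : V → Option L × (Fin p → Set V) := fun x =>
    (lb x, fun i => if x ∈ B then Rz G B f Z i x else ∅)
  let F : V → Set V := fun x => {b | b ∈ Xᶜ ∧ G.Adj x b}
  have hrows : H1T.Rw G X Xᶜ = F '' X := by
    ext P
    constructor
    · rintro ⟨a, ha, rfl⟩
      exact ⟨a, ha, rfl⟩
    · rintro ⟨a, ha, rfl⟩
      exact ⟨a, ha, rfl⟩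
  have hdet : ∀ x ∈ X, ∀ y ∈ X, K x = K y → F x = F y := by
    intro x hx y hy hxy
    have hlab : lab G B f x = lab G B f y := by
      have h3 := congrArg Prod.fst hxy
      simp only [K, lb, dif_pos (hXL x hx), dif_pos (hXL y hy), Option.some.injEq,
        Subtype.mk.injEq] at h3
      exact h3
    have hxyB := lab_iff hlab
    have hrz : x ∈ B → ∀ i < p, Rz G B f Z i x = Rz G B f Z i y := by
      intro hxB i hi
      have h3 := congrFun (congrArg Prod.snd hxy) ⟨i, hi⟩
      simp only [K, if_pos hxB, if_pos (hxyB.1 hxB)] at h3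
      exact h3
    have hadj : ∀ v, v ∉ X → (G.Adj x v ↔ G.Adj y v) := by
      intro v hv
      have hvx : v ≠ x := fun h => hv (h ▸ hx)
      have hvy : v ≠ y := fun h => hv (h ▸ hy)
      by_cases hxB : x ∈ B
      · have hyB := hxyB.1 hxB
        by_cases hvB : v ∈ B
        · exact lab_adjB hxB hlab hvB hvx hvy
        · by_cases hvZ : v ∈ Z ∨ ∃ z ∈ Z, ¬ G.Adj v z
          · rcases h2 v hv hvB hvZ with h | h
            · exact iff_of_true (h x ⟨hx, hxB⟩).symm (h y ⟨hy, hyB⟩).symm
            · exact iff_of_false (fun h' => h x ⟨hx, hxB⟩ h'.symm)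
                (fun h' => h y ⟨hy, hyB⟩ h'.symm)
          · rw [not_or] at hvZ
            have hall : ∀ z ∈ Z, G.Adj v z := by
              intro z hz
              by_contra hcon
              exact hvZ.2 ⟨z, hz, hcon⟩
            have h3 := hrz hxB (f v) (hB.fA v hvB)
            constructor
            · intro h4
              have h5 : v ∈ Rz G B f Z (f v) x := ⟨hvB, rfl, hall, h4⟩
              rw [h3] at h5
              exact h5.2.2.2
            · intro h4
              have h5 : v ∈ Rz G B f Z (f v) y := ⟨hvB, rfl, hall, h4⟩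
              rw [← h3] at h5
              exact h5.2.2.2
      · have hyB : y ∉ B := fun h => hxB (hxyB.2 h)
        by_cases hvB : v ∈ B
        · rcases h1 v hv hvB with h | h
          · exact iff_of_true (h x ⟨hx, hxB⟩).symm (h y ⟨hy, hyB⟩).symm
          · exact iff_of_false (fun h' => h x ⟨hx, hxB⟩ h'.symm)
              (fun h' => h y ⟨hy, hyB⟩ h'.symm)
        · exact hB.lab_adjA hxB hlab hvB
    ext v
    constructor
    · rintro ⟨hv, h⟩
      exact ⟨hv, (hadj v hv).1 h⟩
    · rintro ⟨hv, h⟩
      exact ⟨hv, (hadj v hv).2 h⟩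
  rw [hrows]
  refine (cr_img F K hdet).trans ?_
  -- the number of the keys
  let NF : Fin p → Finset (Set V) := fun i => insert ∅ (hN i i.2).1.toFinset
  have hNF : ∀ i, (NF i).card ≤ r + 1 := by
    intro i
    refine (Finset.card_insert_le _ _).trans ?_
    have h3 := (hN i i.2).2.1
    rw [Set.ncard_eq_toFinset_card _ (hN i i.2).1] at h3
    omega
  let LF : Finset (Option L) := (Set.toFinite (Set.range (some : L → Option L))).toFinset
  have hLF : LF.card ≤ M := by
    have h3 : LF.card = (Set.range (some : L → Option L)).ncard :=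
      (Set.ncard_eq_toFinset_card _ (Set.toFinite _)).symm
    rw [h3, ← Set.image_univ, Set.ncard_image_of_injective _ (Option.some_injective _),
      Set.ncard_univ, Nat.card_coe_set_eq]
    exact hLM
  have hsub : K '' X ⊆ ((LF ×ˢ Fintype.piFinset NF : Finset _) :
      Set (Option L × (Fin p → Set V))) := by
    rintro _ ⟨x, hx, rfl⟩
    rw [Finset.mem_coe, Finset.mem_product, Fintype.mem_piFinset]
    refine ⟨?_, fun i => ?_⟩
    · rw [Set.Finite.mem_toFinset]
      exact ⟨⟨_, hXL x hx⟩, by simp only [K, lb, dif_pos (hXL x hx)]⟩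
    · simp only [K, NF]
      by_cases hxB : x ∈ B
      · rw [if_pos hxB]
        exact Finset.mem_insert_of_mem ((Set.Finite.mem_toFinset _).2 ((hN i i.2).2.2 x hx hxB))
      · rw [if_neg hxB]
        exact Finset.mem_insert_self _ _
  refine (Set.ncard_le_ncard hsub (Finset.finite_toSet _)).trans ?_
  rw [Set.ncard_coe_finset, Finset.card_product, Fintype.card_piFinset]
  refine Nat.mul_le_mul hLF ?_
  refine (Finset.prod_le_pow_card _ _ (r + 1) fun i _ => hNF i).trans ?_
  rw [Finset.card_univ, Fintype.card_fin]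

end Pool.Agent.MPd439b2.ST
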