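import Pool.Agent.Lib.MP_d439b2_co.ST.Spec

/-!
# MP_d439b2_co, ST/D: decomposition of relations without induced `P_6`
-/

set_option autoImplicit false

namespace Pool.Agent.MPd439b2.ST

open Pool.Agent.MPd439b2 Pool.Agent.MPd439b2.Rep

theorem tD : S_D := by
  intro α β _ _ R K Z hP h2
  by_contra hcon
  have no1 : ∀ K₁ ⊆ K, ∀ Z₁ ⊆ Z, (K₁.Nonempty ∨ Z₁.Nonempty) →
      ((K \ K₁).Nonempty ∨ (Z \ Z₁).Nonempty) → (∀ k ∈ K₁, ∀ z ∈ Z \ Z₁, ¬ R k z) →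
      (∀ k ∈ K \ K₁, ∀ z ∈ Z₁, ¬ R k z) → False := fun K₁ h3 Z₁ h4 h5 h6 h7 h8 =>
    hcon ⟨K₁, h3, Z₁, h4, h5, h6, Or.inl ⟨h7, h8⟩⟩
  have no2 : ∀ K₁ ⊆ K, ∀ Z₁ ⊆ Z, (K₁.Nonempty ∨ Z₁.Nonempty) →
      ((K \ K₁).Nonempty ∨ (Z \ Z₁).Nonempty) → (∀ k ∈ K₁, ∀ z ∈ Z \ Z₁, R k z) →
      (∀ k ∈ K \ K₁, ∀ z ∈ Z₁, R k z) → False := fun K₁ h3 Z₁ h4 h5 h6 h7 h8 =>
    hcon ⟨K₁, h3, Z₁, h4, h5, h6, Or.inr (Or.inl ⟨h7, h8⟩)⟩
  have no3 : ∀ K₁ ⊆ K, ∀ Z₁ ⊆ Z, (K₁.Nonempty ∨ Z₁.Nonempty) →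
      ((K \ K₁).Nonempty ∨ (Z \ Z₁).Nonempty) → (∀ k ∈ K₁, ∀ z ∈ Z \ Z₁, R k z) →
      (∀ k ∈ K \ K₁, ∀ z ∈ Z₁, ¬ R k z) → False := fun K₁ h3 Z₁ h4 h5 h6 h7 h8 =>
    hcon ⟨K₁, h3, Z₁, h4, h5, h6, Or.inr (Or.inr ⟨h7, h8⟩)⟩
  clear hcon
  have oneK : ∀ k ∈ K, (K \ {k}).Nonempty ∨ Z.Nonempty := by
    intro k hk
    by_contra h3
    rw [not_or, Set.not_nonempty_iff_eq_empty, Set.not_nonempty_iff_eq_empty] at h3
    have h4 : K ⊆ {k} := Set.diff_eq_empty.1 h3.1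
    have h5 := Set.ncard_le_ncard h4 (Set.finite_singleton k)
    rw [Set.ncard_singleton] at h5
    rw [h3.2, Set.ncard_empty] at h2
    omega
  have oneZ : ∀ z ∈ Z, K.Nonempty ∨ (Z \ {z}).Nonempty := by
    intro z hz
    by_contra h3
    rw [not_or, Set.not_nonempty_iff_eq_empty, Set.not_nonempty_iff_eq_empty] at h3
    have h4 : Z ⊆ {z} := Set.diff_eq_empty.1 h3.2
    have h5 := Set.ncard_le_ncard h4 (Set.finite_singleton z)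
    rw [Set.ncard_singleton] at h5
    rw [h3.1, Set.ncard_empty] at h2
    omega
  -- (0)
  have z0 : ∀ k ∈ K, ∃ z ∈ Z, R k z := by
    intro k hk
    by_contra h3
    push Not at h3
    refine no1 {k} (Set.singleton_subset_iff.2 hk) ∅ (Set.empty_subset _) (Or.inl ⟨k, rfl⟩) ?_ ?_
      (fun _ _ z hz => hz.elim)
    · rw [Set.diff_empty]
      exact oneK k hk
    · rintro x rfl z hz
      exact h3 z hz.1
  have z1 : ∀ z ∈ Z, ∃ k ∈ K, R k z := by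
    intro z hz
    by_contra h3
    push Not at h3
    refine no1 ∅ (Set.empty_subset _) {z} (Set.singleton_subset_iff.2 hz) (Or.inr ⟨z, rfl⟩) ?_
      (fun k hk => hk.elim) ?_
    · rw [Set.diff_empty]
      exact oneZ z hz
    · rintro k hk x rfl
      exact h3 k hk.1
  have hK : K.Nonempty := by
    by_contra h3
    rw [Set.not_nonempty_iff_eq_empty] at h3
    rw [h3, Set.ncard_empty, zero_add] at h2
    obtain ⟨z, hz⟩ := Set.nonempty_of_ncard_ne_zero (s := Z) (by omega)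
    obtain ⟨k, hk, -⟩ := z1 z hz
    rw [h3] at hk
    exact hk
  obtain ⟨a, ha, hmax⟩ := Set.exists_max_image K (fun k => {z | z ∈ Z ∧ R k z}.ncard) (Set.toFinite K)
    hK
  obtain ⟨a', haZ, haa⟩ := z0 a ha
  -- Case 1
  by_cases hA : ∀ z ∈ Z, R a z
  · refine no3 {a} (Set.singleton_subset_iff.2 ha) ∅ (Set.empty_subset _) (Or.inl ⟨a, rfl⟩)
      (Or.inr ⟨a', haZ, fun h => h.elim⟩) ?_ (fun _ _ z hz => hz.elim)
    rintro k rfl z hz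
    exact hA z hz.1
  push Not at hA
  obtain ⟨w, hwZ, hwa⟩ := hA
  obtain ⟨F, hF⟩ : ∃ F : Set α, ∀ k, k ∈ F ↔ (k ∈ K ∧ (∃ x ∈ Z, R a x ∧ R k x) ∧
      ∃ z ∈ Z, ¬ R a z ∧ R k z) := ⟨{k | k ∈ K ∧ (∃ x ∈ Z, R a x ∧ R k x) ∧ ∃ z ∈ Z, ¬ R a z ∧ R k z},
        fun _ => Iff.rfl⟩
  have Fm : ∀ k ∈ F, ∃ y ∈ Z, R a y ∧ ¬ R k y := by
    intro k hk
    by_contra h3
    push Not at h3
    obtain ⟨hkK, -, z, hz, haz, hkz⟩ := (hF k).1 hk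
    have h4 : {z | z ∈ Z ∧ R a z} ⊂ {z | z ∈ Z ∧ R k z} := by
      refine ⟨fun y hy => ⟨hy.1, h3 y hy.1 hy.2⟩, fun h5 => ?_⟩
      exact haz (h5 ⟨hz, hkz⟩).2
    have h5 := Set.ncard_lt_ncard h4 (Set.toFinite _)
    have h6 := hmax k hkK
    omega
  -- (i)
  have i1 : ∀ k ∈ K, ∃ x ∈ Z, R a x ∧ R k x := by
    by_contra h3
    push Not at h3
    obtain ⟨k₀, hk₀, h3⟩ := h3
    refine no1 {k | k ∈ K ∧ ∀ x ∈ Z, R a x → ¬ R k x} (fun k hk => hk.1)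
      {z | z ∈ Z ∧ ∃ k, (k ∈ K ∧ ∀ x ∈ Z, R a x → ¬ R k x) ∧ R k z} (fun z hz => hz.1)
      (Or.inl ⟨k₀, hk₀, h3⟩) (Or.inl ⟨a, ha, fun h4 => h4.2 a' haZ haa haa⟩) ?_ ?_
    · intro k hk z hz hkz
      exact hz.2 ⟨hz.1, k, hk, hkz⟩
    · rintro k' hk' z ⟨hz, k'', hk'', hkz⟩ hk'z
      have h4 : ∃ x ∈ Z, R a x ∧ R k' x := by
        by_contra h5
        push Not at h5
        exact hk'.2 ⟨hk'.1, h5⟩
      have haz : ¬ R a z := fun h5 => hk''.2 z hz h5 hkz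
      obtain ⟨x, hx, hax, hkx⟩ := h4
      obtain ⟨y, hy, hay, hky⟩ := Fm k' ((hF k').2 ⟨hk'.1, ⟨x, hx, hax, hkx⟩, z, hz, haz, hk'z⟩)
      exact hP k'' hk''.1 k' hk'.1 a ha z hz x hx y hy hkz (hk''.2 x hx hax) (hk''.2 y hy hay) hk'z
        hkx hky haz hax hay
  have notF : ∀ k ∈ K, k ∉ F → ∀ z ∈ Z, R k z → R a z := by
    intro k hk hkF z hz hkz
    by_contra h3
    exact hkF ((hF k).2 ⟨hk, i1 k hk, z, hz, h3, hkz⟩)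
  -- (ii)
  have i2 : ∀ k ∈ K, ∀ k' ∈ K, ∀ z ∈ Z, R k' z → R k z → ¬ R a z →
      (∀ x ∈ Z, R a x → R k x → R k' x) ∨ ∀ y ∈ Z, R a y → ¬ R k y → R k' y := by
    intro k hk k' hk' z hz h3 h4 h5
    by_contra h6
    rw [not_or] at h6
    push Not at h6
    obtain ⟨⟨x, hx, hax, hkx, hk'x⟩, y, hy, hay, hky, hk'y⟩ := h6
    exact hP k' hk' k hk a ha z hz x hx y hy h3 hk'x hk'y h4 hkx hky h5 hax hay
  -- (iii)
  have i3 : ∀ k ∈ K, ∀ k' ∈ K, ∀ y ∈ Z, R k' y → R a y → ¬ R k y →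
      (∀ x ∈ Z, R a x → R k x → R k' x) ∨ ∀ z ∈ Z, R k z → ¬ R a z → R k' z := by
    intro k hk k' hk' y hy h3 h4 h5
    by_contra h6
    rw [not_or] at h6
    push Not at h6
    obtain ⟨⟨x, hx, hax, hkx, hk'x⟩, z, hz, hkz, haz, hk'z⟩ := h6
    exact hP k' hk' a ha k hk y hy x hx z hz h3 hk'x hk'z h4 hax haz h5 hkx hkz
  have FK : ∀ k ∈ F, k ∈ K := fun k hk => ((hF k).1 hk).1
  -- Case 2a
  by_cases hM : ∃ m ∈ Z, R a m ∧ ∀ k ∈ F, R k m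
  · obtain ⟨m, hm, ham, hFm⟩ := hM
    refine no3 {k | k ∈ K ∧ ∀ m ∈ Z, R a m → (∀ k ∈ F, R k m) → R k m} (fun k hk => hk.1)
      {z | z ∈ Z ∧ ¬ (R a z ∧ ∀ k ∈ F, R k z)} (fun z hz => hz.1)
      (Or.inl ⟨a, ha, fun m _ h3 _ => h3⟩) (Or.inr ⟨m, hm, fun h3 => h3.2 ⟨ham, hFm⟩⟩) ?_ ?_
    · rintro k hk z ⟨hz, hz'⟩
      have h3 : R a z ∧ ∀ k ∈ F, R k z := by
        by_contra h4
        exact hz' ⟨hz, h4⟩
      exact hk.2 z hz h3.1 h3.2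
    · rintro k ⟨hkK, hk⟩ z ⟨hz, hz'⟩ hkz
      have hkF : k ∉ F := fun h3 => hk ⟨hkK, fun m _ _ h4 => h4 k h3⟩
      have haz := notF k hkK hkF z hz hkz
      have h3 : ∃ k' ∈ F, ¬ R k' z := by
        by_contra h4
        push Not at h4
        exact hz' ⟨haz, h4⟩
      obtain ⟨k', hk', hk'z⟩ := h3
      rcases i3 k' (FK k' hk') k hkK z hz hkz haz hk'z with h4 | h4
      · exact hk ⟨hkK, fun m hm ham hFm => h4 m hm ham (hFm k' hk')⟩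
      · obtain ⟨-, -, z', hz'', haz', hkz'⟩ := (hF k').1 hk'
        exact haz' (notF k hkK hkF z' hz'' (h4 z' hz'' hkz' haz'))
  -- Case 2b
  push Not at hM
  obtain ⟨c, hc⟩ : ∃ c : α → Set β, ∀ k y, y ∈ c k ↔ (y ∈ Z ∧ R a y ∧ ¬ R k y) :=
    ⟨fun k => {y | y ∈ Z ∧ R a y ∧ ¬ R k y}, fun _ _ => Iff.rfl⟩
  -- (iv)
  have i4 : ∀ k ∈ F, ∀ k' ∈ F, ¬ Disjoint (c k) (c k') → c k ⊆ c k' ∨ c k' ⊆ c k := by
    intro k hk k' hk' hdis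
    by_contra h3
    rw [not_or, Set.not_subset] at h3
    obtain ⟨⟨y, hy, hy'⟩, h4⟩ := h3
    have h5 : ¬ ∀ x ∈ Z, R a x → R k x → R k' x := by
      intro h6
      refine h4 fun x hx => ?_
      obtain ⟨x1, x2, x3⟩ := (hc _ _).1 hx
      exact (hc _ _).2 ⟨x1, x2, fun x4 => x3 (h6 x x1 x2 x4)⟩
    obtain ⟨y1, y2, y3⟩ := (hc _ _).1 hy
    have y4 : R k' y := by
      by_contra h6
      exact hy' ((hc _ _).2 ⟨y1, y2, h6⟩)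
    have h6 := (i3 k (FK k hk) k' (FK k' hk') y y1 y4 y2 y3).resolve_left h5
    obtain ⟨-, -, z, hz, haz, hkz⟩ := (hF k).1 hk
    have h7 := (i2 k (FK k hk) k' (FK k' hk') z hz (h6 z hz hkz haz) hkz haz).resolve_left h5
    apply hdis
    rw [Set.disjoint_left]
    intro x hx hx'
    obtain ⟨x1, x2, x3⟩ := (hc _ _).1 hx
    exact ((hc _ _).1 hx').2.2 (h7 x x1 x2 x3)
  have hFne : ∀ z ∈ Z, ¬ R a z → ∃ k ∈ F, R k z := by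
    intro z hz haz
    obtain ⟨k, hk, hkz⟩ := z1 z hz
    exact ⟨k, (hF k).2 ⟨hk, i1 k hk, z, hz, haz, hkz⟩, hkz⟩
  obtain ⟨f₀, hf₀, -⟩ := hFne w hwZ hwa
  obtain ⟨f₁, hf₁, hmax₁⟩ := Set.exists_max_image F (fun k => (c k).ncard) (Set.toFinite F) ⟨f₀, hf₀⟩
  obtain ⟨-, ⟨x, hx, hax, hf₁x⟩, -⟩ := (hF f₁).1 hf₁
  obtain ⟨f₂, hf₂, hf₂x⟩ := hM x hx hax
  have hcm : ∀ k ∈ F, c f₁ ⊆ c k → c k ⊆ c f₁ := by
    intro k hk h3
    have h4 := Set.eq_of_subset_of_ncard_le h3 (hmax₁ k hk) (Set.toFinite _)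
    rw [h4]
  -- (v)
  have i5 : Disjoint (c f₁) (c f₂) := by
    by_contra h3
    have h4 : x ∈ c f₂ := (hc _ _).2 ⟨hx, hax, hf₂x⟩
    have h5 : x ∉ c f₁ := fun h6 => ((hc _ _).1 h6).2.2 hf₁x
    rcases i4 f₁ hf₁ f₂ hf₂ h3 with h6 | h6
    · exact h5 (hcm f₂ hf₂ h6 h4)
    · exact h5 (h6 h4)
  -- (vi)
  have i6 : ∀ k ∈ F, Disjoint (c k) (c f₁) ∨ Disjoint (c k) (c f₂) := by
    intro k hk
    by_contra h3
    rw [not_or] at h3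
    apply h3.2
    rcases i4 k hk f₁ hf₁ h3.1 with h4 | h4
    · exact i5.mono_left h4
    · exact i5.mono_left (hcm k hk h4)
  -- (vii)
  have i7 : ∀ k ∈ K, Disjoint (c k) (c f₁) ∨ Disjoint (c k) (c f₂) := by
    intro k hk
    by_cases hkF : k ∈ F
    · exact i6 k hkF
    · obtain ⟨y, hy, hky⟩ := z0 k hk
      have hay := notF k hk hkF y hy hky
      obtain ⟨f, hf, hfy⟩ := hM y hy hay
      rcases i3 f (FK f hf) k hk y hy hky hay hfy with h4 | h4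
      · have h5 : c k ⊆ c f := by
          intro x hx
          obtain ⟨x1, x2, x3⟩ := (hc _ _).1 hx
          exact (hc _ _).2 ⟨x1, x2, fun x4 => x3 (h4 x x1 x2 x4)⟩
        exact (i6 f hf).imp (fun h6 => h6.mono_left h5) (fun h6 => h6.mono_left h5)
      · obtain ⟨-, -, z', hz', haz', hfz'⟩ := (hF f).1 hf
        exact absurd (notF k hk hkF z' hz' (h4 z' hz' hfz' haz')) haz'
  -- (viii)
  have i8 : ∀ k ∈ K, ∀ k' ∈ F, (c k).Nonempty → Disjoint (c k) (c k') → ∀ z ∈ Z, R k' z → ¬ R a z →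
      R k z := by
    rintro k hk k' hk' ⟨y, hy⟩ hdis z hz hk'z haz
    by_contra hkz
    obtain ⟨y', hy', hay', hk'y'⟩ := Fm k' hk'
    obtain ⟨y1, y2, y3⟩ := (hc _ _).1 hy
    have h3 : R k y' := by
      by_contra h4
      exact Set.disjoint_left.1 hdis ((hc _ _).2 ⟨hy', hay', h4⟩) ((hc _ _).2 ⟨hy', hay', hk'y'⟩)
    have h4 : R k' y := by
      by_contra h5
      exact Set.disjoint_left.1 hdis hy ((hc _ _).2 ⟨y1, y2, h5⟩)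
    exact hP k hk a ha k' (FK k' hk') y' hy' y y1 z hz h3 y3 hkz hay' y2 haz hk'y' h4 hk'z
  have cne : ∀ k ∈ F, (c k).Nonempty := by
    intro k hk
    obtain ⟨y, hy, hay, hky⟩ := Fm k hk
    exact ⟨y, (hc _ _).2 ⟨hy, hay, hky⟩⟩
  -- (ix)
  have i9 : ∀ z ∈ Z, ¬ R a z → R f₁ z ∧ R f₂ z := by
    intro z hz haz
    obtain ⟨k, hk, hkz⟩ := hFne z hz haz
    rcases i6 k hk with h3 | h3
    · have h4 := i8 f₁ (FK _ hf₁) k hk (cne _ hf₁) h3.symm z hz hkz haz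
      exact ⟨h4, i8 f₂ (FK _ hf₂) f₁ hf₁ (cne _ hf₂) i5.symm z hz h4 haz⟩
    · have h4 := i8 f₂ (FK _ hf₂) k hk (cne _ hf₂) h3.symm z hz hkz haz
      exact ⟨i8 f₁ (FK _ hf₁) f₂ hf₂ (cne _ hf₁) i5 z hz h4 haz, h4⟩
  refine no2 {k | k ∈ K ∧ ∀ y ∈ Z, R a y → R k y} (fun k hk => hk.1) {z | z ∈ Z ∧ ¬ R a z}
    (fun z hz => hz.1) (Or.inl ⟨a, ha, fun y _ h3 => h3⟩) (Or.inr ⟨a', haZ, fun h3 => h3.2 haa⟩) ?_ ?_
  · rintro k hk z ⟨hz, hz'⟩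
    have h3 : R a z := by
      by_contra h4
      exact hz' ⟨hz, h4⟩
    exact hk.2 z hz h3
  · rintro k ⟨hk, hk'⟩ z ⟨hz, haz⟩
    have h3 : (c k).Nonempty := by
      by_contra h4
      refine hk' ⟨hk, fun y hy hay => ?_⟩
      by_contra h5
      exact h4 ⟨y, (hc _ _).2 ⟨hy, hay, h5⟩⟩
    rcases i7 k hk with h4 | h4
    · exact i8 k hk f₁ hf₁ h3 h4 z hz (i9 z hz haz).1 haz
    · exact i8 k hk f₂ hf₂ h3 h4 z hz (i9 z hz haz).2 haz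

end Pool.Agent.MPd439b2.ST
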