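import Pool.Agent.Lib.MP_d439b2_co.ST.Spec

/-!
# MP_d439b2_co, ST/Ex: adding a label
-/

set_option autoImplicit false

namespace Pool.Agent.MPd439b2.ST

open Pool.Agent.MPd439b2 Pool.Agent.MPd439b2.Rep

theorem tEx : S_Ex := by
  intro V _ G B f w p k q b n n' L C l φ u hB hS hl hu hφ hk hz
  have hs := hS.sys
  have hlabC : ∀ i < n, ∀ x ∈ C i, lab G B f x ∈ L := by
    intro i hi x hx
    rcases hs.sub i hi x hx with h | h
    · exact h.2
    · exact h.2
  have hnot : ∀ i < n', ∀ j < n, u i ∉ C j := by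
    intro i hi j hj h
    exact hl ((hu i hi).2.1 ▸ hlabC j hj _ h)
  have hne : ∀ i < n', ∀ j < n', i ≠ j → u i ≠ u j := by
    intro i hi j hj hij h
    exact (hu j hj).2.2.2 (φ i) (hu i hi).1 (hφ i hi j hj hij) (h ▸ (hu i hi).2.2.1)
  have hBB : ∀ i < n', ∀ j < n', (u i ∈ B ↔ u j ∈ B) := fun i hi j hj =>
    lab_iff ((hu i hi).2.1.trans (hu j hj).2.1.symm)
  refine ⟨⟨fun x hx => hx.1, fun x hx => hx.1, ?_, ?_, ?_, ?_, ?_, ?_, ?_, ?_, ?_⟩, ?_⟩
  · rintro x ⟨hxB, hx⟩ y ⟨hyB, hy⟩ hxy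
    rcases hx with hx | hx
    · rcases hy with hy | hy
      · exact hB.cl x hxB y hyB (lab_f (hx.trans hy.symm)) hxy
      · exact hk x hxB hx y ⟨hyB, hy⟩
    · rcases hy with hy | hy
      · exact (hk y hyB hy x ⟨hxB, hx⟩).symm
      · exact hs.kc x ⟨hxB, hx⟩ y ⟨hyB, hy⟩ hxy
  · rintro x ⟨hxB, hx⟩ y ⟨hyB, hy⟩
    rcases hx with hx | hx
    · rcases hy with hy | hy
      · exact hB.stb hxB hyB (lab_f (hx.trans hy.symm))
      · exact hz x hxB hx y ⟨hyB, hy⟩
    · rcases hy with hy | hy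
      · exact fun h => hz y hyB hy x ⟨hxB, hx⟩ h.symm
      · exact hs.zs x ⟨hxB, hx⟩ y ⟨hyB, hy⟩
  · intro i hi x hx
    have hx2 : lab G B f x ∈ insert l L := by
      rcases hx with rfl | hx
      · exact Or.inl (hu i hi).2.1
      · exact Or.inr (hlabC _ (hu i hi).1 x hx)
    by_cases hxB : x ∈ B
    · exact Or.inl ⟨hxB, hx2⟩
    · exact Or.inr ⟨hxB, hx2⟩
  · intro i hi
    have hc := hs.con _ (hu i hi).1
    have ht := (hu i hi).2.2.1
    by_cases hBi : u i ∈ B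
    · have e1 : insert (u i) (C (φ i)) ∩ B = insert (u i) (C (φ i) ∩ B) := by
        ext x
        constructor
        · rintro ⟨h | h, h'⟩
          · exact Or.inl h
          · exact Or.inr ⟨h, h'⟩
        · rintro (h | h)
          · exact ⟨Or.inl h, h ▸ hBi⟩
          · exact ⟨Or.inr h.1, h.2⟩
      have e2 : insert (u i) (C (φ i)) \ B = C (φ i) \ B := by
        ext x
        constructor
        · rintro ⟨h | h, h'⟩
          · exact (h' (h ▸ hBi)).elim
          · exact ⟨h, h'⟩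
        · rintro ⟨h, h'⟩
          exact ⟨Or.inr h, h'⟩
      show Cn (nA G) (insert (u i) (C (φ i)) ∩ B) (insert (u i) (C (φ i)) \ B)
      rw [e1, e2]
      rcases ht with ⟨-, y, hy, hyB, hyn⟩ | ⟨h, -⟩
      · exact hc.addK ⟨hy, hyB⟩ hyn
      · exact (h hBi).elim
    · have e1 : insert (u i) (C (φ i)) ∩ B = C (φ i) ∩ B := by
        ext x
        constructor
        · rintro ⟨h | h, h'⟩
          · exact (hBi (h ▸ h')).elim
          · exact ⟨h, h'⟩
        · rintro ⟨h, h'⟩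
          exact ⟨Or.inr h, h'⟩
      have e2 : insert (u i) (C (φ i)) \ B = insert (u i) (C (φ i) \ B) := by
        ext x
        constructor
        · rintro ⟨h | h, h'⟩
          · exact Or.inl h
          · exact Or.inr ⟨h, h'⟩
        · rintro (h | h)
          · exact ⟨Or.inl h, fun h' => hBi (h ▸ h')⟩
          · exact ⟨Or.inr h.1, h.2⟩
      show Cn (nA G) (insert (u i) (C (φ i)) ∩ B) (insert (u i) (C (φ i)) \ B)
      rw [e1, e2]
      rcases ht with ⟨h, -⟩ | ⟨-, y, hy, hyB, hyn⟩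
      · exact (hBi h).elim
      · exact hc.addZ ⟨hy, hyB⟩ (fun h => hyn h.symm)
  · intro i hi
    exact (hs.nk _ (hu i hi).1).mono fun x hx => ⟨Or.inr hx.1, hx.2⟩
  · intro i hi
    exact (hs.nz _ (hu i hi).1).mono fun x hx => ⟨Or.inr hx.1, hx.2⟩
  · intro i hi
    exact (hs.big _ (hu i hi).1).trans_le
      (Set.ncard_le_ncard (Set.subset_insert _ _) (Set.toFinite _))
  · intro i hi j hj hij
    rw [Set.disjoint_left]
    rintro x (hx | hx) (hy | hy)
    · exact hne i hi j hj hij (hx.symm.trans hy)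
    · exact hnot i hi _ (hu j hj).1 (hx ▸ hy)
    · exact hnot j hj _ (hu i hi).1 (hy ▸ hx)
    · exact Set.disjoint_left.1 (hs.dis _ (hu i hi).1 _ (hu j hj).1 (hφ i hi j hj hij)) hx hy
  · intro i hi j hj hij x hx hxB y hy hyB
    rcases hx with hx | hx
    · rcases hy with hy | hy
      · exact (hyB (hy ▸ ((hBB i hi j hj).1 (hx ▸ hxB)))).elim
      · by_contra hcon
        exact (hu i hi).2.2.2 (φ j) (hu j hj).1 (hφ i hi j hj hij).symm
          (Or.inl ⟨hx ▸ hxB, y, hy, hyB, hx ▸ hcon⟩)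
    · rcases hy with hy | hy
      · by_contra hcon
        exact (hu j hj).2.2.2 (φ i) (hu i hi).1 (hφ i hi j hj hij)
          (Or.inr ⟨hy ▸ hyB, x, hx, hxB, fun h => hcon (hy ▸ h.symm)⟩)
      · exact hs.ant _ (hu i hi).1 _ (hu j hj).1 (hφ i hi j hj hij) x hx hxB y hy hyB
  · rintro i hi l' (hl' | hl')
    · exact ⟨u i, Or.inl rfl, (hu i hi).2.1.trans hl'.symm⟩
    · obtain ⟨x, hx, hxl⟩ := hS.att _ (hu i hi).1 l' hl'
      exact ⟨x, Or.inr hx, hxl⟩

end Pool.Agent.MPd439b2.ST
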