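import Pool.Agent.Lib.MP_d439b2_co.ST.Spec

/-!
# MP_d439b2_co, ST: proof of `F34` (helper84); copy of `f3`, `f4` of `R3/FF.lean`
-/

set_option autoImplicit false

namespace Pool.Agent.MPd439b2.ST

open Pool.Agent.MPd439b2 Pool.Agent.MPd439b2.Rep Pool.Agent.MPd439b2.R3

namespace F34Aux

variable {V : Type}

private theorem eT {G : SimpleGraph V} {L M : ℕ} {x : ℕ → ℕ → V} {E : ℕ → ℕ → Bool}
    (h : Hom G L M x E) (hM : 2 ≤ M) {i j : ℕ} (hi : i < L) (hj : j < L)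
    (ha : G.Adj (x i 0) (x j 1)) : E i j = true :=
  (h.rel i hi j hj 0 1 (by omega) (by omega)).1 ha

private theorem eF {G : SimpleGraph V} {L M : ℕ} {x : ℕ → ℕ → V} {E : ℕ → ℕ → Bool}
    (h : Hom G L M x E) (hM : 2 ≤ M) {i j : ℕ} (hi : i < L) (hj : j < L)
    (ha : ¬ G.Adj (x i 0) (x j 1)) : E i j = false := by
  rw [← Bool.not_eq_true]
  exact fun h' => ha ((h.rel i hi j hj 0 1 (by omega) (by omega)).2 h')

/-- three rails -/
private def r3 (p q r : ℕ → V) : ℕ → ℕ → V := fun i => if i = 0 then p else if i = 1 then q else r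

/-- homogeneous subsequences -/
private theorem hom3 (hR : W.S_RamC) (m : ℕ) : ∃ N : ℕ, ∀ (V : Type) (G : SimpleGraph V)
    (p q r : ℕ → V), (∀ k < N, ∀ l < N, k ≠ l → p k ≠ p l ∧ q k ≠ q l ∧ r k ≠ r l ∧ p k ≠ q l ∧
      p k ≠ r l ∧ q k ≠ r l) →
    ∃ (s : ℕ → ℕ) (E : ℕ → ℕ → Bool), (∀ k l, k < l → l < m → s k < s l) ∧ (∀ k < m, s k < N) ∧
      Hom G 3 m (r3 (fun k => p (s k)) (fun k => q (s k)) (fun k => r (s k))) E := by
  classical
  obtain ⟨N, hN⟩ := hR (Fin 3 → Fin 3 → Bool) m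
  refine ⟨N, ?_⟩
  intro V G p q r hd
  obtain ⟨s, c, hs, hsN, hc⟩ := hN fun a b i j => decide (G.Adj (r3 p q r i a) (r3 p q r j b))
  have hx : ∀ i k, r3 (fun k => p (s k)) (fun k => q (s k)) (fun k => r (s k)) i k =
      r3 p q r i (s k) := by
    intro i k
    unfold r3
    split
    · rfl
    · split <;> rfl
  have hne : ∀ k < m, ∀ l < m, k ≠ l → s k ≠ s l := by
    intro k hk l hl hkl
    rcases lt_or_gt_of_ne hkl with h1 | h1
    · exact (hs k l h1 hl).ne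
    · exact (hs l k h1 hk).ne'
  refine ⟨s, fun i j => if h : i < 3 then if h' : j < 3 then c ⟨i, h⟩ ⟨j, h'⟩ else false else false,
    hs, hsN, ?_, ?_⟩
  · intro i hi j hj k hk l hl hkl
    rw [hx, hx]
    obtain ⟨d1, d2, d3, d4, d5, d6⟩ := hd _ (hsN k hk) _ (hsN l hl) (hne k hk l hl hkl)
    obtain ⟨-, -, -, e4, e5, e6⟩ := hd _ (hsN l hl) _ (hsN k hk) (hne l hl k hk (Ne.symm hkl))
    interval_cases i <;> interval_cases j
    · exact d1
    · exact d4
    · exact d5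
    · exact e4.symm
    · exact d2
    · exact d6
    · exact e5.symm
    · exact e6.symm
    · exact d3
  · intro i hi j hj k l hkl hl
    rw [hx, hx, dif_pos hi, dif_pos hj]
    have h1 := congrFun (congrFun (hc k l hkl hl) ⟨i, hi⟩) ⟨j, hj⟩
    rw [← h1]
    exact (decide_eq_true_iff).symm

private theorem f3 {m' N m : ℕ} (hm' : M0 ≤ m')
    (hN : ∀ (V : Type) (G : SimpleGraph V)
    (p q r : ℕ → V), (∀ k < N, ∀ l < N, k ≠ l → p k ≠ p l ∧ q k ≠ q l ∧ r k ≠ r l ∧ p k ≠ q l ∧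
      p k ≠ r l ∧ q k ≠ r l) →
    ∃ (s : ℕ → ℕ) (E : ℕ → ℕ → Bool), (∀ k l, k < l → l < m' → s k < s l) ∧ (∀ k < m', s k < N) ∧
      Hom G 3 m' (r3 (fun k => p (s k)) (fun k => q (s k)) (fun k => r (s k))) E)
    (hm : N ≤ m) {G : SimpleGraph V} (hG : Facts G) : F3 G m := by
  rintro ⟨v, b, b', hx⟩
  have hM : M0 = 128 := rfl
  obtain ⟨s, E, hs, hsN, hh⟩ := hN V G b' v b (by
    intro k hk l hl hkl
    obtain ⟨d1, d2, d3, d4, -, -, -⟩ := hx k (by omega) l (by omega)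
    obtain ⟨e1, e2, e3, -, -, -, -⟩ := hx l (by omega) k (by omega)
    obtain ⟨g1, g2, g3, g4⟩ := d4 hkl
    exact ⟨g4.ne, g1, g3.ne, e2.symm, e3.symm, d1⟩)
  have hsm : ∀ k < m', s k < m := fun k hk => lt_of_lt_of_le (hsN k hk) hm
  have h01 : s 0 < s 1 := hs 0 1 (by omega) (by omega)
  have hs1 : s 1 < m := hsm 1 (by omega)
  have hs0 : s 0 < m := by omega
  obtain ⟨-, -, -, d4, d5, d6, -⟩ := hx _ hs0 _ hs1
  obtain ⟨-, -, -, -, e5, e6, -⟩ := hx _ hs1 _ hs0
  obtain ⟨-, -, k3, k4⟩ := hG.opI _ E (hh.mono le_rfl hm')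
    (eF hh (by omega) (by omega) (by omega) (by
      show ¬ G.Adj (v (s 0)) (v (s 1))
      exact (d4 h01.ne).2.1))
    (eT hh (by omega) (by omega) (by omega) (by
      show G.Adj (b' (s 0)) (v (s 1))
      rw [G.adj_comm, e6]
      omega))
    (eF hh (by omega) (by omega) (by omega) (by
      show ¬ G.Adj (v (s 0)) (b' (s 1))
      rw [d6]
      omega))
    (eT hh (by omega) (by omega) (by omega) (by
      show G.Adj (v (s 0)) (b (s 1))
      rw [d5]
      omega))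
    (eF hh (by omega) (by omega) (by omega) (by
      show ¬ G.Adj (b (s 0)) (v (s 1))
      rw [G.adj_comm, e5]
      omega))
  refine hG.dg (fun i => v (s i)) (fun i => b (s i)) (fun i => b' (s i)) ?_
  intro i hi j hj
  have hi' : i < m' := by omega
  have hj' : j < m' := by omega
  obtain ⟨a1, a2, a3, a4, a5, a6, -⟩ := hx _ (hsm i hi') _ (hsm j hj')
  have hlt : s i < s j ↔ i < j := by
    rcases lt_trichotomy i j with h1 | h1 | h1
    · have := hs i j h1 hj'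
      omega
    · subst h1
      omega
    · have := hs j i h1 hi'
      omega
  have hlt' : s j < s i ↔ j < i := by
    rcases lt_trichotomy i j with h1 | h1 | h1
    · have := hs i j h1 hj'
      omega
    · subst h1
      omega
    · have := hs j i h1 hi'
      omega
  refine ⟨a1, a2, a3, ?_, by rw [a5, hlt], by rw [a6, hlt'], ?_⟩
  · intro hij
    have hne : s i ≠ s j := by
      rcases lt_or_gt_of_ne hij with h1 | h1
      · exact (hs i j h1 hj').ne
      · exact (hs j i h1 hi').ne'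
    obtain ⟨g1, g2, g3, g4⟩ := a4 hne
    exact ⟨g1, g3.ne, g4.ne, g2, g3, g4⟩
  · rcases lt_trichotomy i j with h1 | h1 | h1
    · have h2 := hh.rel 2 (by omega) 0 (by omega) i j h1 hj'
      rw [k4] at h2
      have h3 : ¬ G.Adj (b (s i)) (b' (s j)) := fun h => Bool.false_ne_true (h2.1 h)
      exact ⟨fun h => absurd h h3, fun h => absurd h (by omega)⟩
    · subst h1
      exact ⟨fun _ => le_rfl, fun _ => (hx _ (hsm i hi') _ (hsm i hi')).2.2.2.2.2.2⟩
    · have h2 := hh.rel 0 (by omega) 2 (by omega) j i h1 hi'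
      have h3 : G.Adj (b' (s j)) (b (s i)) := h2.2 k3
      exact ⟨fun _ => h1.le, fun _ => h3.symm⟩

private theorem f4 {m₀ m' N m : ℕ} (hm' : M0 ≤ m') (hm₀ : m₀ ≤ m')
    (hN : ∀ (V : Type) (G : SimpleGraph V)
    (p q r : ℕ → V), (∀ k < N, ∀ l < N, k ≠ l → p k ≠ p l ∧ q k ≠ q l ∧ r k ≠ r l ∧ p k ≠ q l ∧
      p k ≠ r l ∧ q k ≠ r l) →
    ∃ (s : ℕ → ℕ) (E : ℕ → ℕ → Bool), (∀ k l, k < l → l < m' → s k < s l) ∧ (∀ k < m', s k < N) ∧
      Hom G 3 m' (r3 (fun k => p (s k)) (fun k => q (s k)) (fun k => r (s k))) E)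
    (hm : N ≤ m) {G : SimpleGraph V} (hG : Facts G) (hC : NoPat G m₀) : F4 G m := by
  rintro ⟨v, b, b', hx⟩
  have hM : M0 = 128 := rfl
  obtain ⟨s, E, hs, hsN, hh⟩ := hN V G b v b' (by
    intro k hk l hl hkl
    obtain ⟨d1, d2, d3, d4, -, -, -⟩ := hx k (by omega) l (by omega)
    obtain ⟨e1, e2, e3, -, -, -, -⟩ := hx l (by omega) k (by omega)
    obtain ⟨g1, g2, g3, g4⟩ := d4 hkl
    exact ⟨g3.ne, g1, g4.ne, e1.symm, d3, d2⟩)
  have hsm : ∀ k < m', s k < m := fun k hk => lt_of_lt_of_le (hsN k hk) hm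
  have h01 : s 0 < s 1 := hs 0 1 (by omega) (by omega)
  have hs1 : s 1 < m := hsm 1 (by omega)
  have hs0 : s 0 < m := by omega
  obtain ⟨-, -, -, d4, d5, d6, -⟩ := hx _ hs0 _ hs1
  obtain ⟨-, -, -, -, e5, e6, -⟩ := hx _ hs1 _ hs0
  have hrev := (hh.rev).mono (le_refl 3) hm'
  obtain ⟨k1, k2⟩ := hG.sm _ _ hrev
    (eF hh (by omega) (by omega) (by omega) (by
      show ¬ G.Adj (v (s 0)) (v (s 1))
      exact (d4 h01.ne).2.1))
    (eT hh (by omega) (by omega) (by omega) (by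
      show G.Adj (v (s 0)) (b (s 1))
      rw [d5]
      omega))
    (eF hh (by omega) (by omega) (by omega) (by
      show ¬ G.Adj (b (s 0)) (v (s 1))
      rw [G.adj_comm, e5]
      omega))
    (eT hh (by omega) (by omega) (by omega) (by
      show G.Adj (v (s 0)) (b' (s 1))
      rw [d6]
      omega))
    (eF hh (by omega) (by omega) (by omega) (by
      show ¬ G.Adj (b' (s 0)) (v (s 1))
      rw [G.adj_comm, e6]
      omega))
  have hnes : ∀ i < m₀, ∀ j < m₀, i ≠ j → s i ≠ s j := by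
    intro i hi j hj hij
    rcases lt_or_gt_of_ne hij with h1 | h1
    · exact (hs i j h1 (by omega)).ne
    · exact (hs j i h1 (by omega)).ne'
  have hxx := fun i (hi : i < m₀) j (hj : j < m₀) => hx _ (hsm i (by omega)) _ (hsm j (by omega))
  refine hC true true true (by simp) (fun i => b (s i)) (fun i => b' (s i))
    ⟨fun i hi j hj => (hxx i hi j hj).2.2.1,
    fun i hi j hj hij => ((hxx i hi j hj).2.2.2.1 (hnes i hi j hj hij)).2.2.1.ne,
    fun i hi j hj hij => ((hxx i hi j hj).2.2.2.1 (hnes i hi j hj hij)).2.2.2.ne,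
    fun i hi j hj hij => iff_of_true ((hxx i hi j hj).2.2.2.1 (hnes i hi j hj hij)).2.2.1 rfl,
    fun i hi j hj hij => iff_of_true ((hxx i hi j hj).2.2.2.1 (hnes i hi j hj hij)).2.2.2 rfl, ?_⟩
  intro i hi j hj
  rcases lt_trichotomy i j with h1 | h1 | h1
  · refine iff_of_true ((hh.rel 0 (by omega) 2 (by omega) i j h1 (by omega)).2 k2) ?_
    simp [h1.ne]
  · subst h1
    exact iff_of_false (hxx i hi i hi).2.2.2.2.2.2 (by simp)
  · refine iff_of_true ?_ ?_
    · have h2 : G.Adj (b' (s j)) (b (s i)) :=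
        (hh.rel 2 (by omega) 0 (by omega) j i h1 (by omega)).2 k1
      exact h2.symm
    · simp [h1.ne']

end F34Aux

theorem tF34 : S_F34 := by
  intro m
  obtain ⟨N, hN⟩ := F34Aux.hom3 W.ramC (M0 + m + 1)
  refine ⟨N + M0, ?_⟩
  intro V G hG hC
  exact ⟨F34Aux.f3 (by omega) hN (by omega) hG, F34Aux.f4 (by omega) (by omega) hN (by omega) hG hC⟩

end Pool.Agent.MPd439b2.ST
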