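import Pool.Agent.Lib.MP_d439b2_co.ST.Eng

/-!
# MP_d439b2_co, ST/Fct: the finite facts (helper38)
-/

set_option autoImplicit false

namespace Pool.Agent.MPd439b2.ST

open Pool.Agent.MPd439b2 Pool.Agent.MPd439b2.Rep
open Pool.Agent.MPd439b2.BU
open Pool.Agent.MPd439b2.HC

namespace FctAux

/-- certificates -/
def c_f2 : List (List (List ℕ)) := [
    [[1], [6], [0], [4], [8], [7]],
    [[2], [7], [0], [4], [8], [5]],
    [[3], [6], [0], [4], [8], [5]],
    [[7, 0], [1], [6], [5], [4], [8]]]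

/-- certificates -/
def c_f3 : List (List (List ℕ)) := [
    [[2], [5], [3], [7], [8], [4]],
    [[2], [0], [8], [4], [6], [5]],
    [[3], [0], [8], [4], [7], [5]],
    [[3], [6, 0], [8], [4], [7], [5]],
    [[1], [8, 7], [0], [4], [5], [6]]]

/-- certificates -/
def c_f7 : List (List (List ℕ)) := [
    [[1], [6], [2], [5], [7], [3]],
    [[2], [6], [1], [4], [7], [3]],
    [[3, 1], [2], [6], [5], [4], [7]],
    [[3, 2], [1], [6], [4], [5], [7]],
    [[2], [1], [6], [4], [5], [7]],
    [[1], [0], [7], [3], [4], [6]]]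

/-- certificates -/
def c_f4 : List (List (List ℕ)) := [
    [[6], [8, 0], [18], [1], [9], [5, 2], [4, 3], [13, 10], [12, 11], [17, 14], [16, 15]]]

/-- certificates -/
def c_f5 : List (List (List ℕ)) := [
    [],
    [[16, 12], [17, 5], [0], [1], [2], [4]],
    [[11, 3, 2], [15, 10], [5], [16], [4], [17]],
    [],
    [],
    [[12], [1], [6], [7], [5], [10]],
    [[9], [8], [12], [13], [14], [16]],
    [],
    [],
    [[0], [12], [16], [13], [1], [14]],
    [[2], [15, 4], [7, 0], [17], [1], [16]],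
    [],
    [],
    [[17, 11], [15], [16, 14], [9, 1], [10], [4, 2], [3], [7, 5], [6], [13, 8], [12]],
    [[16, 9, 1], [10], [11], [4, 0], [5], [7, 3], [8], [13, 12, 6], [14], [15], [17]],
    [],
    [],
    [[11, 3], [9], [17, 2], [10], [4], [8]],
    [[3], [2], [0], [1], [8], [7]],
    [],
    [],
    [[17], [9], [1], [10], [16], [8]],
    [[1], [16, 4, 0], [5], [7, 3], [8], [6], [11], [9], [14, 10], [12], [17, 13]],
    [],
    [],
    [[14], [15, 13], [16], [4, 2], [3], [7, 5], [6], [10, 8], [9], [11], [12]],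
    [[2], [3], [0], [8], [1], [4]],
    [],
    [],
    [[5, 1], [4], [16, 3], [7, 2], [6], [8], [9], [12, 10], [11], [15, 13], [14]],
    [[1], [0], [5], [3], [8, 4], [6], [11, 7], [9], [14, 10], [12], [17, 13]],
    [],
    [],
    [[0], [17], [6], [7], [2], [4]],
    [[16, 17, 5], [3], [0], [8], [1], [4]],
    [],
    [],
    [[0], [5, 4], [6], [7], [2], [10]],
    [[8, 1], [0], [5, 2], [3], [4], [9], [11, 10], [12], [14, 13], [15], [17, 16]],
    [],
    [],
    [[16], [15, 7], [17], [0], [2, 1], [3], [5, 4], [14, 8], [12], [9], [11, 10]],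
    [[13, 5], [3], [0], [8], [1], [4]],
    [],
    [],
    [[1], [13], [16, 12], [7, 2], [6], [3], [5, 4], [9], [11, 10], [14], [15]],
    [[15, 1], [16], [4], [3, 0], [5], [6], [11, 8, 7], [9], [14, 10], [12], [17, 13]],
    [],
    [],
    [[5, 0], [2], [8], [13], [1], [7]],
    [[10, 11, 5], [3], [0], [8], [1], [4]],
    [],
    [],
    [[4, 11, 1], [16, 9], [12], [8], [13], [10]],
    [[8, 1], [10, 0], [5], [2], [4], [13, 6, 3], [11], [16, 9], [14], [12], [17]],
    [],
    [],
    [[14, 9], [10], [17], [6, 1], [7, 5], [4, 2], [3], [13, 8], [12], [16, 11], [15]],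
    [[7, 5], [3], [0], [8], [1], [4]],
    [],
    [],
    [[16, 5], [15], [14], [7, 2], [6], [3], [4], [10, 8], [9], [13, 11], [12]],
    [[8, 1], [0], [5], [3], [17, 4], [6], [11, 7], [9], [14, 10], [12], [13]],
    []]

/-- certificates -/
def c_f6 : List (List (List ℕ)) := [
    [],
    [[4], [10], [9], [0], [2, 1], [17, 16, 5], [15], [6], [8, 7], [13, 11], [12]],
    [[11, 1], [0], [5], [16, 3], [4], [6], [8, 7], [9], [17, 10], [12], [14, 13]],
    [[2], [11], [9], [15, 1], [16], [3], [5, 4], [6], [8, 7], [12], [14, 13]],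
    [[4], [10], [9], [0], [17, 1], [7, 2], [6], [16, 5], [15], [13, 11], [12]],
    [[0], [1], [16], [4, 2], [3], [7, 5], [6], [10, 8], [9], [13, 11], [12]],
    [[2], [8], [3], [16, 0], [1], [6], [11, 7], [9], [14, 10], [12], [17, 13]],
    []]

variable {V : Type} {G : SimpleGraph V}

/-! ### `P_6` -/

/-- the relation between the clique `k₁, k₃, k₂` and the stable set `z₂, z₁, z₃` -/
def e6 (i j : ℕ) : Bool := Nat.beq i j || (Nat.beq i 0 && Nat.beq j 2)

theorem chk_p6 : chk2 6 (rE 3 e6) [[0], [1], [2], [3], [4], [5]] = true := by decide +kernel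

/-- three vertices -/
def v3 (a b c : V) (i : ℕ) : V := if i = 0 then a else if i = 1 then b else c

theorem f_p6 (hG : Fre G) (K Z : Set V) (hK : ∀ x ∈ K, ∀ y ∈ K, x ≠ y → G.Adj x y)
    (hZ : ∀ x ∈ Z, ∀ y ∈ Z, ¬ G.Adj x y) (hd : Disjoint K Z) : NP6 (nA G) K Z := by
  intro k₁ h1 k₂ h2 k₃ h3 z₁ g1 z₂ g2 z₃ g3 a1 a2 a3 b1 b2 b3 c1 c2 c3
  unfold nA at a1 a2 a3 b1 b2 b3 c1 c2 c3
  rw [not_not] at a2 a3 b3 c1
  have hne : ∀ x ∈ K, ∀ z ∈ Z, x ≠ z := fun x hx z hz h => Set.disjoint_left.1 hd hx (h ▸ hz)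
  have k12 : k₁ ≠ k₂ := fun h => b2 (h ▸ a2)
  have k13 : k₁ ≠ k₃ := fun h => c2 (h ▸ a2)
  have k23 : k₂ ≠ k₃ := fun h => b1 (h ▸ c1)
  have z12 : z₁ ≠ z₂ := fun h => a1 (h ▸ a2)
  have z13 : z₁ ≠ z₃ := fun h => a1 (h ▸ a3)
  have z23 : z₂ ≠ z₃ := fun h => b2 (h ▸ b3)
  refine chk2_false hG (sp_kz (n := 3) (k := v3 k₁ k₃ k₂) (z := v3 z₂ z₁ z₃) (e := e6) ?_) chk_p6
  intro i hi j hj
  have hk : ∀ i < 3, v3 k₁ k₃ k₂ i ∈ K := by
    intro i hi
    interval_cases i <;> simp [v3, h1, h2, h3]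
  have hz : ∀ i < 3, v3 z₂ z₁ z₃ i ∈ Z := by
    intro i hi
    interval_cases i <;> simp [v3, g1, g2, g3]
  refine ⟨hne _ (hk i hi) _ (hz j hj), fun hij => ?_, ?_⟩
  · have h4 : v3 k₁ k₃ k₂ i ≠ v3 k₁ k₃ k₂ j := by
      interval_cases i <;> interval_cases j <;>
        first
        | exact absurd rfl hij
        | simp [v3, k12, k13, k23, k12.symm, k13.symm, k23.symm]
    have h5 : v3 z₂ z₁ z₃ i ≠ v3 z₂ z₁ z₃ j := by
      interval_cases i <;> interval_cases j <;>
        first
        | exact absurd rfl hij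
        | simp [v3, z12, z13, z23, z12.symm, z13.symm, z23.symm]
    exact ⟨h4, h5, hK _ (hk i hi) _ (hk j hj) h4, hZ _ (hz i hi) _ (hz j hj)⟩
  · interval_cases i <;> interval_cases j <;> simp [v3, e6, a1, a2, a3, b1, b2, b3, c1, c2, c3]

/-! ### Fact 2 -/

/-- the relation of a thick spider -/
def eL (i j : ℕ) : Bool := !(Nat.beq i j)

theorem chk_f2 : ((List.range 256).all fun t => t.testBit 0 || t.testBit 1 || t.testBit 4 ||
    t.testBit 5 || !t.testBit 6 || c_f2.any (chk2 9 (rX 8 (rE 4 eL) t))) = true := by decide +kernel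

theorem f_f2 (hG : Fre G) (k z : ℕ → V) (y : V) (h : TP G 4 true false true k z)
    (hy : ∀ i < 4, y ≠ k i ∧ y ≠ z i) (h0 : ¬ G.Adj y (k 0)) (h1 : ¬ G.Adj y (z 0))
    (h2 : ¬ G.Adj y (k 1)) (h3 : ¬ G.Adj y (z 1)) : ¬ G.Adj y (z 2) := by
  intro h4
  obtain ⟨t, ht, hb, hS⟩ := snocX (sp_tp h) y (by
    intro j hj
    rw [Set.mem_singleton_iff]
    by_cases h5 : j < 4
    · rw [if_pos h5]
      exact (hy j h5).1
    · rw [if_neg h5]
      exact (hy (j - 4) (by omega)).2)
  simp only [tch_single] at hb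
  have hc := chk_f2
  simp only [List.all_eq_true, List.mem_range, Bool.or_eq_true, Bool.not_eq_true',
    List.any_eq_true] at hc
  have t0 := bitF (hb 0 (by omega)) h0
  have t1 := bitF (hb 1 (by omega)) h2
  have t4 := bitF (hb 4 (by omega)) h1
  have t5 := bitF (hb 5 (by omega)) h3
  have t6 := bitT (hb 6 (by omega)) h4
  rcases hc t ht with ((((h5 | h5) | h5) | h5) | h5) | ⟨C, -, h5⟩
  · rw [t0] at h5; exact Bool.false_ne_true h5
  · rw [t1] at h5; exact Bool.false_ne_true h5
  · rw [t4] at h5; exact Bool.false_ne_true h5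
  · rw [t5] at h5; exact Bool.false_ne_true h5
  · rw [t6] at h5; exact Bool.false_ne_true h5.symm
  · exact chk2_false hG hS h5

/-! ### Fact 3 -/

/-- the relation of the path `z 0, k 0, z 1, k 1` and two legs -/
def e3 (i j : ℕ) : Bool := !(Nat.beq i j || (Nat.beq i 0 && Nat.beq j 1))

theorem chk_f3 : ((List.range 256).all fun t => t.testBit 4 || !t.testBit 0 || !t.testBit 5 ||
    t.testBit 1 || t.testBit 6 || c_f3.any (chk2 9 (rX 8 (rE 4 e3) t))) = true := by decide +kernel

theorem f_f3 (hG : Fre G) (k z : ℕ → V) (y : V) (h : ∀ i < 4, ∀ j < 4, k i ≠ z j ∧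
      (i ≠ j → k i ≠ k j ∧ z i ≠ z j ∧ G.Adj (k i) (k j) ∧ ¬ G.Adj (z i) (z j)) ∧
      (G.Adj (k i) (z j) ↔ ¬ (i = j ∨ (i = 0 ∧ j = 1)))) (hy : ∀ i < 4, y ≠ k i ∧ y ≠ z i)
    (h0 : ¬ G.Adj y (z 0)) (h1 : G.Adj y (k 0)) (h2 : G.Adj y (z 1)) (h3 : ¬ G.Adj y (k 1))
    (h4 : ¬ G.Adj y (z 2)) : False := by
  obtain ⟨t, ht, hb, hS⟩ := snocX (sp_kz (n := 4) (k := k) (z := z) (e := e3) (by
    intro i hi j hj
    refine ⟨(h i hi j hj).1, (h i hi j hj).2.1, ?_⟩
    rw [(h i hi j hj).2.2]
    interval_cases i <;> interval_cases j <;> decide)) y (by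
    intro j hj
    rw [Set.mem_singleton_iff]
    by_cases h5 : j < 4
    · rw [if_pos h5]
      exact (hy j h5).1
    · rw [if_neg h5]
      exact (hy (j - 4) (by omega)).2)
  simp only [tch_single] at hb
  have hc := chk_f3
  simp only [List.all_eq_true, List.mem_range, Bool.or_eq_true, Bool.not_eq_true',
    List.any_eq_true] at hc
  have t4 := bitF (hb 4 (by omega)) h0
  have t0 := bitT (hb 0 (by omega)) h1
  have t5 := bitT (hb 5 (by omega)) h2
  have t1 := bitF (hb 1 (by omega)) h3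
  have t6 := bitF (hb 6 (by omega)) h4
  rcases hc t ht with ((((h5 | h5) | h5) | h5) | h5) | ⟨C, -, h5⟩
  · rw [t4] at h5; exact Bool.false_ne_true h5
  · rw [t0] at h5; exact Bool.false_ne_true h5.symm
  · rw [t5] at h5; exact Bool.false_ne_true h5.symm
  · rw [t1] at h5; exact Bool.false_ne_true h5
  · rw [t6] at h5; exact Bool.false_ne_true h5
  · exact chk2_false hG hS h5

/-! ### Fact 7 -/

theorem chk_f7 : ((List.range 64).all fun t => t.testBit 0 || !t.testBit 1 || !t.testBit 2 ||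
    t.testBit 3 || t.testBit 4 || t.testBit 5 || (List.range 128).all fun s => s.testBit 3 ||
      s.testBit 4 || s.testBit 5 || !s.testBit 6 || (!s.testBit 0 && s.testBit 1 && s.testBit 2) ||
      c_f7.any (chk2 8 (rX 7 (rX 6 (rE 3 eL) t) s))) = true := by decide +kernel

theorem f_f7 (hG : Fre G) (k s : ℕ → V) (u w : V) (h : TP G 3 true false true k s)
    (hy : ∀ i < 3, u ≠ k i ∧ u ≠ s i ∧ w ≠ k i ∧ w ≠ s i ∧ ¬ G.Adj u (s i) ∧ ¬ G.Adj w (s i))
    (huw : G.Adj u w) (h0 : ¬ G.Adj u (k 0)) (h1 : G.Adj u (k 1)) (h2 : G.Adj u (k 2)) :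
    ¬ G.Adj w (k 0) ∧ G.Adj w (k 1) ∧ G.Adj w (k 2) := by
  obtain ⟨t, ht, hb, hS⟩ := snocX (sp_tp h) u (by
    intro j hj
    rw [Set.mem_singleton_iff]
    by_cases h5 : j < 3
    · rw [if_pos h5]
      exact (hy j h5).1
    · rw [if_neg h5]
      exact (hy (j - 3) (by omega)).2.1)
  obtain ⟨t', ht', hb', hS'⟩ := snocX hS w (by
    intro j hj
    by_cases h6 : j < 6
    · rw [if_pos h6, Set.mem_singleton_iff]
      by_cases h5 : j < 3
      · rw [if_pos h5]
        exact (hy j h5).2.2.1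
      · rw [if_neg h5]
        exact (hy (j - 3) (by omega)).2.2.2.1
    · rw [if_neg h6, Set.mem_singleton_iff]
      exact huw.ne')
  simp only [tch_single] at hb
  have hc := chk_f7
  simp only [List.all_eq_true, List.mem_range, Bool.or_eq_true, Bool.not_eq_true',
    List.any_eq_true, Bool.and_eq_true] at hc
  have t0 := bitF (hb 0 (by omega)) h0
  have t1 := bitT (hb 1 (by omega)) h1
  have t2 := bitT (hb 2 (by omega)) h2
  have t3 := bitF (hb 3 (by omega)) (hy 0 (by omega)).2.2.2.2.1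
  have t4 := bitF (hb 4 (by omega)) (hy 1 (by omega)).2.2.2.2.1
  have t5 := bitF (hb 5 (by omega)) (hy 2 (by omega)).2.2.2.2.1
  have b0 : G.Adj w (k 0) ↔ t'.testBit 0 = true := by
    have := hb' 0 (by omega)
    rwa [if_pos (by omega : (0 : ℕ) < 3 + 3), if_pos (by omega : (0 : ℕ) < 3), tch_single] at this
  have b1 : G.Adj w (k 1) ↔ t'.testBit 1 = true := by
    have := hb' 1 (by omega)
    rwa [if_pos (by omega : (1 : ℕ) < 3 + 3), if_pos (by omega : (1 : ℕ) < 3), tch_single] at this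
  have b2 : G.Adj w (k 2) ↔ t'.testBit 2 = true := by
    have := hb' 2 (by omega)
    rwa [if_pos (by omega : (2 : ℕ) < 3 + 3), if_pos (by omega : (2 : ℕ) < 3), tch_single] at this
  have b3 : G.Adj w (s 0) ↔ t'.testBit 3 = true := by
    have := hb' 3 (by omega)
    rwa [if_pos (by omega : (3 : ℕ) < 3 + 3), if_neg (by omega : ¬ (3 : ℕ) < 3), tch_single] at this
  have b4 : G.Adj w (s 1) ↔ t'.testBit 4 = true := by
    have := hb' 4 (by omega)
    rwa [if_pos (by omega : (4 : ℕ) < 3 + 3), if_neg (by omega : ¬ (4 : ℕ) < 3), tch_single] at this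
  have b5 : G.Adj w (s 2) ↔ t'.testBit 5 = true := by
    have := hb' 5 (by omega)
    rwa [if_pos (by omega : (5 : ℕ) < 3 + 3), if_neg (by omega : ¬ (5 : ℕ) < 3), tch_single] at this
  have b6 : G.Adj w u ↔ t'.testBit 6 = true := by
    have := hb' 6 (by omega)
    rwa [if_neg (by omega : ¬ (6 : ℕ) < 3 + 3), tch_single] at this
  have s3 := bitF b3 (hy 0 (by omega)).2.2.2.2.2
  have s4 := bitF b4 (hy 1 (by omega)).2.2.2.2.2
  have s5 := bitF b5 (hy 2 (by omega)).2.2.2.2.2
  have s6 := bitT b6 huw.symm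
  rcases hc t ht with (((((h5 | h5) | h5) | h5) | h5) | h5) | h5
  · rw [t0] at h5; exact (Bool.false_ne_true h5).elim
  · rw [t1] at h5; exact (Bool.false_ne_true h5.symm).elim
  · rw [t2] at h5; exact (Bool.false_ne_true h5.symm).elim
  · rw [t3] at h5; exact (Bool.false_ne_true h5).elim
  · rw [t4] at h5; exact (Bool.false_ne_true h5).elim
  · rw [t5] at h5; exact (Bool.false_ne_true h5).elim
  · rcases h5 t' ht' with ((((h6 | h6) | h6) | h6) | h6) | ⟨C, -, h6⟩
    · rw [s3] at h6; exact (Bool.false_ne_true h6).elim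
    · rw [s4] at h6; exact (Bool.false_ne_true h6).elim
    · rw [s5] at h6; exact (Bool.false_ne_true h6).elim
    · rw [s6] at h6; exact (Bool.false_ne_true h6.symm).elim
    · refine ⟨fun h7 => ?_, b1.2 h6.1.2, b2.2 h6.2⟩
      rw [b0, h6.1.1] at h7
      exact Bool.false_ne_true h7
    · exact (chk2_false hG hS' h6).elim

/-! ### Fact 4 -/

theorem chk_f4 : famD 4 5 72357829448634385 281543696187392 c_f4 (2 ^ 0) (fun _ => false) = true := by
  decide +kernel

/-- four rails -/
def v4 (a b c d : ℕ → V) (i : ℕ) : ℕ → V := if i = 0 then a else if i = 1 then b else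
  if i = 2 then c else d

/-- the table of fact 4 -/
def e4 (i j : ℕ) : Bool := gF (fun _ => false) ((72357829448634385 >>> (4 * (4 * i + j))) % 16)

/-- the diagonal of fact 4 -/
def d4 (i j : ℕ) : Bool := gF (fun _ => false) ((281543696187392 >>> (4 * (4 * i + j))) % 16)

theorem f_f4 (hG : Fre G) (k s y t : ℕ → V) (h1 : TP G 5 true false true k s)
    (h2 : TP G 5 true false true y t)
    (h : ∀ i < 5, ∀ j < 5, k i ≠ y j ∧ k i ≠ t j ∧ y i ≠ s j ∧ s i ≠ t j ∧ ¬ G.Adj (k i) (y j) ∧
      ¬ G.Adj (s i) (t j) ∧ G.Adj (k i) (t j) ∧ G.Adj (y i) (s j)) : False := by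
  have hD : HomD G 4 5 (v4 k s y t) e4 d4 := by
    refine ⟨?_, ?_, ?_⟩
    · intro i hi j hj a ha b hb hab
      have g1 := h a ha b hb
      have g2 := h b hb a ha
      interval_cases i <;> interval_cases j <;> simp only [ne_eq, not_true_eq_false, false_or,
        not_false_eq_true] at hab
      · exact h1.ia a ha b hb hab
      · exact h1.dis a ha b hb
      · exact g1.1
      · exact g1.2.1
      · exact (h1.dis b hb a ha).symm
      · exact h1.ib a ha b hb hab
      · exact g2.2.2.1.symm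
      · exact g1.2.2.2.1
      · exact g2.1.symm
      · exact g1.2.2.1
      · exact h2.ia a ha b hb hab
      · exact h2.dis a ha b hb
      · exact g2.2.1.symm
      · exact g2.2.2.2.1.symm
      · exact (h2.dis b hb a ha).symm
      · exact h2.ib a ha b hb hab
    · intro i hi j hj a b hab hb
      have ha : a < 5 := hab.trans hb
      have hne : a ≠ b := hab.ne
      have g1 := h a ha b hb
      have g2 := h b hb a ha
      have p1 := h1.aa a ha b hb hne
      have p2 := h1.bb a ha b hb hne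
      have p3 : G.Adj (k a) (s b) ↔ true = true := by
        rw [h1.ab a ha b hb]
        simp [hne]
      have p4 : G.Adj (s a) (k b) ↔ true = true := by
        rw [G.adj_comm, h1.ab b hb a ha]
        simp [hne.symm]
      have q1 := h2.aa a ha b hb hne
      have q2 := h2.bb a ha b hb hne
      have q3 : G.Adj (y a) (t b) ↔ true = true := by
        rw [h2.ab a ha b hb]
        simp [hne]
      have q4 : G.Adj (t a) (y b) ↔ true = true := by
        rw [G.adj_comm, h2.ab b hb a ha]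
        simp [hne.symm]
      have r1 : G.Adj (k a) (y b) ↔ false = true := iff_of_false g1.2.2.2.2.1 (by simp)
      have r2 : G.Adj (y a) (k b) ↔ false = true :=
        iff_of_false (fun h => g2.2.2.2.2.1 h.symm) (by simp)
      have r3 : G.Adj (s a) (t b) ↔ false = true := iff_of_false g1.2.2.2.2.2.1 (by simp)
      have r4 : G.Adj (t a) (s b) ↔ false = true :=
        iff_of_false (fun h => g2.2.2.2.2.2.1 h.symm) (by simp)
      have r5 : G.Adj (k a) (t b) ↔ true = true := iff_of_true g1.2.2.2.2.2.2.1 rfl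
      have r6 : G.Adj (t a) (k b) ↔ true = true := iff_of_true g2.2.2.2.2.2.2.1.symm rfl
      have r7 : G.Adj (y a) (s b) ↔ true = true := iff_of_true g1.2.2.2.2.2.2.2 rfl
      have r8 : G.Adj (s a) (y b) ↔ true = true := iff_of_true g2.2.2.2.2.2.2.2.symm rfl
      interval_cases i <;> interval_cases j
      · exact p1
      · exact p3
      · exact r1
      · exact r5
      · exact p4
      · exact p2
      · exact r8
      · exact r3
      · exact r2
      · exact r7
      · exact q1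
      · exact q3
      · exact r6
      · exact r4
      · exact q4
      · exact q2
    · intro i hi j hj a ha
      have g1 := h a ha a ha
      have p3 : G.Adj (s a) (k a) ↔ false = true := by
        rw [G.adj_comm, h1.ab a ha a ha]
        simp
      have q3 : G.Adj (t a) (y a) ↔ false = true := by
        rw [G.adj_comm, h2.ab a ha a ha]
        simp
      have r1 : G.Adj (y a) (k a) ↔ false = true :=
        iff_of_false (fun h => g1.2.2.2.2.1 h.symm) (by simp)
      have r3 : G.Adj (t a) (s a) ↔ false = true :=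
        iff_of_false (fun h => g1.2.2.2.2.2.1 h.symm) (by simp)
      have r5 : G.Adj (t a) (k a) ↔ true = true := iff_of_true g1.2.2.2.2.2.2.1.symm rfl
      have r7 : G.Adj (y a) (s a) ↔ true = true := iff_of_true g1.2.2.2.2.2.2.2 rfl
      interval_cases i <;> interval_cases j
      · exact p3
      · exact r1
      · exact r7
      · exact r5
      · exact r3
      · exact q3
  refine famD_false hG hD (by omega) (n := 0) (PE := 72357829448634385) (PD := 281543696187392)
    (fun _ => false) (by decide) (fun i _ j _ => rfl) (by decide) (fun i _ j _ => rfl) chk_f4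
    (fun _ _ _ => rfl)

/-! ### Facts 5 and 6 -/

theorem chk_f5 : famD 3 6 5691675153 1979711488 c_f5 (2 ^ 6)
    (fun c => c.testBit 0 == c.testBit 1) = true := by decide +kernel

theorem f_f5 (hG : Fre G) (x : ℕ → ℕ → V) (E D : ℕ → ℕ → Bool) (h : HomD G 3 6 x E D)
    (h00 : E 0 0 = true) (h11 : E 1 1 = false) (h22 : E 2 2 = true) (h01 : E 0 1 = true)
    (h10 : E 1 0 = true) (hd : D 1 0 = false) (hne : E 0 2 ≠ E 2 0) : False := by
  refine famD_false hG h (by omega) (n := 6) (PE := 5691675153) (PD := 1979711488)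
    (fun k => match k with
      | 0 => E 0 2 | 1 => E 2 0 | 2 => E 1 2 | 3 => E 2 1 | 4 => D 2 0 | _ => D 2 1)
    (by decide) ?_ (by decide) ?_ chk_f5 ?_
  · intro i hi j hj
    interval_cases i <;> interval_cases j <;> first | rfl | assumption
  · intro i hi j hj
    interval_cases i <;> interval_cases j <;> first | rfl | assumption
  · intro c hc hb
    have b0 : c.testBit 0 = E 0 2 := hb 0 (by omega)
    have b1 : c.testBit 1 = E 2 0 := hb 1 (by omega)
    rw [b0, b1]
    revert hne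
    cases E 0 2 <;> cases E 2 0 <;> simp

theorem chk_f6 : famD 3 6 319820305 335544320 c_f6 (2 ^ 3)
    (fun c => c.testBit 0 == c.testBit 1 && c.testBit 0 == c.testBit 2) = true := by decide +kernel

theorem f_f6 (hG : Fre G) (x : ℕ → ℕ → V) (E D : ℕ → ℕ → Bool) (h : HomD G 3 6 x E D)
    (h00 : E 0 0 = true) (h11 : E 1 1 = false) (h22 : E 2 2 = false) (h01 : E 0 1 = true)
    (h10 : E 1 0 = true) (hd : D 1 0 = false) (h12 : E 1 2 = true) (h21 : E 2 1 = true)
    (hd' : D 2 1 = true) (hne : ¬ (E 0 2 = E 2 0 ∧ E 0 2 = D 2 0)) : False := by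
  refine famD_false hG h (by omega) (n := 3) (PE := 319820305) (PD := 335544320)
    (fun k => match k with | 0 => E 0 2 | 1 => E 2 0 | _ => D 2 0)
    (by decide) ?_ (by decide) ?_ chk_f6 ?_
  · intro i hi j hj
    interval_cases i <;> interval_cases j <;> first | rfl | assumption
  · intro i hi j hj
    interval_cases i <;> interval_cases j <;> first | rfl | assumption
  · intro c hc hb
    have b0 : c.testBit 0 = E 0 2 := hb 0 (by omega)
    have b1 : c.testBit 1 = E 2 0 := hb 1 (by omega)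
    have b2 : c.testBit 2 = D 2 0 := hb 2 (by omega)
    rw [b0, b1, b2]
    revert hne
    cases E 0 2 <;> cases E 2 0 <;> cases D 2 0 <;> simp

end FctAux

open FctAux in
/-- **The finite facts** -/
theorem tFct : S_Fct := by
  intro V G h1 h2
  have hG : Fre G := ⟨R3.spf2 h1, R3.spfJ h2⟩
  exact ⟨f_p6 hG, f_f2 hG, f_f3 hG, f_f4 hG, f_f5 hG, f_f6 hG, f_f7 hG⟩

end Pool.Agent.MPd439b2.ST
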