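import Pool.Agent.Lib.MP_d439b2_co.ST.Spec

/-! MP_d439b2_co, ST: proof of `S_Gr` (greedy choice) -/

set_option autoImplicit false

namespace Pool.Agent.MPd439b2.ST

open Pool.Agent.MPd439b2 Pool.Agent.MPd439b2.Rep

namespace GrAux

/-- families with `t` members -/
def PG {T : Type} (n : ℕ) (S : ℕ → Set T) (t : ℕ) : Prop :=
  ∃ (φ : ℕ → ℕ) (v : ℕ → T), (∀ i < t, φ i < n ∧ v i ∈ S (φ i)) ∧
    ∀ i < t, ∀ j < t, i ≠ j → φ i ≠ φ j ∧ v i ≠ v j

theorem im_card {T : Type} (v : ℕ → T) (t : ℕ) :
    (v '' {i | i < t}).Finite ∧ (v '' {i | i < t}).ncard ≤ t := by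
  have hf : {i : ℕ | i < t}.Finite := Set.finite_lt_nat t
  refine ⟨hf.image v, ?_⟩
  have h1 := Set.ncard_image_le (f := v) hf
  have h2 : {i : ℕ | i < t}.ncard = t := by
    have h3 : {i : ℕ | i < t} = ((Finset.range t : Finset ℕ) : Set ℕ) := by
      ext i
      simp
    rw [h3, Set.ncard_coe_finset, Finset.card_range]
  omega

end GrAux

open GrAux in
theorem tGr : S_Gr := by
  classical
  intro T n r S hr hno
  by_cases hT : IsEmpty T
  · refine ⟨∅, ∅, Set.finite_empty, by rw [Set.ncard_empty]; omega, Set.finite_empty,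
      by rw [Set.ncard_empty]; omega, ?_⟩
    intro i _ _ x _
    exact hT.elim x
  · rw [not_isEmpty_iff] at hT
    obtain ⟨x₀⟩ := hT
    have hno' : ¬ PG n S r := hno
    have h0 : PG n S 0 := ⟨fun _ => 0, fun _ => x₀, fun i hi => absurd hi (Nat.not_lt_zero i),
      fun i hi => absurd hi (Nat.not_lt_zero i)⟩
    have hex : ∃ s, ¬ PG n S s := ⟨r, hno'⟩
    have hs := Nat.find_spec hex
    have hle : Nat.find hex ≤ r := Nat.find_min' hex hno'
    have hne : Nat.find hex ≠ 0 := by
      intro h
      rw [h] at hs
      exact hs h0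
    obtain ⟨t, ht⟩ := Nat.exists_eq_succ_of_ne_zero hne
    have ht1 : PG n S t := by
      have := Nat.find_min hex (m := t) (by omega)
      exact not_not.1 this
    rw [ht] at hs
    obtain ⟨φ, v, hv1, hv2⟩ := ht1
    obtain ⟨hI1, hI2⟩ := im_card φ t
    obtain ⟨hN1, hN2⟩ := im_card v t
    refine ⟨φ '' {i | i < t}, v '' {i | i < t}, hI1, by omega, hN1, by omega, ?_⟩
    intro i hi hiI s hsi
    by_contra hsN
    apply hs
    refine ⟨Function.update φ t i, Function.update v t s, ?_, ?_⟩
    · intro j hj
      by_cases hjt : j = t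
      · subst hjt
        rw [Function.update_self, Function.update_self]
        exact ⟨hi, hsi⟩
      · rw [Function.update_of_ne hjt, Function.update_of_ne hjt]
        exact hv1 j (by omega)
    · intro j hj j' hj' hjj
      by_cases hjt : j = t
      · subst hjt
        have hj't : j' ≠ j := fun h => hjj h.symm
        rw [Function.update_self, Function.update_self, Function.update_of_ne hj't,
          Function.update_of_ne hj't]
        have hlt : j' < j := by omega
        exact ⟨fun h => hiI ⟨j', hlt, h.symm⟩, fun h => hsN ⟨j', hlt, h.symm⟩⟩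
      · by_cases hj't : j' = t
        · subst hj't
          rw [Function.update_self, Function.update_self, Function.update_of_ne hjt,
            Function.update_of_ne hjt]
          have hlt : j < j' := by omega
          exact ⟨fun h => hiI ⟨j, hlt, h⟩, fun h => hsN ⟨j, hlt, h⟩⟩
        · rw [Function.update_of_ne hjt, Function.update_of_ne hjt, Function.update_of_ne hj't,
            Function.update_of_ne hj't]
          exact hv2 j (by omega) j' (by omega) hjj

end Pool.Agent.MPd439b2.ST
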