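import Pool.Agent.Lib.MP_d439b2_co.ST.Spec
import Pool.Agent.Lib.MP_d439b2_co.W.RamC

/-!
# MP_d439b2_co, ST/H1
-/

set_option autoImplicit false

namespace Pool.Agent.MPd439b2.ST

open Pool.Agent.MPd439b2 Pool.Agent.MPd439b2.Rep

private theorem all3 {P : ℕ → Prop} (h0 : P 0) (h1 : P 1) (h2 : P 2) : ∀ i < 3, P i := by
  intro i hi
  rcases (by omega : i = 0 ∨ i = 1 ∨ i = 2) with rfl | rfl | rfl
  · exact h0
  · exact h1
  · exact h2

private theorem h1core {V : Type} {G : SimpleGraph V} {B : Set V} {f : V → ℕ} {w p k q : ℕ}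
    (hF : Fcs G) (hb : Bas G B f w p k q) {b₀ : ℕ}
    (hR : ∀ χ : ℕ → ℕ → (Fin 3 → Fin 3 → Prop × Prop), ∃ (s : ℕ → ℕ) (c : Fin 3 → Fin 3 → Prop × Prop),
      (∀ i j, i < j → j < max 6 k + 1 → s i < s j) ∧ (∀ i < max 6 k + 1, s i < b₀) ∧
      ∀ i j, i < j → j < max 6 k + 1 → χ (s i) (s j) = c)
    {x z y : ℕ → V} (xx : ∀ i < b₀, ∀ j < b₀, i ≠ j → G.Adj (x i) (x j))
    (zz : ∀ i < b₀, ∀ j < b₀, i ≠ j → ¬ G.Adj (z i) (z j))
    (xz : ∀ i < b₀, ∀ j < b₀, (G.Adj (x i) (z j) ↔ i ≠ j))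
    (zi : ∀ i < b₀, ∀ j < b₀, i ≠ j → z i ≠ z j) (xB : ∀ i < b₀, x i ∈ B) (zB : ∀ i < b₀, z i ∉ B)
    (yB : ∀ i < b₀, y i ∈ B) (yx : ∀ i < b₀, ∀ j < b₀, y i ≠ x j)
    (h : (∀ i < b₀, ∀ j < b₀, (G.Adj (y i) (x j) ↔ i < j)) ∨
      ∀ i < b₀, ∀ j < b₀, (G.Adj (y i) (x j) ↔ j ≤ i)) : False := by
  classical
  have yi : ∀ i < b₀, ∀ j < b₀, i ≠ j → y i ≠ y j := by
    have key : ∀ i < b₀, ∀ j < b₀, i < j → y i ≠ y j := by
      intro i hi j hj hij h1
      rcases h with h2 | h2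
      · have a1 := h2 i hi j hj
        rw [h1, h2 j hj j hj] at a1
        omega
      · have a1 := h2 i hi j hj
        rw [h1, h2 j hj j hj] at a1
        omega
    intro i hi j hj hij
    rcases lt_or_gt_of_ne hij with h1 | h1
    · exact key i hi j hj h1
    · exact (key j hj i hi h1).symm
  let R : ℕ → ℕ → V := fun i k => if i = 0 then x k else if i = 1 then z k else y k
  obtain ⟨s, c, s1, s2, s3⟩ := hR fun i j a d => (G.Adj (R a i) (R d j), G.Adj (R a i) (R d i))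
  have s3' : ∀ i j, i < j → j < max 6 k + 1 → ∀ a d : Fin 3,
      (G.Adj (R a (s i)) (R d (s j)) ↔ (c a d).1) ∧ (G.Adj (R a (s i)) (R d (s i)) ↔ (c a d).2) := by
    intro i j hij hj a d
    have h1 := congrFun (congrFun (s3 i j hij hj) a) d
    exact ⟨iff_of_eq (congrArg Prod.fst h1), iff_of_eq (congrArg Prod.snd h1)⟩
  have sinj : ∀ i < max 6 k + 1, ∀ j < max 6 k + 1, i ≠ j → s i ≠ s j := by
    intro i hi j hj hij
    rcases lt_or_gt_of_ne hij with h1 | h1
    · exact (s1 i j h1 hj).ne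
    · exact (s1 j i h1 hi).ne'
  -- the rail `y` is a clique
  have hyy : (c 2 2).1 := by
    by_contra hc
    have hst : ∀ i < max 6 k, ∀ j < max 6 k, ¬ G.Adj (y (s i)) (y (s j)) := by
      intro i hi j hj h1
      rcases lt_trichotomy i j with h2 | h2 | h2
      · exact hc (((s3' i j h2 (by omega) 2 2).1).1 h1)
      · rw [h2] at h1
        exact G.irrefl h1
      · exact hc (((s3' j i h2 (by omega) 2 2).1).1 h1.symm)
    have hT := hb.ns ((Finset.range k).image fun i => y (s i)) (by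
      intro v hv
      rw [Finset.mem_coe, Finset.mem_image] at hv
      obtain ⟨i, hi, rfl⟩ := hv
      rw [Finset.mem_range] at hi
      exact yB _ (s2 i (by omega))) (by
      intro u hu v hv huv
      rw [Finset.mem_image] at hu hv
      obtain ⟨i, hi, rfl⟩ := hu
      obtain ⟨j, hj, rfl⟩ := hv
      rw [Finset.mem_range] at hi hj
      exact hst i (by omega) j (by omega) huv)
    rw [Finset.card_image_of_injOn, Finset.card_range] at hT
    · omega
    · intro i hi j hj hij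
      rw [Finset.mem_coe, Finset.mem_range] at hi hj
      by_contra h1
      exact yi _ (s2 i (by omega)) _ (s2 j (by omega)) (sinj i (by omega) j (by omega) h1) hij
  have hm : ∀ i < 6, i < max 6 k + 1 := fun i hi => by omega
  have b6 : ∀ i < 6, s i < b₀ := fun i hi => s2 i (hm i hi)
  have si6 : ∀ i < 6, ∀ j < 6, i ≠ j → s i ≠ s j := fun i hi j hj => sinj i (hm i hi) j (hm j hj)
  let E : ℕ → ℕ → Bool := fun i j => if hi : i < 3 then (if hj : j < 3 then decide (c ⟨i, hi⟩ ⟨j, hj⟩).1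
    else false) else false
  let D : ℕ → ℕ → Bool := fun i j => if hi : i < 3 then (if hj : j < 3 then decide (c ⟨i, hi⟩ ⟨j, hj⟩).2
    else false) else false
  have hE : ∀ i (hi : i < 3) j (hj : j < 3), (E i j = true ↔ (c ⟨i, hi⟩ ⟨j, hj⟩).1) := by
    intro i hi j hj
    show (if hi : i < 3 then (if hj : j < 3 then decide (c ⟨i, hi⟩ ⟨j, hj⟩).1 else false)
      else false) = true ↔ _
    rw [dif_pos hi, dif_pos hj, decide_eq_true_iff]
  have hD : ∀ i (hi : i < 3) j (hj : j < 3), (D i j = true ↔ (c ⟨i, hi⟩ ⟨j, hj⟩).2) := by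
    intro i hi j hj
    show (if hi : i < 3 then (if hj : j < 3 then decide (c ⟨i, hi⟩ ⟨j, hj⟩).2 else false)
      else false) = true ↔ _
    rw [dif_pos hi, dif_pos hj, decide_eq_true_iff]
  have rel : ∀ i < 3, ∀ j < 3, ∀ k' l, k' < l → l < 6 → (G.Adj (R i (s k')) (R j (s l)) ↔ E i j = true) := by
    intro i hi j hj k' l hkl hl
    rw [hE i hi j hj]
    exact (s3' k' l hkl (hm l hl) ⟨i, hi⟩ ⟨j, hj⟩).1
  have dia : ∀ i < 3, ∀ j < 3, ∀ k' < 6, (G.Adj (R i (s k')) (R j (s k')) ↔ D i j = true) := by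
    intro i hi j hj k' hk'
    rw [hD i hi j hj]
    exact (s3' k' (max 6 k) (by omega) (by omega) ⟨i, hi⟩ ⟨j, hj⟩).2
  have r01 := rel 0 (by omega) 0 (by omega) 0 1 (by omega) (by omega)
  have s01 : s 0 < s 1 := s1 0 1 (by omega) (by omega)
  have b0 := b6 0 (by omega)
  have b1 := b6 1 (by omega)
  refine hF.f5 (fun i k' => R i (s k')) E D ⟨?_, rel, fun i hi j hj k' hk' => dia i hi j (by omega) k' hk'⟩
    (r01.1 (xx _ b0 _ b1 (by omega))) ?_ ?_ ?_ ?_ ?_ ?_
  · refine all3 (all3 ?_ ?_ ?_) (all3 ?_ ?_ ?_) (all3 ?_ ?_ ?_) <;> intro k' hk l hl h1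
    · exact (xx _ (b6 k' hk) _ (b6 l hl) (si6 _ hk _ hl (h1.resolve_left (fun h => h rfl)))).ne
    · intro h2
      have h3 : x (s k') = z (s l) := h2
      exact zB _ (b6 l hl) (h3 ▸ xB _ (b6 k' hk))
    · exact (yx _ (b6 l hl) _ (b6 k' hk)).symm
    · intro h2
      have h3 : z (s k') = x (s l) := h2
      exact zB _ (b6 k' hk) (h3 ▸ xB _ (b6 l hl))
    · exact zi _ (b6 k' hk) _ (b6 l hl) (si6 _ hk _ hl (h1.resolve_left (fun h => h rfl)))
    · intro h2
      have h3 : z (s k') = y (s l) := h2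
      exact zB _ (b6 k' hk) (h3 ▸ yB _ (b6 l hl))
    · exact yx _ (b6 k' hk) _ (b6 l hl)
    · intro h2
      have h3 : y (s k') = z (s l) := h2
      exact zB _ (b6 l hl) (h3 ▸ yB _ (b6 k' hk))
    · exact yi _ (b6 k' hk) _ (b6 l hl) (si6 _ hk _ hl (h1.resolve_left (fun h => h rfl)))
  · rw [Bool.eq_false_iff]
    intro h1
    exact zz _ b0 _ b1 (by omega) ((rel 1 (by omega) 1 (by omega) 0 1 (by omega) (by omega)).2 h1)
  · exact (hE 2 (by omega) 2 (by omega)).2 hyy
  · exact (rel 0 (by omega) 1 (by omega) 0 1 (by omega) (by omega)).1 ((xz _ b0 _ b1).2 (by omega))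
  · exact (rel 1 (by omega) 0 (by omega) 0 1 (by omega) (by omega)).1
      ((xz _ b1 _ b0).2 (by omega)).symm
  · rw [Bool.eq_false_iff]
    intro h1
    exact (xz _ b0 _ b0).1 (((dia 1 (by omega) 0 (by omega) 0 (by omega)).2 h1).symm) rfl
  · have e1 := rel 0 (by omega) 2 (by omega) 0 1 (by omega) (by omega)
    have e2 := rel 2 (by omega) 0 (by omega) 0 1 (by omega) (by omega)
    intro h1
    rw [h1] at e1
    have e3 : G.Adj (x (s 0)) (y (s 1)) ↔ G.Adj (y (s 0)) (x (s 1)) := e1.trans e2.symm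
    rw [G.adj_comm] at e3
    rcases h with h2 | h2
    · rw [h2 _ b1 _ b0, h2 _ b0 _ b1] at e3
      omega
    · rw [h2 _ b1 _ b0, h2 _ b0 _ b1] at e3
      omega

theorem tH1 : S_H1 := by
  intro w p k q
  obtain ⟨b₀, hb₀⟩ := W.ramC (Fin 3 → Fin 3 → Prop × Prop) (max 6 k + 1)
  obtain ⟨r, hr⟩ := W.ramC Prop (b₀ + 1)
  refine ⟨r, fun V _ G B f hF hb x z T hB hf hne => ?_⟩
  obtain ⟨s, c, s1, s2, s3⟩ := hr fun i j => nB G B (x i) ⊆ nB G B (x j)
  have sinj : ∀ i < b₀ + 1, ∀ j < b₀ + 1, i ≠ j → s i ≠ s j := by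
    intro i hi j hj hij
    rcases lt_or_gt_of_ne hij with h1 | h1
    · exact (s1 i j h1 hj).ne
    · exact (s1 j i h1 hi).ne'
  have xx : ∀ i < b₀ + 1, ∀ j < b₀ + 1, i ≠ j → G.Adj (x (s i)) (x (s j)) := fun i hi j hj hij =>
    (T.aa _ (s2 i hi) _ (s2 j hj) (sinj i hi j hj hij)).2 rfl
  have zz : ∀ i < b₀ + 1, ∀ j < b₀ + 1, i ≠ j → ¬ G.Adj (z (s i)) (z (s j)) := fun i hi j hj hij h =>
    Bool.false_ne_true ((T.bb _ (s2 i hi) _ (s2 j hj) (sinj i hi j hj hij)).1 h)
  have xz : ∀ i < b₀ + 1, ∀ j < b₀ + 1, (G.Adj (x (s i)) (z (s j)) ↔ i ≠ j) := by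
    intro i hi j hj
    rw [T.ab _ (s2 i hi) _ (s2 j hj)]
    by_cases hij : i = j
    · subst hij
      simp
    · have := sinj i hi j hj hij
      simp [hij, this]
  have zi : ∀ i < b₀ + 1, ∀ j < b₀ + 1, i ≠ j → z (s i) ≠ z (s j) := fun i hi j hj hij =>
    T.ib _ (s2 i hi) _ (s2 j hj) (sinj i hi j hj hij)
  have xm : ∀ i < b₀ + 1, ∀ j < b₀ + 1, x (s i) ∈ nB G B (x (s j)) := by
    intro i hi j hj
    refine ⟨(hB _ (s2 i hi)).1, ?_⟩
    by_cases hij : i = j
    · left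
      rw [hij]
    · right
      exact xx j hj i hi (Ne.symm hij)
  have hxB : ∀ i < b₀ + 1, x (s i) ∈ B := fun i hi => (hB _ (s2 i hi)).1
  have hzB : ∀ i < b₀ + 1, z (s i) ∉ B := fun i hi => (hB _ (s2 i hi)).2
  by_cases hc : c
  · -- increasing
    have inc : ∀ i j, i < j → j < b₀ + 1 → nB G B (x (s i)) ⊆ nB G B (x (s j)) := fun i j hij hj =>
      (s3 i j hij hj).symm ▸ hc
    have inc' : ∀ i j, i ≤ j → j < b₀ + 1 → nB G B (x (s i)) ⊆ nB G B (x (s j)) := by
      intro i j hij hj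
      rcases Nat.eq_or_lt_of_le hij with h1 | h1
      · rw [h1]
      · exact inc i j h1 hj
    have hy : ∀ i, ∃ y, i < b₀ → (y ∈ nB G B (x (s (i + 1))) ∧ y ∉ nB G B (x (s i))) := by
      intro i
      by_cases hi : i < b₀
      · by_contra hcon
        push Not at hcon
        refine hne _ (s2 i (by omega)) _ (s2 (i + 1) (by omega)) (sinj i (by omega) (i + 1) (by omega)
          (by omega)) (Set.Subset.antisymm (inc i (i + 1) (by omega) (by omega)) fun y hy => ?_)
        exact (hcon y).2 hy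
      · exact ⟨x 0, fun h => absurd h hi⟩
    choose y hy using hy
    have yx : ∀ i < b₀, ∀ j < b₀ + 1, y i ≠ x (s j) := fun i hi j hj h =>
      (hy i hi).2 (h ▸ xm j hj i (by omega))
    refine h1core hF hb (x := fun i => x (s i)) (z := fun i => z (s i)) (y := y) hb₀
      (fun i hi j hj => xx i (by omega) j (by omega)) (fun i hi j hj => zz i (by omega) j (by omega))
      (fun i hi j hj => xz i (by omega) j (by omega)) (fun i hi j hj => zi i (by omega) j (by omega))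
      (fun i hi => hxB i (by omega)) (fun i hi => hzB i (by omega)) (fun i hi => (hy i hi).1.1)
      (fun i hi j hj => yx i hi j (by omega)) (Or.inl fun i hi j hj => ⟨fun h => ?_, fun h => ?_⟩)
    · by_contra hij
      exact (hy i hi).2 (inc' j i (by omega) (by omega) ⟨(hy i hi).1.1, Or.inr h.symm⟩)
    · have h1 := inc' (i + 1) j h (by omega) (hy i hi).1
      exact (h1.2.resolve_left (yx i hi j (by omega))).symm
  · -- decreasing
    have dec : ∀ i j, i < j → j < b₀ + 1 → nB G B (x (s j)) ⊆ nB G B (x (s i)) := by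
      intro i j hij hj
      have h1 : ¬ nB G B (x (s i)) ⊆ nB G B (x (s j)) := fun h => hc ((s3 i j hij hj) ▸ h)
      exact (hb.ch _ (hxB i (by omega)) _ (hxB j hj) (hf _ (s2 i (by omega)) _ (s2 j hj))).resolve_left h1
    have dec' : ∀ i j, i ≤ j → j < b₀ + 1 → nB G B (x (s j)) ⊆ nB G B (x (s i)) := by
      intro i j hij hj
      rcases Nat.eq_or_lt_of_le hij with h1 | h1
      · rw [h1]
      · exact dec i j h1 hj
    have hy : ∀ i, ∃ y, i < b₀ → (y ∈ nB G B (x (s i)) ∧ y ∉ nB G B (x (s (i + 1)))) := by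
      intro i
      by_cases hi : i < b₀
      · by_contra hcon
        push Not at hcon
        refine hne _ (s2 i (by omega)) _ (s2 (i + 1) (by omega)) (sinj i (by omega) (i + 1) (by omega)
          (by omega)) (Set.Subset.antisymm (fun y hy => (hcon y).2 hy)
            (dec i (i + 1) (by omega) (by omega)))
      · exact ⟨x 0, fun h => absurd h hi⟩
    choose y hy using hy
    have yx : ∀ i < b₀, ∀ j < b₀ + 1, y i ≠ x (s j) := fun i hi j hj h =>
      (hy i hi).2 (h ▸ xm j hj (i + 1) (by omega))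
    refine h1core hF hb (x := fun i => x (s i)) (z := fun i => z (s i)) (y := y) hb₀
      (fun i hi j hj => xx i (by omega) j (by omega)) (fun i hi j hj => zz i (by omega) j (by omega))
      (fun i hi j hj => xz i (by omega) j (by omega)) (fun i hi j hj => zi i (by omega) j (by omega))
      (fun i hi => hxB i (by omega)) (fun i hi => hzB i (by omega)) (fun i hi => (hy i hi).1.1)
      (fun i hi j hj => yx i hi j (by omega)) (Or.inr fun i hi j hj => ⟨fun h => ?_, fun h => ?_⟩)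
    · by_contra hij
      exact (hy i hi).2 (dec' (i + 1) j (by omega) (by omega) ⟨(hy i hi).1.1, Or.inr h.symm⟩)
    · have h1 := dec' j i h (by omega) (hy i hi).1
      exact (h1.2.resolve_left (yx i hi j (by omega))).symm

end Pool.Agent.MPd439b2.ST
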