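import Pool.Agent.Lib.MP_d439b2_co.ST.Spec
import Pool.Agent.Lib.MP_d439b2_co.R3.SpecA

/-!
# MP_d439b2_co, ST/H2
-/

set_option autoImplicit false

namespace Pool.Agent.MPd439b2.ST

open Pool.Agent.MPd439b2 Pool.Agent.MPd439b2.Rep

private theorem all3 {P : ℕ → Prop} (h0 : P 0) (h1 : P 1) (h2 : P 2) : ∀ i < 3, P i := by
  intro i hi
  rcases (by omega : i = 0 ∨ i = 1 ∨ i = 2) with rfl | rfl | rfl
  · exact h0
  · exact h1
  · exact h2

private theorem h2core {V : Type} {G : SimpleGraph V} (hF : Fcs G) {x z v : ℕ → V}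
    (T : TP G 6 true false true x z) {Y : Set V} (hv : ∀ k < 6, v k ∈ Y)
    (yy : ∀ y ∈ Y, ∀ y' ∈ Y, ¬ G.Adj y y') (yx : ∀ i < 6, ∀ y ∈ Y, y ≠ x i ∧ G.Adj (z i) y)
    (e02 e20 d20 : Bool) (hne : ¬ (e02 = e20 ∧ e02 = d20))
    (h1 : ∀ k < 6, ∀ l < 6, k < l → (G.Adj (v k) (x l) ↔ e20 = true))
    (h2 : ∀ k < 6, ∀ l < 6, l < k → (G.Adj (v k) (x l) ↔ e02 = true))
    (h3 : ∀ k < 6, (G.Adj (v k) (x k) ↔ d20 = true)) : False := by
  have vv : ∀ k < 6, ∀ l < 6, k ≠ l → v k ≠ v l := by
    have key : ∀ k < 6, ∀ l < 6, k < l → v k ≠ v l := by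
      intro k hk l hl hkl h
      have a1 := h3 k hk
      have a2 := h2 l hl k hk hkl
      have a3 := h3 l hl
      have a4 := h1 k hk l hl hkl
      rw [h] at a1 a4
      apply hne
      have b1 : e02 = d20 := by
        rw [Bool.eq_iff_iff, ← a2, ← a1]
      have b2 : e20 = d20 := by
        rw [Bool.eq_iff_iff, ← a4, ← a3]
      exact ⟨b1.trans b2.symm, b1⟩
    intro k hk l hl hkl
    rcases lt_or_gt_of_ne hkl with h | h
    · exact key k hk l hl h
    · exact (key l hl k hk h).symm
  let R : ℕ → ℕ → V := fun i k => if i = 0 then x k else if i = 1 then z k else v k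
  let E : ℕ → ℕ → Bool := fun i j => if i = 0 then (if j = 0 then true else if j = 1 then true else e02)
    else if i = 1 then (if j = 0 then true else if j = 1 then false else true)
    else (if j = 0 then e20 else if j = 1 then true else false)
  let D : ℕ → ℕ → Bool := fun i j => if i = 1 then false else (if j = 0 then d20 else true)
  have xx : ∀ k < 6, ∀ l < 6, k ≠ l → G.Adj (x k) (x l) := fun k hk l hl hkl =>
    (T.aa k hk l hl hkl).2 rfl
  have zz : ∀ k < 6, ∀ l < 6, k ≠ l → ¬ G.Adj (z k) (z l) := fun k hk l hl hkl h =>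
    Bool.false_ne_true ((T.bb k hk l hl hkl).1 h)
  have xz : ∀ k < 6, ∀ l < 6, k ≠ l → G.Adj (x k) (z l) := fun k hk l hl hkl =>
    (T.ab k hk l hl).2 (by simp [hkl])
  have xz' : ∀ k < 6, ¬ G.Adj (x k) (z k) := fun k hk h => by
    have := (T.ab k hk k hk).1 h
    simp at this
  refine hF.f6 R E D ⟨?_, ?_, ?_⟩ rfl rfl rfl rfl rfl rfl rfl rfl rfl hne
  · refine all3 (all3 ?_ ?_ ?_) (all3 ?_ ?_ ?_) (all3 ?_ ?_ ?_) <;> intro k hk l hl h
    · exact T.ia k hk l hl (h.resolve_left (fun h => h rfl))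
    · exact T.dis k hk l hl
    · exact ((yx k hk (v l) (hv l hl)).1).symm
    · exact (T.dis l hl k hk).symm
    · exact T.ib k hk l hl (h.resolve_left (fun h => h rfl))
    · exact ((yx k hk (v l) (hv l hl)).2).ne
    · exact (yx l hl (v k) (hv k hk)).1
    · exact ((yx l hl (v k) (hv k hk)).2).ne'
    · exact vv k hk l hl (h.resolve_left (fun h => h rfl))
  · refine all3 (all3 ?_ ?_ ?_) (all3 ?_ ?_ ?_) (all3 ?_ ?_ ?_) <;> intro k l hkl hl
    · exact iff_of_true (xx k (by omega) l hl (by omega)) rfl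
    · exact iff_of_true (xz k (by omega) l hl (by omega)) rfl
    · exact (G.adj_comm _ _).trans (h2 l hl k (by omega) hkl)
    · exact iff_of_true (xz l hl k (by omega) (by omega)).symm rfl
    · exact iff_of_false (zz k (by omega) l hl (by omega)) Bool.false_ne_true
    · exact iff_of_true (yx k (by omega) (v l) (hv l hl)).2 rfl
    · exact h1 k (by omega) l hl hkl
    · exact iff_of_true (yx l hl (v k) (hv k (by omega))).2.symm rfl
    · exact iff_of_false (yy _ (hv k (by omega)) _ (hv l hl)) Bool.false_ne_true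
  · refine all3 (fun j hj => absurd hj (by omega)) ?_ ?_
    · intro j hj k hk
      obtain rfl : j = 0 := by omega
      exact iff_of_false (fun h => xz' k hk h.symm) Bool.false_ne_true
    · intro j hj k hk
      rcases (by omega : j = 0 ∨ j = 1) with rfl | rfl
      · exact h3 k hk
      · exact iff_of_true (yx k hk (v k) (hv k hk)).2.symm rfl

theorem tH2 (h1 : R3.S_Rows) : S_H2 := by
  obtain ⟨M, hM⟩ := h1 6
  refine ⟨M, fun V G hF x z Y T yy yx hd => ?_⟩
  have h2 : ∀ i j, ∃ y, i < j → j < M → (y ∈ Y ∧ ¬ (G.Adj y (x i) ↔ G.Adj y (x j))) := by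
    intro i j
    by_cases h : i < j ∧ j < M
    · obtain ⟨y, hy, h3⟩ := hd i (by omega) j h.2 (by omega)
      exact ⟨y, fun _ _ => ⟨hy, h3⟩⟩
    · exact ⟨x 0, fun h3 h4 => absurd ⟨h3, h4⟩ h⟩
  choose y hy using h2
  obtain ⟨φ, v, hφ, hφM, hv, h3⟩ := hM V G x y fun i j hij hj => by
    have := (hy i j hij hj).2
    tauto
  have hinj : ∀ i < 6, ∀ j < 6, i ≠ j → φ i ≠ φ j := by
    intro i hi j hj hij
    rcases lt_or_gt_of_ne hij with h | h
    · exact (hφ i j h hj).ne
    · exact (hφ j i h hi).ne'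
  have T' : TP G 6 true false true (fun k => x (φ k)) (fun k => z (φ k)) := by
    refine ⟨fun i hi j hj => T.dis _ (hφM i hi) _ (hφM j hj), fun i hi j hj hij =>
      T.ia _ (hφM i hi) _ (hφM j hj) (hinj i hi j hj hij), fun i hi j hj hij =>
      T.ib _ (hφM i hi) _ (hφM j hj) (hinj i hi j hj hij), fun i hi j hj hij =>
      T.aa _ (hφM i hi) _ (hφM j hj) (hinj i hi j hj hij), fun i hi j hj hij =>
      T.bb _ (hφM i hi) _ (hφM j hj) (hinj i hi j hj hij), fun i hi j hj => ?_⟩
    rw [T.ab _ (hφM i hi) _ (hφM j hj)]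
    have : φ i = φ j ↔ i = j := ⟨fun h => by
      by_contra h'
      exact hinj i hi j hj h' h, fun h => by rw [h]⟩
    rw [this]
  have hvY : ∀ k < 6, v k ∈ Y := by
    intro k hk
    obtain ⟨i, j, hij, hj, h4⟩ := hv k hk
    rw [h4]
    exact (hy i j hij hj).1
  have yx' : ∀ i < 6, ∀ y ∈ Y, y ≠ x (φ i) ∧ G.Adj (z (φ i)) y := fun i hi => yx _ (hφM i hi)
  rcases h3 with h4 | h4 | h4 | h4
  · exact h2core hF T' hvY yy yx' false false true (by decide)
      (fun k hk l hl h => (h4 k hk l hl).trans (iff_of_false (by omega) (by decide)))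
      (fun k hk l hl h => (h4 k hk l hl).trans (iff_of_false (by omega) (by decide)))
      (fun k hk => (h4 k hk k hk).trans (iff_of_true rfl rfl))
  · exact h2core hF T' hvY yy yx' true true false (by decide)
      (fun k hk l hl h => (h4 k hk l hl).trans (iff_of_true (by omega) rfl))
      (fun k hk l hl h => (h4 k hk l hl).trans (iff_of_true (by omega) rfl))
      (fun k hk => (h4 k hk k hk).trans (iff_of_false (by omega) (by decide)))
  · exact h2core hF T' hvY yy yx' true false true (by decide)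
      (fun k hk l hl h => (h4 k hk l hl).trans (iff_of_false (by omega) (by decide)))
      (fun k hk l hl h => (h4 k hk l hl).trans (iff_of_true (by omega) rfl))
      (fun k hk => (h4 k hk k hk).trans (iff_of_true (by omega) rfl))
  · exact h2core hF T' hvY yy yx' false true true (by decide)
      (fun k hk l hl h => (h4 k hk l hl).trans (iff_of_true (by omega) rfl))
      (fun k hk l hl h => (h4 k hk l hl).trans (iff_of_false (by omega) (by decide)))
      (fun k hk => (h4 k hk k hk).trans (iff_of_true (by omega) rfl))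

end Pool.Agent.MPd439b2.ST
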