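import Pool.Agent.Lib.MP_d439b2_co.ST.Spec

/-!
# MP_d439b2_co, ST/Md: the modified graph
-/

set_option autoImplicit false

namespace Pool.Agent.MPd439b2.ST

open Pool.Agent.MPd439b2 Pool.Agent.MPd439b2.Rep

namespace MdM

private theorem anti_mono {α β : Type} {R : α → β → Prop} {K : Set α} {Z : Set β} {b n n' : ℕ}
    (hn : n' ≤ n) (h : Anti R K Z b n) : Anti R K Z b n' := by
  obtain ⟨P, Q, h1, h2⟩ := h
  exact ⟨P, Q, fun i hi => h1 i (hi.trans_le hn), fun i hi j hj =>
    h2 i (hi.trans_le hn) j (hj.trans_le hn)⟩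

private theorem ncard_le {V : Type} [Finite V] (A : Set V) (p b : ℕ) (F : ℕ → Set V)
    (hF : ∀ j < p, (F j).ncard ≤ b) (hA : ∀ y ∈ A, ∃ j < p, y ∈ F j) : A.ncard ≤ b * p := by
  classical
  have := Fintype.ofFinite V
  have h1 : A ⊆ (((Finset.range p).biUnion fun j => (F j).toFinset : Finset V) : Set V) := by
    intro y hy
    obtain ⟨j, hj, hy'⟩ := hA y hy
    rw [Finset.mem_coe, Finset.mem_biUnion]
    exact ⟨j, Finset.mem_range.mpr hj, Set.mem_toFinset.mpr hy'⟩
  refine (Set.ncard_le_ncard h1 (Finset.finite_toSet _)).trans ?_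
  rw [Set.ncard_coe_finset]
  have h2 := Finset.card_biUnion_le_card_mul (Finset.range p) (fun j => (F j).toFinset) b
    (fun j hj => by
      rw [← Set.ncard_eq_toFinset_card']
      exact hF j (Finset.mem_range.mp hj))
  rw [Finset.card_range] at h2
  linarith

/-- The modified graph. -/
private def GG {V : Type} (G : SimpleGraph V) (B : Set V) (f : V → ℕ)
    (S : ℕ → ℕ → V → V → Prop) : SimpleGraph V where
  Adj x y := ((x ∈ B ↔ y ∈ B) ∧ G.Adj x y) ∨ (x ∈ B ∧ y ∉ B ∧ ¬ S (f x) (f y) x y) ∨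
    (x ∉ B ∧ y ∈ B ∧ ¬ S (f y) (f x) y x)
  symm := ⟨by
    rintro x y (h | h | h)
    · exact Or.inl ⟨h.1.symm, h.2.symm⟩
    · exact Or.inr (Or.inr ⟨h.2.1, h.1, h.2.2⟩)
    · exact Or.inr (Or.inl ⟨h.2.1, h.1, h.2.2⟩)⟩
  loopless := ⟨by
    rintro x (h | h | h)
    · exact G.loopless.irrefl x h.2
    · exact h.2.1 h.1
    · exact h.1 h.2.1⟩

end MdM

open MdM in
theorem tMd (h1 : S_Cell) (h2 : S_W) : S_Md := by
  classical
  intro m w p k q
  obtain ⟨c₁, N₁, hcell⟩ := h1 w p k q
  set T := max 1 N₁ * max 1 m with hT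
  refine ⟨c₁, Fintype.card (Fin (w + p) × (Fin (w + p) → Fin T)), ?_⟩
  intro b hb V _ G B f hf hno hbas hmc
  have hW : ∀ a j : ℕ, WC (nA G) {x | x ∈ B ∧ f x = a} {x | x ∉ B ∧ f x = j} b T := by
    intro a j
    have hK : ∀ x ∈ {x | x ∈ B ∧ f x = a}, ∀ y ∈ {x | x ∈ B ∧ f x = a}, x ≠ y → G.Adj x y :=
      fun x hx y hy hxy => hbas.cl x hx.1 y hy.1 (by rw [hx.2, hy.2]) hxy
    have hZ : ∀ x ∈ {x | x ∉ B ∧ f x = j}, ∀ y ∈ {x | x ∉ B ∧ f x = j}, ¬ G.Adj x y :=
      fun x hx y hy => hbas.stb hx.1 hy.1 (by rw [hx.2, hy.2])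
    refine h2 V V (nA G) b N₁ m _ _ hb ?_ ?_ ?_
    · refine hf.p6 _ _ hK hZ ?_
      rw [Set.disjoint_left]
      intro x hx hx'
      exact hx'.1 hx.1
    · intro h
      exact hcell b hb V G B f hf hbas hmc a j (anti_mono (Nat.le_succ _) h)
    · rintro ⟨κ, ζ, hκζ, hR⟩
      have hR' : ∀ i < m + 1, ∀ l < m + 1, (G.Adj (κ i) (ζ l) ↔ i = l) := by
        intro i hi l hl
        have := hR i hi l hl
        unfold nA at this
        constructor
        · intro h
          by_contra hcon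
          exact (this.mpr hcon) h
        · intro h
          by_contra hcon
          exact (this.mp hcon) h
      refine hno true false false (by simp) κ ζ ⟨?_, ?_, ?_, ?_, ?_, ?_⟩
      · intro i hi l hl h
        exact (hκζ l (by omega)).2.1 (h ▸ (hκζ i (by omega)).1.1)
      · intro i hi l hl hil h
        have h3 := (hR' i (by omega) i (by omega)).mpr rfl
        rw [h] at h3
        exact hil ((hR' l (by omega) i (by omega)).mp h3).symm
      · intro i hi l hl hil h
        have h3 := (hR' i (by omega) i (by omega)).mpr rfl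
        rw [h] at h3
        exact hil ((hR' i (by omega) l (by omega)).mp h3)
      · intro i hi l hl hil
        refine iff_of_true (hK _ (hκζ i (by omega)).1 _ (hκζ l (by omega)).1 ?_) rfl
        intro h
        have h3 := (hR' i (by omega) i (by omega)).mpr rfl
        rw [h] at h3
        exact hil ((hR' l (by omega) i (by omega)).mp h3).symm
      · intro i hi l hl hil
        exact iff_of_false (hZ _ (hκζ i (by omega)).2 _ (hκζ l (by omega)).2) (by simp)
      · intro i hi l hl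
        rw [hR' i (by omega) l (by omega)]
        simp
  choose S c d hc hd hcd hdK hdZ using hW
  have hfx : ∀ x, f x < w + p := by
    intro x
    by_cases hx : x ∈ B
    · exact lt_of_lt_of_le (hbas.fB x hx) (Nat.le_add_right _ _)
    · exact lt_of_lt_of_le (hbas.fA x hx) (Nat.le_add_left _ _)
  have hadj : ∀ x ∈ B, ∀ y, y ∉ B → ((GG G B f S).Adj x y ↔ ¬ S (f x) (f y) x y) := by
    intro x hx y hy
    constructor
    · rintro (h | h | h)
      · exact absurd (h.1.mp hx) hy
      · exact h.2.2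
      · exact absurd hx h.1
    · intro h
      exact Or.inr (Or.inl ⟨hx, hy, h⟩)
  have hsame : ∀ x y, (x ∈ B ↔ y ∈ B) → ((GG G B f S).Adj x y ↔ G.Adj x y) := by
    intro x y hxy
    constructor
    · rintro (h | h | h)
      · exact h.2
      · exact absurd (hxy.mp h.1) h.2.1
      · exact absurd (hxy.mpr h.2.1) h.1
    · intro h
      exact Or.inl ⟨hxy, h⟩
  refine ⟨GG G B f S, ⟨hsame, ?_, ?_⟩⟩
  · intro x
    by_cases hx : x ∈ B
    · have h3 := ncard_le {y | ¬ ((GG G B f S).Adj x y ↔ G.Adj x y)} p b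
        (fun j => {y | y ∈ {y | y ∉ B ∧ f y = j} ∧ ¬ (S (f x) j x y ↔ nA G x y)})
        (fun j _ => (hdK (f x) j x ⟨hx, rfl⟩).le) (by
          intro y hy
          have hyB : y ∉ B := fun hyB => hy (hsame x y (iff_of_true hx hyB))
          refine ⟨f y, hbas.fA y hyB, ⟨hyB, rfl⟩, fun h => hy ?_⟩
          rw [hadj x hx y hyB, h]
          exact not_not)
      exact h3.trans (Nat.mul_le_mul_left b (Nat.le_add_left _ _))
    · have h3 := ncard_le {y | ¬ ((GG G B f S).Adj x y ↔ G.Adj x y)} w b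
        (fun a => {y | y ∈ {y | y ∈ B ∧ f y = a} ∧ ¬ (S a (f x) y x ↔ nA G y x)})
        (fun a _ => (hdZ a (f x) x ⟨hx, rfl⟩).le) (by
          intro y hy
          have hyB : y ∈ B := by
            by_contra hyB
            exact hy (hsame x y (iff_of_false hx hyB))
          refine ⟨f y, hbas.fB y hyB, ⟨hyB, rfl⟩, fun h => hy ?_⟩
          rw [SimpleGraph.adj_comm, hadj y hyB x hx, h, G.adj_comm x y]
          exact not_not)
      exact h3.trans (Nat.mul_le_mul_left b (Nat.le_add_right _ _))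
  · let e : V → Fin (w + p) × (Fin (w + p) → Fin T) := fun x =>
      (⟨f x, hfx x⟩, fun i => if x ∈ B then ⟨c (f x) i x, hc (f x) i x⟩
        else ⟨d i (f x) x, hd i (f x) x⟩)
    refine ⟨fun x => Fintype.equivFin _ (e x), fun x => (Fintype.equivFin _ (e x)).2, ?_⟩
    intro x hx x' hx' y hy y' hy' hxx hyy g1 g2 g3 g4
    have hex : e x = e x' := (Fintype.equivFin _).injective (Fin.ext hxx)
    have hey : e y = e y' := (Fintype.equivFin _).injective (Fin.ext hyy)
    have hfxx : f x = f x' := congrArg (fun z => (z.1 : ℕ)) hex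
    have hfyy : f y = f y' := congrArg (fun z => (z.1 : ℕ)) hey
    have hcx : c (f x) (f y) x = c (f x) (f y) x' := by
      have h3 := congrArg (fun z => (z.2 ⟨f y, hfx y⟩ : ℕ)) hex
      simp only [e, if_pos hx, if_pos hx'] at h3
      rw [← hfxx] at h3
      exact h3
    have hdy : d (f x) (f y) y = d (f x) (f y) y' := by
      have h3 := congrArg (fun z => (z.2 ⟨f x, hfx x⟩ : ℕ)) hey
      simp only [e, if_neg hy, if_neg hy'] at h3
      rw [← hfyy] at h3
      exact h3
    rw [hadj x hx y hy] at g1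
    rw [hadj x hx y' hy', not_not, ← hfyy] at g2
    rw [hadj x' hx' y hy, not_not, ← hfxx] at g3
    rw [hadj x' hx' y' hy', ← hfxx, ← hfyy] at g4
    exact hcd (f x) (f y) x ⟨hx, rfl⟩ x' ⟨hx', hfxx.symm⟩ y' ⟨hy', hfyy.symm⟩ y ⟨hy, rfl⟩ hcx
      hdy.symm g2 g1 g4 g3

end Pool.Agent.MPd439b2.ST
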