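import Pool.Agent.Lib.MP_d439b2_co.ST.Spec

/-! MP_d439b2_co, ST: proof of `S_Mx` (cells of maximum total size) -/

set_option autoImplicit false

namespace Pool.Agent.MPd439b2.ST

open Pool.Agent.MPd439b2 Pool.Agent.MPd439b2.Rep

namespace MxAux

/-- adding a vertex which meets only the cell `i` -/
theorem add {V : Type} [Finite V] {G : SimpleGraph V} {B K Z : Set V} {b n : ℕ} {C : ℕ → Set V}
    (hS : Sys G B K Z b n C) {v : V} (hv : v ∈ K ∨ v ∈ Z) (hno : ∀ i < n, v ∉ C i) {i : ℕ}
    (hi : i < n) (hT : Tc G B v (C i)) (hT' : ∀ j < n, j ≠ i → ¬ Tc G B v (C j)) :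
    Sys G B K Z b n (Function.update C i (insert v (C i))) := by
  have hsup : ∀ j, C j ⊆ Function.update C i (insert v (C i)) j := by
    intro j
    by_cases hj : j = i
    · subst hj
      rw [Function.update_self]
      exact Set.subset_insert _ _
    · rw [Function.update_of_ne hj]
  have hcase : ∀ j x, x ∈ Function.update C i (insert v (C i)) j → x ∈ C j ∨ (j = i ∧ x = v) := by
    intro j x hx
    by_cases hj : j = i
    · subst hj
      rw [Function.update_self] at hx
      rcases hx with hx | hx
      · exact Or.inr ⟨rfl, hx⟩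
      · exact Or.inl hx
    · rw [Function.update_of_ne hj] at hx
      exact Or.inl hx
  refine ⟨hS.kB, hS.zB, hS.kc, hS.zs, ?_, ?_, ?_, ?_, ?_, ?_, ?_⟩
  · intro j hj x hx
    rcases hcase j x hx with h | ⟨_, h⟩
    · exact hS.sub j hj x h
    · rw [h]
      exact hv
  · intro j hj
    by_cases hji : j = i
    · subst hji
      rw [Function.update_self]
      by_cases hvB : v ∈ B
      · have e1 : insert v (C j) ∩ B = insert v (C j ∩ B) := by
          ext x
          simp only [Set.mem_inter_iff, Set.mem_insert_iff]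
          constructor
          · rintro ⟨h | h, h2⟩
            · exact Or.inl h
            · exact Or.inr ⟨h, h2⟩
          · rintro (h | h)
            · exact ⟨Or.inl h, h ▸ hvB⟩
            · exact ⟨Or.inr h.1, h.2⟩
        have e2 : insert v (C j) \ B = C j \ B := by
          ext x
          simp only [Set.mem_sdiff, Set.mem_insert_iff]
          constructor
          · rintro ⟨h | h, h2⟩
            · exact absurd (h ▸ hvB) h2
            · exact ⟨h, h2⟩
          · rintro ⟨h, h2⟩
            exact ⟨Or.inr h, h2⟩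
        rw [e1, e2]
        obtain ⟨y, hy, hyB, hvy⟩ : ∃ y ∈ C j, y ∉ B ∧ ¬ G.Adj v y := by
          rcases hT with h | h
          · exact h.2
          · exact absurd hvB h.1
        exact (hS.con j hj).addK (y := y) ⟨hy, hyB⟩ hvy
      · have e1 : insert v (C j) ∩ B = C j ∩ B := by
          ext x
          simp only [Set.mem_inter_iff, Set.mem_insert_iff]
          constructor
          · rintro ⟨h | h, h2⟩
            · exact absurd (h ▸ h2) hvB
            · exact ⟨h, h2⟩
          · rintro ⟨h, h2⟩
            exact ⟨Or.inr h, h2⟩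
        have e2 : insert v (C j) \ B = insert v (C j \ B) := by
          ext x
          simp only [Set.mem_sdiff, Set.mem_insert_iff]
          constructor
          · rintro ⟨h | h, h2⟩
            · exact Or.inl h
            · exact Or.inr ⟨h, h2⟩
          · rintro (h | h)
            · exact ⟨Or.inl h, h ▸ hvB⟩
            · exact ⟨Or.inr h.1, h.2⟩
        rw [e1, e2]
        obtain ⟨y, hy, hyB, hvy⟩ : ∃ y ∈ C j, y ∈ B ∧ ¬ G.Adj v y := by
          rcases hT with h | h
          · exact absurd h.1 hvB
          · exact h.2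
        exact (hS.con j hj).addZ (x := y) ⟨hy, hyB⟩ (fun h => hvy h.symm)
    · rw [Function.update_of_ne hji]
      exact hS.con j hj
  · intro j hj
    exact (hS.nk j hj).mono (Set.inter_subset_inter_left _ (hsup j))
  · intro j hj
    obtain ⟨x, hx1, hx2⟩ := hS.nz j hj
    exact ⟨x, hsup j hx1, hx2⟩
  · intro j hj
    exact lt_of_lt_of_le (hS.big j hj) (Set.ncard_le_ncard (hsup j) (Set.toFinite _))
  · intro j hj j' hj' hjj
    rw [Set.disjoint_left]
    intro x hx hx'
    rcases hcase j x hx with h | ⟨h, h1⟩ <;> rcases hcase j' x hx' with h' | ⟨h', h1'⟩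
    · exact Set.disjoint_left.1 (hS.dis j hj j' hj' hjj) h h'
    · rw [h1'] at h
      exact hno j hj h
    · rw [h1] at h'
      exact hno j' hj' h'
    · exact hjj (h.trans h'.symm)
  · intro j hj j' hj' hjj x hx hxB y hy hyB
    rcases hcase j x hx with h | ⟨h, h1⟩ <;> rcases hcase j' y hy with h' | ⟨h', h1'⟩
    · exact hS.ant j hj j' hj' hjj x h hxB y h' hyB
    · rw [h1']
      rw [h1'] at hyB
      by_contra hcon
      refine hT' j hj (fun h2 => hjj (h2.trans h'.symm)) ?_
      exact Or.inr ⟨hyB, x, h, hxB, fun h3 => hcon h3.symm⟩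
    · rw [h1]
      rw [h1] at hxB
      by_contra hcon
      refine hT' j' hj' (fun h2 => hjj (h.trans h2.symm)) ?_
      exact Or.inl ⟨hxB, y, h', hyB, hcon⟩
    · exact absurd (h.trans h'.symm) hjj

end MxAux

open MxAux in
theorem tMx : S_Mx := by
  classical
  intro V _ G B K Z b n C hS
  let Q : ℕ → Prop := fun s => ∃ C' : ℕ → Set V, (∀ i < n, C i ⊆ C' i) ∧ Sys G B K Z b n C' ∧
    s = ∑ i ∈ Finset.range n, (C' i).ncard
  have hbd : ∀ s, Q s → s ≤ n * Nat.card V := by
    rintro s ⟨C', _, _, rfl⟩
    calc ∑ i ∈ Finset.range n, (C' i).ncard ≤ ∑ _i ∈ Finset.range n, Nat.card V :=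
          Finset.sum_le_sum fun i _ => Set.ncard_le_card (C' i)
      _ = n * Nat.card V := by rw [Finset.sum_const, Finset.card_range, smul_eq_mul]
  have hQ0 : Q (∑ i ∈ Finset.range n, (C i).ncard) := ⟨C, fun i _ => le_refl _, hS, rfl⟩
  have hQ1 : Q (Nat.findGreatest Q (n * Nat.card V)) := Nat.findGreatest_spec (hbd _ hQ0) hQ0
  obtain ⟨C', hC1, hC2, hC3⟩ := hQ1
  refine ⟨C', hC1, hC2, ?_⟩
  intro v hv hno i hi hT
  by_contra hcon
  push Not at hcon
  have hS2 := add hC2 hv hno hi hT hcon
  have hQ2 : Q (∑ j ∈ Finset.range n, (Function.update C' i (insert v (C' i)) j).ncard) := by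
    refine ⟨_, ?_, hS2, rfl⟩
    intro j hj
    by_cases hji : j = i
    · subst hji
      rw [Function.update_self]
      exact (hC1 j hj).trans (Set.subset_insert _ _)
    · rw [Function.update_of_ne hji]
      exact hC1 j hj
  have h1 := Nat.le_findGreatest (hbd _ hQ2) hQ2
  rw [hC3] at h1
  have h2 : ∑ j ∈ Finset.range n, (C' j).ncard <
      ∑ j ∈ Finset.range n, (Function.update C' i (insert v (C' i)) j).ncard := by
    refine Finset.sum_lt_sum ?_ ⟨i, Finset.mem_range.2 hi, ?_⟩
    · intro j _
      by_cases hji : j = i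
      · subst hji
        rw [Function.update_self]
        exact Set.ncard_le_ncard (Set.subset_insert _ _) (Set.toFinite _)
      · rw [Function.update_of_ne hji]
    · rw [Function.update_self, Set.ncard_insert_of_notMem (hno i hi) (Set.toFinite _)]
      omega
  omega

end Pool.Agent.MPd439b2.ST
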