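import Pool.Agent.Lib.MP_d439b2_co.ST.Spec

/-!
# MP_d439b2_co, ST: proof of `NM` (helper84), no long matchings, co-matchings and opposite half graphs in the
modified graph
-/

set_option autoImplicit false

namespace Pool.Agent.MPd439b2.ST

open Pool.Agent.MPd439b2 Pool.Agent.MPd439b2.Rep Pool.Agent.MPd439b2.R3

namespace NMAux

variable {V : Type}

/-- a vertex is in few exceptional pairs -/
private theorem noEx [Finite V] {G G' : SimpleGraph V} {b : ℕ}
    (hb : ∀ x, {y | ¬ (G'.Adj x y ↔ G.Adj x y)}.ncard ≤ b) {K : ℕ}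
    (hK : b + 2 ≤ K) (z : V) (y : ℕ → V) (hy : ∀ i < K, ∀ j < K, i ≠ j → y i ≠ y j)
    (h : ∀ j, 1 ≤ j → j < K → ¬ (G'.Adj z (y j) ↔ G.Adj z (y j))) : False := by
  classical
  have h1 : ((Finset.range (b + 1)).image fun i => y (i + 1)).card = b + 1 := by
    rw [Finset.card_image_of_injOn, Finset.card_range]
    intro i hi j hj hij
    simp only [Finset.coe_range, Set.mem_Iio] at hi hj
    by_contra hne
    exact hy (i + 1) (by omega) (j + 1) (by omega) (by omega) hij
  have h2 : (((Finset.range (b + 1)).image fun i => y (i + 1) : Finset V) : Set V) ⊆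
      {y | ¬ (G'.Adj z y ↔ G.Adj z y)} := by
    intro x hx
    simp only [Finset.coe_image, Finset.coe_range, Set.mem_image, Set.mem_Iio] at hx
    obtain ⟨i, hi, rfl⟩ := hx
    exact h (i + 1) (by omega) (by omega)
  have h3 := Set.ncard_le_ncard h2 (Set.toFinite _)
  rw [Set.ncard_coe_finset, h1] at h3
  have := hb z
  omega

/-- the finset of the first `n` members of an injective sequence -/
private theorem img {V : Type} (a : ℕ → V) (n : ℕ) (h : ∀ i < n, ∀ j < n, i ≠ j → a i ≠ a j) :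
    ∃ T : Finset V, T.card = n ∧ ∀ x ∈ T, ∃ i < n, a i = x := by
  classical
  refine ⟨(Finset.range n).image a, ?_, ?_⟩
  · rw [Finset.card_image_of_injOn, Finset.card_range]
    intro i hi j hj hij
    simp only [Finset.coe_range, Set.mem_Iio] at hi hj
    by_contra hne
    exact h i hi j hj hne hij
  · intro x hx
    rw [Finset.mem_image] at hx
    obtain ⟨i, hi, rfl⟩ := hx
    exact ⟨i, Finset.mem_range.1 hi, rfl⟩

/-- mixed patterns are short -/
private theorem mixed {G G' : SimpleGraph V} {B : Set V} {N b : ℕ} (hM : Md G G' B N b) (e : Bool)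
    {K : ℕ} (hK : N * N < K) (a c : ℕ → V) (ha : ∀ i < K, a i ∈ B) (hc : ∀ i < K, c i ∉ B)
    (h : ∀ i < K, ∀ j < K, (G'.Adj (a i) (c j) ↔ (i = j ↔ e = false))) : False := by
  obtain ⟨χ, hχ, hcol⟩ := hM.col
  obtain ⟨i, hi, j, hj, hij, hij2⟩ : ∃ i < K, ∃ j < K, i ≠ j ∧
      (χ (a i), χ (c i)) = (χ (a j), χ (c j)) := by
    have h1 : ((Finset.range N) ×ˢ (Finset.range N)).card < (Finset.range K).card := by
      rw [Finset.card_product, Finset.card_range, Finset.card_range]
      exact hK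
    obtain ⟨i, hi, j, hj, hne, heq⟩ := Finset.exists_ne_map_eq_of_card_lt_of_maps_to h1
      (f := fun i => (χ (a i), χ (c i))) (fun i _ => Finset.mem_coe.2 (Finset.mem_product.2
        ⟨Finset.mem_range.2 (hχ _), Finset.mem_range.2 (hχ _)⟩))
    exact ⟨i, Finset.mem_range.1 hi, j, Finset.mem_range.1 hj, hne, heq⟩
  have h1 : χ (a i) = χ (a j) := congrArg Prod.fst hij2
  have h2 : χ (c i) = χ (c j) := congrArg Prod.snd hij2
  cases e with
  | false =>
    exact hcol _ (ha i hi) _ (ha j hj) _ (hc i hi) _ (hc j hj) h1 h2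
      ((h i hi i hi).2 (by simp)) (fun h3 => hij (((h i hi j hj).1 h3).2 rfl))
      (fun h3 => hij (((h j hj i hi).1 h3).2 rfl).symm) ((h j hj j hj).2 (by simp))
  | true =>
    exact hcol _ (ha i hi) _ (ha j hj) _ (hc j hj) _ (hc i hi) h1 h2.symm
      ((h i hi j hj).2 (by simp [hij])) (fun h3 => by simpa using (h i hi i hi).1 h3)
      (fun h3 => by simpa using (h j hj j hj).1 h3) ((h j hj i hi).2 (by simp [Ne.symm hij]))

/-- matchings and co-matchings -/
private theorem pat (m w p k q N b : ℕ) (e : Bool) : ∃ m' : ℕ, ∀ (V : Type) (G G' : SimpleGraph V)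
    (B : Set V) (f : V → ℕ), NoPat G m → Bas G B f w p k q → Md G G' B N b →
    ∀ a c : ℕ → V, (∀ i < m', ∀ j < m', a i ≠ c j ∧ (i ≠ j → a i ≠ a j ∧ c i ≠ c j) ∧
      (G'.Adj (a i) (c j) ↔ (i = j ↔ e = false))) → False := by
  classical
  obtain ⟨m', hm'⟩ := W.ramC (Bool × Bool × Bool × Bool) (m + k + q + N * N + 1 + 1)
  refine ⟨m', ?_⟩
  intro V G G' B f hN hB hM a c h
  obtain ⟨s, d, hs, hsm, hd⟩ := hm' fun i j => (decide (a i ∈ B), decide (c i ∈ B),
    decide (G'.Adj (a i) (a j)), decide (G'.Adj (c i) (c j)))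
  set K : ℕ := m + k + q + N * N + 1 with hK
  have hne : ∀ i < K, ∀ j < K, i ≠ j → s i ≠ s j := by
    intro i hi j hj hij
    rcases lt_or_gt_of_ne hij with h1 | h1
    · exact (hs i j h1 (by omega)).ne
    · exact (hs j i h1 (by omega)).ne'
  have hlt : ∀ i < K, s i < m' := fun i hi => hsm i (by omega)
  have hea : ∀ i < K, ∀ j < K, (G'.Adj (a (s i)) (c (s j)) ↔ (i = j ↔ e = false)) := by
    intro i hi j hj
    rw [(h _ (hlt i hi) _ (hlt j hj)).2.2]
    by_cases hij : i = j
    · subst hij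
      simp
    · have := hne i hi j hj hij
      simp [hij, this]
  have inA : ∀ i < K, (a (s i) ∈ B ↔ d.1 = true) := by
    intro i hi
    have h1 := congrArg (fun p => p.1) (hd i K hi (by omega))
    simp only at h1
    rw [← h1, decide_eq_true_iff]
  have inC : ∀ i < K, (c (s i) ∈ B ↔ d.2.1 = true) := by
    intro i hi
    have h1 := congrArg (fun p => p.2.1) (hd i K hi (by omega))
    simp only at h1
    rw [← h1, decide_eq_true_iff]
  have aa0 : ∀ i j, i < j → j < K → (G'.Adj (a (s i)) (a (s j)) ↔ d.2.2.1 = true) := by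
    intro i j hij hj
    have h1 := congrArg (fun p => p.2.2.1) (hd i j hij (by omega))
    simp only at h1
    rw [← h1, decide_eq_true_iff]
  have cc0 : ∀ i j, i < j → j < K → (G'.Adj (c (s i)) (c (s j)) ↔ d.2.2.2 = true) := by
    intro i j hij hj
    have h1 := congrArg (fun p => p.2.2.2) (hd i j hij (by omega))
    simp only at h1
    rw [← h1, decide_eq_true_iff]
  have aa : ∀ i < K, ∀ j < K, i ≠ j → (G.Adj (a (s i)) (a (s j)) ↔ d.2.2.1 = true) := by
    intro i hi j hj hij
    rw [← hM.same _ _ (by rw [inA i hi, inA j hj])]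
    rcases lt_or_gt_of_ne hij with h1 | h1
    · exact aa0 i j h1 hj
    · rw [G'.adj_comm]
      exact aa0 j i h1 hi
  have cc : ∀ i < K, ∀ j < K, i ≠ j → (G.Adj (c (s i)) (c (s j)) ↔ d.2.2.2 = true) := by
    intro i hi j hj hij
    rw [← hM.same _ _ (by rw [inC i hi, inC j hj])]
    rcases lt_or_gt_of_ne hij with h1 | h1
    · exact cc0 i j h1 hj
    · rw [G'.adj_comm]
      exact cc0 j i h1 hi
  have na : ∀ i < K, ∀ j < K, i ≠ j → a (s i) ≠ a (s j) := fun i hi j hj hij =>
    ((h _ (hlt i hi) _ (hlt j hj)).2.1 (hne i hi j hj hij)).1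
  have nc : ∀ i < K, ∀ j < K, i ≠ j → c (s i) ≠ c (s j) := fun i hi j hj hij =>
    ((h _ (hlt i hi) _ (hlt j hj)).2.1 (hne i hi j hj hij)).2
  -- a large stable set in `B`, a large clique outside `B`
  have stab : ∀ x : ℕ → V, (∀ i < K, x i ∈ B) → (∀ i < K, ∀ j < K, i ≠ j → x i ≠ x j) →
      (∀ i < K, ∀ j < K, i ≠ j → ¬ G.Adj (x i) (x j)) → False := by
    intro x hx hi hx2
    obtain ⟨T, hT, hT2⟩ := img x k fun i hi' j hj hij => hi i (by omega) j (by omega) hij
    have h1 := hB.ns T (fun y hy => by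
      obtain ⟨i, hi', rfl⟩ := hT2 y hy
      exact hx i (by omega)) (fun y hy z hz => by
      obtain ⟨i, hi', rfl⟩ := hT2 y hy
      obtain ⟨j, hj', rfl⟩ := hT2 z hz
      by_cases hij : i = j
      · subst hij
        exact G.loopless.irrefl _
      · exact hx2 i (by omega) j (by omega) hij)
    omega
  have clq : ∀ x : ℕ → V, (∀ i < K, x i ∉ B) → (∀ i < K, ∀ j < K, i ≠ j → x i ≠ x j) →
      (∀ i < K, ∀ j < K, i ≠ j → G.Adj (x i) (x j)) → False := by
    intro x hx hi hx2
    obtain ⟨T, hT, hT2⟩ := img x q fun i hi' j hj hij => hi i (by omega) j (by omega) hij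
    have h1 := hB.nc T (fun y hy => by
      obtain ⟨i, hi', rfl⟩ := hT2 y hy
      exact hx i (by omega)) (fun y hy z hz hyz => by
      obtain ⟨i, hi', rfl⟩ := hT2 y hy
      obtain ⟨j, hj', rfl⟩ := hT2 z hz
      refine hx2 i (by omega) j (by omega) ?_
      rintro rfl
      exact hyz rfl)
    omega
  by_cases hsame : d.1 = d.2.1
  · -- both sequences on the same side
    have hac : d.2.2.1 = d.2.2.2 := by
      cases hd1 : d.1 with
      | true =>
        have h1 : d.2.2.1 = true := by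
          by_contra hcon
          exact stab (fun i => a (s i)) (fun i hi => (inA i hi).2 hd1) na fun i hi j hj hij h2 =>
            hcon ((aa i hi j hj hij).1 h2)
        have h2 : d.2.2.2 = true := by
          by_contra hcon
          exact stab (fun i => c (s i)) (fun i hi => (inC i hi).2 (hsame ▸ hd1)) nc
            fun i hi j hj hij h2 => hcon ((cc i hi j hj hij).1 h2)
        rw [h1, h2]
      | false =>
        have h1 : d.2.2.1 = false := by
          by_contra hcon
          rw [Bool.not_eq_false] at hcon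
          exact clq (fun i => a (s i)) (fun i hi h2 => by
            have := (inA i hi).1 h2
            rw [hd1] at this
            exact Bool.false_ne_true this) na fun i hi j hj hij => (aa i hi j hj hij).2 hcon
        have h2 : d.2.2.2 = false := by
          by_contra hcon
          rw [Bool.not_eq_false] at hcon
          exact clq (fun i => c (s i)) (fun i hi h2 => by
            have := (inC i hi).1 h2
            rw [← hsame, hd1] at this
            exact Bool.false_ne_true this) nc fun i hi j hj hij => (cc i hi j hj hij).2 hcon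
        rw [h1, h2]
    refine hN d.2.2.1 d.2.2.2 e (fun h1 => h1.1 hac) (fun i => a (s i)) (fun i => c (s i))
      ⟨fun i hi j hj => (h _ (hlt i (by omega)) _ (hlt j (by omega))).1,
      fun i hi j hj hij => na i (by omega) j (by omega) hij,
      fun i hi j hj hij => nc i (by omega) j (by omega) hij,
      fun i hi j hj hij => aa i (by omega) j (by omega) hij,
      fun i hi j hj hij => cc i (by omega) j (by omega) hij, fun i hi j hj => ?_⟩
    rw [← hM.same _ _ (by rw [inA i (by omega), inC j (by omega), hsame])]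
    exact hea i (by omega) j (by omega)
  · cases hd1 : d.1 with
    | true =>
      have hd2 : ¬ d.2.1 = true := fun h1 => hsame (hd1.trans h1.symm)
      exact mixed hM e (K := K) (by omega) (fun i => a (s i)) (fun i => c (s i))
        (fun i hi => (inA i hi).2 hd1) (fun i hi h1 => hd2 ((inC i hi).1 h1)) hea
    | false =>
      have hd2 : d.2.1 = true := by
        by_contra hcon
        rw [Bool.not_eq_true] at hcon
        exact hsame (hd1.trans hcon.symm)
      refine mixed hM e (K := K) (by omega) (fun i => c (s i)) (fun i => a (s i))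
        (fun i hi => (inC i hi).2 hd2) (fun i hi h1 => ?_) fun i hi j hj => ?_
      · have := (inA i hi).1 h1
        rw [hd1] at this
        exact Bool.false_ne_true this
      · show G'.Adj (c (s i)) (a (s j)) ↔ _
        rw [G'.adj_comm, hea j hj i hi, eq_comm (a := j)]

/-- three rails -/
private def r3 (p q r : ℕ → V) : ℕ → ℕ → V := fun i => if i = 0 then p else if i = 1 then q else r

/-- opposite half graphs -/
private theorem opp (b : ℕ) : ∃ m' : ℕ, ∀ (V : Type) [Finite V] (G G' : SimpleGraph V),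
    R3.Facts G → (∀ x, {y | ¬ (G'.Adj x y ↔ G.Adj x y)}.ncard ≤ b) → R3.F2 G' m' := by
  classical
  obtain ⟨m', hm'⟩ := W.ramC ((Fin 3 → Fin 3 → Bool) × (Fin 3 → Fin 3 → Bool)) (M0 + b + 2)
  refine ⟨m', ?_⟩
  intro V _ G G' hG hb
  rintro ⟨x, u, w, hx⟩
  have hM : M0 = 128 := rfl
  obtain ⟨s, d, hs, hsm, hd⟩ := hm' fun i j =>
    (fun c c' => decide (G.Adj (r3 w x u c i) (r3 w x u c' j)),
      fun c c' => decide (G'.Adj (r3 w x u c i) (r3 w x u c' j)))
  set K : ℕ := M0 + b + 2 with hK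
  have hne : ∀ i < K, ∀ j < K, i ≠ j → s i ≠ s j := by
    intro i hi j hj hij
    rcases lt_or_gt_of_ne hij with h1 | h1
    · exact (hs i j h1 (by omega)).ne
    · exact (hs j i h1 (by omega)).ne'
  have hxx : ∀ i k, r3 (fun k => w (s k)) (fun k => x (s k)) (fun k => u (s k)) i k =
      r3 w x u i (s k) := by
    intro i k
    unfold r3
    split
    · rfl
    · split <;> rfl
  have dis : ∀ c < 3, ∀ c' < 3, ∀ k < K, ∀ l < K, k ≠ l →
      r3 w x u c (s k) ≠ r3 w x u c' (s l) := by
    intro c hc c' hc' k hk l hl hkl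
    obtain ⟨d1, d2, d3, d4, -, -⟩ := hx _ (hsm k hk) _ (hsm l hl)
    obtain ⟨e1, e2, e3, e4, -, -⟩ := hx _ (hsm l hl) _ (hsm k hk)
    obtain ⟨g1, g2, g3⟩ := d4 (hne k hk l hl hkl)
    interval_cases c <;> interval_cases c'
    · exact g3
    · exact e2.symm
    · exact e3.symm
    · exact d2
    · exact g1.ne
    · exact d1
    · exact d3
    · exact e1.symm
    · exact g2
  have rG : ∀ c (hc : c < 3) c' (hc' : c' < 3) i j, i < j → j < K →
      (G.Adj (r3 w x u c (s i)) (r3 w x u c' (s j)) ↔ d.1 ⟨c, hc⟩ ⟨c', hc'⟩ = true) := by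
    intro c hc c' hc' i j hij hj
    have h1 := congrFun (congrFun (congrArg (fun p => p.1) (hd i j hij hj)) ⟨c, hc⟩) ⟨c', hc'⟩
    simp only at h1
    rw [← h1, decide_eq_true_iff]
  have rG' : ∀ c (hc : c < 3) c' (hc' : c' < 3) i j, i < j → j < K →
      (G'.Adj (r3 w x u c (s i)) (r3 w x u c' (s j)) ↔ d.2 ⟨c, hc⟩ ⟨c', hc'⟩ = true) := by
    intro c hc c' hc' i j hij hj
    have h1 := congrFun (congrFun (congrArg (fun p => p.2) (hd i j hij hj)) ⟨c, hc⟩) ⟨c', hc'⟩
    simp only at h1
    rw [← h1, decide_eq_true_iff]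
  have heq : ∀ c (hc : c < 3) c' (hc' : c' < 3), d.1 ⟨c, hc⟩ ⟨c', hc'⟩ = d.2 ⟨c, hc⟩ ⟨c', hc'⟩ := by
    intro c hc c' hc'
    by_contra hcon
    refine noEx hb (K := K) (by omega) (r3 w x u c (s 0)) (fun j => r3 w x u c' (s j))
      (fun i hi j hj hij => dis c' hc' c' hc' i hi j hj hij) ?_
    intro j h1 hj h2
    rw [rG' c hc c' hc' 0 j (by omega) hj, rG c hc c' hc' 0 j (by omega) hj] at h2
    exact hcon (Bool.eq_iff_iff.2 h2.symm)
  set E : ℕ → ℕ → Bool := fun i j => if h : i < 3 then if h' : j < 3 then d.1 ⟨i, h⟩ ⟨j, h'⟩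
    else false else false with hE
  have hEv : ∀ c (hc : c < 3) c' (hc' : c' < 3), E c c' = d.2 ⟨c, hc⟩ ⟨c', hc'⟩ := by
    intro c hc c' hc'
    rw [hE]
    simp only
    rw [dif_pos hc, dif_pos hc']
    exact heq c hc c' hc'
  have hh : Hom G 3 M0 (r3 (fun k => w (s k)) (fun k => x (s k)) (fun k => u (s k))) E := by
    refine ⟨?_, ?_⟩
    · intro i hi j hj k hk l hl hkl
      rw [hxx, hxx]
      exact dis i hi j hj k (by omega) l (by omega) hkl
    · intro i hi j hj k l hkl hl
      rw [hxx, hxx, rG i hi j hj k l hkl (by omega), hEv i hi j hj, heq i hi j hj]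
  have h01 : s 0 < s 1 := hs 0 1 (by omega) (by omega)
  obtain ⟨-, -, -, d4, d5, d6⟩ := hx _ (hsm 0 (by omega)) _ (hsm 1 (by omega))
  obtain ⟨-, -, -, -, e5, e6⟩ := hx _ (hsm 1 (by omega)) _ (hsm 0 (by omega))
  have tr : ∀ c (hc : c < 3) c' (hc' : c' < 3), G'.Adj (r3 w x u c (s 0)) (r3 w x u c' (s 1)) →
      E c c' = true := by
    intro c hc c' hc' h1
    rw [hEv c hc c' hc']
    exact (rG' c hc c' hc' 0 1 (by omega) (by omega)).1 h1
  have fa : ∀ c (hc : c < 3) c' (hc' : c' < 3), ¬ G'.Adj (r3 w x u c (s 0)) (r3 w x u c' (s 1)) →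
      E c c' = false := by
    intro c hc c' hc' h1
    rw [hEv c hc c' hc', ← Bool.not_eq_true]
    exact fun h2 => h1 ((rG' c hc c' hc' 0 1 (by omega) (by omega)).2 h2)
  refine hG.opK _ E hh (tr 1 (by omega) 1 (by omega) ?_) (tr 0 (by omega) 1 (by omega) ?_)
    (fa 1 (by omega) 0 (by omega) ?_) (tr 1 (by omega) 2 (by omega) ?_)
    (fa 2 (by omega) 1 (by omega) ?_)
  · exact (d4 h01.ne).1
  · show G'.Adj (w (s 0)) (x (s 1))
    exact d6.2 h01.le
  · show ¬ G'.Adj (x (s 0)) (w (s 1))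
    rw [G'.adj_comm, e6]
    omega
  · show G'.Adj (x (s 0)) (u (s 1))
    rw [G'.adj_comm, e5]
    omega
  · show ¬ G'.Adj (u (s 0)) (x (s 1))
    rw [d5]
    omega

end NMAux

theorem tNM : S_NM := by
  intro m w p k q N b
  obtain ⟨m₁, h1⟩ := NMAux.pat m w p k q N b false
  obtain ⟨m₂, h2⟩ := NMAux.pat m w p k q N b true
  obtain ⟨m₃, h3⟩ := NMAux.opp b
  refine ⟨m₁ + m₂ + m₃, ?_⟩
  intro V _ G G' B f hG hN hB hM
  refine ⟨?_, ?_, ?_⟩
  · rintro ⟨x, y, h⟩
    refine h1 V G G' B f hN hB hM x y fun i hi j hj => ?_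
    obtain ⟨h4, h5, h6⟩ := h i (by omega) j (by omega)
    exact ⟨h4, h5, by rw [h6]; simp⟩
  · rintro ⟨x, y, h⟩
    refine h2 V G G' B f hN hB hM x y fun i hi j hj => ?_
    obtain ⟨h4, h5, h6⟩ := h i (by omega) j (by omega)
    exact ⟨h4, h5, by rw [h6]; simp⟩
  · rintro ⟨x, u, v, h⟩
    exact h3 V G G' hG hM.deg ⟨x, u, v, fun i hi j hj => h i (by omega) j (by omega)⟩

end Pool.Agent.MPd439b2.ST
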