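import Pool.Agent.Lib.MP_d439b2_co.ST.Spec

/-!
# MP_d439b2_co, ST/O1
-/

set_option autoImplicit false

namespace Pool.Agent.MPd439b2.ST

open Pool.Agent.MPd439b2 Pool.Agent.MPd439b2.Rep

theorem tO1 : S_O1 := by
  intro V G B K Z b n C hF hS hn w hwK hwZ
  by_contra hc
  push Not at hc
  have h1 : ∀ i, ∃ x s s', i < 3 → (x ∈ C i ∧ x ∈ B ∧ s ∈ C i ∧ s ∉ B ∧ s' ∈ C i ∧ s' ∉ B ∧
      ¬ G.Adj x s ∧ ¬ G.Adj x s' ∧ ¬ G.Adj w s ∧ G.Adj w s') := by
    intro i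
    by_cases hi : i < 3
    · have h2 := hc i hi
      unfold Cst at h2
      push Not at h2
      obtain ⟨⟨y, hy, hwy⟩, y', hy', hwy'⟩ := h2
      obtain ⟨x, hx, s, hs, s', hs', h3, h4, h5, h6⟩ := (hS.con i (by omega)).swZ
        (fun y => ¬ G.Adj w y) hy hwy hy' (fun h => h hwy')
      exact ⟨x, s, s', fun _ => ⟨hx.1, hx.2, hs.1, hs.2, hs'.1, hs'.2, h3, h4, h5, not_not.1 h6⟩⟩
    · exact ⟨w, w, w, fun h => absurd h hi⟩
  choose x s s' hx using h1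
  have key : ∀ σ : ℕ → ℕ, (∀ i < 3, σ i < 3) → (∀ i < 3, ∀ j < 3, i ≠ j → σ i ≠ σ j) →
      ¬ G.Adj w (x (σ 0)) ∧ G.Adj w (x (σ 1)) := by
    intro σ h3 hinj
    have hn' : ∀ i < 3, σ i < n := fun i hi => lt_of_lt_of_le (h3 i hi) hn
    have hT : TP G 3 true false true (fun i => x (σ i)) (fun i => s (σ i)) :=
      hS.tp σ hn' hinj _ _ (fun i hi => ⟨(hx _ (h3 i hi)).1, (hx _ (h3 i hi)).2.1⟩)
        (fun i hi => ⟨(hx _ (h3 i hi)).2.2.1, (hx _ (h3 i hi)).2.2.2.1⟩)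
        (fun i hi => (hx _ (h3 i hi)).2.2.2.2.2.2.1)
    obtain ⟨a1, a2, a3, a4, a5, a6, a7, a8, a9, a10⟩ := hx _ (h3 0 (by omega))
    have hj : ∀ j < 3, j ≠ 0 → G.Adj (s' (σ 0)) (x (σ j)) := by
      intro j hj hj0
      have h4 := hx _ (h3 j hj)
      exact (hS.ant _ (hn' j hj) _ (hn' 0 (by omega)) (hinj j hj 0 (by omega) hj0) _ h4.1 h4.2.1 _
        a5 a6).symm
    have h5 := hF.f7 _ _ (s' (σ 0)) w hT (fun i hi => ?_) a10.symm (fun h => a8 h.symm)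
      (hj 1 (by omega) (by omega)) (hj 2 (by omega) (by omega))
    · exact ⟨h5.1, h5.2.1⟩
    · obtain ⟨b1, b2, b3, b4, b5, b6, b7, b8, b9, b10⟩ := hx _ (h3 i hi)
      refine ⟨fun h => a6 (h ▸ b2), fun h => b9 (h ▸ a10), fun h => hwK (h ▸ hS.inK (hn' i hi) b1 b2),
        fun h => hwZ (h ▸ hS.inZ (hn' i hi) b3 b4), hS.zs _ (hS.inZ (hn' 0 (by omega)) a5 a6) _
          (hS.inZ (hn' i hi) b3 b4), b9⟩
  have k1 := key id (fun i hi => hi) (fun _ _ _ _ h => h)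
  have k2 := key (fun i => if i = 0 then 1 else if i = 1 then 0 else i) (fun i hi => by
    show (if i = 0 then 1 else if i = 1 then 0 else i) < 3
    split
    · omega
    · split <;> omega) (fun i hi j hj hij => by
    show (if i = 0 then 1 else if i = 1 then 0 else i) ≠ (if j = 0 then 1 else if j = 1 then 0 else j)
    split <;> split <;> (try split) <;> (try split) <;> omega)
  exact k2.1 k1.2

end Pool.Agent.MPd439b2.ST
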