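import Pool.Agent.Lib.MP_d439b2_co.ST.Spec

/-!
# MP_d439b2_co, ST/O5
-/

set_option autoImplicit false

namespace Pool.Agent.MPd439b2.ST

open Pool.Agent.MPd439b2 Pool.Agent.MPd439b2.Rep

private theorem pick4 (a b c : ℕ) : ∃ d < 4, d ≠ a ∧ d ≠ b ∧ d ≠ c := by
  by_contra h
  push Not at h
  have h0 := h 0
  have h1 := h 1
  have h2 := h 2
  have h3 := h 3
  omega

/-- four things as a sequence -/
private def q4 {α : Type} (a b c d : α) (i : ℕ) : α :=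
  if i = 0 then a else if i = 1 then b else if i = 2 then c else d

private theorem all4 {P : ℕ → Prop} (h0 : P 0) (h1 : P 1) (h2 : P 2) (h3 : P 3) : ∀ i < 4, P i := by
  intro i hi
  rcases (by omega : i = 0 ∨ i = 1 ∨ i = 2 ∨ i = 3) with rfl | rfl | rfl | rfl
  · exact h0
  · exact h1
  · exact h2
  · exact h3

section

variable {V : Type} {G : SimpleGraph V} {B K Z : Set V} {b n : ℕ} {C : ℕ → Set V} {y : V}

/-- `Fcs.f2` for four different cells -/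
private theorem f2c (hF : Fcs G) (hS : Sys G B K Z b n C) (yK : y ∉ K) (yZ : y ∉ Z) {i j l m : ℕ}
    (hi : i < n) (hj : j < n) (hl : l < n) (hm : m < n) (hij : i ≠ j) (hil : i ≠ l) (him : i ≠ m)
    (hjl : j ≠ l) (hjm : j ≠ m) (hlm : l ≠ m) {k₁ z₁ k₂ z₂ z : V}
    (h1 : k₁ ∈ C i ∧ k₁ ∈ B ∧ z₁ ∈ C i ∧ z₁ ∉ B ∧ ¬ G.Adj k₁ z₁ ∧ ¬ G.Adj y k₁ ∧ ¬ G.Adj y z₁)
    (h2 : k₂ ∈ C j ∧ k₂ ∈ B ∧ z₂ ∈ C j ∧ z₂ ∉ B ∧ ¬ G.Adj k₂ z₂ ∧ ¬ G.Adj y k₂ ∧ ¬ G.Adj y z₂)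
    (hz : z ∈ C l) (hzB : z ∉ B) : ¬ G.Adj y z := by
  obtain ⟨k, hk, hkB, hkz⟩ := hS.legZ hl hz hzB
  obtain ⟨k', hk', hkB'⟩ := hS.nk m hm
  obtain ⟨z', hz', hzB', hkz'⟩ := hS.legK hm hk' hkB'
  have T : TP G 4 true false true (q4 k₁ k₂ k k') (q4 z₁ z₂ z z') := by
    refine hS.tp (q4 i j l m) (all4 hi hj hl hm) ?_ _ _ (all4 ⟨h1.1, h1.2.1⟩ ⟨h2.1, h2.2.1⟩
      ⟨hk, hkB⟩ ⟨hk', hkB'⟩) (all4 ⟨h1.2.2.1, h1.2.2.2.1⟩ ⟨h2.2.2.1, h2.2.2.2.1⟩ ⟨hz, hzB⟩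
      ⟨hz', hzB'⟩) (all4 h1.2.2.2.2.1 h2.2.2.2.2.1 hkz hkz')
    refine all4 (all4 ?_ ?_ ?_ ?_) (all4 ?_ ?_ ?_ ?_) (all4 ?_ ?_ ?_ ?_) (all4 ?_ ?_ ?_ ?_)
    all_goals
      intro h3
      first
        | exact absurd rfl h3
        | assumption
        | exact Ne.symm ‹_›
  refine hF.f2 _ _ y T (all4 ?_ ?_ ?_ ?_) h1.2.2.2.2.2.1 h1.2.2.2.2.2.2 h2.2.2.2.2.2.1
    h2.2.2.2.2.2.2
  · exact ⟨fun h => yK (h ▸ hS.inK hi h1.1 h1.2.1), fun h => yZ (h ▸ hS.inZ hi h1.2.2.1 h1.2.2.2.1)⟩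
  · exact ⟨fun h => yK (h ▸ hS.inK hj h2.1 h2.2.1), fun h => yZ (h ▸ hS.inZ hj h2.2.2.1 h2.2.2.2.1)⟩
  · exact ⟨fun h => yK (h ▸ hS.inK hl hk hkB), fun h => yZ (h ▸ hS.inZ hl hz hzB)⟩
  · exact ⟨fun h => yK (h ▸ hS.inK hm hk' hkB'), fun h => yZ (h ▸ hS.inZ hm hz' hzB')⟩

/-- Claim 1 -/
private theorem cl1 (hF : Fcs G) (hS : Sys G B K Z b n C) (hn : 4 ≤ n) (yK : y ∉ K) (yZ : y ∉ Z)
    {i j : ℕ} (hi : i < n) (hj : j < n) (hij : i ≠ j) (hU : ∃ t ∈ C i, t ∈ B ∧ ¬ G.Adj y t)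
    (hP : ∃ z ∈ C i, z ∉ B ∧ ¬ G.Adj y z) (hQ : ∃ z ∈ C j, z ∉ B ∧ ¬ G.Adj y z) :
    ∃ k z, k ∈ C i ∧ k ∈ B ∧ z ∈ C i ∧ z ∉ B ∧ ¬ G.Adj k z ∧ ¬ G.Adj y k ∧ ¬ G.Adj y z := by
  by_contra hno
  push Not at hno
  obtain ⟨s, hs, hsB, hys⟩ := hQ
  obtain ⟨k₂, hk₂, hk₂B, hk₂s⟩ := hS.legZ hj hs hsB
  obtain ⟨l, hl4, hli, hlj, -⟩ := pick4 i j j
  have hl : l < n := by omega
  obtain ⟨k₃, hk₃, hk₃B⟩ := hS.nk l hl
  obtain ⟨s₃, hs₃, hs₃B, hks₃⟩ := hS.legK hl hk₃ hk₃B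
  have hno' : ∀ k ∈ C i, k ∈ B → ∀ z ∈ C i, z ∉ B → ¬ G.Adj y k → ¬ G.Adj y z → G.Adj k z := by
    intro k hk hkB z hz hzB h1 h2
    by_contra h3
    exact h2 (hno k z hk hkB hz hzB h3 h1)
  have inK := @Sys.inK V G B K Z b n C hS
  have inZ := @Sys.inZ V G B K Z b n C hS
  -- (a)
  have ha : ∀ k ∈ C i, k ∈ B → ¬ G.Adj y k → ∀ k₀ ∈ C i, k₀ ∈ B → ∀ z₀ ∈ C i, z₀ ∉ B → ¬ G.Adj y z₀ →
      ¬ G.Adj k₀ z₀ → ∀ z ∈ C i, z ∉ B → G.Adj y z → ¬ G.Adj k₀ z → ¬ G.Adj k z → False := by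
    intro k hk hkB hyk k₀ hk₀ hk₀B z₀ hz₀ hz₀B hyz₀ hkz₀ z hz hzB hyz h1 h2
    have hyk₀ : G.Adj y k₀ := by
      by_contra h3
      exact hkz₀ (hno' k₀ hk₀ hk₀B z₀ hz₀ hz₀B h3 hyz₀)
    have hkz : G.Adj k z₀ := hno' k hk hkB z₀ hz₀ hz₀B hyk hyz₀
    have kk : k₀ ≠ k := fun h => hyk (h ▸ hyk₀)
    have zz : z₀ ≠ z := fun h => hyz₀ (h ▸ hyz)
    have nij : ∀ {u v : V} {a c : ℕ}, a < n → c < n → a ≠ c → u ∈ C a → v ∈ C c → u ≠ v := by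
      intro u v a c h3 h4 h5 h6 h7 h8
      exact Set.disjoint_left.1 (hS.dis _ h3 _ h4 h5) h6 (h8 ▸ h7)
    have ant : ∀ {u v : V} {a c : ℕ}, a < n → c < n → a ≠ c → u ∈ C a → u ∈ B → v ∈ C c → v ∉ B →
        G.Adj u v := fun h3 h4 h5 h6 h7 h8 h9 => hS.ant _ h3 _ h4 h5 _ h6 h7 _ h8 h9
    have Kk : ∀ a < 4, q4 k₀ k k₂ k₃ a ∈ K := all4 (inK hi hk₀ hk₀B) (inK hi hk hkB)
      (inK hj hk₂ hk₂B) (inK hl hk₃ hk₃B)
    have Zz : ∀ a < 4, q4 z₀ z s s₃ a ∈ Z := all4 (inZ hi hz₀ hz₀B) (inZ hi hz hzB)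
      (inZ hj hs hsB) (inZ hl hs₃ hs₃B)
    have Kn : ∀ a < 4, ∀ c < 4, a ≠ c → q4 k₀ k k₂ k₃ a ≠ q4 k₀ k k₂ k₃ c := by
      have e1 := nij hi hj hij hk₀ hk₂
      have e2 := nij hi hl (Ne.symm hli) hk₀ hk₃
      have e3 := nij hi hj hij hk hk₂
      have e4 := nij hi hl (Ne.symm hli) hk hk₃
      have e5 := nij hj hl (Ne.symm hlj) hk₂ hk₃
      refine all4 (all4 ?_ ?_ ?_ ?_) (all4 ?_ ?_ ?_ ?_) (all4 ?_ ?_ ?_ ?_) (all4 ?_ ?_ ?_ ?_)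
      all_goals
        intro h3
        first
          | exact absurd rfl h3
          | assumption
          | exact Ne.symm ‹_›
    have Zn : ∀ a < 4, ∀ c < 4, a ≠ c → q4 z₀ z s s₃ a ≠ q4 z₀ z s s₃ c := by
      have e1 := nij hi hj hij hz₀ hs
      have e2 := nij hi hl (Ne.symm hli) hz₀ hs₃
      have e3 := nij hi hj hij hz hs
      have e4 := nij hi hl (Ne.symm hli) hz hs₃
      have e5 := nij hj hl (Ne.symm hlj) hs hs₃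
      refine all4 (all4 ?_ ?_ ?_ ?_) (all4 ?_ ?_ ?_ ?_) (all4 ?_ ?_ ?_ ?_) (all4 ?_ ?_ ?_ ?_)
      all_goals
        intro h3
        first
          | exact absurd rfl h3
          | assumption
          | exact Ne.symm ‹_›
    have A : ∀ a < 4, ∀ c < 4, (G.Adj (q4 k₀ k k₂ k₃ a) (q4 z₀ z s s₃ c) ↔
        ¬ (a = c ∨ (a = 0 ∧ c = 1))) := by
      refine all4 (all4 ?_ ?_ ?_ ?_) (all4 ?_ ?_ ?_ ?_) (all4 ?_ ?_ ?_ ?_) (all4 ?_ ?_ ?_ ?_)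
      · exact iff_of_false hkz₀ (by omega)
      · exact iff_of_false h1 (by omega)
      · exact iff_of_true (ant hi hj hij hk₀ hk₀B hs hsB) (by omega)
      · exact iff_of_true (ant hi hl (Ne.symm hli) hk₀ hk₀B hs₃ hs₃B) (by omega)
      · exact iff_of_true hkz (by omega)
      · exact iff_of_false h2 (by omega)
      · exact iff_of_true (ant hi hj hij hk hkB hs hsB) (by omega)
      · exact iff_of_true (ant hi hl (Ne.symm hli) hk hkB hs₃ hs₃B) (by omega)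
      · exact iff_of_true (ant hj hi (Ne.symm hij) hk₂ hk₂B hz₀ hz₀B) (by omega)
      · exact iff_of_true (ant hj hi (Ne.symm hij) hk₂ hk₂B hz hzB) (by omega)
      · exact iff_of_false hk₂s (by omega)
      · exact iff_of_true (ant hj hl (Ne.symm hlj) hk₂ hk₂B hs₃ hs₃B) (by omega)
      · exact iff_of_true (ant hl hi hli hk₃ hk₃B hz₀ hz₀B) (by omega)
      · exact iff_of_true (ant hl hi hli hk₃ hk₃B hz hzB) (by omega)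
      · exact iff_of_true (ant hl hj hlj hk₃ hk₃B hs hsB) (by omega)
      · exact iff_of_false hks₃ (by omega)
    exact hF.f3 (q4 k₀ k k₂ k₃) (q4 z₀ z s s₃) y (fun a ha c hc =>
      ⟨fun h => hS.zB _ (Zz c hc) (h ▸ hS.kB _ (Kk a ha)), fun hac => ⟨Kn a ha c hc hac,
        Zn a ha c hc hac, hS.kc _ (Kk a ha) _ (Kk c hc) (Kn a ha c hc hac),
        hS.zs _ (Zz a ha) _ (Zz c hc)⟩, A a ha c hc⟩)
      (fun a ha => ⟨fun h => yK (h ▸ Kk a ha), fun h => yZ (h ▸ Zz a ha)⟩) hyz₀ hyk₀ hyz hyk hys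
  -- (b)
  obtain ⟨u, hu, huB, hyu⟩ := hU
  obtain ⟨v, hv, hvB, hyv⟩ := hP
  rcases hS.con i hi {k | (k ∈ C i ∧ k ∈ B) ∧ ∃ z, (z ∈ C i ∧ z ∉ B) ∧ ¬ G.Adj y z ∧ ¬ G.Adj k z}
    (fun k hk => hk.1) {z | (z ∈ C i ∧ z ∉ B) ∧ (¬ G.Adj y z ∨ ∃ k, ((k ∈ C i ∧ k ∈ B) ∧
      ∃ z, (z ∈ C i ∧ z ∉ B) ∧ ¬ G.Adj y z ∧ ¬ G.Adj k z) ∧ ¬ G.Adj k z)} (fun z hz => hz.1) (by
    intro x hx z hz hxz
    constructor
    · intro h1
      exact ⟨hz, Or.inr ⟨x, h1, hxz⟩⟩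
    · rintro ⟨-, h1 | ⟨k₀, ⟨hk₀, z₀, hz₀, hyz₀, hkz₀⟩, hk₀z⟩⟩
      · exact ⟨hx, z, hz, h1, hxz⟩
      · by_cases hyz : G.Adj y z
        · by_contra hxn
          have hxn' : ∀ z', z' ∈ C i → z' ∉ B → ¬ G.Adj y z' → G.Adj x z' := by
            intro z' h2 h3 h4
            by_contra h5
            exact hxn ⟨hx, z', ⟨h2, h3⟩, h4, h5⟩
          by_cases hyx : G.Adj y x
          · have hyk₀ : G.Adj y k₀ := by
              by_contra h3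
              exact hkz₀ (hno' k₀ hk₀.1 hk₀.2 z₀ hz₀.1 hz₀.2 h3 hyz₀)
            have hkx : k₀ ≠ x := fun h => hkz₀ (h ▸ hxn' z₀ hz₀.1 hz₀.2 hyz₀)
            have xK := inK hi hx.1 hx.2
            have k₀K := inK hi hk₀.1 hk₀.2
            have zZ := inZ hi hz.1 hz.2
            have z₀Z := inZ hi hz₀.1 hz₀.2
            have sZ := inZ hj hs hsB
            have hsub : ({s, z₀, z} : Set V) ⊆ Z := by
              rintro w (rfl | rfl | rfl)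
              · exact sZ
              · exact z₀Z
              · exact zZ
            refine hF.p6 {y, k₀, x} {s, z₀, z} ?_ (fun a ha c hc => hS.zs _ (hsub ha) _ (hsub hc)) ?_
              x (Or.inr (Or.inr rfl)) k₀ (Or.inr (Or.inl rfl)) y (Or.inl rfl) z
              (Or.inr (Or.inr rfl)) z₀ (Or.inr (Or.inl rfl)) s (Or.inl rfl) hxz
              (fun h => h (hxn' z₀ hz₀.1 hz₀.2 hyz₀))
              (fun h => h (hS.ant _ hi _ hj hij _ hx.1 hx.2 _ hs hsB)) hk₀z hkz₀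
              (fun h => h (hS.ant _ hi _ hj hij _ hk₀.1 hk₀.2 _ hs hsB)) (fun h => h hyz) hyz₀ hys
            · rintro a (rfl | rfl | rfl) c (rfl | rfl | rfl) hac
              · exact absurd rfl hac
              · exact hyk₀
              · exact hyx
              · exact hyk₀.symm
              · exact absurd rfl hac
              · exact hS.kc _ k₀K _ xK hac
              · exact hyx.symm
              · exact hS.kc _ xK _ k₀K hac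
              · exact absurd rfl hac
            · rw [Set.disjoint_left]
              rintro a (rfl | rfl | rfl) ha'
              · exact yZ (hsub ha')
              · exact hS.zB _ (hsub ha') (hS.kB _ k₀K)
              · exact hS.zB _ (hsub ha') (hS.kB _ xK)
          · exact ha x hx.1 hx.2 hyx k₀ hk₀.1 hk₀.2 z₀ hz₀.1 hz₀.2 hyz₀ hkz₀ z hz.1 hz.2 hyz hk₀z hxz
        · exact ⟨hx, z, hz, hyz, hxz⟩) with h1 | h1
  · have h2 := h1.2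
    rw [Set.eq_empty_iff_forall_notMem] at h2
    exact h2 v ⟨⟨hv, hvB⟩, Or.inl hyv⟩
  · have h2 : u ∈ C i ∩ B := ⟨hu, huB⟩
    rw [← h1.1] at h2
    obtain ⟨-, z, hz, hyz, huz⟩ := h2
    exact huz (hno' u hu huB z hz.1 hz.2 hyu hyz)

end

theorem tO5 : S_O5 := by
  intro V G B K Z b n C hF hS hn y yK yZ hall
  by_contra hc
  rw [not_or] at hc
  obtain ⟨hc1, hc2⟩ := hc
  push Not at hc2
  obtain ⟨i, hi, j, hj, hP, hQ, hij⟩ := hc2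
  obtain ⟨k₁, z₁, h1⟩ := cl1 hF hS hn yK yZ hi hj hij (hall i hi) hP hQ
  obtain ⟨k₂, z₂, h2⟩ := cl1 hF hS hn yK yZ hj hi (Ne.symm hij) (hall j hj) hQ hP
  -- Claim 2
  have c2 : ∀ l < n, l ≠ i → l ≠ j → ∀ z ∈ C l, z ∉ B → ¬ G.Adj y z := by
    intro l hl hli hlj z hz hzB
    obtain ⟨m, hm, hmi, hmj, hml⟩ := pick4 i j l
    exact f2c hF hS yK yZ hi hj hl (by omega : m < n) hij (Ne.symm hli) (Ne.symm hmi) (Ne.symm hlj)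
      (Ne.symm hmj) (Ne.symm hml) h1 h2 hz hzB
  -- Claim 3
  obtain ⟨l₁, hl₁, hl₁i, hl₁j, -⟩ := pick4 i j j
  obtain ⟨l₂, hl₂, hl₂i, hl₂j, hl₂₁⟩ := pick4 i j l₁
  have leg : ∀ l < n, l ≠ i → l ≠ j → ∃ t z, t ∈ C l ∧ t ∈ B ∧ z ∈ C l ∧ z ∉ B ∧ ¬ G.Adj t z ∧
      ¬ G.Adj y t ∧ ¬ G.Adj y z := by
    intro l hl hli hlj
    obtain ⟨t, ht, htB, hyt⟩ := hall l hl
    obtain ⟨z, hz, hzB, htz⟩ := hS.legK hl ht htB
    exact ⟨t, z, ht, htB, hz, hzB, htz, hyt, c2 l hl hli hlj z hz hzB⟩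
  obtain ⟨t₁, s₁, g1⟩ := leg l₁ (by omega) hl₁i hl₁j
  obtain ⟨t₂, s₂, g2⟩ := leg l₂ (by omega) hl₂i hl₂j
  refine hc1 fun l hl z hz hzB => ?_
  by_cases hli : l = i
  · subst hli
    exact f2c hF hS yK yZ (by omega : l₁ < n) (by omega : l₂ < n) hi hj (Ne.symm hl₂₁) hl₁i hl₁j hl₂i
      hl₂j hij g1 g2 hz hzB
  · by_cases hlj : l = j
    · subst hlj
      exact f2c hF hS yK yZ (by omega : l₁ < n) (by omega : l₂ < n) hj hi (Ne.symm hl₂₁) hl₁j hl₁i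
        hl₂j hl₂i (Ne.symm hij) g1 g2 hz hzB
    · exact c2 l hl hli hlj z hz hzB

end Pool.Agent.MPd439b2.ST
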