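import Pool.Agent.Lib.MP_d439b2_co.ST.Spec

/-! MP_d439b2_co, ST: proof of `S_P` (a vertex which meets two cells is constant on the other cells) -/

set_option autoImplicit false

namespace Pool.Agent.MPd439b2.ST

open Pool.Agent.MPd439b2 Pool.Agent.MPd439b2.Rep

namespace PAux

/-- the first case -/
theorem caseB {V : Type} {G : SimpleGraph V} {B K Z : Set V} {b n : ℕ} {C : ℕ → Set V}
    (hF : Fcs G) (hS : Sys G B K Z b n C) {v : V} (hv : v ∈ B)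
    (hK : ∀ x ∈ K, x ≠ v → G.Adj v x) {i l : ℕ} (hi : i < n) (hl : l < n) (hil : i ≠ l)
    (hT : Tc G B v (C i)) : Cst G v (C l \ B) := by
  by_contra hcon
  unfold Cst at hcon
  push Not at hcon
  obtain ⟨⟨y₀, hy₀, hn₀⟩, ⟨y₁, hy₁, hn₁⟩⟩ := hcon
  obtain ⟨k, hk, z, hz, z', hz', hkz, hkz', hvz, hvz'⟩ :=
    (hS.con l hl).swZ (fun y => ¬ G.Adj v y) hy₀ hn₀ hy₁ (not_not.2 hn₁)
  obtain ⟨c, hc, hcB, hvc⟩ : ∃ c ∈ C i, c ∉ B ∧ ¬ G.Adj v c := by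
    rcases hT with h | h
    · exact h.2
    · exact absurd hv h.1
  obtain ⟨c', hc', hc'B, hcc'⟩ := hS.legZ hi hc hcB
  have hcl : ∀ x ∈ insert v K, ∀ y ∈ insert v K, x ≠ y → G.Adj x y := by
    rintro x (rfl | hx) y (rfl | hy) hxy
    · exact absurd rfl hxy
    · exact hK y hy hxy.symm
    · exact (hK x hx hxy).symm
    · exact hS.kc x hx y hy hxy
  have hdis : Disjoint (insert v K) Z := by
    rw [Set.disjoint_left]
    rintro x (rfl | hx) hxZ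
    · exact hS.zB _ hxZ hv
    · exact hS.zB _ hxZ (hS.kB x hx)
  exact hF.p6 (insert v K) Z hcl hS.zs hdis c' (Or.inr (hS.inK hi hc' hc'B)) v (Or.inl rfl)
    k (Or.inr (hS.inK hl hk.1 hk.2)) c (hS.inZ hi hc hcB) z (hS.inZ hl hz.1 hz.2)
    z' (hS.inZ hl hz'.1 hz'.2) hcc'
    (not_not.2 (hS.ant i hi l hl hil c' hc' hc'B z hz.1 hz.2))
    (not_not.2 (hS.ant i hi l hl hil c' hc' hc'B z' hz'.1 hz'.2))
    hvc hvz hvz' (not_not.2 (hS.ant l hl i hi hil.symm k hk.1 hk.2 c hc hcB)) hkz hkz'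

/-- the second case -/
theorem caseA {V : Type} {G : SimpleGraph V} {B K Z : Set V} {b n : ℕ} {C : ℕ → Set V}
    (hF : Fcs G) (hS : Sys G B K Z b n C) {v : V} (hv : v ∉ B)
    (hZ : ∀ z ∈ Z, ¬ G.Adj v z) {i l : ℕ} (hi : i < n) (hl : l < n) (hil : i ≠ l)
    (hT : Tc G B v (C i)) : Cst G v (C l ∩ B) := by
  by_contra hcon
  unfold Cst at hcon
  push Not at hcon
  obtain ⟨⟨y₀, hy₀, hn₀⟩, ⟨y₁, hy₁, hn₁⟩⟩ := hcon
  obtain ⟨z, hz, k, hk, k', hk', hkz, hkz', hvk, hvk'⟩ :=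
    (hS.con l hl).swK (fun y => ¬ G.Adj v y) hy₀ hn₀ hy₁ (not_not.2 hn₁)
  obtain ⟨c, hc, hcB, hvc⟩ : ∃ c ∈ C i, c ∈ B ∧ ¬ G.Adj v c := by
    rcases hT with h | h
    · exact absurd h.1 hv
    · exact h.2
  obtain ⟨c', hc', hc'B, hcc'⟩ := hS.legK hi hc hcB
  have hst : ∀ x ∈ insert v Z, ∀ y ∈ insert v Z, ¬ G.Adj x y := by
    rintro x (rfl | hx) y (rfl | hy)
    · exact G.loopless.irrefl _
    · exact hZ y hy
    · exact fun h => hZ x hx h.symm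
    · exact hS.zs x hx y hy
  have hdis : Disjoint K (insert v Z) := by
    rw [Set.disjoint_left]
    rintro x hx (rfl | hxZ)
    · exact hv (hS.kB _ hx)
    · exact hS.zB _ hxZ (hS.kB x hx)
  have hvk2 : G.Adj k' v := (not_not.1 hvk').symm
  exact hF.p6 K (insert v Z) hS.kc hst hdis k' (hS.inK hl hk'.1 hk'.2) k (hS.inK hl hk.1 hk.2)
    c (hS.inK hi hc hcB) z (Or.inr (hS.inZ hl hz.1 hz.2)) v (Or.inl rfl)
    c' (Or.inr (hS.inZ hi hc' hc'B)) hkz' (not_not.2 hvk2)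
    (not_not.2 (hS.ant l hl i hi hil.symm k' hk'.1 hk'.2 c' hc' hc'B)) hkz
    (fun h => hvk h.symm)
    (not_not.2 (hS.ant l hl i hi hil.symm k hk.1 hk.2 c' hc' hc'B))
    (not_not.2 (hS.ant i hi l hl hil c hc hcB z hz.1 hz.2)) (fun h => hvc h.symm) hcc'

end PAux

open PAux in
theorem tP : S_P := by
  intro V G B K Z b n C hF hS v hvB hvA i hi j hj hij hTi hTj l hl _
  have key : ∃ t < n, t ≠ l ∧ Tc G B v (C t) := by
    by_cases h : i = l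
    · exact ⟨j, hj, fun h' => hij (h.trans h'.symm), hTj⟩
    · exact ⟨i, hi, h, hTi⟩
  obtain ⟨t, ht, htl, hTt⟩ := key
  exact ⟨fun hv => caseB hF hS hv (hvB hv) ht hl htl hTt,
    fun hv => caseA hF hS hv (hvA hv) ht hl htl hTt⟩

end Pool.Agent.MPd439b2.ST
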