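import Pool.Agent.Lib.MP_d439b2_co.ST.Spec

/-!
# MP_d439b2_co, ST/Pm: no long matchings and co-matchings
-/

set_option autoImplicit false

namespace Pool.Agent.MPd439b2.ST

open Pool.Agent.MPd439b2 Pool.Agent.MPd439b2.Rep

/-- the image of the first `k` indices -/
private theorem pm_card {V : Type} {k : ℕ} (a : ℕ → V)
    (h : ∀ i < k, ∀ j < k, i ≠ j → a i ≠ a j) :
    ∃ T : Finset V, T.card = k ∧ ∀ x ∈ T, ∃ i < k, a i = x := by
  classical
  refine ⟨(Finset.range k).image a, ?_, ?_⟩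
  · rw [Finset.card_image_of_injOn, Finset.card_range]
    intro i hi j hj hij
    by_contra hne
    exact h i (Finset.mem_range.1 hi) j (Finset.mem_range.1 hj) hne hij
  · intro x hx
    obtain ⟨i, hi, hix⟩ := Finset.mem_image.1 hx
    exact ⟨i, Finset.mem_range.1 hi, hix⟩

theorem tPm : S_Pm := by
  intro m k
  obtain ⟨m', hm'⟩ := typed (m + k)
  refine ⟨m', fun V G hG => ⟨?_, ?_⟩⟩
  · rintro ⟨a, b, hab⟩
    obtain ⟨s, t, a', b', h⟩ := hm' V G false a b fun i hi j hj =>
      ⟨(hab i hi j hj).1, (hab i hi j hj).2.1, by simpa using (hab i hi j hj).2.2⟩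
    exact hG s t false (by simp) a' b' (h.mono (Nat.le_add_right _ _))
  · rintro hk ⟨a, b, hab⟩
    obtain ⟨s, t, a', b', h⟩ := hm' V G true a b fun i hi j hj =>
      ⟨(hab i hi j hj).1, (hab i hi j hj).2.1, by simpa using (hab i hi j hj).2.2⟩
    have hmk : k ≤ m + k := Nat.le_add_left _ _
    refine hG s t true ?_ a' b' (h.mono (Nat.le_add_right _ _))
    rintro ⟨hst, -⟩
    -- one of `a'`, `b'` is a clique, the other one is a stable set
    have key : ∀ (c : ℕ → V) (s' : Bool), (∀ i < k, ∀ j < k, i ≠ j → c i ≠ c j) →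
        (∀ i < k, ∀ j < k, i ≠ j → (G.Adj (c i) (c j) ↔ s' = true)) →
        (s' = true → ∃ T : Finset V, R3.Clq G T ∧ T.card = k) ∧
        (s' = false → ∃ T : Finset V, R3.Stb G T ∧ T.card = k) := by
      intro c s' hc1 hc2
      obtain ⟨T, hT, hT2⟩ := pm_card c hc1
      constructor
      · intro hs
        refine ⟨T, fun x hx y hy hxy => ?_, hT⟩
        obtain ⟨i, hi, rfl⟩ := hT2 x hx
        obtain ⟨j, hj, rfl⟩ := hT2 y hy
        exact (hc2 i hi j hj (fun hij => hxy (by rw [hij]))).2 hs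
      · intro hs
        refine ⟨T, fun x hx y hy hxy => ?_, hT⟩
        obtain ⟨i, hi, rfl⟩ := hT2 x hx
        obtain ⟨j, hj, rfl⟩ := hT2 y hy
        have hij : i ≠ j := fun hij => hxy.ne (by rw [hij])
        rw [hc2 i hi j hj hij, hs] at hxy
        exact Bool.false_ne_true hxy
    have ha := key a' s (fun i hi j hj => h.ia i (hi.trans_le hmk) j (hj.trans_le hmk))
      (fun i hi j hj => h.aa i (hi.trans_le hmk) j (hj.trans_le hmk))
    have hb := key b' t (fun i hi j hj => h.ib i (hi.trans_le hmk) j (hj.trans_le hmk))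
      (fun i hi j hj => h.bb i (hi.trans_le hmk) j (hj.trans_le hmk))
    have h1 : (∃ T : Finset V, R3.Clq G T ∧ T.card = k) ∧
        ∃ T : Finset V, R3.Stb G T ∧ T.card = k := by
      cases s <;> cases t
      · exact (hst rfl).elim
      · exact ⟨hb.1 rfl, ha.2 rfl⟩
      · exact ⟨ha.1 rfl, hb.2 rfl⟩
      · exact (hst rfl).elim
    obtain ⟨⟨T₁, hT₁, hc₁⟩, ⟨T₂, hT₂, hc₂⟩⟩ := h1
    rcases hk with hk | hk
    · exact absurd (hk T₂ hT₂) (by omega)
    · exact absurd (hk T₁ hT₁) (by omega)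

end Pool.Agent.MPd439b2.ST
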