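import Pool.Agent.Lib.MP_d439b2_co.ST.Spec

/-!
# MP_d439b2_co, ST/Rd: the round (helper38)
-/

set_option autoImplicit false

namespace Pool.Agent.MPd439b2.ST

open Pool.Agent.MPd439b2 Pool.Agent.MPd439b2.Rep

namespace RdAux

variable {V : Type} {G : SimpleGraph V} {B : Set V} {f : V → ℕ} {w p k q b n : ℕ}
  {L : Set (Bool × ℕ × Set V)} {C : ℕ → Set V}

theorem sysl_mono (h : SysL G B f b L n C) {n' : ℕ} (hn : n' ≤ n) : SysL G B f b L n' C :=
  ⟨h.sys.mono hn, fun i hi => h.att i (lt_of_lt_of_le hi hn)⟩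

/-- enumerating a finite set of numbers -/
theorem enum (I : Finset ℕ) {m : ℕ} (h : m ≤ I.card) :
    ∃ φ : ℕ → ℕ, (∀ i < m, φ i ∈ I) ∧ ∀ i < m, ∀ j < m, i ≠ j → φ i ≠ φ j := by
  rcases Nat.eq_zero_or_pos I.card with h0 | h0
  · exact ⟨id, fun i hi => by omega, fun i hi => by omega⟩
  · let e := I.equivFin.symm
    refine ⟨fun i => e ⟨i % I.card, Nat.mod_lt _ h0⟩, fun i _ => (e _).2, ?_⟩
    intro i hi j hj hij h1
    have h2 := congrArg Fin.val (e.injective (Subtype.ext h1))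
    simp only [Nat.mod_eq_of_lt (lt_of_lt_of_le hi h), Nat.mod_eq_of_lt (lt_of_lt_of_le hj h)] at h2
    exact hij h2

theorem notC (h : SysL G B f b L n C) {v : V} (h1 : v ∉ Kb G B f L) (h2 : v ∉ Zb G B f L) {i : ℕ}
    (hi : i < n) : v ∉ C i := fun h3 => by
  rcases h.sys.sub i hi v h3 with h4 | h4
  · exact h1 h4
  · exact h2 h4

/-- a vertex outside `B` which has no neighbours in `Z` and is mixed on a cell meets only this cell -/
theorem tcA (hP : S_P) (hF : Fcs G) (h : SysL G B f b L n C) {v : V} (hv : v ∉ B)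
    (h2 : v ∉ Zb G B f L) (h3 : ∀ z ∈ Zb G B f L, ¬ G.Adj v z) {i : ℕ} (hi : i < n)
    (h4 : ¬ Cst G v (C i ∩ B)) : Tc G B v (C i) ∧ ∀ j < n, j ≠ i → ¬ Tc G B v (C j) := by
  have h1 : v ∉ Kb G B f L := fun h5 => hv h5.1
  have h5 : Tc G B v (C i) := by
    right
    refine ⟨hv, ?_⟩
    by_contra hcon
    push Not at hcon
    exact h4 (Or.inl fun y hy => hcon y hy.1 hy.2)
  refine ⟨h5, fun j hj hji h6 => h4 ?_⟩
  exact (hP V G B _ _ b n C hF h.sys v (fun h7 => absurd h7 hv) (fun _ => h3) j hj i hi hji h6 h5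
    i hi (notC h h1 h2 hi)).2 hv

/-- the same for a vertex of `B` which is complete to `K` -/
theorem tcB (hP : S_P) (hF : Fcs G) (h : SysL G B f b L n C) {v : V} (hv : v ∈ B)
    (h2 : v ∉ Kb G B f L) (h3 : ∀ z ∈ Kb G B f L, G.Adj v z) {i : ℕ} (hi : i < n)
    (h4 : ¬ Cst G v (C i \ B)) : Tc G B v (C i) ∧ ∀ j < n, j ≠ i → ¬ Tc G B v (C j) := by
  have h1 : v ∉ Zb G B f L := fun h5 => h5.1 hv
  have h5 : Tc G B v (C i) := by
    left
    refine ⟨hv, ?_⟩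
    by_contra hcon
    push Not at hcon
    exact h4 (Or.inl fun y hy => hcon y hy.1 hy.2)
  refine ⟨h5, fun j hj hji h6 => h4 ?_⟩
  exact (hP V G B _ _ b n C hF h.sys v (fun _ x hx _ => h3 x hx) (fun h7 => absurd hv h7) j hj i hi
    hji h6 h5 i hi (notC h h2 h1 hi)).1 hv

/-- (1) vertices outside `B` are complete or anticomplete to `Z` -/
theorem dich (hO1 : S_O1) (hF : Fcs G) (hb : Bas G B f w p k q) (h : SysL G B f b L n C)
    (hn : 3 ≤ n) {v : V} (hv : v ∉ B) (h2 : v ∉ Zb G B f L) (h3 : ∃ z ∈ Zb G B f L, ¬ G.Adj v z) :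
    ∀ z ∈ Zb G B f L, ¬ G.Adj v z := by
  obtain ⟨i, hi, hc⟩ := hO1 V G B _ _ b n C hF h.sys hn v (fun h5 => hv h5.1) h2
  have hi' : i < n := lt_of_lt_of_le hi hn
  have key : ∀ z ∈ Zb G B f L, ∃ x ∈ C i \ B, (G.Adj v x ↔ G.Adj v z) := by
    intro z hz
    obtain ⟨x, hx, hl⟩ := h.att i hi' _ hz.2
    have hxB : x ∉ B := fun h5 => hz.1 ((lab_iff hl).1 h5)
    refine ⟨x, ⟨hx, hxB⟩, ?_⟩
    rw [G.adj_comm v x, G.adj_comm v z]
    exact hb.lab_adjA hxB hl hv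
  obtain ⟨z₀, hz₀, hvz₀⟩ := h3
  obtain ⟨x₀, hx₀, h6⟩ := key z₀ hz₀
  rcases hc with hc | hc
  · exact absurd (h6.1 (hc x₀ hx₀)) hvz₀
  · intro z hz hvz
    obtain ⟨x, hx, h7⟩ := key z hz
    exact hc x hx (h7.2 hvz)

/-- the indices of the cells on which some vertex of the class `c` outside `B` is mixed -/
def I2 (G : SimpleGraph V) (B : Set V) (f : V → ℕ) (L : Set (Bool × ℕ × Set V)) (C : ℕ → Set V)
    (c i : ℕ) : Prop :=
  ∃ v, v ∉ B ∧ v ∉ Zb G B f L ∧ f v = c ∧ (∃ z ∈ Zb G B f L, ¬ G.Adj v z) ∧ ¬ Cst G v (C i ∩ B)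

open Classical in
/-- (2) -/
theorem two [Finite V] (hP : S_P) (hO1 : S_O1) (hE : S_Ex) (hF : Fcs G) (hb : Bas G B f w p k q)
    (h : SysL G B f b L n C) (hn : 3 ≤ n) {n' : ℕ} (hn' : 1 ≤ n')
    (hneg : ¬ ∃ l, l ∉ L ∧ ∃ C' : ℕ → Set V, SysL G B f b (insert l L) n' C') (c : ℕ) :
    ((Finset.range n).filter fun i => I2 G B f L C c i).card < n' := by
  by_contra hcon
  rw [not_lt] at hcon
  obtain ⟨φ, hφ, hinj⟩ := enum _ hcon
  have hφ' : ∀ i < n', φ i < n ∧ I2 G B f L C c (φ i) := fun i hi => by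
    have := hφ i hi
    rw [Finset.mem_filter, Finset.mem_range] at this
    exact this
  have hex : ∀ i, ∃ v, i < n' → v ∉ B ∧ v ∉ Zb G B f L ∧ f v = c ∧
      (∃ z ∈ Zb G B f L, ¬ G.Adj v z) ∧ ¬ Cst G v (C (φ i) ∩ B) := by
    intro i
    by_cases hi : i < n'
    · obtain ⟨v, hv⟩ := (hφ' i hi).2
      exact ⟨v, fun _ => hv⟩
    · obtain ⟨v, -⟩ := (hφ' 0 (by omega)).2
      exact ⟨v, fun h1 => absurd h1 hi⟩
  choose u hu using hex
  have hlab : ∀ i < n', lab G B f (u i) = (false, c, ∅) := fun i hi => by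
    rw [lab_A (hu i hi).1, (hu i hi).2.2.1]
  have hl : ((false, c, ∅) : Bool × ℕ × Set V) ∉ L := fun h1 =>
    (hu 0 (by omega)).2.1 ⟨(hu 0 (by omega)).1, by rw [hlab 0 (by omega)]; exact h1⟩
  have hanti : ∀ i < n', ∀ z ∈ Zb G B f L, ¬ G.Adj (u i) z := fun i hi =>
    dich hO1 hF hb h hn (hu i hi).1 (hu i hi).2.1 (hu i hi).2.2.2.1
  refine hneg ⟨(false, c, ∅), hl, _, hE V G B f w p k q b n n' L C (false, c, ∅) φ u hb h hl ?_
    hinj ?_ ?_⟩
  · intro i hi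
    obtain ⟨h1, h2⟩ := tcA hP hF h (hu i hi).1 (hu i hi).2.1 (hanti i hi) (hφ' i hi).1
      (hu i hi).2.2.2.2
    exact ⟨(hφ' i hi).1, hlab i hi, h1, h2⟩
  · intro x hx hlx
    rw [lab_B hx] at hlx
    exact absurd (congrArg Prod.fst hlx) (by simp)
  · intro x hx hlx y hy hxy
    have h1 : lab G B f x = lab G B f (u 0) := hlx.trans (hlab 0 (by omega)).symm
    exact hanti 0 (by omega) y hy ((hb.lab_adjA hx h1 hy.1).1 hxy)

/-- the closed neighbourhoods of the mixed vertices in `B`, complete to `K` -/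
def S3 (G : SimpleGraph V) (B : Set V) (f : V → ℕ) (L : Set (Bool × ℕ × Set V)) (C : ℕ → Set V)
    (a i : ℕ) : Set (Set V) :=
  {N | ∃ y ∈ B, y ∉ Kb G B f L ∧ f y = a ∧ (∀ x ∈ Kb G B f L, G.Adj y x) ∧
    ¬ Cst G y (C i \ B) ∧ nB G B y = N}

open Classical in
/-- (3) -/
theorem three [Finite V] (hP : S_P) (hE : S_Ex) (hGr : S_Gr) (hF : Fcs G)
    (hb : Bas G B f w p k q) {r₁ : ℕ} (h1 : Hy1 G B f r₁) (hr : 1 ≤ r₁)
    (h : SysL G B f b L n C) {n' : ℕ} (hn' : 1 ≤ n')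
    (hneg : ¬ ∃ l, l ∉ L ∧ ∃ C' : ℕ → Set V, SysL G B f b (insert l L) n' C') (a : ℕ) :
    ((Finset.range n).filter fun i => (S3 G B f L C a i).Nonempty).card ≤ r₁ + r₁ * n' := by
  obtain ⟨I, N, hI, hI', hN, hN', hIN⟩ := hGr (Set V) n r₁ (S3 G B f L C a) hr (by
    rintro ⟨φ, v, hφ, hinj⟩
    have hex : ∀ i, ∃ y, i < r₁ → y ∈ B ∧ y ∉ Kb G B f L ∧ f y = a ∧
        (∀ x ∈ Kb G B f L, G.Adj y x) ∧ ¬ Cst G y (C (φ i) \ B) ∧ nB G B y = v i := by
      intro i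
      by_cases hi : i < r₁
      · obtain ⟨y, hy, hy'⟩ := (hφ i hi).2
        exact ⟨y, fun _ => ⟨hy, hy'⟩⟩
      · obtain ⟨y, -⟩ := (hφ 0 (by omega)).2
        exact ⟨y, fun h1 => absurd h1 hi⟩
    choose y hy using hex
    have htc : ∀ i < r₁, Tc G B (y i) (C (φ i)) ∧ ∀ j < n, j ≠ φ i → ¬ Tc G B (y i) (C j) :=
      fun i hi => tcB hP hF h (hy i hi).1 (hy i hi).2.1 (hy i hi).2.2.2.1 (hφ i hi).1
        (hy i hi).2.2.2.2.1
    have hex2 : ∀ i, ∃ z, i < r₁ → z ∈ C (φ i) ∧ z ∉ B ∧ ¬ G.Adj (y i) z := by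
      intro i
      by_cases hi : i < r₁
      · rcases (htc i hi).1 with ⟨-, z, hz⟩ | ⟨h3, -⟩
        · exact ⟨z, fun _ => hz⟩
        · exact absurd (hy i hi).1 h3
      · exact ⟨y i, fun h1 => absurd h1 hi⟩
    choose z hz using hex2
    have hyne : ∀ i < r₁, ∀ j < r₁, i ≠ j → nB G B (y i) ≠ nB G B (y j) := by
      intro i hi j hj hij
      rw [(hy i hi).2.2.2.2.2, (hy j hj).2.2.2.2.2]
      exact (hinj i hi j hj hij).2
    refine h1 y z ⟨?_, ?_, ?_, ?_, ?_, ?_⟩ (fun i hi => ⟨(hy i hi).1, (hz i hi).2.1⟩)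
      (fun i hi j hj => by rw [(hy i hi).2.2.1, (hy j hj).2.2.1]) hyne
    · exact fun i hi j hj h3 => (hz j hj).2.1 (h3 ▸ (hy i hi).1)
    · exact fun i hi j hj hij h3 => hyne i hi j hj hij (by rw [h3])
    · intro i hi j hj hij h3
      exact Set.disjoint_left.1 (h.sys.dis _ (hφ i hi).1 _ (hφ j hj).1 (hinj i hi j hj hij).1)
        (hz i hi).1 (h3 ▸ (hz j hj).1)
    · intro i hi j hj hij
      refine iff_of_true (hb.cl _ (hy i hi).1 _ (hy j hj).1 (by
        rw [(hy i hi).2.2.1, (hy j hj).2.2.1]) fun h3 => hyne i hi j hj hij (by rw [h3])) rfl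
    · intro i hi j hj hij
      refine iff_of_false (h.sys.zs _ (h.sys.inZ (hφ i hi).1 (hz i hi).1 (hz i hi).2.1) _
        (h.sys.inZ (hφ j hj).1 (hz j hj).1 (hz j hj).2.1)) (by simp)
    · intro i hi j hj
      by_cases hij : i = j
      · subst hij
        exact iff_of_false (hz i hi).2.2 (by simp)
      · refine iff_of_true ?_ (by simp [hij])
        by_contra h3
        exact (htc i hi).2 (φ j) (hφ j hj).1 (hinj i hi j hj hij).1.symm
          (Or.inl ⟨(hy i hi).1, z j, (hz j hj).1, (hz j hj).2.1, h3⟩))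
  have hX : ∀ X : Set V, ((Finset.range n).filter fun i => X ∈ S3 G B f L C a i).card ≤ n' := by
    intro X
    by_contra hcon
    rw [not_le] at hcon
    obtain ⟨φ, hφ, hinj⟩ := enum _ hcon.le
    have hφ' : ∀ i < n', φ i < n ∧ X ∈ S3 G B f L C a (φ i) := fun i hi => by
      have := hφ i hi
      rw [Finset.mem_filter, Finset.mem_range] at this
      exact this
    have hex : ∀ i, ∃ y, i < n' → y ∈ B ∧ y ∉ Kb G B f L ∧ f y = a ∧
        (∀ x ∈ Kb G B f L, G.Adj y x) ∧ ¬ Cst G y (C (φ i) \ B) ∧ nB G B y = X := by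
      intro i
      by_cases hi : i < n'
      · obtain ⟨y, hy, hy'⟩ := (hφ' i hi).2
        exact ⟨y, fun _ => ⟨hy, hy'⟩⟩
      · obtain ⟨y, -⟩ := (hφ' 0 (by omega)).2
        exact ⟨y, fun h1 => absurd h1 hi⟩
    choose u hu using hex
    have hlab : ∀ i < n', lab G B f (u i) = (true, a, X) := fun i hi => by
      rw [lab_B (hu i hi).1, (hu i hi).2.2.1, (hu i hi).2.2.2.2.2]
    have hl : ((true, a, X) : Bool × ℕ × Set V) ∉ L := fun h1 =>
      (hu 0 (by omega)).2.1 ⟨(hu 0 (by omega)).1, by rw [hlab 0 (by omega)]; exact h1⟩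
    refine hneg ⟨(true, a, X), hl, _, hE V G B f w p k q b n n' L C (true, a, X) φ u hb h hl ?_
      hinj ?_ ?_⟩
    · intro i hi
      obtain ⟨h1, h2⟩ := tcB hP hF h (hu i hi).1 (hu i hi).2.1 (hu i hi).2.2.2.1 (hφ' i hi).1
        (hu i hi).2.2.2.2.1
      exact ⟨(hφ' i hi).1, hlab i hi, h1, h2⟩
    · intro x hx hlx y hy
      have h2 : lab G B f (u 0) = lab G B f x := (hlab 0 (by omega)).trans hlx.symm
      have h3 := lab_nB (hu 0 (by omega)).1 h2
      have h4 : y ∈ nB G B x := by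
        rw [← h3]
        exact ⟨hy.1, Or.inr ((hu 0 (by omega)).2.2.2.1 y hy)⟩
      refine h4.2.resolve_left fun h5 => hl ?_
      rw [← hlx, ← h5]
      exact hy.2
    · intro x hx hlx
      rw [lab_A hx] at hlx
      exact absurd (congrArg Prod.fst hlx) (by simp)
  have hsub : ((Finset.range n).filter fun i => (S3 G B f L C a i).Nonempty) ⊆
      hI.toFinset ∪ hN.toFinset.biUnion fun X =>
        (Finset.range n).filter fun i => X ∈ S3 G B f L C a i := by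
    intro i hi
    rw [Finset.mem_filter, Finset.mem_range] at hi
    rw [Finset.mem_union]
    by_cases h3 : i ∈ I
    · exact Or.inl (hI.mem_toFinset.2 h3)
    · right
      obtain ⟨X, hX⟩ := hi.2
      rw [Finset.mem_biUnion]
      exact ⟨X, hN.mem_toFinset.2 (hIN i hi.1 h3 hX),
        Finset.mem_filter.2 ⟨Finset.mem_range.2 hi.1, hX⟩⟩
  refine (Finset.card_le_card hsub).trans ((Finset.card_union_le _ _).trans ?_)
  have h4 := Finset.card_biUnion_le_card_mul hN.toFinset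
    (fun X => (Finset.range n).filter fun i => X ∈ S3 G B f L C a i) n' fun X _ => hX X
  rw [Set.ncard_eq_toFinset_card _ hI] at hI'
  rw [Set.ncard_eq_toFinset_card _ hN] at hN'
  have h5 := Nat.mul_le_mul_right n' hN'.le
  omega

/-- the indices of the cells on which some vertex of `B` is mixed which is anticomplete to the class with the label
`τ` -/
def I4 (G : SimpleGraph V) (B : Set V) (f : V → ℕ) (L : Set (Bool × ℕ × Set V)) (C : ℕ → Set V)
    (a : ℕ) (τ : Bool × ℕ × Set V) (i : ℕ) : Prop :=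
  ∃ y ∈ B, y ∉ Kb G B f L ∧ f y = a ∧ ¬ Cst G y (C i \ B) ∧
    ∃ x ∈ Kb G B f L, lab G B f x = τ ∧ ¬ G.Adj y x

open Classical in
/-- (4) -/
theorem four (hO5 : S_O5) (hO6 : S_O6) (hF : Fcs G)
    (hb : Bas G B f w p k q) (h : SysL G B f b L n C) (hn : 10 ≤ n) (a : ℕ)
    {τ : Bool × ℕ × Set V} (hτ : τ ∈ L) :
    ((Finset.range n).filter fun i => I4 G B f L C a τ i).card ≤ 4 := by
  by_contra hcon
  rw [not_le] at hcon
  obtain ⟨φ, hφ, hinj⟩ := enum _ (show 5 ≤ _ from hcon)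
  have hφ' : ∀ i < 5, φ i < n ∧ I4 G B f L C a τ (φ i) := fun i hi => by
    have := hφ i hi
    rw [Finset.mem_filter, Finset.mem_range] at this
    exact this
  -- five other indices
  obtain ⟨ψ, hψ, hψi⟩ := enum ((Finset.range n) \ ((Finset.range 5).image φ)) (m := 5) (by
    have h1 := Finset.le_card_sdiff ((Finset.range 5).image φ) (Finset.range n)
    have h2 : ((Finset.range 5).image φ).card ≤ 5 := by
      refine Finset.card_image_le.trans ?_
      rw [Finset.card_range]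
    rw [Finset.card_range] at h1
    omega)
  have hψ' : ∀ i < 5, ψ i < n ∧ ∀ j < 5, φ j ≠ ψ i := fun i hi => by
    have h3 := hψ i hi
    rw [Finset.mem_sdiff, Finset.mem_range] at h3
    exact ⟨h3.1, fun j hj h4 => h3.2 (Finset.mem_image.2 ⟨j, Finset.mem_range.2 hj, h4⟩)⟩
  have hex : ∀ i, ∃ y, i < 5 → y ∈ B ∧ y ∉ Kb G B f L ∧ f y = a ∧ ¬ Cst G y (C (φ i) \ B) ∧
      ∃ x ∈ Kb G B f L, lab G B f x = τ ∧ ¬ G.Adj y x := by
    intro i
    by_cases hi : i < 5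
    · obtain ⟨y, hy, hy'⟩ := (hφ' i hi).2
      exact ⟨y, fun _ => ⟨hy, hy'⟩⟩
    · obtain ⟨y, -⟩ := (hφ' 0 (by omega)).2
      exact ⟨y, fun h1 => absurd h1 hi⟩
  choose y hy using hex
  -- `y` is not adjacent to all vertices with the label `τ`
  have hyt : ∀ i < 5, ∀ t, lab G B f t = τ → ¬ G.Adj (y i) t := by
    intro i hi t ht h1
    obtain ⟨x, hx, hxl, hxy⟩ := (hy i hi).2.2.2.2
    have htK : t ∈ Kb G B f L := by
      refine ⟨(lab_iff (hxl.trans ht.symm)).1 hx.1, ?_⟩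
      rw [ht]
      exact hτ
    refine hxy ?_
    have h2 := (lab_adjB hx.1 (hxl.trans ht.symm) (hy i hi).1 (z := y i)
      (fun h3 => (hy i hi).2.1 (h3 ▸ hx)) (fun h3 => (hy i hi).2.1 (h3 ▸ htK))).2 h1.symm
    exact h2.symm
  -- `y` meets only one cell
  have hone : ∀ i < 5, (∃ z ∈ C (φ i), z ∉ B ∧ ¬ G.Adj (y i) z) ∧
      ∀ j < n, j ≠ φ i → ∀ z ∈ C j, z ∉ B → G.Adj (y i) z := by
    intro i hi
    have h1 : ∃ z ∈ C (φ i), z ∉ B ∧ ¬ G.Adj (y i) z := by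
      by_contra hcon
      push Not at hcon
      exact (hy i hi).2.2.2.1 (Or.inl fun z hz => hcon z hz.1 hz.2)
    refine ⟨h1, ?_⟩
    rcases hO5 V G B _ _ b n C hF h.sys (by omega) (y i) (hy i hi).2.1
      (fun h2 => h2.1 (hy i hi).1) (by
        intro j hj
        obtain ⟨t, ht, htl⟩ := h.att j hj τ hτ
        obtain ⟨x, hx, hxl, -⟩ := (hy i hi).2.2.2.2
        exact ⟨t, ht, (lab_iff (hxl.trans htl.symm)).1 hx.1, hyt i hi t htl⟩) with h2 | h2
    · exact absurd (Or.inr fun z hz => h2 _ (hφ' i hi).1 z hz.1 hz.2) (hy i hi).2.2.2.1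
    · intro j hj hji z hz hzB
      by_contra h3
      exact hji (h2 j hj (φ i) (hφ' i hi).1 ⟨z, hz, hzB, h3⟩ h1)
  have hyne : ∀ i < 5, ∀ j < 5, i ≠ j → y i ≠ y j := by
    intro i hi j hj hij h3
    obtain ⟨z, hz, hzB, hzy⟩ := (hone i hi).1
    rw [h3] at hzy
    exact hzy ((hone j hj).2 (φ i) (hφ' i hi).1 (hinj i hi j hj hij) z hz hzB)
  have hext : ∀ j, ∃ t, j < 5 → t ∈ C (ψ j) ∧ lab G B f t = τ := by
    intro j
    by_cases hj : j < 5
    · obtain ⟨t, ht, htl⟩ := h.att (ψ j) (hψ' j hj).1 τ hτ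
      exact ⟨t, fun _ => ⟨ht, htl⟩⟩
    · exact ⟨y 0, fun h1 => absurd h1 hj⟩
  choose t ht using hext
  refine hO6 V G B _ _ b n C hF h.sys (fun i => if i < 5 then φ i else ψ (i - 5)) y t ?_ ?_ ?_ ?_ ?_
  · intro i hi
    split_ifs with h1
    · exact (hφ' i h1).1
    · exact (hψ' (i - 5) (by omega)).1
  · intro i hi j hj hij
    split_ifs with h1 h2 h2
    · exact hinj i h1 j h2 hij
    · exact (hψ' (j - 5) (by omega)).2 i h1
    · exact ((hψ' (i - 5) (by omega)).2 j h2).symm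
    · exact hψi (i - 5) (by omega) (j - 5) (by omega) (by omega)
  · intro i hi
    rw [if_pos hi]
    exact ⟨(hy i hi).2.1, fun h2 => h2.1 (hy i hi).1, (hone i hi).1, (hone i hi).2⟩
  · intro i hi j hj hij
    exact hb.cl _ (hy i hi).1 _ (hy j hj).1 (by rw [(hy i hi).2.2.1, (hy j hj).2.2.1])
      (hyne i hi j hj hij)
  · intro j hj
    rw [if_neg (by omega), Nat.add_sub_cancel_left]
    obtain ⟨x, hx, hxl, -⟩ := (hy 0 (by omega)).2.2.2.2
    exact ⟨(ht j hj).1, (lab_iff (hxl.trans (ht j hj).2.symm)).1 hx.1,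
      fun i hi => hyt i hi _ (ht j hj).2⟩

/-- (5) -/
theorem five (hGr : S_Gr) (hb : Bas G B f w p k q) {r₀ : ℕ} (h2 : Hy2 G r₀) (hr : 1 ≤ r₀)
    (h : SysL G B f b L n C) (hn : 1 ≤ n) (c : ℕ) :
    ∃ (I : Set ℕ) (N : Set (Set V)), I.Finite ∧ I.ncard < r₀ ∧ N.Finite ∧ N.ncard < r₀ ∧
      ∀ i < n, i ∉ I → {X | ∃ x ∈ C i, x ∈ B ∧ Rz G B f (Zb G B f L) c x = X} ⊆ N := by
  refine hGr (Set V) n r₀ (fun i => {X | ∃ x ∈ C i, x ∈ B ∧ Rz G B f (Zb G B f L) c x = X}) hr ?_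
  rintro ⟨φ, v, hφ, hinj⟩
  have hex : ∀ i, ∃ x, i < r₀ → x ∈ C (φ i) ∧ x ∈ B ∧ Rz G B f (Zb G B f L) c x = v i := by
    intro i
    by_cases hi : i < r₀
    · obtain ⟨x, hx⟩ := (hφ i hi).2
      exact ⟨x, fun _ => hx⟩
    · obtain ⟨x, -⟩ := (hφ 0 (by omega)).2
      exact ⟨x, fun h1 => absurd h1 hi⟩
  choose x hx using hex
  have hex2 : ∀ i, ∃ z, i < r₀ → z ∈ C (φ i) ∧ z ∉ B ∧ ¬ G.Adj (x i) z := by
    intro i
    by_cases hi : i < r₀
    · obtain ⟨z, hz⟩ := h.sys.legK (hφ i hi).1 (hx i hi).1 (hx i hi).2.1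
      exact ⟨z, fun _ => hz⟩
    · exact ⟨x i, fun h1 => absurd h1 hi⟩
  choose z hz using hex2
  have htp := h.sys.tp (m := r₀) φ (fun i hi => (hφ i hi).1) (fun i hi j hj hij =>
    (hinj i hi j hj hij).1) x z (fun i hi => ⟨(hx i hi).1, (hx i hi).2.1⟩)
    (fun i hi => ⟨(hz i hi).1, (hz i hi).2.1⟩) (fun i hi => (hz i hi).2.2)
  refine h2 x z {v | v ∉ B ∧ f v = c ∧ ∀ z ∈ Zb G B f L, G.Adj v z} htp ?_ ?_ ?_
  · intro y hy y' hy'
    exact hb.stb hy.1 hy'.1 (hy.2.1.trans hy'.2.1.symm)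
  · intro i hi y hy
    refine ⟨fun h3 => hy.1 (h3 ▸ (hx i hi).2.1), (hy.2.2 _ ?_).symm⟩
    exact h.sys.inZ (hφ i hi).1 (hz i hi).1 (hz i hi).2.1
  · intro i hi j hj hij
    by_contra hcon
    push Not at hcon
    refine (hinj i hi j hj hij).2 ?_
    rw [← (hx i hi).2.2, ← (hx j hj).2.2]
    ext u
    constructor
    · rintro ⟨g1, g2, g3, g4⟩
      exact ⟨g1, g2, g3, ((hcon u ⟨g1, g2, g3⟩).1 g4.symm).symm⟩
    · rintro ⟨g1, g2, g3, g4⟩
      exact ⟨g1, g2, g3, ((hcon u ⟨g1, g2, g3⟩).2 g4.symm).symm⟩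

end RdAux

open RdAux in
/-- **Rd.** The round. -/
theorem tRd (hGr : S_Gr) (hP : S_P) (hSat : S_Sat) (hO1 : S_O1) (hO5 : S_O5) (hO6 : S_O6)
    (hE : S_Ex) (hCr : S_Cr) : S_Rd := by
  classical
  intro w p r₀ r₁ M n₁
  refine ⟨p * (n₁ + 1) + w * (r₁ + r₁ * (n₁ + 1)) + 4 * (w * M) + p * r₀ + 12, ?_⟩
  intro V _ G B f k q b L C₀ hF hb h1 h2 hMC hLM hS₀
  obtain ⟨n, hn⟩ : ∃ n, n = p * (n₁ + 1) + w * (r₁ + r₁ * (n₁ + 1)) + 4 * (w * M) + p * r₀ + 12 :=
    ⟨_, rfl⟩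
  rw [← hn] at hS₀
  obtain ⟨n', hn'⟩ : ∃ n', n' = n₁ + 1 := ⟨_, rfl⟩
  rw [← hn'] at hn
  obtain ⟨C, -, h, hsat⟩ := hSat V G B f b n L C₀ hF hS₀
  by_contra hneg₀
  have hneg : ¬ ∃ l, l ∉ L ∧ ∃ C' : ℕ → Set V, SysL G B f b (insert l L) n' C' := by
    rintro ⟨l, hl, C', hC'⟩
    exact hneg₀ ⟨l, hl, C', sysl_mono hC' (by omega)⟩
  -- `r₀`, `r₁` are positive
  have hr₁ : 1 ≤ r₁ := by
    by_contra hcon
    have h0 : r₁ = 0 := by omega
    subst h0
    obtain ⟨x, -⟩ := h.sys.nk 0 (by omega)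
    exact h1 (fun _ => x) (fun _ => x) ⟨by omega, by omega, by omega, by omega, by omega, by omega⟩
      (by omega) (by omega) (by omega)
  have hr₀ : 1 ≤ r₀ := by
    by_contra hcon
    have h0 : r₀ = 0 := by omega
    subst h0
    obtain ⟨x, -⟩ := h.sys.nk 0 (by omega)
    exact h2 (fun _ => x) (fun _ => x) ∅ ⟨by omega, by omega, by omega, by omega, by omega,
      by omega⟩ (fun y hy => hy.elim) (by omega) (by omega)
  -- `L` is finite
  have hLf : L.Finite := by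
    refine (Set.toFinite (lab G B f '' C 0)).subset fun l hl => ?_
    obtain ⟨x, hx, hxl⟩ := h.att 0 (by omega) l hl
    exact ⟨x, hx, hxl⟩
  -- the bad indices
  have e2 := fun c : ℕ => two hP hO1 hE hF hb h (by omega) (n' := n') (by omega) hneg c
  have e3 := fun a : ℕ => three hP hE hGr hF hb h1 hr₁ h (n' := n') (by omega) hneg a
  have e4 := fun (a : ℕ) (τ : Bool × ℕ × Set V) (hτ : τ ∈ L) =>
    four hO5 hO6 hF hb h (by omega) a hτ
  choose I₅ N₅ f1 f2 f3 f4 f5 using fun c : ℕ => five hGr hb h2 hr₀ h (by omega) c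
  set T₂ : Finset ℕ := (Finset.range p).biUnion fun c =>
    (Finset.range n).filter fun i => I2 G B f L C c i with hT₂
  set T₃ : Finset ℕ := (Finset.range w).biUnion fun a =>
    (Finset.range n).filter fun i => (S3 G B f L C a i).Nonempty with hT₃
  set T₄ : Finset ℕ := (Finset.range w ×ˢ hLf.toFinset).biUnion fun s =>
    (Finset.range n).filter fun i => I4 G B f L C s.1 s.2 i with hT₄
  set T₅ : Finset ℕ := (Finset.range p).biUnion fun c => (f1 c).toFinset with hT₅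
  have g2 : T₂.card ≤ p * n' := by
    have := Finset.card_biUnion_le_card_mul (Finset.range p)
      (fun c => (Finset.range n).filter fun i => I2 G B f L C c i) n' fun c _ => (e2 c).le
    rwa [Finset.card_range] at this
  have g3 : T₃.card ≤ w * (r₁ + r₁ * n') := by
    have := Finset.card_biUnion_le_card_mul (Finset.range w)
      (fun a => (Finset.range n).filter fun i => (S3 G B f L C a i).Nonempty) (r₁ + r₁ * n')
      fun a _ => e3 a
    rwa [Finset.card_range] at this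
  have g4 : T₄.card ≤ 4 * (w * M) := by
    have h3 := Finset.card_biUnion_le_card_mul (Finset.range w ×ˢ hLf.toFinset)
      (fun s => (Finset.range n).filter fun i => I4 G B f L C s.1 s.2 i) 4 fun s hs =>
        e4 s.1 s.2 (hLf.mem_toFinset.1 (Finset.mem_product.1 hs).2)
    rw [Finset.card_product, Finset.card_range, ← Set.ncard_eq_toFinset_card _ hLf] at h3
    have h4 := Nat.mul_le_mul_left w hLM
    refine h3.trans ?_
    omega
  have g5 : T₅.card ≤ p * r₀ := by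
    have := Finset.card_biUnion_le_card_mul (Finset.range p) (fun c => (f1 c).toFinset) r₀
      fun c _ => by
        rw [← Set.ncard_eq_toFinset_card _ (f1 c)]
        exact (f2 c).le
    rwa [Finset.card_range] at this
  obtain ⟨i, hi⟩ : ∃ i ∈ Finset.range n, i ∉ ((T₂ ∪ T₃) ∪ (T₄ ∪ T₅)) := by
    refine Finset.exists_mem_notMem_of_card_lt_card ?_
    have u1 := Finset.card_union_le (T₂ ∪ T₃) (T₄ ∪ T₅)
    have u2 := Finset.card_union_le T₂ T₃
    have u3 := Finset.card_union_le T₄ T₅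
    rw [Finset.card_range]
    omega
  obtain ⟨hin, hib⟩ := hi
  rw [Finset.mem_range] at hin
  simp only [Finset.mem_union, not_or] at hib
  obtain ⟨⟨b2, b3⟩, b4, b5⟩ := hib
  -- the cut-rank of the cell `i`
  have hcr := hCr V G B f w p k q M r₀ (Zb G B f L) (C i) L N₅ hb hLf hLM (by
    intro x hx
    rcases h.sys.sub i hin x hx with h3 | h3
    · exact h3.2
    · exact h3.2) (by
    intro v hv hvB
    by_cases hvK : v ∈ Kb G B f L
    · exact (hsat v (Or.inl hvK) i hin hv).1 hvB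
    · by_contra hcst
      by_cases hco : ∀ x ∈ Kb G B f L, G.Adj v x
      · apply b3
        rw [hT₃, Finset.mem_biUnion]
        exact ⟨f v, Finset.mem_range.2 (hb.fB v hvB), Finset.mem_filter.2
          ⟨Finset.mem_range.2 hin, nB G B v, v, hvB, hvK, rfl, hco, hcst, rfl⟩⟩
      · push Not at hco
        obtain ⟨x, hx, hvx⟩ := hco
        apply b4
        rw [hT₄, Finset.mem_biUnion]
        exact ⟨(f v, lab G B f x), Finset.mem_product.2 ⟨Finset.mem_range.2 (hb.fB v hvB),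
          hLf.mem_toFinset.2 hx.2⟩, Finset.mem_filter.2 ⟨Finset.mem_range.2 hin, v, hvB, hvK, rfl,
            hcst, x, hx, rfl, hvx⟩⟩) (by
    intro v hv hvB hvz
    by_cases hvZ : v ∈ Zb G B f L
    · exact (hsat v (Or.inr hvZ) i hin hv).2 hvB
    · by_contra hcst
      apply b2
      rw [hT₂, Finset.mem_biUnion]
      exact ⟨f v, Finset.mem_range.2 (hb.fA v hvB), Finset.mem_filter.2
        ⟨Finset.mem_range.2 hin, v, hvB, hvZ, rfl, hvz.resolve_left hvZ, hcst⟩⟩) (by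
    intro c hc
    refine ⟨f3 c, (f4 c).le, fun x hx hxB => f5 c i hin ?_ ⟨x, hx, hxB, rfl⟩⟩
    intro h3
    apply b5
    rw [hT₅, Finset.mem_biUnion]
    exact ⟨c, Finset.mem_range.2 hc, (f1 c).mem_toFinset.2 h3⟩)
  obtain ⟨j, hj, hji⟩ : ∃ j < n, j ≠ i := by
    by_cases h3 : i = 0
    · exact ⟨1, by omega, by omega⟩
    · exact ⟨0, by omega, fun h4 => h3 h4.symm⟩
  rcases hMC _ hcr with h3 | h3
  · exact absurd (h.sys.big i hin) (not_lt.2 h3)
  · have h4 : (C j).ncard ≤ (C i)ᶜ.ncard :=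
      Set.ncard_le_ncard (fun x hx hx' => Set.disjoint_left.1 (h.sys.dis j hj i hin hji) hx hx')
        (Set.toFinite _)
    have := h.sys.big j hj
    omega

end Pool.Agent.MPd439b2.ST
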