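import Pool.Agent.Lib.MP_d439b2_co.ST.Spec

/-! MP_d439b2_co, ST: proof of `S_Sat` (saturated systems) -/

set_option autoImplicit false

namespace Pool.Agent.MPd439b2.ST

open Pool.Agent.MPd439b2 Pool.Agent.MPd439b2.Rep

theorem tSat (h1 : S_P) (h2 : S_Mx) : S_Sat := by
  intro V _ G B f b n L C hF hS
  obtain ⟨C', hC1, hC2, hC3⟩ := h2 V G B (Kb G B f L) (Zb G B f L) b n C hS.sys
  refine ⟨C', hC1, ⟨hC2, ?_⟩, ?_⟩
  · intro i hi l hl
    obtain ⟨x, hx, hxl⟩ := hS.att i hi l hl
    exact ⟨x, hC1 i hi hx, hxl⟩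
  · intro v hv l hl hvl
    by_cases hin : ∃ i < n, v ∈ C' i
    · obtain ⟨i, hi, hvi⟩ := hin
      have hil : i ≠ l := by
        rintro rfl
        exact hvl hvi
      refine ⟨fun hvB => Or.inl ?_, fun hvB => Or.inl ?_⟩
      · intro y hy
        exact hC2.ant i hi l hl hil v hvi hvB y hy.1 hy.2
      · intro y hy
        exact (hC2.ant l hl i hi hil.symm y hy.1 hy.2 v hvi hvB).symm
    · push Not at hin
      by_cases hT : ∃ i < n, Tc G B v (C' i)
      · obtain ⟨i, hi, hTi⟩ := hT
        obtain ⟨j, hj, hji, hTj⟩ := hC3 v hv hin i hi hTi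
        refine h1 V G B (Kb G B f L) (Zb G B f L) b n C' hF hC2 v ?_ ?_ i hi j hj hji.symm hTi hTj
          l hl hvl
        · intro hvB x hx hxv
          rcases hv with hv | hv
          · exact hC2.kc v hv x hx hxv.symm
          · exact absurd hvB (hC2.zB v hv)
        · intro hvB z hz
          rcases hv with hv | hv
          · exact absurd (hC2.kB v hv) hvB
          · exact hC2.zs v hv z hz
      · push Not at hT
        refine ⟨fun hvB => Or.inl ?_, fun hvB => Or.inl ?_⟩
        · intro y hy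
          by_contra hcon
          exact hT l hl (Or.inl ⟨hvB, y, hy.1, hy.2, hcon⟩)
        · intro y hy
          by_contra hcon
          exact hT l hl (Or.inr ⟨hvB, y, hy.1, hy.2, hcon⟩)

end Pool.Agent.MPd439b2.ST
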