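import Pool.Agent.Lib.MP_d439b2_co.ST.Spec
import Pool.Agent.Lib.MP_d439b2_co.R3.Split

/-!
# MP_d439b2_co, ST: the split lemma
-/

set_option autoImplicit false

namespace Pool.Agent.MPd439b2.ST

open Pool.Agent.MPd439b2 Pool.Agent.MPd439b2.Rep

namespace SpAux

open R3.splitAux

theorem adj_all {V : Type} {G : SimpleGraph V} {k q m : ℕ} {y : ℕ → ℕ → V} (g : Grd G k q y)
    (hmq : m ≤ q) (h1 : ∀ a < k, G.Adj (y a 0) (y a 1)) {a : ℕ} (ha : a < k) :
    ∀ i < m, ∀ j < m, i ≠ j → (G.Adj (y a i) (y a j) ↔ true = true) := by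
  intro i hi j hj hij
  refine iff_of_true ?_ rfl
  rcases lt_or_gt_of_ne hij with h | h
  · exact (g.hom a ha a ha i j h (lt_of_lt_of_le hj hmq)).2 (h1 a ha)
  · exact ((g.hom a ha a ha j i h (lt_of_lt_of_le hi hmq)).2 (h1 a ha)).symm

/-- Not both `E a b` and `E b a`. -/
theorem noCo' {V : Type} {G : SimpleGraph V} {k q m : ℕ} {y : ℕ → ℕ → V} (g : Grd G k q y)
    (hmq : m ≤ q) (hC : NoTP G m true true true) (hd : ∀ a < k, G.Adj (y a 0) (y a 1))
    {a b : ℕ} (ha : a < k) (hb : b < k) (hab : a ≠ b)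
    (h1 : G.Adj (y a 0) (y b 1)) (h2 : G.Adj (y b 0) (y a 1)) : False := by
  refine hC (y a) (y b) ⟨?_, ?_, ?_, adj_all g hmq hd ha, adj_all g hmq hd hb, ?_⟩
  · intro i hi j hj
    exact g.dif a ha b hb i (lt_of_lt_of_le hi hmq) j (lt_of_lt_of_le hj hmq) (Or.inl hab)
  · intro i hi j hj hij
    exact g.dif a ha a ha i (lt_of_lt_of_le hi hmq) j (lt_of_lt_of_le hj hmq) (Or.inr hij)
  · intro i hi j hj hij
    exact g.dif b hb b hb i (lt_of_lt_of_le hi hmq) j (lt_of_lt_of_le hj hmq) (Or.inr hij)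
  · intro i hi j hj
    have hi' : i < q := lt_of_lt_of_le hi hmq
    have hj' : j < q := lt_of_lt_of_le hj hmq
    rcases lt_trichotomy i j with h | h | h
    · refine iff_of_true ((g.hom a ha b hb i j h hj').2 h1) ?_
      simp [ne_of_lt h]
    · subst h
      refine iff_of_false (g.row a ha b hb i hi') ?_
      simp
    · refine iff_of_true ((g.hom b hb a ha j i h hi').2 h2).symm ?_
      simp [ne_of_gt h]

theorem matP_mono {V : Type} {G : SimpleGraph V} {m m' : ℕ} (h : m' ≤ m) (hM : X2.MatP G m) :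
    X2.MatP G m' := by
  obtain ⟨a, b, hab⟩ := hM
  exact ⟨a, b, fun i hi j hj => hab i (lt_of_lt_of_le hi h) j (lt_of_lt_of_le hj h)⟩

end SpAux

open SpAux R3.splitAux in
/-- **Sp.** The split lemma. -/
theorem tSp (h1 : S_Pm) (h2 : R3.S_Pairs) : S_Sp := by
  intro m₀
  obtain ⟨m', hm'⟩ := h1 m₀ 0
  obtain ⟨m, hm⟩ : ∃ m, m = max m₀ m' := ⟨_, rfl⟩
  obtain ⟨K₀, hK₀⟩ := W.ramC (Prop × Prop) m
  obtain ⟨k, hk⟩ : ∃ k, k = K₀ + m + 2 := ⟨_, rfl⟩
  obtain ⟨q, hq⟩ : ∃ q, q = 2 * k + m + 2 := ⟨_, rfl⟩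
  obtain ⟨s, hs⟩ := W.ramC (Fin k → Fin k → Prop) q
  refine ⟨k, s * k + 1, ?_⟩
  intro V _ G hNP
  have hM : ¬ X2.MatP G m := fun h =>
    (hm' V G hNP).1 (matP_mono (hm ▸ le_max_right _ _) h)
  have hC : NoTP G m true true true :=
    (hNP true true true (fun h => h.1 rfl)).mono (hm ▸ le_max_left _ _)
  classical
  have hfin : {B : Finset V | ∀ T ⊆ B, R3.Stb G T → T.card < k}.Finite := Set.toFinite _
  have hne : {B : Finset V | ∀ T ⊆ B, R3.Stb G T → T.card < k}.Nonempty := by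
    refine ⟨∅, ?_⟩
    intro T hT _
    have : T = ∅ := Finset.subset_empty.1 hT
    rw [this, Finset.card_empty]
    omega
  obtain ⟨B, hB, hBmax⟩ := Set.exists_max_image _ (fun B : Finset V => B.card) hfin hne
  refine ⟨B, hB, ?_⟩
  intro K hKB hKc
  by_contra hlt
  rw [not_lt] at hlt
  obtain ⟨x, hx0, hx1, hx2, hx3⟩ := h2 V G k s B K (by omega) hB
    (fun B' hB' => hBmax B' hB') hKB hKc (by omega)
  obtain ⟨σ, E, hσ, hσs, hE⟩ := hs
    (fun i j => fun a b : Fin k => G.Adj (x a i) (x b j))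
  -- the grid
  have hσ' : ∀ i < q, ∀ j < q, i ≠ j → σ i ≠ σ j := by
    intro i hi j hj hij
    rcases lt_or_gt_of_ne hij with h | h
    · exact ne_of_lt (hσ i j h hj)
    · exact ne_of_gt (hσ j i h hi)
  have hom : ∀ a < k, ∀ b < k, ∀ i j, i < j → j < q →
      (G.Adj (x a (σ i)) (x b (σ j)) ↔ G.Adj (x a (σ 0)) (x b (σ 1))) := by
    intro a ha b hb i j hij hj
    have e1 := congrFun (congrFun (hE i j hij hj) ⟨a, ha⟩) ⟨b, hb⟩
    have e2 := congrFun (congrFun (hE 0 1 (by omega) (by omega)) ⟨a, ha⟩) ⟨b, hb⟩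
    exact Iff.of_eq (e1.trans e2.symm)
  have g : Grd G k q (fun a i => x a (σ i)) := by
    refine ⟨?_, ?_, hom⟩
    · intro a ha b hb i hi j hj h
      refine hx2 a ha b hb (σ i) (hσs i hi) (σ j) (hσs j hj) ?_
      rcases h with h | h
      · exact Or.inl h
      · exact Or.inr (hσ' i hi j hj h)
    · intro a ha b hb i hi
      exact hx3 a ha b hb (σ i) (hσs i hi)
  have hdiag : ∀ a < k, G.Adj (x a (σ 0)) (x a (σ 1)) := by
    intro a ha
    rcases Nat.eq_zero_or_pos a with h0 | h0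
    · subst h0
      refine hKc _ (hx0 _ (hσs 0 (by omega))) _ (hx0 _ (hσs 1 (by omega))) ?_
      exact g.dif 0 ha 0 ha 0 (by omega) 1 (by omega) (Or.inr (by omega))
    · by_contra hna
      have hT := hB ((Finset.range k).image (fun i => x a (σ i))) ?_ ?_
      · rw [Finset.card_image_of_injOn, Finset.card_range] at hT
        · exact absurd hT (lt_irrefl _)
        · intro i hi j hj hij
          have hi' : i < k := Finset.mem_range.1 hi
          have hj' : j < k := Finset.mem_range.1 hj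
          by_contra hne
          exact g.dif a ha a ha i (by omega) j (by omega) (Or.inr hne) hij
      · intro v hv
        obtain ⟨i, hi, rfl⟩ := Finset.mem_image.1 hv
        have hi' : i < k := Finset.mem_range.1 hi
        exact hx1 a ha h0 _ (hσs i (by omega))
      · intro u hu v hv hadj
        obtain ⟨i, hi, rfl⟩ := Finset.mem_image.1 hu
        obtain ⟨j, hj, rfl⟩ := Finset.mem_image.1 hv
        have hi' : i < k := Finset.mem_range.1 hi
        have hj' : j < k := Finset.mem_range.1 hj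
        rcases lt_trichotomy i j with h | h | h
        · exact hna ((hom a ha a ha i j h (by omega)).1 hadj)
        · subst h
          exact G.loopless.irrefl _ hadj
        · exact hna ((hom a ha a ha j i h (by omega)).1 hadj.symm)
  obtain ⟨τ, c, hτ, hτk, hc⟩ := hK₀
    (fun a b => (G.Adj (x a (σ 0)) (x b (σ 1)), G.Adj (x b (σ 0)) (x a (σ 1))))
  have hτk' : ∀ c < m, τ c < k := fun c hc => lt_of_lt_of_le (hτk c hc) (by omega)
  by_cases hc1 : c.1
  · apply hM
    refine mat2 g (by omega) τ hτk' hdiag ?_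
    intro i j hij hj hadj
    have e := congrArg Prod.fst (hc i j hij hj)
    have e' : G.Adj (x (τ i) (σ 0)) (x (τ j) (σ 1)) := by
      have e2 : G.Adj (x (τ i) (σ 0)) (x (τ j) (σ 1)) = c.1 := e
      rw [e2]
      exact hc1
    exact noCo' g (by omega) hC hdiag (hτk' i (by omega)) (hτk' j hj) (ne_of_lt (hτ i j hij hj))
      e' hadj
  · apply hM
    refine mat1 g (by omega) τ hτk' hdiag ?_
    intro i j hij hj hadj
    have e : G.Adj (x (τ i) (σ 0)) (x (τ j) (σ 1)) = c.1 :=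
      congrArg Prod.fst (hc i j hij hj)
    apply hc1
    rw [← e]
    exact hadj

end Pool.Agent.MPd439b2.ST
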