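import Pool.Agent.Lib.MP_d439b2_co.ST.Spec
import Pool.Agent.Lib.MP_d439b2_co.R3.Part

/-!
# MP_d439b2_co, ST: the staircase structure of the modified graph
-/

set_option autoImplicit false

namespace Pool.Agent.MPd439b2.ST

open Pool.Agent.MPd439b2 Pool.Agent.MPd439b2.Rep

namespace StAux

open R3.partAux

theorem key {V : Type} [Finite V] (G : SimpleGraph V) (w p q : ℕ) (B : Finset V)
    (cA : V → Fin p)
    (hA : ∀ x ∉ B, ∀ y ∉ B, cA x = cA y → ∀ z ∉ B, (G.Adj x z ↔ G.Adj y z))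
    (cB : V → Fin w) (ρB : V → ℕ) (hB : ∀ i, R3.Rk G {x | x ∈ B ∧ cB x = i} ρB)
    (cz : Fin p → V → Fin q) (tz : Fin p → Fin q → Fin w → Bool) (ρz : Fin p → V → ℕ)
    (hz : ∀ z, ∀ x ∈ {x | x ∉ B ∧ cA x = z}, ∀ y ∈ {x | x ∉ B ∧ cA x = z},
      cz z x = cz z y → x ≠ y → ρz z x ≠ ρz z y ∧ (ρz z x < ρz z y → ∀ a : Fin w,
        (tz z (cz z x) a = true →
          R3.nn G {x | x ∈ B ∧ cB x = a} x ≤ R3.nn G {x | x ∈ B ∧ cB x = a} y) ∧
        (tz z (cz z x) a = false →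
          R3.nn G {x | x ∈ B ∧ cB x = a} y ≤ R3.nn G {x | x ∈ B ∧ cB x = a} x)))
    (n : ℕ) (e : Fin w ⊕ (Fin p × Fin q) ≃ Fin n) :
    ∃ S : X2.St V n, S.G = G ∧ (∀ i, S.t i = true → ∀ j, S.s i j = true) ∧
      ∀ x, (S.t (S.c x) = true ↔ x ∈ B) := by
  classical
  obtain ⟨N0, hN0⟩ : ∃ N, ∀ x, ρB x ≤ N := by
    obtain ⟨N, hN⟩ := (Set.finite_range ρB).bddAbove
    exact ⟨N, fun x => hN ⟨x, rfl⟩⟩
  let ρ : V → ℕ := fun x => if x ∈ B then N0 - ρB x else ρz (cA x) x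
  have rB : ∀ x, x ∈ B → ρ x = N0 - ρB x := fun x hx => by simp [ρ, hx]
  have rA : ∀ x, x ∉ B → ρ x = ρz (cA x) x := fun x hx => by simp [ρ, hx]
  refine ⟨{ G := G, c := fun x => e (cl B cB cA cz x), ρ := ρ,
            s := fun i j => sg tz (e.symm i) (e.symm j), t := fun i => (e.symm i).isLeft,
            inj := ?_, typ := ?_, dn := ?_, up := ?_ }, rfl, ?_, ?_⟩
  · intro x y hc hρ
    rcases cl_eq (e.injective hc) with ⟨hx, hy, h1⟩ | ⟨hx, hy, h1, h2⟩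
    · rw [rB x hx, rB y hy] at hρ
      refine (hB (cB x)).inj x ⟨hx, rfl⟩ y ⟨hy, h1.symm⟩ ?_
      have := hN0 x
      have := hN0 y
      omega
    · rw [rA x hx, rA y hy, ← h1] at hρ
      by_contra hxy
      exact (hz (cA x) x ⟨hx, rfl⟩ y ⟨hy, h1.symm⟩ h2 hxy).1 hρ
  · intro x y hxy hc
    rcases cl_eq (e.injective hc) with ⟨hx, hy, h1⟩ | ⟨hx, hy, h1, h2⟩
    · have h3 : G.Adj x y := (hB (cB x)).cl x ⟨hx, rfl⟩ y ⟨hy, h1.symm⟩ hxy
      simp only [Equiv.symm_apply_apply, cl_B hx, Sum.isLeft_inl]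
      exact ⟨fun _ => trivial, fun _ => h3⟩
    · simp only [Equiv.symm_apply_apply, cl_A hx, Sum.isLeft_inr]
      refine ⟨fun h => ?_, fun h => absurd h (by simp)⟩
      exact absurd ((hA x hx y hy h1 y hy).1 h) (G.loopless.irrefl y)
  · intro x x' y hc hρ hcy hs ha
    simp only [Equiv.symm_apply_apply] at hs
    rcases cl_eq (e.injective hc) with ⟨hx, hx', h1⟩ | ⟨hx, hx', h1, h2⟩
    · rw [rB x hx, rB x' hx'] at hρ
      have hyx : y ≠ x := fun h => hcy (by rw [h])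
      refine ((hB (cB x)).mono x' ⟨hx', h1.symm⟩ x ⟨hx, rfl⟩ ?_ y ha.symm hyx).symm
      omega
    · by_cases hy : y ∈ B
      · rw [rA x hx, rA x' hx', ← h1] at hρ
        rw [cl_A hx, cl_B hy] at hs
        have hxx : x ≠ x' := by
          intro h; rw [h] at hρ; exact absurd hρ (lt_irrefl _)
        have h3 := ((hz (cA x) x ⟨hx, rfl⟩ x' ⟨hx', h1.symm⟩ h2 hxx).2 hρ (cB y)).1 hs
        exact nn_le (hB (cB y)) (fun h => hx h.1) (fun h => hx' h.1) h3 ⟨hy, rfl⟩ ha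
      · exact (hA x hx x' hx' h1 y hy).2 ha
  · intro x x' y hc hρ hcy hs ha
    simp only [Equiv.symm_apply_apply] at hs
    rcases cl_eq (e.injective hc) with ⟨hx, hx', h1⟩ | ⟨hx, hx', h1, h2⟩
    · rw [cl_B hx] at hs
      exact absurd hs (by simp [sg])
    · by_cases hy : y ∈ B
      · rw [rA x hx, rA x' hx', ← h1] at hρ
        rw [cl_A hx, cl_B hy] at hs
        have hxx : x ≠ x' := by
          intro h; rw [h] at hρ; exact absurd hρ (lt_irrefl _)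
        have h3 := ((hz (cA x) x ⟨hx, rfl⟩ x' ⟨hx', h1.symm⟩ h2 hxx).2 hρ (cB y)).2 hs
        exact nn_le (hB (cB y)) (fun h => hx' h.1) (fun h => hx h.1) h3 ⟨hy, rfl⟩ ha
      · exact (hA x hx x' hx' h1 y hy).1 ha
  · intro i hi j
    show sg tz (e.symm i) (e.symm j) = true
    have hi' : (e.symm i).isLeft = true := hi
    cases h : e.symm i with
    | inl a => rfl
    | inr b => rw [h] at hi'; exact absurd hi' (by simp)
  · intro x
    show (e.symm (e (cl B cB cA cz x))).isLeft = true ↔ x ∈ B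
    rw [Equiv.symm_apply_apply]
    by_cases hx : x ∈ B
    · rw [cl_B hx]
      exact iff_of_true rfl hx
    · rw [cl_A hx]
      exact iff_of_false (by simp) hx

end StAux

open StAux in
/-- **St.** The staircase structure of the modified graph. -/
theorem tSt (h1 : S_NM) (h2 : S_F34) (h3 : S_ZC) (h4 : R3.S_BClass) : S_St := by
  intro m w₀ p₀ k q₀ N b
  obtain ⟨m', hm'⟩ := h1 m w₀ p₀ k q₀ N b
  obtain ⟨m₁, hm₁⟩ := h2 m
  obtain ⟨w, hw⟩ := h4 m' k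
  obtain ⟨q, hq⟩ := h3 m₁ b w
  let e : Fin w ⊕ (Fin (p₀ + 1) × Fin q) ≃ Fin (w + (p₀ + 1) * q) :=
    (Equiv.sumCongr (Equiv.refl _) finProdFinEquiv).trans finSumFinEquiv
  refine ⟨w + (p₀ + 1) * q, ?_⟩
  intro V _ G G' B f hF hNP hb hMd
  obtain ⟨hM, hC, f2⟩ := hm' V G G' B f hF hNP hb hMd
  obtain ⟨f3, f4⟩ := hm₁ V G hF hNP
  obtain ⟨Bf, hBf⟩ : ∃ Bf : Finset V, ∀ x, x ∈ Bf ↔ x ∈ B :=
    ⟨(Set.toFinite B).toFinset, fun x => (Set.toFinite B).mem_toFinset⟩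
  obtain ⟨cB, ρB, hB⟩ := hw V G' Bf hM hC f2 (by
    intro T hT hst
    refine hb.ns T (fun x hx => (hBf x).1 (hT hx)) ?_
    intro x hx y hy hxy
    refine hst x hx y hy ((hMd.same x y ?_).2 hxy)
    exact iff_of_true ((hBf x).1 (hT hx)) ((hBf y).1 (hT hy)))
  obtain ⟨cA, hcA⟩ : ∃ cA : V → Fin (p₀ + 1), ∀ x, x ∉ B → (cA x : ℕ) = f x := by
    refine ⟨fun x => ⟨min (f x) p₀, by omega⟩, fun x hx => ?_⟩
    have := hb.fA x hx
    show min (f x) p₀ = f x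
    omega
  have hff : ∀ x, x ∉ Bf → ∀ y, y ∉ Bf → cA x = cA y → f x = f y := by
    intro x hx y hy hxy
    rw [hBf] at hx hy
    rw [← hcA x hx, ← hcA y hy, hxy]
  have hZ : ∀ z : Fin (p₀ + 1), _ := fun z => hq V G G' {x | x ∉ Bf ∧ cA x = z}
    (fun a => {x | x ∈ Bf ∧ cB x = a}) ρB f3 f4
    (by
      rintro x ⟨hx, hx2⟩ y ⟨hy, hy2⟩
      exact hb.stb (fun h => hx ((hBf x).2 h)) (fun h => hy ((hBf y).2 h))
        (hff x hx y hy (hx2.trans hy2.symm)))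
    (by
      intro a
      rw [Set.disjoint_left]
      rintro x ⟨hx, _⟩ ⟨hx2, _⟩
      exact hx hx2)
    (by
      intro a b hab
      rw [Set.disjoint_left]
      rintro x ⟨_, hx⟩ ⟨_, hx2⟩
      exact hab (hx.symm.trans hx2))
    (by
      rintro a b x ⟨hx, _⟩ y ⟨hy, _⟩
      exact hMd.same x y (iff_of_true ((hBf x).1 hx) ((hBf y).1 hy)))
    hMd.deg hB
  choose cz tz ρz hz using hZ
  obtain ⟨S, hS1, hS2, hS3⟩ := key G' w (p₀ + 1) q Bf cA (by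
    intro x hx y hy hxy z hz
    have hx' : x ∉ B := fun h => hx ((hBf x).2 h)
    have hy' : y ∉ B := fun h => hy ((hBf y).2 h)
    have hz' : z ∉ B := fun h => hz ((hBf z).2 h)
    rw [hMd.same x z (iff_of_false hx' hz'), hMd.same y z (iff_of_false hy' hz')]
    exact hb.tw x hx' y hy' (hff x hx y hy hxy) z hz') cB ρB hB cz tz ρz hz _ e
  exact ⟨S, hS1, hS2, fun x => (hS3 x).trans (hBf x)⟩

end Pool.Agent.MPd439b2.ST
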