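import Pool.Agent.Lib.MP_d439b2_co.ST.Spec

/-!
# MP_d439b2_co, ST/Start: the decomposition
-/

set_option autoImplicit false

namespace Pool.Agent.MPd439b2.ST

open Pool.Agent.MPd439b2 Pool.Agent.MPd439b2.Rep

namespace StartM

variable {V : Type} {G : SimpleGraph V}

private theorem hom_ind {X : Set V} {L M : ℕ} {x : ℕ → ℕ → X} {E : ℕ → ℕ → Bool}
    (h : R3.Hom (G.induce X) L M x E) : R3.Hom G L M (fun i k => (x i k : V)) E :=
  ⟨fun i hi j hj k hk l hl hkl he => h.dis i hi j hj k hk l hl hkl (Subtype.ext he),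
    fun i hi j hj k l hkl hl => h.rel i hi j hj k l hkl hl⟩

private theorem trk_ind {X : Set V} {L M : ℕ} {x : ℕ → ℕ → X} {E : ℕ → ℕ → Bool}
    (h : R3.Trk (G.induce X) L M x E) : R3.Trk G L M (fun i k => (x i k : V)) E :=
  ⟨hom_ind h.hom, h.su, h.sd, h.non⟩

private theorem ne_ind {X : Set V} {a b : X} (h : a ≠ b) : (a : V) ≠ (b : V) := fun he =>
  h (Subtype.ext he)

private theorem facts_ind (h : R3.Facts G) (X : Set V) : R3.Facts (G.induce X) where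
  st x E hE := h.st _ E (hom_ind hE)
  opK x E hE := h.opK _ E (hom_ind hE)
  opI x E hE := h.opI _ E (hom_ind hE)
  sm x E hE := h.sm _ E (hom_ind hE)
  dg v b b' hv := h.dg (fun i => (v i : V)) (fun i => (b i : V)) (fun i => (b' i : V))
    fun i hi j hj => by
      obtain ⟨h1, h2, h3, h4, h5, h6, h7⟩ := hv i hi j hj
      refine ⟨ne_ind h1, ne_ind h2, ne_ind h3, fun hij => ?_, h5, h6, h7⟩
      obtain ⟨g1, g2, g3, g4, g5, g6⟩ := h4 hij
      exact ⟨ne_ind g1, ne_ind g2, ne_ind g3, g4, g5, g6⟩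
  t4 x E hE := h.t4 _ E (trk_ind hE)
  t6 x E hE := h.t6 _ E (trk_ind hE)
  t7 x E hE := h.t7 _ E (trk_ind hE)
  t8 x E hE := h.t8 _ E (trk_ind hE)

private theorem nopat_ind {m : ℕ} (h : NoPat G m) (X : Set V) : NoPat (G.induce X) m := by
  intro s t e hst a b hab
  refine h s t e hst (fun i => (a i : V)) (fun i => (b i : V)) ⟨?_, ?_, ?_, ?_, ?_, ?_⟩
  · exact fun i hi j hj => ne_ind (hab.dis i hi j hj)
  · exact fun i hi j hj hij => ne_ind (hab.ia i hi j hj hij)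
  · exact fun i hi j hj hij => ne_ind (hab.ib i hi j hj hij)
  · exact fun i hi j hj hij => hab.aa i hi j hj hij
  · exact fun i hi j hj hij => hab.bb i hi j hj hij
  · exact fun i hi j hj => hab.ab i hi j hj

private theorem map_mem {X : Set V} (T : Finset X) :
    ∀ x ∈ T.map (Function.Embedding.subtype (· ∈ X)), x ∈ X := by
  intro x hx
  obtain ⟨y, -, rfl⟩ := Finset.mem_map.mp hx
  exact y.2

private theorem stb_map {X : Set V} {T : Finset X} (h : R3.Stb (G.induce X) T) :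
    R3.Stb G (T.map (Function.Embedding.subtype (· ∈ X))) := by
  intro x hx y hy
  obtain ⟨x', hx', rfl⟩ := Finset.mem_map.mp hx
  obtain ⟨y', hy', rfl⟩ := Finset.mem_map.mp hy
  exact h x' hx' y' hy'

private theorem clq_map {X : Set V} {T : Finset X} (h : R3.Clq (G.induce X) T) :
    R3.Clq G (T.map (Function.Embedding.subtype (· ∈ X))) := by
  intro x hx y hy hxy
  obtain ⟨x', hx', rfl⟩ := Finset.mem_map.mp hx
  obtain ⟨y', hy', rfl⟩ := Finset.mem_map.mp hy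
  exact h x' hx' y' hy' fun he => hxy (he ▸ rfl)

private theorem matP_mono {n n' : ℕ} (hn : n' ≤ n) (h : X2.MatP G n) : X2.MatP G n' := by
  obtain ⟨a, b, hab⟩ := h
  exact ⟨a, b, fun i hi j hj => hab i (hi.trans_le hn) j (hj.trans_le hn)⟩

private theorem comP_mono {n n' : ℕ} (hn : n' ≤ n) (h : X2.ComP G n) : X2.ComP G n' := by
  obtain ⟨a, b, hab⟩ := h
  exact ⟨a, b, fun i hi j hj => hab i (hi.trans_le hn) j (hj.trans_le hn)⟩

private theorem f1_mono {n n' : ℕ} (hn : n ≤ n') (h : R3.F1 G n) : R3.F1 G n' := by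
  rintro ⟨a, b, hab⟩
  exact h ⟨a, b, fun i hi j hj => hab i (hi.trans_le hn) j (hj.trans_le hn)⟩

private theorem f2_mono {n n' : ℕ} (hn : n ≤ n') (h : R3.F2 G n) : R3.F2 G n' := by
  rintro ⟨x, u, v, hab⟩
  exact h ⟨x, u, v, fun i hi j hj => hab i (hi.trans_le hn) j (hj.trans_le hn)⟩

end StartM

open StartM in
theorem tStart (h1 : S_Pm) (h2 : S_Sp) (h3 : R3.S_AClass) (h4 : R3.S_BClass) (h5 : R3.S_FF) :
    S_Start := by
  classical
  intro m
  obtain ⟨k, q, hkq⟩ := h2 m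
  obtain ⟨m', hm'⟩ := h1 m (max k q)
  obtain ⟨m₁, hm₁⟩ := h5 m'
  obtain ⟨w, hw⟩ := h4 (max m' m₁) k
  obtain ⟨p, hp⟩ := h3 (max m' m₁) q
  refine ⟨w, p, k, q, fun V _ G hF hN => ?_⟩
  obtain ⟨B₀, hB1, hB2⟩ := hkq V G hN
  set B : Set V := (B₀ : Set V) with hB
  have hBs : ∀ T : Finset V, (T : Set V) ⊆ B → R3.Stb G T → T.card < k := fun T hT hs =>
    hB1 T (by exact_mod_cast hT) hs
  have hBc : ∀ T : Finset V, (∀ x ∈ T, x ∉ B) → R3.Clq G T → T.card < q := fun T hT hs =>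
    hB2 T (Finset.disjoint_left.mpr fun x hx hx' => hT x hx (by exact_mod_cast hx')) hs
  -- the part B
  have b1 : ∀ T : Finset B, R3.Stb (G.induce B) T → T.card < k := by
    intro T hT
    rw [← Finset.card_map (Function.Embedding.subtype (· ∈ B))]
    exact hBs _ (fun x hx => map_mem T x (by exact_mod_cast hx)) (stb_map hT)
  have b2 := hm' B (G.induce B) (nopat_ind hN B)
  have b3 : ¬ X2.ComP (G.induce B) m' := b2.2 (Or.inl fun T hT =>
    lt_of_lt_of_le (b1 T hT) (le_max_left _ _))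
  have b4 := hm₁ B (G.induce B) (facts_ind hF B) b3
  have := Fintype.ofFinite B
  obtain ⟨c, ρ, hc⟩ := hw B (G.induce B) Finset.univ
    (fun h => b2.1 (matP_mono (le_max_left _ _) h)) (fun h => b3 (comP_mono (le_max_left _ _) h))
    (f2_mono (le_max_right _ _) b4.2.1) (fun T _ hT => b1 T hT)
  -- the rest
  have a1 : ∀ T : Finset (Bᶜ : Set V), R3.Clq (G.induce Bᶜ) T → T.card < q := by
    intro T hT
    rw [← Finset.card_map (Function.Embedding.subtype (· ∈ Bᶜ))]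
    exact hBc _ (fun x hx => map_mem T x hx) (clq_map hT)
  have a2 := hm' (Bᶜ : Set V) (G.induce Bᶜ) (nopat_ind hN Bᶜ)
  have a3 : ¬ X2.ComP (G.induce Bᶜ) m' := a2.2 (Or.inr fun T hT =>
    lt_of_lt_of_le (a1 T hT) (le_max_right _ _))
  have a4 := hm₁ (Bᶜ : Set V) (G.induce Bᶜ) (facts_ind hF Bᶜ) a3
  obtain ⟨c', hc'⟩ := hp (Bᶜ : Set V) (G.induce Bᶜ) Set.univ
    (fun h => a2.1 (matP_mono (le_max_left _ _) h)) (fun h => a3 (comP_mono (le_max_left _ _) h))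
    (f1_mono (le_max_right _ _) a4.1) (fun T _ hT => a1 T hT)
  let f : V → ℕ := fun x => if h : x ∈ B then (c ⟨x, h⟩ : ℕ) else (c' ⟨x, h⟩ : ℕ)
  have hfB : ∀ x (h : x ∈ B), f x = c ⟨x, h⟩ := fun x h => dif_pos h
  have hfA : ∀ x (h : x ∉ B), f x = c' ⟨x, h⟩ := fun x h => dif_neg h
  have hcl : ∀ x ∈ B, ∀ y ∈ B, f x = f y → x ≠ y → G.Adj x y := by
    intro x hx y hy hxy hne
    rw [hfB x hx, hfB y hy] at hxy
    exact (hc (c ⟨x, hx⟩)).cl ⟨x, hx⟩ ⟨Finset.mem_univ _, rfl⟩ ⟨y, hy⟩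
      ⟨Finset.mem_univ _, (Fin.ext hxy).symm⟩ fun he => hne (congrArg Subtype.val he)
  have hnest : ∀ x (hx : x ∈ B) y (hy : y ∈ B), f x = f y → ρ ⟨x, hx⟩ ≤ ρ ⟨y, hy⟩ →
      nB G B x ⊆ nB G B y := by
    intro x hx y hy hxy hρ z hz
    refine ⟨hz.1, ?_⟩
    by_cases hzy : z = y
    · exact Or.inl hzy
    right
    rcases hz.2 with rfl | hxz
    · exact hcl y hy z hx hxy.symm fun he => hzy he.symm
    · have hxy' := hxy
      rw [hfB x hx, hfB y hy] at hxy'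
      have h6 := (hc (c ⟨x, hx⟩)).mono ⟨x, hx⟩ ⟨Finset.mem_univ _, rfl⟩ ⟨y, hy⟩
        ⟨Finset.mem_univ _, (Fin.ext hxy').symm⟩ hρ ⟨z, hz.1⟩ hxz.symm
        fun he => hzy (congrArg Subtype.val he)
      exact (SimpleGraph.Adj.symm h6 : (G.induce B).Adj ⟨y, hy⟩ ⟨z, hz.1⟩)
  refine ⟨B, f, ⟨?_, ?_, hcl, ?_, ?_, hBs, hBc⟩⟩
  · intro x hx
    rw [hfB x hx]
    exact (c ⟨x, hx⟩).2
  · intro x hx
    rw [hfA x hx]
    exact (c' ⟨x, hx⟩).2
  · intro x hx y hy hxy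
    rcases le_total (ρ ⟨x, hx⟩) (ρ ⟨y, hy⟩) with h6 | h6
    · exact Or.inl (hnest x hx y hy hxy h6)
    · exact Or.inr (hnest y hy x hx hxy.symm h6)
  · intro x hx y hy hxy z hz
    rw [hfA x hx, hfA y hy] at hxy
    exact hc' ⟨x, hx⟩ trivial ⟨y, hy⟩ trivial (Fin.ext hxy) ⟨z, hz⟩ trivial

end Pool.Agent.MPd439b2.ST
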