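import Pool.Agent.Lib.MP_d439b2_co.ST.Spec

/-! MP_d439b2_co, ST: proof of `S_W` (Lemma W) -/

set_option autoImplicit false

namespace Pool.Agent.MPd439b2.ST

open Pool.Agent.MPd439b2 Pool.Agent.MPd439b2.Rep

namespace WAux

variable {α β : Type} {R : α → β → Prop} {K K' K₁ : Set α} {Z Z' Z₁ : Set β} {b n n' T T' : ℕ}

theorem wc_mono (h : WC R K Z b T) (hT : T ≤ T') : WC R K Z b T' := by
  obtain ⟨S, c, d, hc, hd, h1, h2, h3⟩ := h
  exact ⟨S, c, d, fun x => lt_of_lt_of_le (hc x) hT, fun y => lt_of_lt_of_le (hd y) hT, h1, h2, h3⟩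

theorem wc_triv [Finite α] [Finite β] (hb : 1 ≤ b) (hT : 1 ≤ T) (h : K.ncard + Z.ncard ≤ 1) :
    WC R K Z b T := by
  refine ⟨R, fun _ => 0, fun _ => 0, fun _ => hT, fun _ => hT, ?_, ?_, ?_⟩
  · intro x hx x' _ y hy y' _ _ _ _ _ _ _
    have h1 : 0 < K.ncard := (Set.ncard_pos (Set.toFinite _)).2 ⟨x, hx⟩
    have h2 : 0 < Z.ncard := (Set.ncard_pos (Set.toFinite _)).2 ⟨y, hy⟩
    omega
  · intro x _
    have h1 : {y | y ∈ Z ∧ ¬ (R x y ↔ R x y)} = ∅ := by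
      ext y
      simp
    rw [h1, Set.ncard_empty]
    exact hb
  · intro y _
    have h1 : {x | x ∈ K ∧ ¬ (R x y ↔ R x y)} = ∅ := by
      ext x
      simp
    rw [h1, Set.ncard_empty]
    exact hb

theorem anti_mono (h : Anti R K Z b n) (hn : n' ≤ n) (hK : K ⊆ K') (hZ : Z ⊆ Z') :
    Anti R K' Z' b n' := by
  obtain ⟨P, Q, h1, h2⟩ := h
  refine ⟨P, Q, fun i hi => ?_, fun i hi j hj => h2 i (lt_of_lt_of_le hi hn) j
    (lt_of_lt_of_le hj hn)⟩
  obtain ⟨a1, a2, a3, a4⟩ := h1 i (lt_of_lt_of_le hi hn)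
  exact ⟨a1.trans hK, a2.trans hZ, a3, a4⟩

theorem com_mono (h : CoM R K Z n) (hn : n' ≤ n) (hK : K ⊆ K') (hZ : Z ⊆ Z') :
    CoM R K' Z' n' := by
  obtain ⟨k, z, h1, h2⟩ := h
  exact ⟨k, z, fun i hi => ⟨hK (h1 i (lt_of_lt_of_le hi hn)).1,
    hZ (h1 i (lt_of_lt_of_le hi hn)).2⟩, fun i hi j hj => h2 i (lt_of_lt_of_le hi hn) j
    (lt_of_lt_of_le hj hn)⟩

/-- the union of two families of connected sets -/
theorem anti_union {n₁ n₂ : ℕ} {K₂ : Set α} {Z₂ : Set β} (h1 : Anti R K₁ Z₁ b n₁)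
    (h2 : Anti R K₂ Z₂ b n₂) (hK : Disjoint K₁ K₂) (hZ : Disjoint Z₁ Z₂)
    (h12 : ∀ x ∈ K₁, ∀ y ∈ Z₂, ¬ R x y) (h21 : ∀ x ∈ K₂, ∀ y ∈ Z₁, ¬ R x y) (hK1 : K₁ ⊆ K)
    (hK2 : K₂ ⊆ K) (hZ1 : Z₁ ⊆ Z) (hZ2 : Z₂ ⊆ Z) : Anti R K Z b (n₁ + n₂) := by
  obtain ⟨P₁, Q₁, a1, a2⟩ := h1
  obtain ⟨P₂, Q₂, b1, b2⟩ := h2
  refine ⟨fun i => if i < n₁ then P₁ i else P₂ (i - n₁),
    fun i => if i < n₁ then Q₁ i else Q₂ (i - n₁), ?_, ?_⟩
  · intro i hi
    by_cases h : i < n₁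
    · simp only [if_pos h]
      obtain ⟨c1, c2, c3, c4⟩ := a1 i h
      exact ⟨c1.trans hK1, c2.trans hZ1, c3, c4⟩
    · simp only [if_neg h]
      obtain ⟨c1, c2, c3, c4⟩ := b1 (i - n₁) (by omega)
      exact ⟨c1.trans hK2, c2.trans hZ2, c3, c4⟩
  · intro i hi j hj hij
    by_cases h : i < n₁ <;> by_cases h' : j < n₁
    · simp only [if_pos h, if_pos h']
      exact a2 i h j h' hij
    · simp only [if_pos h, if_neg h']
      obtain ⟨c1, c2, _, _⟩ := a1 i h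
      obtain ⟨d1, d2, _, _⟩ := b1 (j - n₁) (by omega)
      exact ⟨Set.disjoint_of_subset c1 d1 hK, Set.disjoint_of_subset c2 d2 hZ,
        fun x hx y hy => h12 x (c1 hx) y (d2 hy)⟩
    · simp only [if_neg h, if_pos h']
      obtain ⟨c1, c2, _, _⟩ := b1 (i - n₁) (by omega)
      obtain ⟨d1, d2, _, _⟩ := a1 j h'
      exact ⟨Set.disjoint_of_subset c1 d1 hK.symm, Set.disjoint_of_subset c2 d2 hZ.symm,
        fun x hx y hy => h21 x (c1 hx) y (d2 hy)⟩
    · simp only [if_neg h, if_neg h']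
      exact b2 (i - n₁) (by omega) (j - n₁) (by omega) (by omega)

/-- the union of two co-matchings -/
theorem com_union {n₁ n₂ : ℕ} {K₂ : Set α} {Z₂ : Set β} (h1 : CoM R K₁ Z₁ n₁)
    (h2 : CoM R K₂ Z₂ n₂) (h12 : ∀ x ∈ K₁, ∀ y ∈ Z₂, R x y) (h21 : ∀ x ∈ K₂, ∀ y ∈ Z₁, R x y)
    (hK1 : K₁ ⊆ K) (hK2 : K₂ ⊆ K) (hZ1 : Z₁ ⊆ Z) (hZ2 : Z₂ ⊆ Z) : CoM R K Z (n₁ + n₂) := by
  obtain ⟨k₁, z₁, a1, a2⟩ := h1
  obtain ⟨k₂, z₂, b1, b2⟩ := h2
  refine ⟨fun i => if i < n₁ then k₁ i else k₂ (i - n₁),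
    fun i => if i < n₁ then z₁ i else z₂ (i - n₁), ?_, ?_⟩
  · intro i hi
    by_cases h : i < n₁
    · simp only [if_pos h]
      exact ⟨hK1 (a1 i h).1, hZ1 (a1 i h).2⟩
    · simp only [if_neg h]
      have := b1 (i - n₁) (by omega)
      exact ⟨hK2 this.1, hZ2 this.2⟩
  · intro i hi j hj
    by_cases h : i < n₁ <;> by_cases h' : j < n₁
    · simp only [if_pos h, if_pos h']
      exact a2 i h j h'
    · simp only [if_pos h, if_neg h']
      exact iff_of_true (h12 _ (a1 i h).1 _ (b1 (j - n₁) (by omega)).2) (by omega)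
    · simp only [if_neg h, if_pos h']
      exact iff_of_true (h21 _ (b1 (i - n₁) (by omega)).1 _ (a1 j h').2) (by omega)
    · simp only [if_neg h, if_neg h']
      rw [b2 (i - n₁) (by omega) (j - n₁) (by omega)]
      omega

/-- the largest number with a property -/
theorem exists_last (P : ℕ → Prop) (h1 : P 1) {ν : ℕ} (hν : ¬ P (ν + 1)) :
    ∃ m, 1 ≤ m ∧ m ≤ ν ∧ P m ∧ ¬ P (m + 1) := by
  classical
  have hex : ∃ s, ¬ P (s + 1) := ⟨ν, hν⟩
  have hs := Nat.find_spec hex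
  have hle : Nat.find hex ≤ ν := Nat.find_min' hex hν
  have hne : Nat.find hex ≠ 0 := by
    intro h
    rw [h] at hs
    exact hs h1
  refine ⟨Nat.find hex, Nat.one_le_iff_ne_zero.2 hne, hle, ?_, hs⟩
  obtain ⟨t, ht⟩ := Nat.exists_eq_succ_of_ne_zero hne
  have h3 := Nat.find_min hex (m := t) (by omega)
  rw [ht]
  exact not_not.1 h3

/-- stars are small if there is no large connected set -/
theorem star_small [Finite α] [Finite β] (h : ¬ Anti R K Z b 1) :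
    (∀ x ∈ K, {y | y ∈ Z ∧ ¬ (False ↔ R x y)}.ncard < b) ∧
      ∀ y ∈ Z, {x | x ∈ K ∧ ¬ (False ↔ R x y)}.ncard < b := by
  constructor
  · intro x hx
    by_contra hcon
    have hcon := not_lt.1 hcon
    apply h
    refine ⟨fun _ => {x}, fun _ => {y | y ∈ Z ∧ ¬ (False ↔ R x y)}, ?_, ?_⟩
    · intro i _
      refine ⟨Set.singleton_subset_iff.2 hx, fun y hy => hy.1, Cn.star ?_, ?_⟩
      · intro y hy
        by_contra hn
        exact hy.2 (iff_of_false not_false hn)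
      · show b < ({x} : Set α).ncard + {y | y ∈ Z ∧ ¬ (False ↔ R x y)}.ncard
        rw [Set.ncard_singleton]
        omega
    · intro i hi j hj hij
      omega
  · intro y hy
    by_contra hcon
    have hcon := not_lt.1 hcon
    apply h
    refine ⟨fun _ => {x | x ∈ K ∧ ¬ (False ↔ R x y)}, fun _ => {y}, ?_, ?_⟩
    · intro i _
      refine ⟨fun x hx => hx.1, Set.singleton_subset_iff.2 hy, ?_, ?_⟩
      · have h1 : Cn (fun y x => R x y) {y} {x | x ∈ K ∧ ¬ (False ↔ R x y)} := by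
          refine Cn.star ?_
          intro x hx
          by_contra hn
          exact hx.2 (iff_of_false not_false hn)
        exact h1.symm
      · show b < {x | x ∈ K ∧ ¬ (False ↔ R x y)}.ncard + ({y} : Set β).ncard
        rw [Set.ncard_singleton]
        omega
    · intro i hi j hj hij
      omega

/-- a part which is not nearly complete contains a non-edge -/
theorem one_com [Finite α] [Finite β] (hb : 1 ≤ b)
    (h : ¬ ((∀ x ∈ K, {y | y ∈ Z ∧ ¬ (True ↔ R x y)}.ncard < b) ∧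
      ∀ y ∈ Z, {x | x ∈ K ∧ ¬ (True ↔ R x y)}.ncard < b)) : CoM R K Z 1 := by
  have key : ∃ x ∈ K, ∃ y ∈ Z, ¬ R x y := by
    by_contra hcon
    push Not at hcon
    apply h
    constructor
    · intro x hx
      have h1 : {y | y ∈ Z ∧ ¬ (True ↔ R x y)} = ∅ := by
        ext y
        constructor
        · rintro ⟨hy, hn⟩
          exact hn (iff_of_true trivial (hcon x hx y hy))
        · intro hy
          exact hy.elim
      rw [h1, Set.ncard_empty]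
      exact hb
    · intro y hy
      have h1 : {x | x ∈ K ∧ ¬ (True ↔ R x y)} = ∅ := by
        ext x
        constructor
        · rintro ⟨hx, hn⟩
          exact hn (iff_of_true trivial (hcon x hx y hy))
        · intro hx
          exact hx.elim
      rw [h1, Set.ncard_empty]
      exact hb
  obtain ⟨x, hx, y, hy, hxy⟩ := key
  refine ⟨fun _ => x, fun _ => y, fun i _ => ⟨hx, hy⟩, fun i hi j hj => ?_⟩
  have : i = j := by omega
  subst this
  exact iff_of_false hxy (by simp)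

end WAux

open WAux in
theorem tW (h1 : S_D) (h2 : S_Gl) : S_W := by
  intro α β _ _ R b ν τ K Z hb
  suffices H : ∀ N : ℕ, ∀ (ν τ : ℕ) (K : Set α) (Z : Set β), K.ncard + Z.ncard = N →
      NP6 R K Z → ¬ Anti R K Z b (ν + 1) → ¬ CoM R K Z (τ + 1) →
      WC R K Z b (max 1 ν * max 1 τ) from H _ ν τ K Z rfl
  intro N
  induction N using Nat.strong_induction_on with
  | _ N ih =>
    intro ν τ K Z hN hP hA hC
    have hT1 : 1 ≤ max 1 ν * max 1 τ := Nat.mul_pos (by omega) (by omega)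
    by_cases hsm : K.ncard + Z.ncard ≤ 1
    · exact wc_triv hb hT1 hsm
    obtain ⟨K₁, hK₁, Z₁, hZ₁, hne1, hne2, hsp⟩ := h1 α β R K Z hP (by omega)
    have cK : (K \ K₁).ncard + K₁.ncard = K.ncard :=
      Set.ncard_sdiff_add_ncard_of_subset hK₁ (Set.toFinite _)
    have cZ : (Z \ Z₁).ncard + Z₁.ncard = Z.ncard :=
      Set.ncard_sdiff_add_ncard_of_subset hZ₁ (Set.toFinite _)
    have c1 : 0 < K₁.ncard + Z₁.ncard := by
      rcases hne1 with h | h
      · have := (Set.ncard_pos (Set.toFinite _)).2 h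
        omega
      · have := (Set.ncard_pos (Set.toFinite _)).2 h
        omega
    have c2 : 0 < (K \ K₁).ncard + (Z \ Z₁).ncard := by
      rcases hne2 with h | h
      · have := (Set.ncard_pos (Set.toFinite _)).2 h
        omega
      · have := (Set.ncard_pos (Set.toFinite _)).2 h
        omega
    have hK₂ : K \ K₁ ⊆ K := fun x hx => hx.1
    have hZ₂ : Z \ Z₁ ⊆ Z := fun x hx => hx.1
    have ih1 : ∀ ν τ : ℕ, ¬ Anti R K₁ Z₁ b (ν + 1) → ¬ CoM R K₁ Z₁ (τ + 1) →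
        WC R K₁ Z₁ b (max 1 ν * max 1 τ) := fun ν τ a1 a2 =>
      ih (K₁.ncard + Z₁.ncard) (by omega) ν τ K₁ Z₁ rfl (hP.mono hK₁ hZ₁) a1 a2
    have ih2 : ∀ ν τ : ℕ, ¬ Anti R (K \ K₁) (Z \ Z₁) b (ν + 1) → ¬ CoM R (K \ K₁) (Z \ Z₁) (τ + 1) →
        WC R (K \ K₁) (Z \ Z₁) b (max 1 ν * max 1 τ) := fun ν τ a1 a2 =>
      ih ((K \ K₁).ncard + (Z \ Z₁).ncard) (by omega) ν τ _ _ rfl (hP.mono hK₂ hZ₂) a1 a2
    have hA1 : ¬ Anti R K₁ Z₁ b (ν + 1) := fun h => hA (anti_mono h (le_refl _) hK₁ hZ₁)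
    have hA2 : ¬ Anti R (K \ K₁) (Z \ Z₁) b (ν + 1) := fun h =>
      hA (anti_mono h (le_refl _) hK₂ hZ₂)
    have hC1 : ¬ CoM R K₁ Z₁ (τ + 1) := fun h => hC (com_mono h (le_refl _) hK₁ hZ₁)
    have hC2 : ¬ CoM R (K \ K₁) (Z \ Z₁) (τ + 1) := fun h =>
      hC (com_mono h (le_refl _) hK₂ hZ₂)
    have eK : K \ (K \ K₁) = K₁ := Set.sdiff_sdiff_cancel_left hK₁
    have eZ : Z \ (Z \ Z₁) = Z₁ := Set.sdiff_sdiff_cancel_left hZ₁
    rcases hsp with ⟨s1, s2⟩ | ⟨s1, s2⟩ | ⟨s1, s2⟩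
    · -- first kind
      have hu : ∀ k ∈ K₁, ∀ z ∈ Z \ Z₁, (R k z ↔ False) := fun k hk z hz =>
        iff_of_false (s1 k hk z hz) not_false
      have hv : ∀ k ∈ K \ K₁, ∀ z ∈ Z₁, (R k z ↔ False) := fun k hk z hz =>
        iff_of_false (s2 k hk z hz) not_false
      by_cases hB1 : Anti R K₁ Z₁ b 1
      · by_cases hB2 : Anti R (K \ K₁) (Z \ Z₁) b 1
        · obtain ⟨ν₁, n1, n2, n3, n4⟩ := exists_last (fun n => Anti R K₁ Z₁ b n) hB1 hA1
          obtain ⟨ν₂, m1, m2, m3, m4⟩ :=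
            exists_last (fun n => Anti R (K \ K₁) (Z \ Z₁) b n) hB2 hA2
          have hsum : ν₁ + ν₂ ≤ ν := by
            by_contra hcon
            push Not at hcon
            apply hA
            have h3 : Anti R K Z b (ν₁ + ν₂) := anti_union n3 m3 Set.disjoint_sdiff_right
              Set.disjoint_sdiff_right s1 s2 hK₁ hK₂ hZ₁ hZ₂
            exact anti_mono h3 hcon (le_refl _) (le_refl _)
          have w1 := ih1 ν₁ τ n4 hC1
          have w2 := ih2 ν₂ τ m4 hC2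
          have w3 := (h2 α β R K K₁ Z Z₁ b _ _ False False hK₁ hZ₁ hu hv).2.1 Iff.rfl w1 w2
          refine wc_mono w3 ?_
          rw [← add_mul]
          refine Nat.mul_le_mul_right _ ?_
          omega
        · obtain ⟨q1, q2⟩ := star_small hB2
          refine (h2 α β R K (K \ K₁) Z (Z \ Z₁) b (max 1 ν * max 1 τ) 0 False False hK₂ hZ₂ ?_
            ?_).2.2 Iff.rfl q1 q2 ?_
          · rw [eZ]
            exact hv
          · rw [eK]
            exact hu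
          · rw [eK, eZ]
            exact ih1 ν τ hA1 hC1
      · obtain ⟨q1, q2⟩ := star_small hB1
        exact (h2 α β R K K₁ Z Z₁ b (max 1 ν * max 1 τ) 0 False False hK₁ hZ₁ hu hv).2.2 Iff.rfl
          q1 q2 (ih2 ν τ hA2 hC2)
    · -- second kind
      have hu : ∀ k ∈ K₁, ∀ z ∈ Z \ Z₁, (R k z ↔ True) := fun k hk z hz =>
        iff_of_true (s1 k hk z hz) trivial
      have hv : ∀ k ∈ K \ K₁, ∀ z ∈ Z₁, (R k z ↔ True) := fun k hk z hz =>
        iff_of_true (s2 k hk z hz) trivial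
      by_cases hB1 : (∀ x ∈ K₁, {y | y ∈ Z₁ ∧ ¬ (True ↔ R x y)}.ncard < b) ∧
          ∀ y ∈ Z₁, {x | x ∈ K₁ ∧ ¬ (True ↔ R x y)}.ncard < b
      · exact (h2 α β R K K₁ Z Z₁ b (max 1 ν * max 1 τ) 0 True True hK₁ hZ₁ hu hv).2.2 Iff.rfl
          hB1.1 hB1.2 (ih2 ν τ hA2 hC2)
      by_cases hB2 : (∀ x ∈ K \ K₁, {y | y ∈ Z \ Z₁ ∧ ¬ (True ↔ R x y)}.ncard < b) ∧
          ∀ y ∈ Z \ Z₁, {x | x ∈ K \ K₁ ∧ ¬ (True ↔ R x y)}.ncard < b
      · refine (h2 α β R K (K \ K₁) Z (Z \ Z₁) b (max 1 ν * max 1 τ) 0 True True hK₂ hZ₂ ?_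
            ?_).2.2 Iff.rfl hB2.1 hB2.2 ?_
        · rw [eZ]
          exact hv
        · rw [eK]
          exact hu
        · rw [eK, eZ]
          exact ih1 ν τ hA1 hC1
      obtain ⟨τ₁, n1, n2, n3, n4⟩ := exists_last (fun n => CoM R K₁ Z₁ n) (one_com hb hB1) hC1
      obtain ⟨τ₂, m1, m2, m3, m4⟩ :=
        exists_last (fun n => CoM R (K \ K₁) (Z \ Z₁) n) (one_com hb hB2) hC2
      have hsum : τ₁ + τ₂ ≤ τ := by
        by_contra hcon
        push Not at hcon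
        apply hC
        have h3 : CoM R K Z (τ₁ + τ₂) := com_union n3 m3 s1 s2 hK₁ hK₂ hZ₁ hZ₂
        exact com_mono h3 hcon (le_refl _) (le_refl _)
      have w1 := ih1 ν τ₁ hA1 n4
      have w2 := ih2 ν τ₂ hA2 m4
      have w3 := (h2 α β R K K₁ Z Z₁ b _ _ True True hK₁ hZ₁ hu hv).2.1 Iff.rfl w1 w2
      refine wc_mono w3 ?_
      rw [← mul_add]
      refine Nat.mul_le_mul_left _ ?_
      omega
    · -- third kind
      have hu : ∀ k ∈ K₁, ∀ z ∈ Z \ Z₁, (R k z ↔ True) := fun k hk z hz =>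
        iff_of_true (s1 k hk z hz) trivial
      have hv : ∀ k ∈ K \ K₁, ∀ z ∈ Z₁, (R k z ↔ False) := fun k hk z hz =>
        iff_of_false (s2 k hk z hz) not_false
      exact (h2 α β R K K₁ Z Z₁ b (max 1 ν * max 1 τ) 0 True False hK₁ hZ₁ hu hv).1 trivial
        not_false (ih1 ν τ hA1 hC1) (ih2 ν τ hA2 hC2)

end Pool.Agent.MPd439b2.ST
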