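import Pool.Agent.Lib.MP_d439b2_co.ST.Gl
import Pool.Agent.Lib.MP_d439b2_co.ST.W
import Pool.Agent.Lib.MP_d439b2_co.ST.D
import Pool.Agent.Lib.MP_d439b2_co.ST.H1
import Pool.Agent.Lib.MP_d439b2_co.ST.H2
import Pool.Agent.Lib.MP_d439b2_co.ST.Gr
import Pool.Agent.Lib.MP_d439b2_co.ST.P
import Pool.Agent.Lib.MP_d439b2_co.ST.Mx
import Pool.Agent.Lib.MP_d439b2_co.ST.Sat
import Pool.Agent.Lib.MP_d439b2_co.ST.O1
import Pool.Agent.Lib.MP_d439b2_co.ST.O5
import Pool.Agent.Lib.MP_d439b2_co.ST.O6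
import Pool.Agent.Lib.MP_d439b2_co.ST.Ex
import Pool.Agent.Lib.MP_d439b2_co.ST.Cr
import Pool.Agent.Lib.MP_d439b2_co.ST.Rd
import Pool.Agent.Lib.MP_d439b2_co.ST.Bd
import Pool.Agent.Lib.MP_d439b2_co.ST.Cell
import Pool.Agent.Lib.MP_d439b2_co.ST.Pm
import Pool.Agent.Lib.MP_d439b2_co.ST.Sp
import Pool.Agent.Lib.MP_d439b2_co.ST.Start
import Pool.Agent.Lib.MP_d439b2_co.ST.Md
import Pool.Agent.Lib.MP_d439b2_co.ST.NM
import Pool.Agent.Lib.MP_d439b2_co.ST.F34
import Pool.Agent.Lib.MP_d439b2_co.ST.Sg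
import Pool.Agent.Lib.MP_d439b2_co.ST.ZC
import Pool.Agent.Lib.MP_d439b2_co.ST.St
import Pool.Agent.Lib.MP_d439b2_co.ST.Fct
import Pool.Agent.Lib.MP_d439b2_co.R3.Final

/-!
# MP_d439b2_co, ST: Theorem ST, final form (helper38)
-/

set_option autoImplicit false

namespace Pool.Agent.MPd439b2.ST

open Pool.Agent.MPd439b2 Pool.Agent.MPd439b2.Rep

theorem cellF : S_Cell :=
  tCell tH1 (tH2 (R3.rows R3.ram3F)) tGr
    (tRd tGr tP (tSat tP tMx) tO1 tO5 tO6 tEx tCr) tBd

theorem mdF : S_Md := tMd cellF (tW tD tGl)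

theorem spF : S_Sp := tSp tPm R3.pairs

theorem startF : S_Start :=
  tStart tPm spF (R3.aClass (R3.rows R3.ram3F) W.ramC) (R3.bClass (R3.antiC R3.ram3F) W.dil W.ramC)
    (R3.fF W.ramC)

theorem stF : S_St :=
  tSt tNM tF34 (tZC tSg (R3.bal R3.three)) (R3.bClass (R3.antiC R3.ram3F) W.dil W.ramC)

theorem noPat_of {V : Type} {G : SimpleGraph V} {m : ℕ}
    (h : NoT {(false, false, false), (true, false, false), (true, true, true)} m G)
    (hJ : NoTP G m true true false) (hR : NoTP G m false false true) : NoPat G m := by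
  have h1 : NoTP G m false false false := h (false, false, false) (by simp)
  have h2 : NoTP G m true false false := h (true, false, false) (by simp)
  have h3 : NoTP G m true true true := h (true, true, true) (by simp)
  intro s t e hst
  cases s <;> cases t <;> cases e
  · exact h1
  · exact hR
  · exact h2.swap
  · exact absurd ⟨Bool.false_ne_true, rfl⟩ hst
  · exact h2
  · exact absurd ⟨Bool.false_ne_true.symm, rfl⟩ hst
  · exact hJ
  · exact h3

/-- **Theorem ST.** -/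
theorem stThm : S_ST := by
  intro m β
  obtain ⟨cJ, nJ, hJ⟩ := Rep.killJ (KA 3 3 ![{0}, {1}, {0, 2}]) β
  obtain ⟨cR, nR, hR⟩ := Rep.killR (KA 3 3 ![{0}, {1}, {0, 2}]) β
  obtain ⟨w, p, k, q, hs⟩ := startF (max m (max nJ nR))
  obtain ⟨c₁, N, hm⟩ := mdF (max m (max nJ nR)) w p k q
  obtain ⟨n, hn⟩ := stF (max m (max nJ nR)) w p k q N (max 1 (β c₁) * (w + p))
  refine ⟨max c₁ (max cJ cR), n, max 1 (β c₁) * (w + p), ?_⟩
  intro V _ G hFr hT hL
  have hNP : NoPat G (max m (max nJ nR)) := by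
    refine noPat_of (hT.mono subset_rfl (le_max_left _ _)) ?_ ?_
    · exact (hJ V G hFr (link_mono ((le_max_left _ _).trans (le_max_right _ _)) hL)).mono
        ((le_max_left _ _).trans (le_max_right _ _))
    · exact (hR V G hFr (link_mono ((le_max_right _ _).trans (le_max_right _ _)) hL)).mono
        ((le_max_right _ _).trans (le_max_right _ _))
  have hfac : R3.Facts G := R3.facts2 hFr.1 hFr.2
  have hfcs : Fcs G := tFct V G hFr.1 hFr.2
  obtain ⟨B, f, hB⟩ := hs V G hfac hNP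
  have hMC : MC G c₁ (max 1 (β c₁)) := fun Y hY =>
    (hL c₁ (le_max_left _ _) Y hY).imp (fun h => h.trans (le_max_right _ _))
      fun h => h.trans (le_max_right _ _)
  obtain ⟨G', hG'⟩ := hm (max 1 (β c₁)) (le_max_left _ _) V G B f hfcs hNP hB hMC
  obtain ⟨S, hS, h1, h2⟩ := hn V G G' B f hfac hNP hB hG'
  refine ⟨S, fun x y hxy h3 => hxy ?_, fun x => ?_, h1⟩
  · rw [hS]
    refine hG'.same x y ?_
    rw [← h2 x, ← h2 y, h3]
  · rw [hS]
    exact hG'.deg x

end Pool.Agent.MPd439b2.ST
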