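import Pool.Agent.Lib.MP_d439b2_co.R3.SpecB
import Pool.Agent.Lib.MP_d439b2_co.Rep.RowX2
import Pool.Agent.Lib.MP_d439b2_co.X3.H1T.Base

/-!
# MP_d439b2_co, ST: the structure of graphs without `K3:0,1,02`, `J_4`, no large patterns except for thick spiders
# (helper38, note 2957), definitions

* Bipartite relations `R : α → β → Prop` between `K` and `Z`: `NP6` (no induced path with six vertices), `Cn`
  (connected), `Anti` (many pairwise anticomplete large connected sets), `CoM` (co-matchings).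
* Rails with diagonals: `HomD`; the finite facts: `Fcs`.
* The decomposition into nested cliques and twin classes: `Bas`; systems of cells: `Sys`, `SysL`.
* The modified graph: `Md`.
-/

set_option autoImplicit false

namespace Pool.Agent.MPd439b2.ST

open Pool.Agent.MPd439b2 Pool.Agent.MPd439b2.Rep

/-! ### Bipartite relations -/

section bip

variable {α β : Type}

/-- no induced path `k₁ z₁ k₂ z₂ k₃ z₃` -/
def NP6 (R : α → β → Prop) (K : Set α) (Z : Set β) : Prop :=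
  ∀ k₁ ∈ K, ∀ k₂ ∈ K, ∀ k₃ ∈ K, ∀ z₁ ∈ Z, ∀ z₂ ∈ Z, ∀ z₃ ∈ Z, R k₁ z₁ → ¬ R k₁ z₂ → ¬ R k₁ z₃ →
    R k₂ z₁ → R k₂ z₂ → ¬ R k₂ z₃ → ¬ R k₃ z₁ → R k₃ z₂ → R k₃ z₃ → False

/-- the relation between `P` and `Q` is connected -/
def Cn (R : α → β → Prop) (P : Set α) (Q : Set β) : Prop := ∀ P₁ ⊆ P, ∀ Q₁ ⊆ Q,
  (∀ x ∈ P, ∀ y ∈ Q, R x y → (x ∈ P₁ ↔ y ∈ Q₁)) → (P₁ = ∅ ∧ Q₁ = ∅) ∨ (P₁ = P ∧ Q₁ = Q)

/-- there are `n` disjoint, pairwise anticomplete connected sets with more than `b` elements -/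
def Anti (R : α → β → Prop) (K : Set α) (Z : Set β) (b n : ℕ) : Prop :=
  ∃ (P : ℕ → Set α) (Q : ℕ → Set β), (∀ i < n, P i ⊆ K ∧ Q i ⊆ Z ∧ Cn R (P i) (Q i) ∧
    b < (P i).ncard + (Q i).ncard) ∧
    ∀ i < n, ∀ j < n, i ≠ j → Disjoint (P i) (P j) ∧ Disjoint (Q i) (Q j) ∧
      ∀ x ∈ P i, ∀ y ∈ Q j, ¬ R x y

/-- a co-matching of size `n` -/
def CoM (R : α → β → Prop) (K : Set α) (Z : Set β) (n : ℕ) : Prop :=
  ∃ (k : ℕ → α) (z : ℕ → β), (∀ i < n, k i ∈ K ∧ z i ∈ Z) ∧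
    ∀ i < n, ∀ j < n, (R (k i) (z j) ↔ i ≠ j)

variable {R : α → β → Prop} {P P' : Set α} {Q Q' : Set β}

theorem NP6.mono (h : NP6 R P Q) (hP : P' ⊆ P) (hQ : Q' ⊆ Q) : NP6 R P' Q' :=
  fun k₁ h1 k₂ h2 k₃ h3 z₁ h4 z₂ h5 z₃ h6 =>
    h k₁ (hP h1) k₂ (hP h2) k₃ (hP h3) z₁ (hQ h4) z₂ (hQ h5) z₃ (hQ h6)

theorem Cn.symm (h : Cn R P Q) : Cn (fun y x => R x y) Q P := by
  intro Q₁ hQ₁ P₁ hP₁ hc
  rcases h P₁ hP₁ Q₁ hQ₁ fun x hx y hy hxy => (hc y hy x hx hxy).symm with h1 | h1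
  · exact Or.inl ⟨h1.2, h1.1⟩
  · exact Or.inr ⟨h1.2, h1.1⟩

/-- every element of the first side has a neighbour -/
theorem Cn.nbK (h : Cn R P Q) (hQ : Q.Nonempty) {x : α} (hx : x ∈ P) : ∃ y ∈ Q, R x y := by
  by_contra hcon
  push Not at hcon
  rcases h {x} (Set.singleton_subset_iff.2 hx) ∅ (Set.empty_subset _) (by
    intro x' _ y hy hxy
    refine ⟨fun h1 => ?_, fun h1 => h1.elim⟩
    rw [Set.mem_singleton_iff.1 h1] at hxy
    exact hcon y hy hxy) with h1 | h1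
  · exact (Set.singleton_ne_empty x) h1.1
  · rw [← h1.2] at hQ
    exact Set.not_nonempty_empty hQ

/-- every element of the second side has a neighbour -/
theorem Cn.nbZ (h : Cn R P Q) (hP : P.Nonempty) {y : β} (hy : y ∈ Q) : ∃ x ∈ P, R x y :=
  h.symm.nbK hP hy

/-- a property which is not constant on the second side switches at some element of the first side -/
theorem Cn.swZ (h : Cn R P Q) (f : β → Prop) {y₀ y₁ : β} (h0 : y₀ ∈ Q) (f0 : f y₀) (h1 : y₁ ∈ Q)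
    (f1 : ¬ f y₁) : ∃ x ∈ P, ∃ y ∈ Q, ∃ y' ∈ Q, R x y ∧ R x y' ∧ f y ∧ ¬ f y' := by
  by_contra hcon
  push Not at hcon
  rcases h {x | x ∈ P ∧ ∃ y ∈ Q, R x y ∧ f y} (fun x hx => hx.1) {y | y ∈ Q ∧ f y}
    (fun y hy => hy.1) (by
    intro x hx y hy hxy
    constructor
    · rintro ⟨-, y', hy', hxy', hf⟩
      exact ⟨hy, hcon x hx y' hy' y hy hxy' hxy hf⟩
    · rintro ⟨-, hf⟩
      exact ⟨hx, y, hy, hxy, hf⟩) with h2 | h2
  · exact (Set.mem_empty_iff_false y₀).1 (h2.2 ▸ (⟨h0, f0⟩ : y₀ ∈ {y | y ∈ Q ∧ f y}))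
  · have : y₁ ∈ {y | y ∈ Q ∧ f y} := h2.2.symm ▸ h1
    exact f1 this.2

/-- a property which is not constant on the first side switches at some element of the second side -/
theorem Cn.swK (h : Cn R P Q) (f : α → Prop) {x₀ x₁ : α} (h0 : x₀ ∈ P) (f0 : f x₀) (h1 : x₁ ∈ P)
    (f1 : ¬ f x₁) : ∃ y ∈ Q, ∃ x ∈ P, ∃ x' ∈ P, R x y ∧ R x' y ∧ f x ∧ ¬ f x' :=
  h.symm.swZ f h0 f0 h1 f1

/-- adding a vertex to the first side -/
theorem Cn.addK (h : Cn R P Q) {x : α} {y : β} (hy : y ∈ Q) (hxy : R x y) : Cn R (insert x P) Q := by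
  intro P₁ hP₁ Q₁ hQ₁ hc
  rcases h (P₁ ∩ P) Set.inter_subset_right Q₁ hQ₁ (by
    intro x' hx' y' hy' hxy'
    rw [← hc x' (Or.inr hx') y' hy' hxy']
    exact ⟨fun h1 => h1.1, fun h1 => ⟨h1, hx'⟩⟩) with h1 | h1
  · left
    refine ⟨?_, h1.2⟩
    have hx : x ∉ P₁ := fun hx => by
      have := (hc x (Or.inl rfl) y hy hxy).1 hx
      rw [h1.2] at this
      exact this
    ext z
    refine ⟨fun hz => ?_, fun hz => hz.elim⟩
    rcases hP₁ hz with h2 | h2
    · exact (hx (h2 ▸ hz)).elim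
    · rw [← h1.1]
      exact ⟨hz, h2⟩
  · right
    refine ⟨?_, h1.2⟩
    have hx : x ∈ P₁ := (hc x (Or.inl rfl) y hy hxy).2 (h1.2.symm ▸ hy)
    refine Set.Subset.antisymm hP₁ ?_
    rintro z (h2 | h2)
    · exact h2 ▸ hx
    · exact (h1.1.symm ▸ h2 : z ∈ P₁ ∩ P).1

/-- adding a vertex to the second side -/
theorem Cn.addZ (h : Cn R P Q) {x : α} {y : β} (hx : x ∈ P) (hxy : R x y) : Cn R P (insert y Q) :=
  (h.symm.addK hx hxy).symm

/-- a star is connected -/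
theorem Cn.star {x : α} (h : ∀ y ∈ Q, R x y) : Cn R {x} Q := by
  intro P₁ hP₁ Q₁ hQ₁ hc
  by_cases hx : x ∈ P₁
  · right
    refine ⟨Set.Subset.antisymm hP₁ (Set.singleton_subset_iff.2 hx), Set.Subset.antisymm hQ₁ ?_⟩
    intro y hy
    exact (hc x rfl y hy (h y hy)).1 hx
  · left
    constructor
    · ext z
      refine ⟨fun hz => hx ?_, fun hz => hz.elim⟩
      have := Set.mem_singleton_iff.1 (hP₁ hz)
      exact this ▸ hz
    · ext y
      exact ⟨fun hy => hx ((hc x rfl y (hQ₁ hy) (h y (hQ₁ hy))).2 hy), fun hy => hy.elim⟩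

/-- a connected set with at least two elements has elements on both sides -/
theorem Cn.two (h : Cn R P Q) (h2 : 2 ≤ P.ncard + Q.ncard) : P.Nonempty ∧ Q.Nonempty := by
  have key : ∀ {α β : Type} {R : α → β → Prop} {P : Set α} {Q : Set β}, Cn R P Q →
      2 ≤ P.ncard + Q.ncard → P.Nonempty := by
    intro α β R P Q h h2
    by_contra hP
    rw [Set.not_nonempty_iff_eq_empty] at hP
    subst hP
    rw [Set.ncard_empty, zero_add] at h2
    obtain ⟨y, hy⟩ := Set.nonempty_of_ncard_ne_zero (s := Q) (by omega)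
    rcases h ∅ (le_refl _) {y} (Set.singleton_subset_iff.2 hy) (fun x hx => hx.elim) with h3 | h3
    · exact (Set.singleton_ne_empty y) h3.2
    · rw [← h3.2, Set.ncard_singleton] at h2
      omega
  exact ⟨key h h2, key h.symm (by omega)⟩

end bip

/-! ### Rails with diagonals and the finite facts -/

section fct

variable {V : Type}

/-- not adjacent -/
def nA (G : SimpleGraph V) (x y : V) : Prop := ¬ G.Adj x y

/-- **Homogeneous rails with diagonals**: `x i k ~ x j l` iff `E i j` for `k < l`, `x i k ~ x j k` iff `D i j` for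
`j < i` -/
structure HomD (G : SimpleGraph V) (L M : ℕ) (x : ℕ → ℕ → V) (E D : ℕ → ℕ → Bool) : Prop where
  dis : ∀ i < L, ∀ j < L, ∀ k < M, ∀ l < M, (i ≠ j ∨ k ≠ l) → x i k ≠ x j l
  rel : ∀ i < L, ∀ j < L, ∀ k l, k < l → l < M → (G.Adj (x i k) (x j l) ↔ E i j = true)
  dia : ∀ i < L, ∀ j < i, ∀ k < M, (G.Adj (x i k) (x j k) ↔ D i j = true)

/-- **The finite facts** (F1 to F7 of note 2957).  A pattern `TP G n true false true k z` is a thick spider: `k` is a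
clique, `z` is stable, `k i ~ z j` iff `i ≠ j`; the pairs `k i`, `z i` are its legs.  'Meets' in the comments
means: not adjacent. -/
structure Fcs (G : SimpleGraph V) : Prop where
  /-- no induced `P_6` in the complement between a clique and a stable set -/
  p6 : ∀ K Z : Set V, (∀ x ∈ K, ∀ y ∈ K, x ≠ y → G.Adj x y) → (∀ x ∈ Z, ∀ y ∈ Z, ¬ G.Adj x y) →
    Disjoint K Z → NP6 (nA G) K Z
  /-- a vertex which meets both vertices of two legs meets the stable vertex of every other leg -/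
  f2 : ∀ (k z : ℕ → V) (y : V), TP G 4 true false true k z → (∀ i < 4, y ≠ k i ∧ y ≠ z i) →
    ¬ G.Adj y (k 0) → ¬ G.Adj y (z 0) → ¬ G.Adj y (k 1) → ¬ G.Adj y (z 1) → ¬ G.Adj y (z 2)
  /-- the path `z 0, k 0, z 1, k 1` (of the complement) and two legs `k i`, `z i`, `i = 2, 3` -/
  f3 : ∀ (k z : ℕ → V) (y : V), (∀ i < 4, ∀ j < 4, k i ≠ z j ∧
      (i ≠ j → k i ≠ k j ∧ z i ≠ z j ∧ G.Adj (k i) (k j) ∧ ¬ G.Adj (z i) (z j)) ∧
      (G.Adj (k i) (z j) ↔ ¬ (i = j ∨ (i = 0 ∧ j = 1)))) → (∀ i < 4, y ≠ k i ∧ y ≠ z i) →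
    ¬ G.Adj y (z 0) → G.Adj y (k 0) → G.Adj y (z 1) → ¬ G.Adj y (k 1) → ¬ G.Adj y (z 2) → False
  /-- two thick spiders, the cliques are anticomplete to each other -/
  f4 : ∀ k s y t : ℕ → V, TP G 5 true false true k s → TP G 5 true false true y t →
    (∀ i < 5, ∀ j < 5, k i ≠ y j ∧ k i ≠ t j ∧ y i ≠ s j ∧ s i ≠ t j ∧ ¬ G.Adj (k i) (y j) ∧
      ¬ G.Adj (s i) (t j) ∧ G.Adj (k i) (t j) ∧ G.Adj (y i) (s j)) → False
  /-- a thick spider (rails 0 and 1) and a clique (rail 2) with a half graph to the clique of the spider -/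
  f5 : ∀ (x : ℕ → ℕ → V) (E D : ℕ → ℕ → Bool), HomD G 3 6 x E D → E 0 0 = true → E 1 1 = false →
    E 2 2 = true → E 0 1 = true → E 1 0 = true → D 1 0 = false → E 0 2 ≠ E 2 0 → False
  /-- a thick spider (rails 0 and 1) and a stable rail 2, complete to the rail 1; the rails 0 and 2 are neither complete
  nor anticomplete to each other -/
  f6 : ∀ (x : ℕ → ℕ → V) (E D : ℕ → ℕ → Bool), HomD G 3 6 x E D → E 0 0 = true → E 1 1 = false →
    E 2 2 = false → E 0 1 = true → E 1 0 = true → D 1 0 = false → E 1 2 = true → E 2 1 = true →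
    D 2 1 = true → ¬ (E 0 2 = E 2 0 ∧ E 0 2 = D 2 0) → False
  /-- two adjacent vertices `u`, `w` which miss the stable rail; `u` meets only `k 0` -/
  f7 : ∀ (k s : ℕ → V) (u w : V), TP G 3 true false true k s →
    (∀ i < 3, u ≠ k i ∧ u ≠ s i ∧ w ≠ k i ∧ w ≠ s i ∧ ¬ G.Adj u (s i) ∧ ¬ G.Adj w (s i)) →
    G.Adj u w → ¬ G.Adj u (k 0) → G.Adj u (k 1) → G.Adj u (k 2) →
    ¬ G.Adj w (k 0) ∧ G.Adj w (k 1) ∧ G.Adj w (k 2)

/-- no large typed patterns, except for thick spiders -/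
def NoPat (G : SimpleGraph V) (m : ℕ) : Prop := ∀ s t e : Bool, ¬ (s ≠ t ∧ e = true) →
  NoTP G m s t e

end fct

/-! ### The decomposition -/

section bas

variable {V : Type} (G : SimpleGraph V) (B : Set V)

/-- the closed neighbourhood in `B` -/
def nB (x : V) : Set V := {y | y ∈ B ∧ (y = x ∨ G.Adj x y)}

/-- **The decomposition.**  `B` is a union of `w` cliques in which the closed neighbourhoods in `B` form chains; the rest
is a union of `p` stable classes of twins (with respect to the rest).  `f x` is the number of the class of `x`.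
`B` has no stable sets with `k` elements, the rest has no cliques with `q` elements. -/
structure Bas (f : V → ℕ) (w p k q : ℕ) : Prop where
  fB : ∀ x ∈ B, f x < w
  fA : ∀ x, x ∉ B → f x < p
  cl : ∀ x ∈ B, ∀ y ∈ B, f x = f y → x ≠ y → G.Adj x y
  ch : ∀ x ∈ B, ∀ y ∈ B, f x = f y → nB G B x ⊆ nB G B y ∨ nB G B y ⊆ nB G B x
  tw : ∀ x, x ∉ B → ∀ y, y ∉ B → f x = f y → ∀ z, z ∉ B → (G.Adj x z ↔ G.Adj y z)
  ns : ∀ T : Finset V, (T : Set V) ⊆ B → R3.Stb G T → T.card < k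
  nc : ∀ T : Finset V, (∀ x ∈ T, x ∉ B) → R3.Clq G T → T.card < q

open Classical in
/-- the label of a vertex: the vertices of `B` with the same label are called a flat class -/
noncomputable def lab (f : V → ℕ) (x : V) : Bool × ℕ × Set V :=
  if x ∈ B then (true, f x, nB G B x) else (false, f x, ∅)

variable {G B}

theorem lab_B {f : V → ℕ} {x : V} (hx : x ∈ B) : lab G B f x = (true, f x, nB G B x) := by
  unfold lab
  rw [if_pos hx]

theorem lab_A {f : V → ℕ} {x : V} (hx : x ∉ B) : lab G B f x = (false, f x, ∅) := by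
  unfold lab
  rw [if_neg hx]

theorem lab_iff {f : V → ℕ} {x y : V} (h : lab G B f x = lab G B f y) : x ∈ B ↔ y ∈ B := by
  by_cases hx : x ∈ B <;> by_cases hy : y ∈ B
  · exact iff_of_true hx hy
  · rw [lab_B hx, lab_A hy] at h
    exact absurd (congrArg Prod.fst h) (by simp)
  · rw [lab_A hx, lab_B hy] at h
    exact absurd (congrArg Prod.fst h) (by simp)
  · exact iff_of_false hx hy

theorem lab_f {f : V → ℕ} {x y : V} (h : lab G B f x = lab G B f y) : f x = f y := by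
  have h1 : ∀ z, (lab G B f z).2.1 = f z := by
    intro z
    by_cases hz : z ∈ B
    · rw [lab_B hz]
    · rw [lab_A hz]
  rw [← h1 x, h, h1]

theorem lab_nB {f : V → ℕ} {x y : V} (hx : x ∈ B) (h : lab G B f x = lab G B f y) :
    nB G B x = nB G B y := by
  have hy := (lab_iff h).1 hx
  rw [lab_B hx, lab_B hy] at h
  exact congrArg (fun z => z.2.2) h

/-- vertices of `B` with the same label have the same neighbours in `B` -/
theorem lab_adjB {f : V → ℕ} {x y z : V} (hx : x ∈ B) (h : lab G B f x = lab G B f y)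
    (hz : z ∈ B) (hzx : z ≠ x) (hzy : z ≠ y) : G.Adj x z ↔ G.Adj y z := by
  have h1 := lab_nB hx h
  constructor
  · intro h2
    have h3 : z ∈ nB G B y := h1 ▸ (⟨hz, Or.inr h2⟩ : z ∈ nB G B x)
    exact h3.2.resolve_left hzy
  · intro h2
    have h3 : z ∈ nB G B x := h1.symm ▸ (⟨hz, Or.inr h2⟩ : z ∈ nB G B y)
    exact h3.2.resolve_left hzx

/-- other vertices with the same label have the same neighbours outside `B` -/
theorem Bas.lab_adjA {f : V → ℕ} {w p k q : ℕ} (hb : Bas G B f w p k q) {x y z : V} (hx : x ∉ B)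
    (h : lab G B f x = lab G B f y) (hz : z ∉ B) : G.Adj x z ↔ G.Adj y z :=
  hb.tw x hx y (fun hy => hx ((lab_iff h).2 hy)) (lab_f h) z hz

/-- the classes outside `B` are stable -/
theorem Bas.stb {f : V → ℕ} {w p k q : ℕ} (hb : Bas G B f w p k q) {x y : V} (hx : x ∉ B)
    (hy : y ∉ B) (h : f x = f y) : ¬ G.Adj x y := fun h1 =>
  G.loopless.irrefl y ((hb.tw x hx y hy h y hy).1 h1)

end bas

/-! ### Systems of cells -/

section sys

variable {V : Type}

/-- `v` is adjacent to all elements of `Y` or to none -/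
def Cst (G : SimpleGraph V) (v : V) (Y : Set V) : Prop :=
  (∀ y ∈ Y, G.Adj v y) ∨ ∀ y ∈ Y, ¬ G.Adj v y

/-- `v` is not adjacent to some vertex of the other side of `X` -/
def Tc (G : SimpleGraph V) (B : Set V) (v : V) (X : Set V) : Prop :=
  (v ∈ B ∧ ∃ y ∈ X, y ∉ B ∧ ¬ G.Adj v y) ∨ (v ∉ B ∧ ∃ y ∈ X, y ∈ B ∧ ¬ G.Adj v y)

/-- `v` is constant on the other side of `X` -/
def Cs (G : SimpleGraph V) (B : Set V) (v : V) (X : Set V) : Prop :=
  (v ∈ B → Cst G v (X \ B)) ∧ (v ∉ B → Cst G v (X ∩ B))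

/-- **Systems of cells.**  `K ⊆ B` is a clique, `Z` is a stable set outside `B`; the cells `C i`, `i < n`, are disjoint
subsets of `K ∪ Z` with more than `b` elements, connected for the relation 'not adjacent' between `B` and the rest, and
vertices of different cells on different sides are adjacent. -/
structure Sys (G : SimpleGraph V) (B K Z : Set V) (b n : ℕ) (C : ℕ → Set V) : Prop where
  kB : ∀ x ∈ K, x ∈ B
  zB : ∀ z ∈ Z, z ∉ B
  kc : ∀ x ∈ K, ∀ y ∈ K, x ≠ y → G.Adj x y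
  zs : ∀ x ∈ Z, ∀ y ∈ Z, ¬ G.Adj x y
  sub : ∀ i < n, ∀ x ∈ C i, x ∈ K ∨ x ∈ Z
  con : ∀ i < n, Cn (nA G) (C i ∩ B) (C i \ B)
  nk : ∀ i < n, (C i ∩ B).Nonempty
  nz : ∀ i < n, (C i \ B).Nonempty
  big : ∀ i < n, b < (C i).ncard
  dis : ∀ i < n, ∀ j < n, i ≠ j → Disjoint (C i) (C j)
  ant : ∀ i < n, ∀ j < n, i ≠ j → ∀ x ∈ C i, x ∈ B → ∀ y ∈ C j, y ∉ B → G.Adj x y

variable {G : SimpleGraph V} {B K Z : Set V} {b n : ℕ} {C : ℕ → Set V}

theorem Sys.inK (h : Sys G B K Z b n C) {i : ℕ} (hi : i < n) {x : V} (hx : x ∈ C i) (hB : x ∈ B) :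
    x ∈ K := (h.sub i hi x hx).resolve_right fun h1 => h.zB x h1 hB

theorem Sys.inZ (h : Sys G B K Z b n C) {i : ℕ} (hi : i < n) {x : V} (hx : x ∈ C i) (hB : x ∉ B) :
    x ∈ Z := (h.sub i hi x hx).resolve_left fun h1 => hB (h.kB x h1)

/-- some of the cells, in another order -/
theorem Sys.comp (h : Sys G B K Z b n C) {n' : ℕ} (σ : ℕ → ℕ) (hσ : ∀ i < n', σ i < n)
    (hi : ∀ i < n', ∀ j < n', i ≠ j → σ i ≠ σ j) : Sys G B K Z b n' (fun i => C (σ i)) :=
  ⟨h.kB, h.zB, h.kc, h.zs, fun i hi' => h.sub _ (hσ i hi'), fun i hi' => h.con _ (hσ i hi'),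
    fun i hi' => h.nk _ (hσ i hi'), fun i hi' => h.nz _ (hσ i hi'), fun i hi' => h.big _ (hσ i hi'),
    fun i hi' j hj hij => h.dis _ (hσ i hi') _ (hσ j hj) (hi i hi' j hj hij),
    fun i hi' j hj hij => h.ant _ (hσ i hi') _ (hσ j hj) (hi i hi' j hj hij)⟩

theorem Sys.mono (h : Sys G B K Z b n C) {n' : ℕ} (hn : n' ≤ n) : Sys G B K Z b n' C :=
  h.comp id (fun _ hi => lt_of_lt_of_le hi hn) fun _ _ _ _ hij => hij

/-- the leg of a vertex of the clique -/
theorem Sys.legK (h : Sys G B K Z b n C) {i : ℕ} (hi : i < n) {x : V} (hx : x ∈ C i)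
    (hB : x ∈ B) : ∃ y ∈ C i, y ∉ B ∧ ¬ G.Adj x y := by
  obtain ⟨y, hy, hxy⟩ := (h.con i hi).nbK (h.nz i hi) ⟨hx, hB⟩
  exact ⟨y, hy.1, hy.2, hxy⟩

/-- the leg of a vertex of the stable set -/
theorem Sys.legZ (h : Sys G B K Z b n C) {i : ℕ} (hi : i < n) {y : V} (hy : y ∈ C i)
    (hB : y ∉ B) : ∃ x ∈ C i, x ∈ B ∧ ¬ G.Adj x y := by
  obtain ⟨x, hx, hxy⟩ := (h.con i hi).nbZ (h.nk i hi) ⟨hy, hB⟩
  exact ⟨x, hx.1, hx.2, hxy⟩

/-- **legs of different cells form a thick spider** -/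
theorem Sys.tp (h : Sys G B K Z b n C) {m : ℕ} (φ : ℕ → ℕ) (hφ : ∀ i < m, φ i < n)
    (hi : ∀ i < m, ∀ j < m, i ≠ j → φ i ≠ φ j) (k z : ℕ → V)
    (hk : ∀ i < m, k i ∈ C (φ i) ∧ k i ∈ B) (hz : ∀ i < m, z i ∈ C (φ i) ∧ z i ∉ B)
    (hkz : ∀ i < m, ¬ G.Adj (k i) (z i)) : TP G m true false true k z where
  dis i hi' j hj h1 := (hz j hj).2 (h1 ▸ (hk i hi').2)
  ia i hi' j hj hij h1 := Set.disjoint_left.1 (h.dis _ (hφ i hi') _ (hφ j hj) (hi i hi' j hj hij))
    (hk i hi').1 (h1 ▸ (hk j hj).1)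
  ib i hi' j hj hij h1 := Set.disjoint_left.1 (h.dis _ (hφ i hi') _ (hφ j hj) (hi i hi' j hj hij))
    (hz i hi').1 (h1 ▸ (hz j hj).1)
  aa i hi' j hj hij := by
    refine iff_of_true (h.kc _ (h.inK (hφ i hi') (hk i hi').1 (hk i hi').2) _
      (h.inK (hφ j hj) (hk j hj).1 (hk j hj).2) fun h1 => ?_) rfl
    exact Set.disjoint_left.1 (h.dis _ (hφ i hi') _ (hφ j hj) (hi i hi' j hj hij))
      (hk i hi').1 (h1 ▸ (hk j hj).1)
  bb i hi' j hj hij := by
    refine iff_of_false (h.zs _ (h.inZ (hφ i hi') (hz i hi').1 (hz i hi').2) _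
      (h.inZ (hφ j hj) (hz j hj).1 (hz j hj).2)) (by simp)
  ab i hi' j hj := by
    by_cases hij : i = j
    · subst hij
      exact iff_of_false (hkz i hi') (by simp)
    · refine iff_of_true (h.ant _ (hφ i hi') _ (hφ j hj) (hi i hi' j hj hij) _ (hk i hi').1
        (hk i hi').2 _ (hz j hj).1 (hz j hj).2) ?_
      simp [hij]

/-- the clique of a set of labels -/
def Kb (G : SimpleGraph V) (B : Set V) (f : V → ℕ) (L : Set (Bool × ℕ × Set V)) : Set V :=
  {x | x ∈ B ∧ lab G B f x ∈ L}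

/-- the stable set of a set of labels -/
def Zb (G : SimpleGraph V) (B : Set V) (f : V → ℕ) (L : Set (Bool × ℕ × Set V)) : Set V :=
  {x | x ∉ B ∧ lab G B f x ∈ L}

/-- **Systems for a set of labels**: every label occurs in every cell -/
structure SysL (G : SimpleGraph V) (B : Set V) (f : V → ℕ) (b : ℕ) (L : Set (Bool × ℕ × Set V))
    (n : ℕ) (C : ℕ → Set V) : Prop where
  sys : Sys G B (Kb G B f L) (Zb G B f L) b n C
  att : ∀ i < n, ∀ l ∈ L, ∃ x ∈ C i, lab G B f x = l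

/-- (MC): a set with cut-rank at most `c` or its complement has at most `b` elements -/
def MC (G : SimpleGraph V) (c b : ℕ) : Prop :=
  ∀ Y : Set V, LK.cr G Y ≤ c → Y.ncard ≤ b ∨ Yᶜ.ncard ≤ b

/-- (1a): no `r` legs whose clique vertices are in one class and have different closed neighbourhoods in `B` -/
def Hy1 (G : SimpleGraph V) (B : Set V) (f : V → ℕ) (r : ℕ) : Prop :=
  ∀ x z : ℕ → V, TP G r true false true x z → (∀ i < r, x i ∈ B ∧ z i ∉ B) →
    (∀ i < r, ∀ j < r, f (x i) = f (x j)) →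
    (∀ i < r, ∀ j < r, i ≠ j → nB G B (x i) ≠ nB G B (x j)) → False

/-- (1b): no `r` legs whose clique vertices have different rows on a stable set which is complete to the other
vertices -/
def Hy2 (G : SimpleGraph V) (r : ℕ) : Prop :=
  ∀ (x z : ℕ → V) (Y : Set V), TP G r true false true x z →
    (∀ y ∈ Y, ∀ y' ∈ Y, ¬ G.Adj y y') → (∀ i < r, ∀ y ∈ Y, y ≠ x i ∧ G.Adj (z i) y) →
    (∀ i < r, ∀ j < r, i ≠ j → ∃ y ∈ Y, ¬ (G.Adj y (x i) ↔ G.Adj y (x j))) → False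

end sys

/-! ### The modified graph -/

/-- **The modified graph**: `G'` is `G` inside `B` and inside the complement of `B`; every vertex is in at most `b` pairs
where `G'` and `G` differ; there is a colouring with `N` colours such that the edges of `G'` between a colour in `B` and a
colour outside `B` are without induced `2K_2` -/
structure Md {V : Type} (G G' : SimpleGraph V) (B : Set V) (N b : ℕ) : Prop where
  same : ∀ x y, (x ∈ B ↔ y ∈ B) → (G'.Adj x y ↔ G.Adj x y)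
  deg : ∀ x, {y | ¬ (G'.Adj x y ↔ G.Adj x y)}.ncard ≤ b
  col : ∃ χ : V → ℕ, (∀ x, χ x < N) ∧ ∀ x ∈ B, ∀ x' ∈ B, ∀ y, y ∉ B → ∀ y', y' ∉ B → χ x = χ x' →
    χ y = χ y' → G'.Adj x y → ¬ G'.Adj x y' → ¬ G'.Adj x' y → G'.Adj x' y' → False

end Pool.Agent.MPd439b2.ST
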