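import Pool.Agent.Lib.MP_d439b2_co.ST.Spec
import Pool.Agent.Lib.MP_d439b2_co.R3.Eng

/-!
# MP_d439b2_co, ST/Eng: certificates for the finite facts (helper38)
-/

set_option autoImplicit false

namespace Pool.Agent.MPd439b2.ST

open Pool.Agent.MPd439b2 Pool.Agent.MPd439b2.Rep
open Pool.Agent.MPd439b2.BU
open Pool.Agent.MPd439b2.HC

namespace FctAux

variable {V : Type}

/-- one certificate -/
def chk2 (N : ℕ) (r : ℕ → ℕ → Bool) (C : List (List ℕ)) : Bool :=
  chkG N 6 r R3.q2 C || chkG N 11 r R3.qJ C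

/-- `G` has neither of the two graphs -/
def Fre (G : SimpleGraph V) : Prop := SPF G Set.univ 6 R3.q2 ∧ SPF G Set.univ 11 R3.qJ

theorem chk2_false {G : SimpleGraph V} (hG : Fre G) {N : ℕ} {S : ℕ → Set V} {r : ℕ → ℕ → Bool}
    (hS : SP G Set.univ N S r) {C : List (List ℕ)} (hc : chk2 N r C = true) : False := by
  simp only [chk2, Bool.or_eq_true] at hc
  rcases hc with hc | hc
  · exact hG.1 _ (chkG_sp hS hc)
  · exact hG.2 _ (chkG_sp hS hc)

/-! ### a clique and a stable set -/

/-- the table of a clique `k` (numbers `< n`) and a stable set `z` (numbers `n + i`) with the relation `e` -/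
def rE (n : ℕ) (e : ℕ → ℕ → Bool) (p q : ℕ) : Bool :=
  bif Nat.blt p n then true else (bif Nat.blt q n then e q (p - n) else false)

theorem sp_kz {G : SimpleGraph V} {n : ℕ} {k z : ℕ → V} {e : ℕ → ℕ → Bool}
    (h : ∀ i < n, ∀ j < n, k i ≠ z j ∧
      (i ≠ j → k i ≠ k j ∧ z i ≠ z j ∧ G.Adj (k i) (k j) ∧ ¬ G.Adj (z i) (z j)) ∧
      (G.Adj (k i) (z j) ↔ e i j = true)) :
    SP G Set.univ (n + n) (fun p => {if p < n then k p else z (p - n)}) (rE n e) := by
  refine ⟨fun i _ => Set.subset_univ _, fun i _ => Conn.singleton G _, ?_, ?_⟩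
  · intro i hi j hj
    rw [Set.disjoint_singleton]
    by_cases h1 : i < n
    · rw [if_pos h1, if_pos (hj.trans h1)]
      exact ((h i h1 j (hj.trans h1)).2.1 hj.ne').1
    · rw [if_neg h1]
      by_cases h2 : j < n
      · rw [if_pos h2]
        exact (h j h2 (i - n) (by omega)).1.symm
      · rw [if_neg h2]
        exact ((h (i - n) (by omega) (j - n) (by omega)).2.1 (by omega)).2.1
  · intro i hi j hj
    rw [tch_single]
    by_cases h1 : i < n
    · rw [if_pos h1, if_pos (hj.trans h1)]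
      have h3 : Nat.blt i n = true := Nat.blt_eq.mpr h1
      rw [rE, h3, cond_true]
      exact iff_of_true ((h i h1 j (hj.trans h1)).2.1 hj.ne').2.2.1 rfl
    · have h1' : Nat.blt i n = false := by
        rw [← Bool.not_eq_true, Nat.blt_eq]
        exact h1
      rw [if_neg h1, rE, h1', cond_false]
      by_cases h2 : j < n
      · have h2' : Nat.blt j n = true := Nat.blt_eq.mpr h2
        rw [if_pos h2, h2', cond_true, SimpleGraph.adj_comm]
        exact (h j h2 (i - n) (by omega)).2.2
      · have h2' : Nat.blt j n = false := by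
          rw [← Bool.not_eq_true, Nat.blt_eq]
          exact h2
        rw [if_neg h2, h2', cond_false]
        exact iff_of_false ((h (i - n) (by omega) (j - n) (by omega)).2.1 (by omega)).2.2.2
          (by simp)

theorem sp_tp {G : SimpleGraph V} {n : ℕ} {k z : ℕ → V} (h : TP G n true false true k z) :
    SP G Set.univ (n + n) (fun p => {if p < n then k p else z (p - n)})
      (rE n fun i j => !(Nat.beq i j)) := by
  refine sp_kz fun i hi j hj => ⟨h.dis i hi j hj, fun hij => ⟨h.ia i hi j hj hij,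
    h.ib i hi j hj hij, (h.aa i hi j hj hij).2 rfl, fun h1 => ?_⟩, ?_⟩
  · exact Bool.false_ne_true ((h.bb i hi j hj hij).1 h1)
  · rw [h.ab i hi j hj]
    by_cases hij : i = j
    · have : Nat.beq i j = true := Nat.beq_eq.mpr hij
      simp [hij]
    · have : Nat.beq i j = false := by
        rw [← Bool.not_eq_true, Nat.beq_eq]
        exact hij
      simp [hij, this]

/-! ### adding a vertex -/

/-- the table with one more vertex -/
def rX (N : ℕ) (r : ℕ → ℕ → Bool) (t p q : ℕ) : Bool := bif Nat.blt p N then r p q else t.testBit q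

theorem snocX {G : SimpleGraph V} {N : ℕ} {S : ℕ → Set V} {r : ℕ → ℕ → Bool}
    (h : SP G Set.univ N S r) (y : V) (hd : ∀ j < N, y ∉ S j) :
    ∃ t < 2 ^ N, (∀ j < N, (Tch G {y} (S j) ↔ t.testBit j = true)) ∧
      SP G Set.univ (N + 1) (fun i => if i < N then S i else {y}) (rX N r t) := by
  obtain ⟨t, ht⟩ := exists_tr G N S {y}
  refine ⟨t, ht.1, ht.2, SP.snoc h (fun i hi j _ => ?_) (fun j _ => ?_) (Conn.singleton G y)
    (Set.subset_univ _) (fun j hj => Set.disjoint_singleton_left.2 (hd j hj)) ht⟩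
  · have : Nat.blt i N = true := Nat.blt_eq.mpr hi
    rw [rX, this, cond_true]
  · have : Nat.blt N N = false := by
      rw [← Bool.not_eq_true, Nat.blt_eq]
      exact lt_irrefl N
    rw [rX, this, cond_false]

theorem bitT {P : Prop} {t j : ℕ} (h : P ↔ t.testBit j = true) (hP : P) : t.testBit j = true :=
  h.1 hP

theorem bitF {P : Prop} {t j : ℕ} (h : P ↔ t.testBit j = true) (hP : ¬ P) :
    t.testBit j = false := by
  rw [← Bool.not_eq_true]
  exact fun h1 => hP (h.2 h1)

/-! ### rails with diagonals -/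

/-- the table of homogeneous rails with diagonals; `x i k` has the number `L k + i` -/
def rHD (L : ℕ) (E D : ℕ → ℕ → Bool) (p q : ℕ) : Bool :=
  bif Nat.blt (q / L) (p / L) then E (q % L) (p % L) else D (p % L) (q % L)

theorem sp_homD {G : SimpleGraph V} {L M : ℕ} {x : ℕ → ℕ → V} {E D : ℕ → ℕ → Bool}
    (h : HomD G L M x E D) (hL : 0 < L) :
    SP G Set.univ (L * M) (fun p => {x (p % L) (p / L)}) (rHD L E D) := by
  have hm : ∀ p, p % L < L := fun p => Nat.mod_lt p hL
  have hM : ∀ p < L * M, p / L < M := fun p hp => Nat.div_lt_of_lt_mul hp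
  have hne : ∀ p q, q < p → q / L ≤ p / L ∧ (q / L = p / L → q % L < p % L) := by
    intro p q hqp
    refine ⟨Nat.div_le_div_right hqp.le, fun h1 => ?_⟩
    have h2 := Nat.div_add_mod p L
    have h3 := Nat.div_add_mod q L
    rw [h1] at h3
    omega
  refine ⟨fun _ _ => Set.subset_univ _, fun _ _ => Conn.singleton G _, fun p hp q hq => ?_,
    fun p hp q hq => ?_⟩
  · refine Set.disjoint_singleton.2 (h.dis _ (hm p) _ (hm q) _ (hM p hp) _ (hM q (by omega)) ?_)
    have := hne p q hq
    by_contra hcon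
    push Not at hcon
    have h4 := this.2 hcon.2.symm
    omega
  · rw [tch_single]
    unfold rHD
    have h1 := hne p q hq
    rcases Nat.lt_or_ge (q / L) (p / L) with h2 | h2
    · have h3 : Nat.blt (q / L) (p / L) = true := by rw [Nat.blt_eq]; exact h2
      rw [h3, cond_true, ← h.rel _ (hm q) _ (hm p) _ _ h2 (hM p hp)]
      exact ⟨fun h => h.symm, fun h => h.symm⟩
    · have h3 : Nat.blt (q / L) (p / L) = false := by
        rw [Bool.eq_false_iff]
        intro h3
        rw [Nat.blt_eq] at h3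
        omega
      have h4 : q / L = p / L := by omega
      rw [h3, cond_false, h4, h.dia _ (hm p) _ (h1.2 h4) _ (hM p hp)]

/-- the check of a code: `PE`, `PD` are the tables (hexadecimal digits) of `E` and `D` -/
def chkD (L M PE PD c : ℕ) (C : List (List ℕ)) : Bool :=
  chk2 (L * M) (rHD L (R3.EC L PE c) (R3.EC L PD c)) C

/-- the meaning of the digits of the table -/
def gF (f : ℕ → Bool) : ℕ → Bool
  | 0 => false
  | 1 => true
  | k + 2 => f k

theorem ec_of {E : ℕ → ℕ → Bool} {L PM n c : ℕ} (f : ℕ → Bool) (hf : ∀ k < n, c.testBit k = f k)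
    {i j : ℕ} (hd : (PM >>> (4 * (L * i + j))) % 16 < n + 2)
    (hE : E i j = gF f ((PM >>> (4 * (L * i + j))) % 16)) : E i j = R3.EC L PM c i j := by
  rw [hE]
  unfold R3.EC
  generalize (PM >>> (4 * (L * i + j))) % 16 = d at hd ⊢
  match d, hd with
  | 0, _ => rw [R3.tb0]; rfl
  | 1, _ => rw [R3.tb1]; rfl
  | k + 2, h1 => rw [R3.tb2, hf k (by omega)]; rfl

/-- a checked family of codes -/
def famD (L M PE PD : ℕ) (cs : List (List (List ℕ))) (N : ℕ) (flt : ℕ → Bool) : Bool :=
  (List.range N).all fun c => flt c || chkD L M PE PD c (cs.getD c [])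

theorem famD_false {G : SimpleGraph V} (hG : Fre G) {L M : ℕ} {x : ℕ → ℕ → V} {E D : ℕ → ℕ → Bool}
    (h : HomD G L M x E D) (hL : 0 < L) {PE PD n : ℕ} (f : ℕ → Bool)
    (hdE : ∀ i < L, ∀ j < L, (PE >>> (4 * (L * i + j))) % 16 < n + 2)
    (hE : ∀ i < L, ∀ j < L, E i j = gF f ((PE >>> (4 * (L * i + j))) % 16))
    (hdD : ∀ i < L, ∀ j < i, (PD >>> (4 * (L * i + j))) % 16 < n + 2)
    (hD : ∀ i < L, ∀ j < i, D i j = gF f ((PD >>> (4 * (L * i + j))) % 16))
    {cs : List (List (List ℕ))} {flt : ℕ → Bool} (hf : famD L M PE PD cs (2 ^ n) flt = true)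
    (hfl : ∀ c < 2 ^ n, (∀ k < n, c.testBit k = f k) → flt c = false) : False := by
  obtain ⟨c, hc, hb⟩ := R3.exists_code f n
  have hE' : ∀ i < L, ∀ j < L, E i j = R3.EC L PE c i j := fun i hi j hj =>
    ec_of f hb (hdE i hi j hj) (hE i hi j hj)
  have hD' : ∀ i < L, ∀ j < i, D i j = R3.EC L PD c i j := fun i hi j hj =>
    ec_of f hb (hdD i hi j hj) (hD i hi j hj)
  have h' : HomD G L M x (R3.EC L PE c) (R3.EC L PD c) :=
    ⟨h.dis, fun i hi j hj k l hkl hl => by rw [← hE' i hi j hj]; exact h.rel i hi j hj k l hkl hl,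
      fun i hi j hj k hk => by rw [← hD' i hi j hj]; exact h.dia i hi j hj k hk⟩
  simp only [famD, List.all_eq_true, List.mem_range, Bool.or_eq_true] at hf
  rcases hf c hc with h1 | h1
  · rw [hfl c hc hb] at h1
    exact Bool.false_ne_true h1
  · exact chk2_false hG (sp_homD h' hL) h1

end FctAux

end Pool.Agent.MPd439b2.ST
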