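import Pool.Agent.Lib.MP_d439b2_co.ST.Spec

/-! MP_d439b2_co, ST: proof of `S_Gl` (gluing two parts) -/

set_option autoImplicit false

namespace Pool.Agent.MPd439b2.ST

open Pool.Agent.MPd439b2 Pool.Agent.MPd439b2.Rep

namespace GlAux

open Classical in
/-- the glued relation -/
def gl {α β : Type} (K₁ : Set α) (Z₁ : Set β) (S₁ S₂ : α → β → Prop) (u v : Prop) (x : α) (y : β) :
    Prop :=
  if x ∈ K₁ then (if y ∈ Z₁ then S₁ x y else u) else (if y ∈ Z₁ then v else S₂ x y)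

variable {α β : Type} {K₁ : Set α} {Z₁ : Set β} {S₁ S₂ : α → β → Prop} {u v : Prop}

theorem gl11 {x : α} {y : β} (hx : x ∈ K₁) (hy : y ∈ Z₁) :
    gl K₁ Z₁ S₁ S₂ u v x y ↔ S₁ x y := by
  unfold gl
  rw [if_pos hx, if_pos hy]

theorem gl10 {x : α} {y : β} (hx : x ∈ K₁) (hy : y ∉ Z₁) :
    gl K₁ Z₁ S₁ S₂ u v x y ↔ u := by
  unfold gl
  rw [if_pos hx, if_neg hy]

theorem gl01 {x : α} {y : β} (hx : x ∉ K₁) (hy : y ∈ Z₁) :
    gl K₁ Z₁ S₁ S₂ u v x y ↔ v := by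
  unfold gl
  rw [if_neg hx, if_pos hy]

theorem gl00 {x : α} {y : β} (hx : x ∉ K₁) (hy : y ∉ Z₁) :
    gl K₁ Z₁ S₁ S₂ u v x y ↔ S₂ x y := by
  unfold gl
  rw [if_neg hx, if_neg hy]

/-- the exceptional pairs at an element of the first side -/
theorem degK [Finite β] {R : α → β → Prop} {K : Set α} {Z : Set β} {b : ℕ}
    (hu : ∀ k ∈ K₁, ∀ z ∈ Z \ Z₁, (R k z ↔ u)) (hv : ∀ k ∈ K \ K₁, ∀ z ∈ Z₁, (R k z ↔ v))
    (h1 : ∀ x ∈ K₁, {y | y ∈ Z₁ ∧ ¬ (S₁ x y ↔ R x y)}.ncard < b)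
    (h2 : ∀ x ∈ K \ K₁, {y | y ∈ Z \ Z₁ ∧ ¬ (S₂ x y ↔ R x y)}.ncard < b) :
    ∀ x ∈ K, {y | y ∈ Z ∧ ¬ (gl K₁ Z₁ S₁ S₂ u v x y ↔ R x y)}.ncard < b := by
  intro x hx
  by_cases hx1 : x ∈ K₁
  · refine lt_of_le_of_lt (Set.ncard_le_ncard ?_ (Set.toFinite _)) (h1 x hx1)
    rintro y ⟨hy, hn⟩
    by_cases hy1 : y ∈ Z₁
    · rw [gl11 hx1 hy1] at hn
      exact ⟨hy1, hn⟩
    · rw [gl10 hx1 hy1] at hn
      exact absurd (hu x hx1 y ⟨hy, hy1⟩).symm hn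
  · refine lt_of_le_of_lt (Set.ncard_le_ncard ?_ (Set.toFinite _)) (h2 x ⟨hx, hx1⟩)
    rintro y ⟨hy, hn⟩
    by_cases hy1 : y ∈ Z₁
    · rw [gl01 hx1 hy1] at hn
      exact absurd (hv x ⟨hx, hx1⟩ y hy1).symm hn
    · rw [gl00 hx1 hy1] at hn
      exact ⟨⟨hy, hy1⟩, hn⟩

/-- the exceptional pairs at an element of the second side -/
theorem degZ [Finite α] {R : α → β → Prop} {K : Set α} {Z : Set β} {b : ℕ}
    (hu : ∀ k ∈ K₁, ∀ z ∈ Z \ Z₁, (R k z ↔ u)) (hv : ∀ k ∈ K \ K₁, ∀ z ∈ Z₁, (R k z ↔ v))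
    (h1 : ∀ y ∈ Z₁, {x | x ∈ K₁ ∧ ¬ (S₁ x y ↔ R x y)}.ncard < b)
    (h2 : ∀ y ∈ Z \ Z₁, {x | x ∈ K \ K₁ ∧ ¬ (S₂ x y ↔ R x y)}.ncard < b) :
    ∀ y ∈ Z, {x | x ∈ K ∧ ¬ (gl K₁ Z₁ S₁ S₂ u v x y ↔ R x y)}.ncard < b := by
  intro y hy
  by_cases hy1 : y ∈ Z₁
  · refine lt_of_le_of_lt (Set.ncard_le_ncard ?_ (Set.toFinite _)) (h1 y hy1)
    rintro x ⟨hx, hn⟩
    by_cases hx1 : x ∈ K₁
    · rw [gl11 hx1 hy1] at hn
      exact ⟨hx1, hn⟩
    · rw [gl01 hx1 hy1] at hn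
      exact absurd (hv x ⟨hx, hx1⟩ y hy1).symm hn
  · refine lt_of_le_of_lt (Set.ncard_le_ncard ?_ (Set.toFinite _)) (h2 y ⟨hy, hy1⟩)
    rintro x ⟨hx, hn⟩
    by_cases hx1 : x ∈ K₁
    · rw [gl10 hx1 hy1] at hn
      exact absurd (hu x hx1 y ⟨hy, hy1⟩).symm hn
    · rw [gl00 hx1 hy1] at hn
      exact ⟨⟨hx, hx1⟩, hn⟩

end GlAux

open GlAux Classical in
theorem tGl : S_Gl := by
  intro α β _ _ R K K₁ Z Z₁ b T₁ T₂ u v hK hZ hu hv
  refine ⟨?_, ?_, ?_⟩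
  · rintro hu1 hv1 ⟨S₁, c₁, d₁, hc1, hd1, h1, h1K, h1Z⟩ ⟨S₂, c₂, d₂, hc2, hd2, h2, h2K, h2Z⟩
    refine ⟨gl K₁ Z₁ S₁ S₂ u v, fun x => if x ∈ K₁ then c₁ x else c₂ x,
      fun y => if y ∈ Z₁ then d₁ y else d₂ y, ?_, ?_, ?_, degK hu hv h1K h2K, degZ hu hv h1Z h2Z⟩
    · intro x
      show (if x ∈ K₁ then c₁ x else c₂ x) < T₁
      split_ifs
      · exact hc1 x
      · exact hc2 x
    · intro y
      show (if y ∈ Z₁ then d₁ y else d₂ y) < T₁
      split_ifs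
      · exact hd1 y
      · exact hd2 y
    · intro x hx x' hx' y hy y' hy' hcx hdy s1 s2 s3 s4
      have a1 : x ∈ K₁ → y' ∈ Z₁ := fun h => by
        by_contra h'
        rw [gl10 h h'] at s2
        exact s2 hu1
      have a2 : x' ∈ K₁ → y ∈ Z₁ := fun h => by
        by_contra h'
        rw [gl10 h h'] at s3
        exact s3 hu1
      have a3 : y ∈ Z₁ → x ∈ K₁ := fun h => by
        by_contra h'
        rw [gl01 h' h] at s1
        exact hv1 s1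
      have a4 : y' ∈ Z₁ → x' ∈ K₁ := fun h => by
        by_contra h'
        rw [gl01 h' h] at s4
        exact hv1 s4
      by_cases hx1 : x ∈ K₁
      · have hy'1 := a1 hx1
        have hx'1 := a4 hy'1
        have hy1 := a2 hx'1
        simp only [if_pos hx1, if_pos hx'1] at hcx
        simp only [if_pos hy1, if_pos hy'1] at hdy
        rw [gl11 hx1 hy1] at s1
        rw [gl11 hx1 hy'1] at s2
        rw [gl11 hx'1 hy1] at s3
        rw [gl11 hx'1 hy'1] at s4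
        exact h1 x hx1 x' hx'1 y hy1 y' hy'1 hcx hdy s1 s2 s3 s4
      · have hy1 : y ∉ Z₁ := fun h => hx1 (a3 h)
        have hx'1 : x' ∉ K₁ := fun h => hy1 (a2 h)
        have hy'1 : y' ∉ Z₁ := fun h => hx'1 (a4 h)
        simp only [if_neg hx1, if_neg hx'1] at hcx
        simp only [if_neg hy1, if_neg hy'1] at hdy
        rw [gl00 hx1 hy1] at s1
        rw [gl00 hx1 hy'1] at s2
        rw [gl00 hx'1 hy1] at s3
        rw [gl00 hx'1 hy'1] at s4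
        exact h2 x ⟨hx, hx1⟩ x' ⟨hx', hx'1⟩ y ⟨hy, hy1⟩ y' ⟨hy', hy'1⟩ hcx hdy s1 s2 s3 s4
  · rintro huv ⟨S₁, c₁, d₁, hc1, hd1, h1, h1K, h1Z⟩ ⟨S₂, c₂, d₂, hc2, hd2, h2, h2K, h2Z⟩
    refine ⟨gl K₁ Z₁ S₁ S₂ u v, fun x => if x ∈ K₁ then c₁ x else T₁ + c₂ x,
      fun y => if y ∈ Z₁ then d₁ y else T₁ + d₂ y, ?_, ?_, ?_, degK hu hv h1K h2K,
      degZ hu hv h1Z h2Z⟩
    · intro x
      show (if x ∈ K₁ then c₁ x else T₁ + c₂ x) < T₁ + T₂
      split_ifs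
      · exact lt_of_lt_of_le (hc1 x) (Nat.le_add_right _ _)
      · exact Nat.add_lt_add_left (hc2 x) _
    · intro y
      show (if y ∈ Z₁ then d₁ y else T₁ + d₂ y) < T₁ + T₂
      split_ifs
      · exact lt_of_lt_of_le (hd1 y) (Nat.le_add_right _ _)
      · exact Nat.add_lt_add_left (hd2 y) _
    · intro x hx x' hx' y hy y' hy' hcx hdy s1 s2 s3 s4
      have b1 := hc1 x
      have b2 := hc1 x'
      have b3 := hd1 y
      have b4 := hd1 y'
      by_cases hx1 : x ∈ K₁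
      · have hx'1 : x' ∈ K₁ := by
          by_contra h
          simp only [if_pos hx1, if_neg h] at hcx
          omega
        by_cases hy1 : y ∈ Z₁
        · have hy'1 : y' ∈ Z₁ := by
            by_contra h
            simp only [if_pos hy1, if_neg h] at hdy
            omega
          simp only [if_pos hx1, if_pos hx'1] at hcx
          simp only [if_pos hy1, if_pos hy'1] at hdy
          rw [gl11 hx1 hy1] at s1
          rw [gl11 hx1 hy'1] at s2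
          rw [gl11 hx'1 hy1] at s3
          rw [gl11 hx'1 hy'1] at s4
          exact h1 x hx1 x' hx'1 y hy1 y' hy'1 hcx hdy s1 s2 s3 s4
        · have hy'1 : y' ∉ Z₁ := by
            intro h
            simp only [if_neg hy1, if_pos h] at hdy
            omega
          rw [gl10 hx1 hy1] at s1
          rw [gl10 hx1 hy'1] at s2
          exact s2 s1
      · have hx'1 : x' ∉ K₁ := by
          intro h
          simp only [if_neg hx1, if_pos h] at hcx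
          omega
        by_cases hy1 : y ∈ Z₁
        · have hy'1 : y' ∈ Z₁ := by
            by_contra h
            simp only [if_pos hy1, if_neg h] at hdy
            omega
          rw [gl01 hx1 hy1] at s1
          rw [gl01 hx1 hy'1] at s2
          exact s2 s1
        · have hy'1 : y' ∉ Z₁ := by
            intro h
            simp only [if_neg hy1, if_pos h] at hdy
            omega
          simp only [if_neg hx1, if_neg hx'1] at hcx
          simp only [if_neg hy1, if_neg hy'1] at hdy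
          rw [gl00 hx1 hy1] at s1
          rw [gl00 hx1 hy'1] at s2
          rw [gl00 hx'1 hy1] at s3
          rw [gl00 hx'1 hy'1] at s4
          exact h2 x ⟨hx, hx1⟩ x' ⟨hx', hx'1⟩ y ⟨hy, hy1⟩ y' ⟨hy', hy'1⟩ (by omega) (by omega)
            s1 s2 s3 s4
  · rintro huv h1K h1Z ⟨S₂, c₂, d₂, hc2, hd2, h2, h2K, h2Z⟩
    refine ⟨gl K₁ Z₁ (fun _ _ => u) S₂ u v, c₂, d₂, hc2, hd2, ?_, degK hu hv h1K h2K,
      degZ hu hv h1Z h2Z⟩
    intro x hx x' hx' y hy y' hy' hcx hdy s1 s2 s3 s4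
    have hx1 : x ∉ K₁ := by
      intro hx1
      have e1 : gl K₁ Z₁ (fun _ _ => u) S₂ u v x y ↔ u := by
        by_cases hy1 : y ∈ Z₁
        · exact gl11 hx1 hy1
        · exact gl10 hx1 hy1
      have e2 : gl K₁ Z₁ (fun _ _ => u) S₂ u v x y' ↔ u := by
        by_cases hy1 : y' ∈ Z₁
        · exact gl11 hx1 hy1
        · exact gl10 hx1 hy1
      exact s2 (e2.2 (e1.1 s1))
    have hx'1 : x' ∉ K₁ := by
      intro hx1
      have e1 : gl K₁ Z₁ (fun _ _ => u) S₂ u v x' y ↔ u := by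
        by_cases hy1 : y ∈ Z₁
        · exact gl11 hx1 hy1
        · exact gl10 hx1 hy1
      have e2 : gl K₁ Z₁ (fun _ _ => u) S₂ u v x' y' ↔ u := by
        by_cases hy1 : y' ∈ Z₁
        · exact gl11 hx1 hy1
        · exact gl10 hx1 hy1
      exact s3 (e1.2 (e2.1 s4))
    have hy1 : y ∉ Z₁ := by
      intro hy1
      rw [gl01 hx1 hy1] at s1
      rw [gl01 hx'1 hy1] at s3
      exact s3 s1
    have hy'1 : y' ∉ Z₁ := by
      intro hy1
      rw [gl01 hx1 hy1] at s2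
      rw [gl01 hx'1 hy1] at s4
      exact s2 s4
    rw [gl00 hx1 hy1] at s1
    rw [gl00 hx1 hy'1] at s2
    rw [gl00 hx'1 hy1] at s3
    rw [gl00 hx'1 hy'1] at s4
    exact h2 x ⟨hx, hx1⟩ x' ⟨hx', hx'1⟩ y ⟨hy, hy1⟩ y' ⟨hy', hy'1⟩ hcx hdy s1 s2 s3 s4

end Pool.Agent.MPd439b2.ST
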