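import Pool.Agent.Lib.MP_d439b2_co.ST.Spec

/-!
# MP_d439b2_co, ST/O6
-/

set_option autoImplicit false

namespace Pool.Agent.MPd439b2.ST

open Pool.Agent.MPd439b2 Pool.Agent.MPd439b2.Rep

theorem tO6 : S_O6 := by
  intro V G B K Z b n C hF hS φ y t hφ hφi hy hyy ht
  have h1 : ∀ i, ∃ z, i < 5 → (z ∈ C (φ i) ∧ z ∉ B ∧ ¬ G.Adj (y i) z) := by
    intro i
    by_cases hi : i < 5
    · obtain ⟨z, hz⟩ := (hy i hi).2.2.1
      exact ⟨z, fun _ => hz⟩
    · exact ⟨y 0, fun h => absurd h hi⟩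
  have h2 : ∀ i, ∃ s, i < 5 → (s ∈ C (φ (5 + i)) ∧ s ∉ B ∧ ¬ G.Adj (t i) s) := by
    intro i
    by_cases hi : i < 5
    · obtain ⟨s, hs⟩ := hS.legK (hφ (5 + i) (by omega)) (ht i hi).1 (ht i hi).2.1
      exact ⟨s, fun _ => hs⟩
    · exact ⟨y 0, fun h => absurd h hi⟩
  choose z hz using h1
  choose s hs using h2
  have T1 : TP G 5 true false true t s := hS.tp (fun i => φ (5 + i)) (fun i hi => hφ _ (by omega))
    (fun i hi j hj hij => hφi _ (by omega) _ (by omega) (by omega)) _ _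
    (fun i hi => ⟨(ht i hi).1, (ht i hi).2.1⟩) (fun i hi => ⟨(hs i hi).1, (hs i hi).2.1⟩)
    (fun i hi => (hs i hi).2.2)
  have zZ : ∀ i < 5, z i ∈ Z := fun i hi => hS.inZ (hφ i (by omega)) (hz i hi).1 (hz i hi).2.1
  have sZ : ∀ i < 5, s i ∈ Z := fun i hi => hS.inZ (hφ _ (by omega)) (hs i hi).1 (hs i hi).2.1
  have tK : ∀ i < 5, t i ∈ K := fun i hi => hS.inK (hφ _ (by omega)) (ht i hi).1 (ht i hi).2.1
  have T2 : TP G 5 true false true y z := by
    refine ⟨fun i hi j hj h => (hy i hi).2.1 (h ▸ zZ j hj), fun i hi j hj hij => (hyy i hi j hj hij).ne,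
      fun i hi j hj hij h => ?_, fun i hi j hj hij => iff_of_true (hyy i hi j hj hij) rfl,
      fun i hi j hj hij => iff_of_false (hS.zs _ (zZ i hi) _ (zZ j hj)) Bool.false_ne_true,
      fun i hi j hj => ?_⟩
    · have h3 := (hz j hj).1
      rw [← h] at h3
      exact Set.disjoint_left.1 (hS.dis _ (hφ i (by omega)) _ (hφ j (by omega))
        (hφi i (by omega) j (by omega) hij)) (hz i hi).1 h3
    · by_cases hij : i = j
      · subst hij
        exact iff_of_false (hz i hi).2.2 (by simp)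
      · refine iff_of_true ((hy i hi).2.2.2 _ (hφ j (by omega)) (hφi j (by omega) i (by omega)
          (Ne.symm hij)) _ (hz j hj).1 (hz j hj).2.1) ?_
        simp [hij]
  refine hF.f4 t s y z T1 T2 fun i hi j hj => ⟨fun h => (hy j hj).1 (h ▸ tK i hi),
    fun h => (hz j hj).2.1 (h ▸ (ht i hi).2.1), fun h => (hy i hi).2.1 (h ▸ sZ j hj), fun h => ?_,
    fun h => (ht i hi).2.2 j hj h.symm, hS.zs _ (sZ i hi) _ (zZ j hj), ?_, ?_⟩
  · have h3 := (hz j hj).1
    rw [← h] at h3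
    exact Set.disjoint_left.1 (hS.dis _ (hφ (5 + i) (by omega)) _ (hφ j (by omega))
      (hφi _ (by omega) j (by omega) (by omega))) (hs i hi).1 h3
  · exact hS.ant _ (hφ (5 + i) (by omega)) _ (hφ j (by omega)) (hφi _ (by omega) j (by omega) (by omega))
      _ (ht i hi).1 (ht i hi).2.1 _ (hz j hj).1 (hz j hj).2.1
  · exact (hy i hi).2.2.2 _ (hφ (5 + j) (by omega)) (hφi _ (by omega) i (by omega) (by omega)) _
      (hs j hj).1 (hs j hj).2.1

end Pool.Agent.MPd439b2.ST
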