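import Pool.Agent.Lib.MP_d439b2_co.ST.Spec
import Pool.Agent.Lib.MP_d439b2_co.R3.Sgn

/-!
# MP_d439b2_co, ST: proof of `Sg` (helper84), the signs of two nested cliques for the modified graph
-/

set_option autoImplicit false

namespace Pool.Agent.MPd439b2.ST

open Pool.Agent.MPd439b2 Pool.Agent.MPd439b2.Rep Pool.Agent.MPd439b2.R3 Pool.Agent.MPd439b2.R3.SgnAux

namespace SgAux

variable {V : Type}

/-- the vertices where the graphs differ at `v` -/
def Ex (G G' : SimpleGraph V) (v : V) : Set V := {y | ¬ (G'.Adj v y ↔ G.Adj v y)}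

theorem Ex_symm {G G' : SimpleGraph V} {v y : V} (h : y ∈ Ex G G' v) : v ∈ Ex G G' y := by
  unfold Ex at h ⊢
  rw [Set.mem_ofPred_eq] at h ⊢
  rwa [G'.adj_comm, G.adj_comm]

theorem exists_l [Finite V] (G G' : SimpleGraph V) (C : Set V) (ρ : V → ℕ) (b : ℕ)
    (hb : ∀ x, (Ex G G' x).ncard ≤ b) :
    ∃ l : V → V, ∀ v, b < nn G' C v → (l v ∈ Nn G' C v ∧ l v ∉ Ex G G' v) ∧
      ∀ x ∈ Nn G' C v, x ∉ Ex G G' v → ρ x ≤ ρ (l v) := by
  have h : ∀ v, ∃ x, b < nn G' C v → (x ∈ Nn G' C v ∧ x ∉ Ex G G' v) ∧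
      ∀ y ∈ Nn G' C v, y ∉ Ex G G' v → ρ y ≤ ρ x := by
    intro v
    by_cases hv : b < nn G' C v
    · have hne : (Nn G' C v \ Ex G G' v).Nonempty := by
        by_contra hcon
        rw [Set.not_nonempty_iff_eq_empty, Set.sdiff_eq_empty] at hcon
        have h1 : (Nn G' C v).ncard ≤ (Ex G G' v).ncard := Set.ncard_le_ncard hcon (Set.toFinite _)
        have h2 : nn G' C v = (Nn G' C v).ncard := rfl
        have h3 := hb v
        omega
      obtain ⟨x, hx, hxm⟩ := Set.exists_max_image (Nn G' C v \ Ex G G' v) ρ (Set.toFinite _) hne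
      exact ⟨x, fun _ => ⟨⟨hx.1, hx.2⟩, fun y hy hy' => hxm y ⟨hy, hy'⟩⟩⟩
    · exact ⟨v, fun h => absurd h hv⟩
  choose l hl using h
  exact ⟨l, hl⟩

section

variable [Finite V] {G G' : SimpleGraph V} {C : Set V} {ρ : V → ℕ} {b : ℕ}

theorem adj1 (h : Rk G' C ρ) (hb : ∀ x, (Ex G G' x).ncard ≤ b) {l : V → V}
    (hl : ∀ v, b < nn G' C v → (l v ∈ Nn G' C v ∧ l v ∉ Ex G G' v) ∧
      ∀ x ∈ Nn G' C v, x ∉ Ex G G' v → ρ x ≤ ρ (l v)) {v w : V} (hw : w ∉ C)
    (hvw : nn G' C w + b + 1 ≤ nn G' C v) : G'.Adj w (l v) := by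
  by_contra hcon
  obtain ⟨⟨h1, h2⟩, h3⟩ := hl v (by omega)
  have h4 : l v ∈ Nn G' C w := ⟨h1.1, hcon⟩
  have h5 : Nn G' C v ⊆ Nn G' C w ∪ Ex G G' v := by
    intro x hx
    by_cases hx' : x ∈ Ex G G' v
    · exact Or.inr hx'
    · exact Or.inl (down h hw hx.1 h4 (h3 x hx hx'))
  have h6 : (Nn G' C v).ncard ≤ (Nn G' C w ∪ Ex G G' v).ncard := Set.ncard_le_ncard h5 (Set.toFinite _)
  have h7 := Set.ncard_union_le (Nn G' C w) (Ex G G' v)
  have h8 := hb v
  have h9 : nn G' C v = (Nn G' C v).ncard := rfl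
  have h10 : nn G' C w = (Nn G' C w).ncard := rfl
  omega

theorem adj2 (h : Rk G' C ρ) {l : V → V}
    (hl : ∀ v, b < nn G' C v → (l v ∈ Nn G' C v ∧ l v ∉ Ex G G' v) ∧
      ∀ x ∈ Nn G' C v, x ∉ Ex G G' v → ρ x ≤ ρ (l v)) {v w : V} (hv : v ∉ C) (hw : w ∉ C)
    (hpos : b < nn G' C v) (hvw : nn G' C v ≤ nn G' C w) : ¬ G'.Adj w (l v) :=
  (nested h hv hw hvw (hl v hpos).1.1).2

omit [Finite V] in
theorem adj3 {l : V → V}
    (hl : ∀ v, b < nn G' C v → (l v ∈ Nn G' C v ∧ l v ∉ Ex G G' v) ∧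
      ∀ x ∈ Nn G' C v, x ∉ Ex G G' v → ρ x ≤ ρ (l v)) {v : V}
    (hpos : b < nn G' C v) : ¬ G.Adj v (l v) := by
  obtain ⟨⟨h1, h2⟩, -⟩ := hl v hpos
  intro h3
  refine h2 ?_
  show ¬ (G'.Adj v (l v) ↔ G.Adj v (l v))
  exact fun h4 => h1.2 (h4.2 h3)

end

/-- a strictly growing sequence of numbers -/
theorem grow {n : ℕ → ℕ} {M : ℕ} (h : ∀ i j, i < j → j < M → n i < n j) :
    ∀ i t : ℕ, i + t < M → n i + t ≤ n (i + t) := by
  intro i t
  induction t with
  | zero => intro _; simp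
  | succ t ih =>
    intro hM
    have h1 := ih (by omega)
    have h2 := h (i + t) (i + t + 1) (by omega) hM
    have h3 : n (i + (t + 1)) = n (i + t + 1) := rfl
    omega

/-- in a homogeneous sequence the exceptional pairs do not occur -/
theorem noEx {G G' : SimpleGraph V} [Finite V] {b : ℕ} (hb : ∀ x, (Ex G G' x).ncard ≤ b) {K : ℕ}
    (hK : b + 2 ≤ K) (z : V) (y : ℕ → V) (hy : ∀ i < K, ∀ j < K, i ≠ j → y i ≠ y j)
    (h : ∀ j, 1 ≤ j → j < K → y j ∈ Ex G G' z) : False := by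
  classical
  have h1 : ((Finset.range (b + 1)).image fun i => y (i + 1)).card = b + 1 := by
    rw [Finset.card_image_of_injOn, Finset.card_range]
    intro i hi j hj hij
    simp only [Finset.coe_range, Set.mem_Iio] at hi hj
    by_contra hne
    exact hy (i + 1) (by omega) (j + 1) (by omega) (by omega) hij
  have h2 : (((Finset.range (b + 1)).image fun i => y (i + 1) : Finset V) : Set V) ⊆ Ex G G' z := by
    intro x hx
    simp only [Finset.coe_image, Finset.coe_range, Set.mem_image, Set.mem_Iio] at hx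
    obtain ⟨i, hi, rfl⟩ := hx
    exact h (i + 1) (by omega) (by omega)
  have h3 := Set.ncard_le_ncard h2 (Set.toFinite _)
  rw [Set.ncard_coe_finset, h1] at h3
  have := hb z
  omega

/-- the reduced sequence for one clique -/
theorem side [Finite V] {G G' : SimpleGraph V} {C : Set V} {ρ : V → ℕ} {b : ℕ} (h : Rk G' C ρ)
    (hb : ∀ x, (Ex G G' x).ncard ≤ b) {l : V → V}
    (hl : ∀ v, b < nn G' C v → (l v ∈ Nn G' C v ∧ l v ∉ Ex G G' v) ∧
      ∀ x ∈ Nn G' C v, x ∉ Ex G G' v → ρ x ≤ ρ (l v)) {K : ℕ} {v : ℕ → V}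
    (hv : ∀ i < K, v i ∉ C) (hbv : ∀ i < K, b < nn G' C (v i)) (up : Bool)
    (hn : ∀ i j, i < j → j < K → (up = true → nn G' C (v i) + b + 1 ≤ nn G' C (v j)) ∧
      (up = false → nn G' C (v j) + b + 1 ≤ nn G' C (v i))) :
    ∀ i < K, ∀ j < K, (G'.Adj (v i) (l (v j)) ↔ if up = true then i < j else j < i) := by
  intro i hi j hj
  rcases lt_trichotomy i j with h1 | h1 | h1
  · cases up with
    | true =>
      simp only [if_true]
      exact iff_of_true (adj1 h hb hl (hv i hi) ((hn i j h1 hj).1 rfl)) h1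
    | false =>
      have h2 := (hn i j h1 hj).2 rfl
      simp only [Bool.false_eq_true, if_false]
      exact iff_of_false (adj2 h hl (hv j hj) (hv i hi) (hbv j hj) (by omega)) (by omega)
  · subst h1
    refine iff_of_false (adj2 h hl (hv i hi) (hv i hi) (hbv i hi) le_rfl) ?_
    split <;> omega
  · cases up with
    | true =>
      have h2 := (hn j i h1 hi).1 rfl
      simp only [if_true]
      exact iff_of_false (adj2 h hl (hv j hj) (hv i hi) (hbv j hj) (by omega)) (by omega)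
    | false =>
      simp only [Bool.false_eq_true, if_false]
      exact iff_of_true (adj1 h hb hl (hv i hi) ((hn j i h1 hi).2 rfl)) h1

/-- a strictly decreasing sequence of numbers -/
theorem fall {n : ℕ → ℕ} {M : ℕ} (h : ∀ i j, i < j → j < M → n j < n i) :
    ∀ i t : ℕ, i + t < M → n (i + t) + t ≤ n i := by
  intro i t
  induction t with
  | zero => intro _; simp
  | succ t ih =>
    intro hM
    have h1 := ih (by omega)
    have h2 := h (i + t) (i + t + 1) (by omega) hM
    have h3 : n (i + (t + 1)) = n (i + t + 1) := rfl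
    omega

theorem idx {b i j M₁ : ℕ} (hij : i < j) (hj : j < M₁) :
    ∃ t, b + 1 ≤ t ∧ (b + 1) * i + t = (b + 1) * j ∧ (b + 1) * i + t < (b + 1) * M₁ := by
  refine ⟨(b + 1) * (j - i), ?_, ?_, ?_⟩
  · exact Nat.le_mul_of_pos_right _ (by omega)
  · rw [← mul_add]
    congr 1
    omega
  · rw [← mul_add]
    exact Nat.mul_lt_mul_of_pos_left (by omega) (by omega)

/-- there are no long chains -/
theorem no_chain [Finite V] {m b M₁ : ℕ}
    (hRam : ∀ χ : ℕ → ℕ → (Bool × Bool × Bool × Bool), ∃ (s : ℕ → ℕ) (c : Bool × Bool × Bool × Bool),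
      (∀ k l, k < l → l < m + b + 2 → s k < s l) ∧ (∀ k < m + b + 2, s k < M₁) ∧
      ∀ k l, k < l → l < m + b + 2 → χ (s k) (s l) = c)
    {G G' : SimpleGraph V} {Z A B : Set V} {ρ : V → ℕ} {la lb : V → V}
    (hF3 : F3 G m) (hF4 : F4 G m) (hZ : ∀ x ∈ Z, ∀ y ∈ Z, ¬ G.Adj x y) (hZA : Disjoint Z A)
    (hZB : Disjoint Z B) (hAB : Disjoint A B)
    (hGG : ∀ x ∈ A ∪ B, ∀ y ∈ A ∪ B, (G'.Adj x y ↔ G.Adj x y))
    (hb : ∀ x, (Ex G G' x).ncard ≤ b) (hA : Rk G' A ρ) (hB : Rk G' B ρ)
    (hla : ∀ v, b < nn G' A v → (la v ∈ Nn G' A v ∧ la v ∉ Ex G G' v) ∧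
      ∀ x ∈ Nn G' A v, x ∉ Ex G G' v → ρ x ≤ ρ (la v))
    (hlb : ∀ v, b < nn G' B v → (lb v ∈ Nn G' B v ∧ lb v ∉ Ex G G' v) ∧
      ∀ x ∈ Nn G' B v, x ∉ Ex G G' v → ρ x ≤ ρ (lb v))
    (s : Bool) (u : ℕ → V)
    (hu : ∀ i < (b + 1) * M₁, u i ∈ Z ∧ b < nn G' A (u i) ∧ b < nn G' B (u i) ∧
      (G'.Adj (la (u i)) (lb (u i)) ↔ s = true))
    (hUA : ∀ i j, i < j → j < (b + 1) * M₁ → nn G' A (u i) < nn G' A (u j))
    (hUB : ∀ i j, i < j → j < (b + 1) * M₁ → (s = true → nn G' B (u j) < nn G' B (u i)) ∧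
      (s = false → nn G' B (u i) < nn G' B (u j))) : False := by
  classical
  have hnA : ∀ v ∈ Z, v ∉ A := fun v hv => Set.disjoint_left.mp hZA hv
  have hnB : ∀ v ∈ Z, v ∉ B := fun v hv => Set.disjoint_left.mp hZB hv
  set v : ℕ → V := fun i => u ((b + 1) * i) with hv
  have hvu : ∀ i < M₁, v i ∈ Z ∧ b < nn G' A (v i) ∧ b < nn G' B (v i) ∧
      (G'.Adj (la (v i)) (lb (v i)) ↔ s = true) := fun i hi =>
    hu _ (Nat.mul_lt_mul_of_pos_left hi (by omega))
  have hgA : ∀ i j, i < j → j < M₁ → nn G' A (v i) + b + 1 ≤ nn G' A (v j) := by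
    intro i j hij hj
    obtain ⟨t, h1, h2, h3⟩ := idx (b := b) hij hj
    have h4 := grow (n := fun k => nn G' A (u k)) hUA _ t h3
    rw [h2] at h4
    show nn G' A (u ((b + 1) * i)) + b + 1 ≤ nn G' A (u ((b + 1) * j))
    omega
  have hgB : ∀ i j, i < j → j < M₁ → (s = false → nn G' B (v i) + b + 1 ≤ nn G' B (v j)) ∧
      (s = true → nn G' B (v j) + b + 1 ≤ nn G' B (v i)) := by
    intro i j hij hj
    obtain ⟨t, h1, h2, h3⟩ := idx (b := b) hij hj
    refine ⟨fun hs => ?_, fun hs => ?_⟩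
    · have h4 := grow (n := fun k => nn G' B (u k)) (fun i j hij hj => (hUB i j hij hj).2 hs) _ t h3
      rw [h2] at h4
      show nn G' B (u ((b + 1) * i)) + b + 1 ≤ nn G' B (u ((b + 1) * j))
      omega
    · have h4 := fall (n := fun k => nn G' B (u k)) (fun i j hij hj => (hUB i j hij hj).1 hs) _ t h3
      rw [h2] at h4
      show nn G' B (u ((b + 1) * j)) + b + 1 ≤ nn G' B (u ((b + 1) * i))
      omega
  have adjA : ∀ i < M₁, ∀ j < M₁, (G'.Adj (v i) (la (v j)) ↔ i < j) := by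
    intro i hi j hj
    rw [side hA hb hla (fun i hi => hnA _ (hvu i hi).1) (fun i hi => (hvu i hi).2.1) true
      (fun i j hij hj => ⟨fun _ => hgA i j hij hj, fun h => absurd h (by simp)⟩) i hi j hj]
    simp
  have adjB : ∀ i < M₁, ∀ j < M₁, (G'.Adj (v i) (lb (v j)) ↔ if s = false then i < j else j < i) := by
    intro i hi j hj
    rw [side hB hb hlb (fun i hi => hnB _ (hvu i hi).1) (fun i hi => (hvu i hi).2.2.1) (!s)
      (fun i j hij hj => ⟨fun h => (hgB i j hij hj).1 (by simpa using h),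
        fun h => (hgB i j hij hj).2 (by simpa using h)⟩) i hi j hj]
    simp
  have memA : ∀ i < M₁, la (v i) ∈ A := fun i hi => (hla _ (hvu i hi).2.1).1.1.1
  have memB : ∀ i < M₁, lb (v i) ∈ B := fun i hi => (hlb _ (hvu i hi).2.2.1).1.1.1
  have neV : ∀ i < M₁, ∀ j < M₁, i ≠ j → v i ≠ v j := by
    intro i hi j hj hij heq
    rcases lt_or_gt_of_ne hij with h1 | h1
    · have := hgA i j h1 hj
      rw [heq] at this
      omega
    · have := hgA j i h1 hi
      rw [heq] at this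
      omega
  have neA : ∀ i < M₁, ∀ j < M₁, i ≠ j → la (v i) ≠ la (v j) := by
    have key : ∀ i < M₁, ∀ j < M₁, i < j → la (v i) ≠ la (v j) := by
      intro i hi j hj hij heq
      have h1 := (adjA i hi j hj).mpr hij
      rw [← heq, adjA i hi i hi] at h1
      exact lt_irrefl _ h1
    intro i hi j hj hij
    rcases lt_or_gt_of_ne hij with h1 | h1
    · exact key i hi j hj h1
    · exact (key j hj i hi h1).symm
  have neB : ∀ i < M₁, ∀ j < M₁, i ≠ j → lb (v i) ≠ lb (v j) := by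
    have key : ∀ i < M₁, ∀ j < M₁, i < j → lb (v i) ≠ lb (v j) := by
      intro i hi j hj hij heq
      cases s with
      | true =>
        have h1 : G'.Adj (v j) (lb (v i)) := (adjB j hj i hi).mpr (by simpa using hij)
        rw [heq, adjB j hj j hj] at h1
        simp at h1
      | false =>
        have h1 : G'.Adj (v i) (lb (v j)) := (adjB i hi j hj).mpr (by simpa using hij)
        rw [← heq, adjB i hi i hi] at h1
        simp at h1
    intro i hi j hj hij
    rcases lt_or_gt_of_ne hij with h1 | h1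
    · exact key i hi j hj h1
    · exact (key j hj i hi h1).symm
  obtain ⟨σ, c, hσ, hσM, hc⟩ := hRam fun i j => (decide (la (v j) ∈ Ex G G' (v i)),
    decide (la (v i) ∈ Ex G G' (v j)), decide (lb (v j) ∈ Ex G G' (v i)),
    decide (lb (v i) ∈ Ex G G' (v j)))
  have hσne : ∀ i < m + b + 2, ∀ j < m + b + 2, i ≠ j → σ i ≠ σ j := by
    intro i hi j hj hij
    rcases lt_or_gt_of_ne hij with h1 | h1
    · exact (hσ i j h1 hj).ne
    · exact (hσ j i h1 hi).ne'
  have hlt : ∀ i < m + b + 2, ∀ j < m + b + 2, (σ i < σ j ↔ i < j) := by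
    intro i hi j hj
    rcases lt_trichotomy i j with h1 | h1 | h1
    · exact iff_of_true (hσ i j h1 hj) h1
    · subst h1
      simp
    · have := hσ j i h1 hi
      exact iff_of_false (by omega) (by omega)
  have e1 : c.1 = false := by
    by_contra hcon
    rw [Bool.not_eq_false] at hcon
    refine noEx hb (K := m + b + 2) (by omega) (v (σ 0)) (fun j => la (v (σ j)))
      (fun i hi j hj hij => neA _ (hσM i hi) _ (hσM j hj) (hσne i hi j hj hij)) ?_
    intro j h1 hj
    have h2 := congrArg (fun p => p.1) (hc 0 j (by omega) hj)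
    simp only at h2
    rw [hcon] at h2
    exact of_decide_eq_true h2
  have e2 : c.2.1 = false := by
    by_contra hcon
    rw [Bool.not_eq_false] at hcon
    refine noEx hb (K := m + b + 2) (by omega) (la (v (σ 0))) (fun j => v (σ j))
      (fun i hi j hj hij => neV _ (hσM i hi) _ (hσM j hj) (hσne i hi j hj hij)) ?_
    intro j h1 hj
    have h2 := congrArg (fun p => p.2.1) (hc 0 j (by omega) hj)
    simp only at h2
    rw [hcon] at h2
    exact Ex_symm (of_decide_eq_true h2)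
  have e3 : c.2.2.1 = false := by
    by_contra hcon
    rw [Bool.not_eq_false] at hcon
    refine noEx hb (K := m + b + 2) (by omega) (v (σ 0)) (fun j => lb (v (σ j)))
      (fun i hi j hj hij => neB _ (hσM i hi) _ (hσM j hj) (hσne i hi j hj hij)) ?_
    intro j h1 hj
    have h2 := congrArg (fun p => p.2.2.1) (hc 0 j (by omega) hj)
    simp only at h2
    rw [hcon] at h2
    exact of_decide_eq_true h2
  have e4 : c.2.2.2 = false := by
    by_contra hcon
    rw [Bool.not_eq_false] at hcon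
    refine noEx hb (K := m + b + 2) (by omega) (lb (v (σ 0))) (fun j => v (σ j))
      (fun i hi j hj hij => neV _ (hσM i hi) _ (hσM j hj) (hσne i hi j hj hij)) ?_
    intro j h1 hj
    have h2 := congrArg (fun p => p.2.2.2) (hc 0 j (by omega) hj)
    simp only at h2
    rw [hcon] at h2
    exact Ex_symm (of_decide_eq_true h2)
  have nEA : ∀ i < m, ∀ j < m, i ≠ j →
      (G'.Adj (v (σ i)) (la (v (σ j))) ↔ G.Adj (v (σ i)) (la (v (σ j)))) := by
    intro i hi j hj hij
    rcases lt_or_gt_of_ne hij with h1 | h1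
    · have h2 := congrArg (fun p => p.1) (hc i j h1 (by omega))
      simp only at h2
      rw [e1] at h2
      have h3 := of_decide_eq_false h2
      exact not_not.1 h3
    · have h2 := congrArg (fun p => p.2.1) (hc j i h1 (by omega))
      simp only at h2
      rw [e2] at h2
      have h3 := of_decide_eq_false h2
      exact not_not.1 h3
  have nEB : ∀ i < m, ∀ j < m, i ≠ j →
      (G'.Adj (v (σ i)) (lb (v (σ j))) ↔ G.Adj (v (σ i)) (lb (v (σ j)))) := by
    intro i hi j hj hij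
    rcases lt_or_gt_of_ne hij with h1 | h1
    · have h2 := congrArg (fun p => p.2.2.1) (hc i j h1 (by omega))
      simp only at h2
      rw [e3] at h2
      have h3 := of_decide_eq_false h2
      exact not_not.1 h3
    · have h2 := congrArg (fun p => p.2.2.2) (hc j i h1 (by omega))
      simp only at h2
      rw [e4] at h2
      have h3 := of_decide_eq_false h2
      exact not_not.1 h3
  have gA : ∀ i < m, ∀ j < m, (G.Adj (v (σ i)) (la (v (σ j))) ↔ i < j) := by
    intro i hi j hj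
    by_cases hij : i = j
    · subst hij
      exact iff_of_false (adj3 hla (hvu _ (hσM i (by omega))).2.1) (lt_irrefl _)
    · rw [← nEA i hi j hj hij, adjA _ (hσM i (by omega)) _ (hσM j (by omega)),
        hlt i (by omega) j (by omega)]
  have gB : ∀ i < m, ∀ j < m, (G.Adj (v (σ i)) (lb (v (σ j))) ↔
      if s = false then i < j else j < i) := by
    intro i hi j hj
    by_cases hij : i = j
    · subst hij
      refine iff_of_false (adj3 hlb (hvu _ (hσM i (by omega))).2.2.1) ?_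
      split <;> omega
    · rw [← nEB i hi j hj hij, adjB _ (hσM i (by omega)) _ (hσM j (by omega)),
        hlt i (by omega) j (by omega), hlt j (by omega) i (by omega)]
  have common : ∀ i < m, ∀ j < m, v (σ i) ≠ la (v (σ j)) ∧ v (σ i) ≠ lb (v (σ j)) ∧
      la (v (σ i)) ≠ lb (v (σ j)) := by
    intro i hi j hj
    have hi' := hσM i (by omega)
    have hj' := hσM j (by omega)
    refine ⟨?_, ?_, ?_⟩
    · intro h
      exact hnA _ (hvu _ hi').1 (h ▸ memA _ hj')
    · intro h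
      exact hnB _ (hvu _ hi').1 (h ▸ memB _ hj')
    · intro h
      exact Set.disjoint_left.mp hAB (memA _ hi') (h ▸ memB _ hj')
  have four : ∀ i < m, ∀ j < m, i ≠ j → v (σ i) ≠ v (σ j) ∧ ¬ G.Adj (v (σ i)) (v (σ j)) ∧
      G.Adj (la (v (σ i))) (la (v (σ j))) ∧ G.Adj (lb (v (σ i))) (lb (v (σ j))) := by
    intro i hi j hj hij
    have hi' := hσM i (by omega)
    have hj' := hσM j (by omega)
    have hne := hσne i (by omega) j (by omega) hij
    refine ⟨neV _ hi' _ hj' hne, hZ _ (hvu _ hi').1 _ (hvu _ hj').1, ?_, ?_⟩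
    · exact (hGG _ (Or.inl (memA _ hi')) _ (Or.inl (memA _ hj'))).1
        (hA.cl _ (memA _ hi') _ (memA _ hj') (neA _ hi' _ hj' hne))
    · exact (hGG _ (Or.inr (memB _ hi')) _ (Or.inr (memB _ hj'))).1
        (hB.cl _ (memB _ hi') _ (memB _ hj') (neB _ hi' _ hj' hne))
  have dg : ∀ i < m, (G.Adj (la (v (σ i))) (lb (v (σ i))) ↔ s = true) := by
    intro i hi
    have hi' := hσM i (by omega)
    rw [← hGG _ (Or.inl (memA _ hi')) _ (Or.inr (memB _ hi'))]
    exact (hvu _ hi').2.2.2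
  cases s with
  | true =>
    apply hF3
    refine ⟨fun i => v (σ i), fun i => la (v (σ i)), fun i => lb (v (σ i)), fun i hi j hj => ?_⟩
    obtain ⟨h1, h2, h3⟩ := common i hi j hj
    refine ⟨h1, h2, h3, four i hi j hj, gA i hi j hj, ?_, (dg i hi).2 rfl⟩
    rw [gB i hi j hj]
    simp
  | false =>
    apply hF4
    refine ⟨fun i => v (σ i), fun i => la (v (σ i)), fun i => lb (v (σ i)), fun i hi j hj => ?_⟩
    obtain ⟨h1, h2, h3⟩ := common i hi j hj
    refine ⟨h1, h2, h3, four i hi j hj, gA i hi j hj, ?_, fun h => absurd ((dg i hi).1 h) (by simp)⟩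
    rw [gB i hi j hj]
    simp

end SgAux

open SgAux

theorem tSg : S_Sg := by
  classical
  intro m b
  obtain ⟨M₁, hRam⟩ := W.ramC (Bool × Bool × Bool × Bool) (m + b + 2)
  set M : ℕ := (b + 1) * M₁ with hM
  refine ⟨Fintype.card (Fin (b + 2) × Fin (b + 2) × Bool × Fin (M + 1)), ?_⟩
  intro V _ G G' Z A B ρ hF3 hF4 hZ hZA hZB hAB hGG hb hA hB
  obtain ⟨la, hla⟩ := SgAux.exists_l G G' A ρ b hb
  obtain ⟨lb, hlb⟩ := SgAux.exists_l G G' B ρ b hb
  set Z' : Set V := {v | v ∈ Z ∧ b < nn G' A v ∧ b < nn G' B v} with hZ'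
  let sg : V → Bool := fun v => decide (G'.Adj (la v) (lb v))
  let h : V → ℕ := fun v => Nat.findGreatest (fun t => Ch G' Z' A B la lb (sg v) t v) M
  have hle : ∀ v, h v < M + 1 := fun v => Nat.lt_succ_of_le (Nat.findGreatest_le M)
  have hmn : ∀ n : ℕ, min n (b + 1) < b + 2 := fun n => lt_of_le_of_lt (min_le_right _ _) (by omega)
  let d : V → Fin (b + 2) × Fin (b + 2) × Bool × Fin (M + 1) := fun v =>
    (⟨min (nn G' A v) (b + 1), hmn _⟩, ⟨min (nn G' B v) (b + 1), hmn _⟩, sg v, ⟨h v, hle v⟩)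
  let e := Fintype.equivFin (Fin (b + 2) × Fin (b + 2) × Bool × Fin (M + 1))
  refine ⟨fun v => e (d v), fun i => (e.symm i).2.2.1, ?_⟩
  intro v hv w hw hc hlt
  have hd : d v = d w := e.injective hc
  have hσ : (fun i => (e.symm i).2.2.1) ((fun v => e (d v)) v) = sg v := by
    show (e.symm (e (d v))).2.2.1 = sg v
    rw [e.symm_apply_apply]
  rw [hσ]
  have hd1 : min (nn G' A v) (b + 1) = min (nn G' A w) (b + 1) :=
    congrArg (fun p => (p.1 : Fin (b + 2)).val) hd
  have hd2 : min (nn G' B v) (b + 1) = min (nn G' B w) (b + 1) :=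
    congrArg (fun p => (p.2.1 : Fin (b + 2)).val) hd
  have hd3 : sg v = sg w := congrArg (fun p => p.2.2.1) hd
  have hd4 : h v = h w := congrArg (fun p => (p.2.2.2 : Fin (M + 1)).val) hd
  have hAv : b < nn G' A v := by omega
  have hAw : b < nn G' A w := by omega
  by_cases hBv : nn G' B v ≤ b
  · have hBw : nn G' B v = nn G' B w := by omega
    exact ⟨fun _ => by omega, fun _ => by omega⟩
  have hBw : b < nn G' B w := by omega
  have hPv : Pp G' Z' A B la lb (sg v) v :=
    ⟨⟨hv, hAv, by omega⟩, by omega, by omega, by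
      rw [show sg v = decide (G'.Adj (la v) (lb v)) from rfl, decide_eq_true_iff]⟩
  have hPw : Pp G' Z' A B la lb (sg v) w :=
    ⟨⟨hw, hAw, hBw⟩, by omega, by omega, by
      rw [hd3, show sg w = decide (G'.Adj (la w) (lb w)) from rfl, decide_eq_true_iff]⟩
  have hnR : ¬ Rr G' Z' A B la lb (sg v) v w := by
    intro hR
    have h1 : Ch G' Z' A B la lb (sg v) (h v) v :=
      Nat.findGreatest_spec (P := fun t => Ch G' Z' A B la lb (sg v) t v) (Nat.zero_le M) hPv
    have h2 : Ch G' Z' A B la lb (sg v) (h v + 1) w := ⟨v, hR, h1⟩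
    have h3 : h v + 1 ≤ M := by
      by_contra hcon
      obtain ⟨u, hu1, hu2, _⟩ := Ch.seq (h v + 1) w h2
      refine SgAux.no_chain (m := m) (b := b) (M₁ := M₁) hRam hF3 hF4 hZ hZA hZB hAB hGG hb hA hB
        hla hlb (sg v) u ?_ ?_ ?_
      · intro i hi
        have h4 := hu1 i (by omega)
        exact ⟨h4.1.1, h4.1.2.1, h4.1.2.2, h4.2.2.2⟩
      · intro i j hij hj
        exact (hu2 i j hij (by omega)).2.2.1
      · intro i j hij hj
        exact (hu2 i j hij (by omega)).2.2.2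
    have h4 : h v + 1 ≤ h w := by
      apply Nat.le_findGreatest h3
      rw [← hd3]
      exact h2
    omega
  constructor
  · intro hs
    by_contra hcon
    apply hnR
    refine ⟨hPv, hPw, hlt, fun _ => by omega, fun hs' => ?_⟩
    rw [hs] at hs'
    exact absurd hs' (by simp)
  · intro hs
    by_contra hcon
    apply hnR
    refine ⟨hPv, hPw, hlt, fun hs' => ?_, fun _ => by omega⟩
    rw [hs] at hs'
    exact absurd hs' (by simp)

end Pool.Agent.MPd439b2.ST
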