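import Pool.Agent.Lib.MP_d439b2_co.ST.Defs
import Pool.Agent.Lib.MP_d439b2_co.Rep.RowX3

/-!
# MP_d439b2_co, ST: Theorem ST (helper38, note 2957 with the correction 'last non-neighbour which is no E-partner')

**Theorem ST.** `G` is without the induced minors `K3:0,1,02`, `J_4`, with `Link β c₀`, without `m K_2`, thin spiders and
complements of `m K_2` (so the only large patterns are thick spiders).  Then there is a staircase structure (`X2.St`)
with boundedly many classes on a graph `G'` which differs from `G` only between clique classes and stable classes, and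
every vertex is in boundedly many pairs where `G` and `G'` differ.

Every `S_X` is a statement to be proved in its own file `ST/X.lean`; the docstring contains the complete proof; the
used statements `(Uses S_A, S_B)` are hypotheses: `theorem tX (h1 : S_A) (h2 : S_B) : S_X`.  `x ~ y` means `G.Adj x y`,
`x` MEETS `y` means `¬ G.Adj x y`, for `x`, `y` on different sides.
-/

set_option autoImplicit false

namespace Pool.Agent.MPd439b2.ST

open Pool.Agent.MPd439b2 Pool.Agent.MPd439b2.Rep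

/-! ## 1. Bipartite relations without induced `P_6` -/

/-- **D** (200 lines).  Decomposition: disconnected, co-disconnected or a KS cut; both parts are not empty.

Proof. `N k = {z ∈ Z | R k z}`.  Suppose there is no split of the first kind (disconnected).  Then (0) no `k ∈ K` has `N k = ∅` (take
`K₁ = {k}`, `Z₁ = ∅`; the other part is not empty, as there are at least two elements) and every `z ∈ Z` is in some `N k`, `k ∈ K` (`K₁ = ∅`,
`Z₁ = {z}`).  `K` is not empty (otherwise `Z` has an element).  Let `a ∈ K` with `N a` of maximum size; `A = N a ≠ ∅`.  CASE 1: `A = Z`.  Third kind with `K₁ = {a}`,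
`Z₁ = ∅` (the other part contains `Z = A ≠ ∅`).
CASE 2: `A ≠ Z`.  `F = {k ∈ K | N k meets A and Z \ A}`.  Every `k ∈ F` misses an element of `A` (otherwise `N k` is larger than `A`).
(i) `N k` meets `A` for all `k ∈ K`: suppose not; `K₁ = {k ∈ K | N k ∩ A = ∅}`, `Z₁ = {z ∈ Z | ∃ k ∈ K₁, R k z}`; `K₁ ≠ ∅`, `a ∉ K₁`.  This is not a split of the first
kind, so there are `k' ∈ K \ K₁`, `z ∈ Z₁` with `R k' z`, and `k'' ∈ K₁` with `R k'' z`; `z ∉ A`, so `k' ∈ F`; let `x ∈ A ∩ N k'`, `y ∈ A \ N k'`.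
`P_6`: `k'', z, k', x, a, y`.
(ii) `k ∈ F`, `k' ∈ K`, `z ∈ N k' ∩ N k`, `z ∉ A`: `A ∩ N k ⊆ N k'` or `A \ N k ⊆ N k'`.  Otherwise `x ∈ A ∩ N k \ N k'`, `y ∈ A \ N k`, `y ∉ N k'`: `P_6`:
`k', z, k, x, a, y`.
(iii) `k ∈ F`, `k' ∈ K`, `y ∈ N k' ∩ A \ N k`: `A ∩ N k ⊆ N k'` or `N k \ A ⊆ N k'`.  Otherwise `x ∈ A ∩ N k \ N k'`, `z ∈ N k \ A \ N k'`: `P_6`:
`k', y, a, x, k, z`.
CASE 2a: there is `m ∈ A` with `m ∈ N k` for all `k ∈ F`.  `M` = the set of these `m`.  `K₁ = {k ∈ K | M ⊆ N k}`, `Z₁ = Z \ M`: third kind: `K₁` is complete to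
`Z \ Z₁ = M`.  Let `k ∈ K \ K₁`; `k ∉ F`, so by (i) `N k ⊆ A`.  Suppose `z ∈ N k`, `z ∉ M`: there is `k' ∈ F` with `z ∉ N k'`.  (iii) (for `k'`, `k`, `z`): `A ∩ N k' ⊆ N k`, so
`M ⊆ N k`: no; or `N k' \ A ⊆ N k ⊆ A`: no, `N k' \ A ≠ ∅`.  So `N k ⊆ M`.  Parts: `a ∈ K₁`, `m ∈ Z \ Z₁`.
CASE 2b: otherwise.  Write `c k = A \ N k`.  (iv) For `k, k' ∈ F`: `c k ∩ c k' = ∅`, `c k ⊆ c k'` or `c k' ⊆ c k`.  Otherwise let `y ∈ c k \ c k'`: (iii) (for `k`, `k'`,
`y`): `A ∩ N k ⊆ N k'` means `c k' ⊆ c k`: no; so `N k \ A ⊆ N k'`.  As `k ∈ F` there is `z ∈ N k \ A`, `z ∈ N k'`; (ii): `A ∩ N k ⊆ N k'`: no; or `c k ⊆ N k'`: no, as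
`c k ∩ c k' ≠ ∅`.
`F ≠ ∅`: let `z ∈ Z \ A`; `z ∈ N k` for some `k`; `k ∈ F` by (i).  Let `f₁ ∈ F` with `c f₁` of maximum size; `x ∈ A ∩ N f₁` (`f₁ ∈ F`); as we are in CASE 2b there is
`f₂ ∈ F` with `x ∉ N f₂`.  (v) `c f₁ ∩ c f₂ = ∅`: by (iv) otherwise `c f₂ ⊆ c f₁`: no (`x`), or `c f₁ ⊆ c f₂`: then `c f₂` is larger (`x`): no.
(vi) Every `k ∈ F` has `c k ∩ c f₁ = ∅` or `c k ∩ c f₂ = ∅`: by (iv) for `k`, `f₁`: `c k ⊆ c f₁`: (v); `c f₁ ⊆ c k`: by the maximum they are equal: (v).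
(vii) Every `k ∈ K` with `c k ≠ ∅` has `c k ∩ c f₁ = ∅` or `c k ∩ c f₂ = ∅`: let `k ∉ F`, so `N k ⊆ A` by (i); let `y ∈ N k`; there is `f ∈ F` with `y ∉ N f`; (iii) (for `f`, `k`, `y`):
`A ∩ N f ⊆ N k`, so `c k ⊆ c f`: (vi); or `N f \ A ⊆ N k ⊆ A`: no.
(viii) Let `k ∈ K`, `k'' ∈ F`, `c k ≠ ∅`, `c k ∩ c k'' = ∅`, `z ∈ N k''`, `z ∉ A`: then `z ∈ N k`.  Otherwise `y ∈ c k`, `y'' ∈ c k''`: `P_6`: `k, y'', a, y, k'', z`.
(ix) Every `z ∈ Z \ A` is in `N f₁` and `N f₂`: `z ∈ N k''` for some `k'' ∈ F`; by (vi) and (viii) `z ∈ N f₁` or `z ∈ N f₂`; by (v) and (viii) in both.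
(x) Every `z ∈ Z \ A` is in `N k` for all `k ∈ K` with `c k ≠ ∅`: (vii), (viii), (ix).
So the second kind with `K₁ = {k ∈ K | c k = ∅}`, `Z₁ = Z \ A`; `a ∈ K₁`, and `Z \ Z₁ = A ≠ ∅`. -/
def S_D : Prop := ∀ (α β : Type) [Finite α] [Finite β] (R : α → β → Prop) (K : Set α) (Z : Set β),
  NP6 R K Z → 2 ≤ K.ncard + Z.ncard →
  ∃ K₁ ⊆ K, ∃ Z₁ ⊆ Z, (K₁.Nonempty ∨ Z₁.Nonempty) ∧ ((K \ K₁).Nonempty ∨ (Z \ Z₁).Nonempty) ∧
    (((∀ k ∈ K₁, ∀ z ∈ Z \ Z₁, ¬ R k z) ∧ ∀ k ∈ K \ K₁, ∀ z ∈ Z₁, ¬ R k z) ∨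
     ((∀ k ∈ K₁, ∀ z ∈ Z \ Z₁, R k z) ∧ ∀ k ∈ K \ K₁, ∀ z ∈ Z₁, R k z) ∨
     ((∀ k ∈ K₁, ∀ z ∈ Z \ Z₁, R k z) ∧ ∀ k ∈ K \ K₁, ∀ z ∈ Z₁, ¬ R k z))

/-- the conclusion of Lemma W: a relation `S` and colourings with `T` colours such that there is no induced `2K_2` between
two colours, and every vertex is in less than `b` pairs where `S` and `R` differ -/
def WC {α β : Type} (R : α → β → Prop) (K : Set α) (Z : Set β) (b T : ℕ) : Prop :=
  ∃ (S : α → β → Prop) (c : α → ℕ) (d : β → ℕ), (∀ x, c x < T) ∧ (∀ y, d y < T) ∧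
    (∀ x ∈ K, ∀ x' ∈ K, ∀ y ∈ Z, ∀ y' ∈ Z, c x = c x' → d y = d y' → S x y → ¬ S x y' →
      ¬ S x' y → S x' y' → False) ∧
    (∀ x ∈ K, {y | y ∈ Z ∧ ¬ (S x y ↔ R x y)}.ncard < b) ∧
    ∀ y ∈ Z, {x | x ∈ K ∧ ¬ (S x y ↔ R x y)}.ncard < b

/-- **Gl** (150 lines).  Gluing two parts.

Proof. `S x y` = `S₁ x y` for `x ∈ K₁`, `y ∈ Z₁`; `u` for `x ∈ K₁`, `y ∉ Z₁`; `v` for `x ∉ K₁`, `y ∈ Z₁`; `S₂ x y` otherwise.  FIRST STATEMENT (`u` true, `v` false):
`c x = c₁ x` for `x ∈ K₁`, `c₂ x` otherwise, `d` in the same way.  A `2K_2` `x, x', y, y'` (`S x y`, `¬ S x y'`, `¬ S x' y`, `S x' y'`): if `x ∈ K₁`, `x' ∉ K₁` then `y' ∈ Z₁`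
(`¬ S x y'`), against `S x' y'`; if `x ∉ K₁`, `x' ∈ K₁`: the same with exchanged roles; `x, x' ∈ K₁`: `y, y' ∈ Z₁` (as `¬ S x' y`, `¬ S x y'`): part 1; `x, x' ∉ K₁`: `y, y' ∉ Z₁`:
part 2.  SECOND STATEMENT (`u = v`): `c x = c₁ x` for `x ∈ K₁`, `T₁ + c₂ x` otherwise, `d` in the same way, so the colours of the two parts are different and `x, x'` are in one part, `y, y'` are in
one part; if the parts are different then `S` is constant on the four pairs; otherwise part 1 or part 2.  THIRD STATEMENT (`u = v`, and `S₁ = u` constant): colours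
as in the first statement; a `2K_2` has `S x y ≠ S x y'`, so `x ∉ K₁`, and `x' ∉ K₁`, `y, y' ∉ Z₁` in the same way.
The pairs where `S` and `R` differ are in the two parts. -/
def S_Gl : Prop := ∀ (α β : Type) [Finite α] [Finite β] (R : α → β → Prop) (K K₁ : Set α)
  (Z Z₁ : Set β) (b T₁ T₂ : ℕ) (u v : Prop), K₁ ⊆ K → Z₁ ⊆ Z →
  (∀ k ∈ K₁, ∀ z ∈ Z \ Z₁, (R k z ↔ u)) → (∀ k ∈ K \ K₁, ∀ z ∈ Z₁, (R k z ↔ v)) →
  (u → ¬ v → WC R K₁ Z₁ b T₁ → WC R (K \ K₁) (Z \ Z₁) b T₁ → WC R K Z b T₁) ∧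
  ((u ↔ v) → WC R K₁ Z₁ b T₁ → WC R (K \ K₁) (Z \ Z₁) b T₂ → WC R K Z b (T₁ + T₂)) ∧
  ((u ↔ v) → (∀ x ∈ K₁, {y | y ∈ Z₁ ∧ ¬ (u ↔ R x y)}.ncard < b) →
    (∀ y ∈ Z₁, {x | x ∈ K₁ ∧ ¬ (u ↔ R x y)}.ncard < b) → WC R (K \ K₁) (Z \ Z₁) b T₁ →
    WC R K Z b T₁)

/-- **W** (150 lines).  Lemma W.  (Uses `S_D`, `S_Gl`.)

Proof. Induction on `K.ncard + Z.ncard` (for all `ν`, `τ`, `K`, `Z`).  `T = max 1 ν * max 1 τ`.  If there is at most one element then `S = R`, `c = d = 0` (`K` or `Z` is empty).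
Otherwise `S_D`: parts `K₁`, `Z₁` and `K₂ = K \ K₁`, `Z₂ = Z \ Z₁`, both smaller.  `NP6`, `¬ Anti`, `¬ CoM` are inherited by subsets (same `ν`, `τ`).
THIRD KIND: induction for both parts, first statement of `S_Gl`.
FIRST KIND (`u = v = False`).  If `¬ Anti R K₁ Z₁ b 1`: for `x ∈ K₁` the set `Q = {y ∈ Z₁ | R x y}` has less than `b` elements, as `Cn R {x} Q` (`Cn.star`) and `1 + |Q| ≤ b`; the
same for `y ∈ Z₁` (`Cn.star` for the reversed relation, `Cn.symm`); third statement of `S_Gl` and induction for the part 2.  The same if `¬ Anti R K₂ Z₂ b 1` (exchange the parts: `S_Gl` for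
`K₂`, `Z₂`; `K \ K₂ = K₁`).  Otherwise let `ν₁` be the largest number with `Anti R K₁ Z₁ b ν₁`, and `ν₂` for the part 2 (they exist: `Anti .. n` implies `n ≤ ν`, since `Anti .. (ν + 1)` is false and `Anti` is
monotone); `ν₁, ν₂ ≥ 1` and `ν₁ + ν₂ ≤ ν` (the union of the two families, the parts are anticomplete to each other).  Induction for the part 1 with `ν₁`, `τ` and the part 2
with `ν₂`, `τ`; second statement of `S_Gl`: `ν₁ * max 1 τ + ν₂ * max 1 τ ≤ T` colours (more colours do no harm).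
SECOND KIND (`u = v = True`).  If all `x ∈ K₁` have `|{y ∈ Z₁ | ¬ R x y}| < b` and all `y ∈ Z₁` have `|{x ∈ K₁ | ¬ R x y}| < b`: third statement of `S_Gl`.  The same for the part 2.  Otherwise both parts
contain a pair with `¬ R x y` (`b ≥ 1`), so a co-matching with one element; let `τ₁, τ₂ ≥ 1` be the maximum sizes of co-matchings in the two parts: `τ₁ + τ₂ ≤ τ` (the union is a
co-matching, as the parts are complete to each other).  Induction with `ν`, `τ₁` and `ν`, `τ₂`; second statement. -/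
def S_W : Prop := ∀ (α β : Type) [Finite α] [Finite β] (R : α → β → Prop) (b ν τ : ℕ)
  (K : Set α) (Z : Set β), 1 ≤ b → NP6 R K Z → ¬ Anti R K Z b (ν + 1) → ¬ CoM R K Z (τ + 1) →
  WC R K Z b (max 1 ν * max 1 τ)

/-! ## 2. The finite facts and their first consequences -/

/-- **Fct**.  The finite facts (certificates, helper38). -/
def S_Fct : Prop := ∀ (V : Type) (G : SimpleGraph V), ¬ IMS (KA 3 3 ![{0}, {1}, {0, 2}]) G Set.univ →
  ¬ IMS J4 G Set.univ → Fcs G

/-- **H1** (200 lines).  (1a).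

Proof. `b₀` = the number of `W.ramC` for `m = max 6 k` and the colours `Fin 3 → Fin 3 → Bool × Bool`, plus 1; `r` = the number of `W.ramC` for `b₀ + 1` and the colours `Bool`.  Suppose `x`, `z` are as in
`Hy1`.  By (Bas.ch) for `i ≠ j` one of `nB (x i)`, `nB (x j)` is a proper subset of the other one.  `W.ramC` (colour: `nB (x i) ⊆ nB (x j)`): after passing to a subsequence with `b₀ + 1` elements the sets `nB (x i)` are
increasing or decreasing.
INCREASING: for `i < b₀` choose `y i ∈ nB (x (i + 1))`, `y i ∉ nB (x i)`.  `x j ∈ nB (x i)` for all `i, j` (a clique in `B`), so `y i ≠ x j`; so `y i ~ x j` iff `i < j` (monotone sets).  DECREASING: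
`y i ∈ nB (x i) \ nB (x (i + 1))`, and `y i ~ x j` iff `j ≤ i`.  In both cases `y i ∈ B`, so `y i ≠ z j`, and the `y i` are different (they see different sets of the `x j`, `j ≤ b₀`).
`W.ramC` for the rails `x, z, y` (colour of `i < j`: for `a, b ∈ Fin 3` the adjacency of the rail `a` at `i` with the rail `b` at `j`, and the adjacency of the rails `a`, `b` at `i`; drop the last index): `m` indices with
homogeneous rails with diagonals.  The rail `y` is a clique, since it is not a stable set with `k` elements in `B` (`Bas.ns`).  So there are `E`, `D` with `HomD G 3 6 _ E D`, `E 0 0 = true` etc. as in `Fcs.f5`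
(`E 0 2 ≠ E 2 0`): contradiction. -/
def S_H1 : Prop := ∀ w p k q : ℕ, ∃ r : ℕ, ∀ (V : Type) [Finite V] (G : SimpleGraph V) (B : Set V)
  (f : V → ℕ), Fcs G → Bas G B f w p k q → Hy1 G B f r

/-- **H2** (120 lines).  (1b).  (Uses `R3.S_Rows`.)

Proof. `r` = the number of `R3.S_Rows` for `m = 8`, and at least 1.  Suppose `x`, `z`, `Y` are as in `Hy2`.  For `i < j` choose `y i j ∈ Y` adjacent to exactly one of `x i`, `x j`.  `R3.S_Rows` (for `x`, `y`):
`φ` increasing, `v k ∈ Y` for `k < 8`, such that `v k ~ x (φ l)` iff `k = l`, or iff `k ≠ l`, or iff `l ≤ k`, or iff `k ≤ l` (for all `k, l < 8`).  The `v k` are different (they see different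
sets of the `x (φ l)`).  Rails `x ∘ φ`, `z ∘ φ`, `v` with 6 indices: `HomD G 3 6 _ E D` with `E 0 0 = true`, `E 1 1 = false`, `E 2 2 = false`, `E 0 1 = E 1 0 = true`, `D 1 0 = false` (thick spider),
`E 1 2 = E 2 1 = D 2 1 = true`, and `(E 0 2, E 2 0, D 2 0)` is `(0,0,1)`, `(1,1,0)`, `(0,1,1)` or `(1,0,1)`: `Fcs.f6`.  (`v k ≠ z (φ l)`: these two are adjacent.) -/
def S_H2 : Prop := ∃ r : ℕ, ∀ (V : Type) (G : SimpleGraph V), Fcs G → Hy2 G r

/-- **Gr** (60 lines).  Greedy choice.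

Proof. Let `t` be the largest number `< r` such that there are `φ`, `v` as in the hypothesis with `t` instead of `r` (`t = 0` works).  `I = {φ i | i < t}`, `N = {v i | i < t}`.  Let `i < n`, `i ∉ I`, `s ∈ S i`,
`s ∉ N`: then `φ t = i`, `v t = s` is a family with `t + 1` members: contradiction to the choice of `t` (or to the hypothesis if `t + 1 = r`). -/
def S_Gr : Prop := ∀ (T : Type) (n r : ℕ) (S : ℕ → Set T), 1 ≤ r →
  (¬ ∃ (φ : ℕ → ℕ) (v : ℕ → T), (∀ i < r, φ i < n ∧ v i ∈ S (φ i)) ∧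
    ∀ i < r, ∀ j < r, i ≠ j → φ i ≠ φ j ∧ v i ≠ v j) →
  ∃ (I : Set ℕ) (N : Set T), I.Finite ∧ I.ncard < r ∧ N.Finite ∧ N.ncard < r ∧
    ∀ i < n, i ∉ I → S i ⊆ N

/-! ## 3. Cells -/

/-- **P** (120 lines).  A vertex which meets two cells is constant on all cells it is not in.

Proof. FIRST STATEMENT (`v ∈ B`, adjacent to the rest of `K`).  If `v ∈ C t` for some `t < n` then `t ≠ l` and `ant` gives `G.Adj v y` for `y ∈ C l \ B`.  Otherwise suppose `v` is not constant on `C l \ B`: `Cn.swZ`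
(`con`) for the property `¬ G.Adj v y`: `k ∈ C l ∩ B`, `z, z' ∈ C l \ B`, `k` meets `z` and `z'`, `v` meets `z` and not `z'`.  One of `i`, `j` is different from `l`, say `i`; let `c ∈ C i \ B` meet `v`, and
`c' ∈ C i ∩ B` meet `c` (`legZ`).  `Fcs.p6` for the clique `insert v K` and the stable set `Z` (disjoint as `Z` is outside `B`): `c', c, v, z, k, z'`.
SECOND STATEMENT (`v ∉ B`, not adjacent to `Z`): in the same way; `Cn.swK`: `z ∈ C l \ B` meets `k`, `k' ∈ C l ∩ B`, `v` meets `k` and not `k'`; `c ∈ C i ∩ B` meets `v`, `c' ∈ C i \ B` meets `c` (`legK`); `Fcs.p6` for `K`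
and `insert v Z`: `k', z, k, v, c, c'`. -/
def S_P : Prop := ∀ (V : Type) (G : SimpleGraph V) (B K Z : Set V) (b n : ℕ) (C : ℕ → Set V), Fcs G →
  Sys G B K Z b n C → ∀ v, (v ∈ B → ∀ x ∈ K, x ≠ v → G.Adj v x) → (v ∉ B → ∀ z ∈ Z, ¬ G.Adj v z) →
    ∀ i < n, ∀ j < n, i ≠ j → Tc G B v (C i) → Tc G B v (C j) → ∀ l < n, v ∉ C l → Cs G B v (C l)

/-- **Mx** (120 lines).  Cells of maximum total size.

Proof. Among the `C'` with `Sys G B K Z b n C'`, `C i ⊆ C' i` for `i < n` choose one with `∑ i < n, (C' i).ncard` maximum (the sum is bounded by `n * Nat.card V`).  Let `v ∈ K ∪ Z` be in no cell, and suppose that `v` meets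
`C' i` (`Tc`) and no other cell.  Let `C''` be `C'` with `C' i` replaced by `insert v (C' i)`: this is a system: `con`: `Cn.addK` or `Cn.addZ`; `ant` for `x = v ∈ B`, `y ∈ C' j`, `j ≠ i`: `v` does not meet `C' j`, so `G.Adj v y`;
for `y = v ∉ B`, `x ∈ C' j`: `¬ Tc G B v (C' j)` gives `G.Adj v x`.  The sum is larger: contradiction. -/
def S_Mx : Prop := ∀ (V : Type) [Finite V] (G : SimpleGraph V) (B K Z : Set V) (b n : ℕ)
  (C : ℕ → Set V), Sys G B K Z b n C → ∃ C' : ℕ → Set V, (∀ i < n, C i ⊆ C' i) ∧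
    Sys G B K Z b n C' ∧ ∀ v, (v ∈ K ∨ v ∈ Z) → (∀ i < n, v ∉ C' i) → ∀ i < n, Tc G B v (C' i) →
      ∃ j < n, j ≠ i ∧ Tc G B v (C' j)

/-- **Sat** (60 lines).  Saturated systems.  (Uses `S_P`, `S_Mx`.)

Proof. `C'` from `S_Mx` for `K = Kb G B f L`, `Z = Zb G B f L`; `att` is inherited, as `C i ⊆ C' i`.  Let `v ∈ K` or `v ∈ Z`, `l < n`, `v ∉ C' l`.  If `v` is in a cell `C' i`, `i ≠ l`: `ant` gives that `v` is adjacent to the
other side of `C' l`.  If `v` is in no cell and meets no cell: adjacent to the other side of `C' l`.  If `v` meets a cell then it meets two (`S_Mx`), and `S_P` (its two conditions follow from `kc`, `zs`,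
`kB`, `zB`). -/
def S_Sat : Prop := ∀ (V : Type) [Finite V] (G : SimpleGraph V) (B : Set V) (f : V → ℕ) (b n : ℕ)
  (L : Set (Bool × ℕ × Set V)) (C : ℕ → Set V), Fcs G → SysL G B f b L n C →
  ∃ C' : ℕ → Set V, (∀ i < n, C i ⊆ C' i) ∧ SysL G B f b L n C' ∧
    ∀ v, (v ∈ Kb G B f L ∨ v ∈ Zb G B f L) → ∀ l < n, v ∉ C' l → Cs G B v (C' l)

/-- **O1** (100 lines).

Proof. Suppose that `w` is not constant on `C i \ B` for `i < 3`.  For `i < 3`: `Cn.swZ` for the property `¬ G.Adj w y`: `x i ∈ C i ∩ B`, `s i, s' i ∈ C i \ B`, `x i` meets `s i` and `s' i`, `w` meets `s i`, `w ~ s' i`.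
`Sys.tp`: `TP G 3 true false true x s`.  `Fcs.f7` for `k = x`, `s`, `u = s' 0`, `w`: (`s' 0 ≠ s 0`, as `w` meets only one of them; `s' 0` and `s i`, `i ≠ 0`, are in different cells; `w ∉ K ∪ Z`; `s' 0`, `s i ∈ Z` are not
adjacent; `x i ~ s' 0` for `i ≠ 0` by `ant`) `w` meets `x 0` and `w ~ x 1`.  The same for the indices `1, 0, 2` (`k = x ∘ σ`, `u = s' 1`): `w` meets `x 1`: contradiction. -/
def S_O1 : Prop := ∀ (V : Type) (G : SimpleGraph V) (B K Z : Set V) (b n : ℕ) (C : ℕ → Set V), Fcs G →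
  Sys G B K Z b n C → 3 ≤ n → ∀ w, w ∉ K → w ∉ Z → ∃ i < 3, Cst G w (C i \ B)

/-- **O5** (200 lines).

Proof. Write `y` MEETS the cell `i` if `y` meets some `z ∈ C i \ B`.  Suppose `y` meets the cells `i ≠ j`.
CLAIM 1: for `{i, j}` in any order there are `k ∈ C i ∩ B`, `z ∈ C i \ B` such that `y`, `k`, `z` meet pairwise.  Suppose not.  `P = {z ∈ C i \ B | y meets z}`, `U = {k ∈ C i ∩ B | y meets k}`: both not empty, and no
`k ∈ U` meets a `z ∈ P`.  `L₁ = {k ∈ C i ∩ B | k meets some z ∈ P}`, `L₂ = {z ∈ C i \ B | z ∉ P, z meets some k ∈ L₁}`.  `U ∩ L₁ = ∅`.  (a) Some `k ∈ U` meets some `z ∈ L₂`: let `k₀ ∈ L₁` meet `z`, `z₀ ∈ P` meet `k₀`.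
`s ∈ C j \ B` meets `y`, `k₂ ∈ C j ∩ B` meets `s` (`legZ`); `l < 3`, `l ≠ i, j`: `k₃ ∈ C l ∩ B`, `s₃ ∈ C l \ B` meet.  `Fcs.f3` for `k = k₀, k, k₂, k₃` and `z = z₀, z, s, s₃`: (`k` does not meet `z₀ ∈ P`, as `k ∈ U`; `y ~ k₀`, as
`L₁ ∩ U = ∅`; `y ~ z`, as `z ∉ P`).  (b) Otherwise apply `con` to `P₁ = L₁`, `Q₁ = P ∪ L₂`: it is not everything (`U`), not empty (`P`), so there is an edge of the relation leaving: `k ∈ C i ∩ B` meets `z ∈ C i \ B` and
(`k ∈ L₁` and `z ∉ P ∪ L₂`: impossible) or (`k ∉ L₁` and `z ∈ P ∪ L₂`): `z ∉ P` (`k ∉ L₁`), so `z ∈ L₂`, and `k ∉ U` by (a), so `y ~ k`.  Let `k₀ ∈ L₁` meet `z`, `z₀ ∈ P` meet `k₀`, `s ∈ C j \ B` meet `y`.  `Fcs.p6` for the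
clique `{y, k₀, k}` and the stable set `{s, z₀, z}`: the path `k, z, k₀, z₀, y, s`: (`k` does not meet `z₀`: `k ∉ L₁`; `k`, `k₀` do not meet `s`: `ant`; `y ~ z`; `y ≠ k₀, k`).
CLAIM 2: `y` meets every `z ∈ C l \ B` for `l < n`, `l ≠ i, j`: let `k ∈ C l ∩ B` meet `z` (`legZ`), and a leg of a fourth cell (`l' ≠ i, j, l`, `l' < 4` or one of the first four indices different from these): `Fcs.f2` for the legs
of Claim 1 for `i` and `j`, this leg and the leg of the fourth cell (`Sys.tp`).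
CLAIM 3: the same for `l = i` (and `j`): let `l₁, l₂ ≠ i, j` be two other cells (`n ≥ 4`); by the hypothesis there is `t ∈ C l₁ ∩ B` which meets `y`, and a leg `t`, `z` of `l₁` (`legK`); `y` meets `z` by Claim 2; the same for `l₂`.
`Fcs.f2` for these two legs, a leg `k`, `z` with the given `z ∈ C i \ B`, and a leg of `C j`. -/
def S_O5 : Prop := ∀ (V : Type) (G : SimpleGraph V) (B K Z : Set V) (b n : ℕ) (C : ℕ → Set V), Fcs G →
  Sys G B K Z b n C → 4 ≤ n → ∀ y, y ∉ K → y ∉ Z → (∀ i < n, ∃ t ∈ C i, t ∈ B ∧ ¬ G.Adj y t) →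
    (∀ l < n, ∀ z ∈ C l, z ∉ B → ¬ G.Adj y z) ∨
    ∀ i < n, ∀ j < n, (∃ z ∈ C i, z ∉ B ∧ ¬ G.Adj y z) → (∃ z ∈ C j, z ∉ B ∧ ¬ G.Adj y z) → i = j

/-- **O6** (100 lines).

Proof. Choose `z i ∈ C (φ i) \ B` meeting `y i` (`i < 5`), and `s i ∈ C (φ (5 + i)) \ B` meeting `t i` (`legK`).  `Fcs.f4` for `k = t`, `s`, `y`, `t = z`: `TP .. t s` by `Sys.tp`; `TP .. y z`: `y i ~ z j` for
`i ≠ j` by the hypothesis, the `y i` are a clique, the `z i` are in `Z` and different; `t i`, `y j` meet by the hypothesis; `s i`, `z j ∈ Z`; `t i ~ z j`: `ant`; `y i ~ s j`: hypothesis.  (`y i ∉ K ∪ Z`.) -/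
def S_O6 : Prop := ∀ (V : Type) (G : SimpleGraph V) (B K Z : Set V) (b n : ℕ) (C : ℕ → Set V), Fcs G →
  Sys G B K Z b n C → ∀ (φ : ℕ → ℕ) (y t : ℕ → V), (∀ i < 10, φ i < n) →
    (∀ i < 10, ∀ j < 10, i ≠ j → φ i ≠ φ j) →
    (∀ i < 5, y i ∉ K ∧ y i ∉ Z ∧ (∃ z ∈ C (φ i), z ∉ B ∧ ¬ G.Adj (y i) z) ∧
      ∀ j < n, j ≠ φ i → ∀ z ∈ C j, z ∉ B → G.Adj (y i) z) →
    (∀ i < 5, ∀ j < 5, i ≠ j → G.Adj (y i) (y j)) →
    (∀ j < 5, t j ∈ C (φ (5 + j)) ∧ t j ∈ B ∧ ∀ i < 5, ¬ G.Adj (y i) (t j)) → False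

/-- **Ex** (150 lines).  Adding a label.

Proof. `Kb G B f (insert l L)` is `Kb G B f L` and the vertices of `B` with the label `l` (`Zb` in the same way).  `kc`: two vertices of `B` with the label `l` have the same `f` (`lab_f`), so they are adjacent
(`Bas.cl`); `hk` for the mixed pairs.  `zs`: `Bas.stb`, `hz`.  The cells `insert (u i) (C (φ i))`: all `u i` have the label `l`, so all are in `B` or all are outside `B` (`lab_iff`).  `u i` is in no `C j`, `j < n`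
(its label is not in `L`).  `con`: `Cn.addK` / `Cn.addZ` (`Tc`).  `dis`: `u i ≠ u j` for `i ≠ j`, as `u i` meets `C (φ i)` and `u j` does not.  `ant`: by the hypothesis on `Tc`.  `att`: `u i` for the label `l`. -/
def S_Ex : Prop := ∀ (V : Type) [Finite V] (G : SimpleGraph V) (B : Set V) (f : V → ℕ)
  (w p k q b n n' : ℕ) (L : Set (Bool × ℕ × Set V)) (C : ℕ → Set V) (l : Bool × ℕ × Set V) (φ : ℕ → ℕ)
  (u : ℕ → V), Bas G B f w p k q → SysL G B f b L n C → l ∉ L →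
  (∀ i < n', φ i < n ∧ lab G B f (u i) = l ∧ Tc G B (u i) (C (φ i)) ∧
    ∀ j < n, j ≠ φ i → ¬ Tc G B (u i) (C j)) → (∀ i < n', ∀ j < n', i ≠ j → φ i ≠ φ j) →
  (∀ x ∈ B, lab G B f x = l → ∀ y ∈ Kb G B f L, G.Adj x y) →
  (∀ x, x ∉ B → lab G B f x = l → ∀ y ∈ Zb G B f L, ¬ G.Adj x y) →
  SysL G B f b (insert l L) n' (fun i => insert (u i) (C (φ i)))

/-- the row of `x` on the vertices of the class `l` outside `B` which are complete to `Z` -/
def Rz {V : Type} (G : SimpleGraph V) (B : Set V) (f : V → ℕ) (Z : Set V) (l : ℕ) (x : V) : Set V :=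
  {v | v ∉ B ∧ f v = l ∧ (∀ z ∈ Z, G.Adj v z) ∧ G.Adj x v}

/-- **Cr** (150 lines).  The cut-rank of a good cell.

Proof. `H1T.rk_le_rows`: `cr G X = rk G X Xᶜ ≤ (Rw G X Xᶜ).ncard`.  The row `{v ∈ Xᶜ | x ~ v}` of `x ∈ X` depends only on the label of `x` and on the `p` sets `Rz G B f Z i x` (if `x ∈ B`): let `x, x' ∈ X` have the
same label and (if they are in `B`) the same sets `Rz .. i`, `i < p`; `v ∉ X`.  `x, x' ∈ B`: `v ∈ B`: `lab_adjB` (`v ≠ x, x'`); `v ∉ B`: if `v ∈ Z` or some `z ∈ Z` is not adjacent to `v` then `v` is constant on `X ∩ B` by `h2`;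
otherwise `v` is in the class `f v < p` (`Bas.fA`), complete to `Z`: `v ∈ Rz .. (f v) x` iff `v ~ x`.  `x, x' ∉ B`: `v ∈ B`: constant by `h1`; `v ∉ B`: `Bas.lab_adjA`.  So the number of rows is at most the number of the pairs
(label in `L`, function `Fin p → Set V` with values in `N i ∪ {∅}`), at most `M * (r + 1) ^ p`. -/
def S_Cr : Prop := ∀ (V : Type) [Finite V] (G : SimpleGraph V) (B : Set V) (f : V → ℕ)
  (w p k q M r : ℕ) (Z X : Set V) (L : Set (Bool × ℕ × Set V)) (N : ℕ → Set (Set V)),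
  Bas G B f w p k q → L.Finite → L.ncard ≤ M → (∀ x ∈ X, lab G B f x ∈ L) →
  (∀ v, v ∉ X → v ∈ B → Cst G v (X \ B)) →
  (∀ v, v ∉ X → v ∉ B → (v ∈ Z ∨ ∃ z ∈ Z, ¬ G.Adj v z) → Cst G v (X ∩ B)) →
  (∀ i < p, (N i).Finite ∧ (N i).ncard ≤ r ∧ ∀ x ∈ X, x ∈ B → Rz G B f Z i x ∈ N i) →
  LK.cr G X ≤ M * (r + 1) ^ p

/-- **Rd** (350 lines).  The round.  (Uses `S_Gr`, `S_P`, `S_Sat`, `S_O1`, `S_O5`, `S_O6`, `S_Ex`, `S_Cr`.)

Proof. We may assume `n' ≥ 1` (`Sys.mono`; prove it for `n' + 1`).  `n = p * n' + w * (r₁ + r₁ * n') + 4 * w * M + p * r₀ + 12`.  `r₀, r₁ ≥ 1` (`Hy1 .. 0`, `Hy2 .. 0` are false).  Let `C'` be the saturated system (`S_Sat`), write `C` for it; `K = Kb G B f L`, `Z = Zb G B f L`; these are not empty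
(`nk`, `nz`), `L` is finite (attained), `≤ M`.  Suppose the conclusion is false.
(1) Every `v ∉ B`, `v ∉ Z` is complete to `Z` or has no neighbours in `Z`: `S_O1` gives a cell `i < 3` such that `v` is constant on `C i \ B`; every `z ∈ Z` has the label of some vertex of `C i \ B` (`att`), and
`Bas.lab_adjA`.
(2) For `c < p` let `I₂ c` be the set of the `i < n` such that there is `v ∉ B`, `v ∉ Z`, `f v = c`, not complete to `Z`, which is not constant on `C i ∩ B`.  `|I₂ c| < n'`: otherwise choose `φ : ℕ → ℕ` injective into `I₂ c` and `u i`; by (1) `u i` has no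
neighbours in `Z`, so `S_P` (if `u i` met another cell it would be constant on `C (φ i)`): `Tc` only for `C (φ i)`.  `S_Ex` for `l = (false, c, ∅)`: `l ∉ L`, as otherwise `u i ∈ Z`; `hz`: `Bas.lab_adjA` (`x` and `u i` have
the same label).
(3) For `a < w` let `S i` be the set of the `nB G B y`, `y ∈ B`, `y ∉ K`, `f y = a`, complete to `K`, not constant on `C i \ B`.  Such a `y` meets only the cell `i` (`S_P`).  `S_Gr` with `r₁`: if there are `φ`, `v` with `r₁` members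
then `y i` (with `nB = v i`) and `z i ∈ C (φ i) \ B` meeting `y i` are as in `Hy1` (`TP`: `y i ~ y j` by `Bas.cl`, `y i ~ z j` for `i ≠ j`).  So there are `J₃ a`, `N₃ a` (less than `r₁` elements); for every `N ∈ N₃ a` there are
less than `n'` indices `i` with `N ∈ S i`: otherwise `S_Ex` for `l = (true, a, N)` (`l ∉ L` since `y ∉ K`; `hk`: `x ∈ B` with this label has `nB x = nB (y i) ⊇ K`, and `x ∉ K`).  So at most `r₁ + r₁ * n'` indices `i` have `S i ≠ ∅`.
(4) For `a < w`, `τ ∈ L` let `I₄ a τ` be the set of the `i < n` such that there is `y ∈ B`, `y ∉ K`, `f y = a`, not constant on `C i \ B`, not adjacent to some `x ∈ K` with the label `τ`.  `|I₄ a τ| < 5`: such a `y` is not adjacent to all `t ∈ B` with the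
label `τ` (`lab_adjB`: `y ∈ B`, `y ≠ x, t`), which exist in every cell (`att`), so by `S_O5` `y` meets only the cell `i`.  If there are 5 indices, take 5 other ones (`n ≥ 10`): `S_O6` (`y i ~ y j`: `Bas.cl`; `y i ≠ y j`: they meet different cells).
(5) For `c < p`: `S_Gr` with `r₀` and `S i = {Rz G B f Z c x | x ∈ C i ∩ B}`: if there were `φ`, `v` with `r₀` members: `x i ∈ C (φ i) ∩ B` with `Rz .. c (x i) = v i`, a leg `z i` (`legK`), `Y = {v | v ∉ B ∧ f v = c ∧ ∀ z ∈ Z, G.Adj v z}`: as in `Hy2`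
(`Y` is stable: `Bas.stb`; disjoint from `Z`, as `Z ≠ ∅` is stable).  So all but less than `r₀` indices `i` have `Rz .. c x ∈ N₅ c` for `x ∈ C i ∩ B`, `|N₅ c| < r₀`.
(6) `n` is larger than the sum of the numbers of the indices in (2) to (5), so there is `i < n` which is in none of them.  `S_Cr` for `X = C i`: `h1`: `v ∈ B`, `v ∉ X`: `v ∈ K`: saturated; `v ∉ K` complete to `K`: (3); otherwise (4) (`f v < w`).  `h2`: `v ∈ Z`: saturated;
otherwise (2).  So `cr G (C i) ≤ M * (r₀ + 1) ^ p`, and `MC` contradicts `big` for `C i` and for another cell `C j ⊆ (C i)ᶜ`. -/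
def S_Rd : Prop := ∀ w p r₀ r₁ M n' : ℕ, ∃ n : ℕ, ∀ (V : Type) [Finite V] (G : SimpleGraph V)
  (B : Set V) (f : V → ℕ) (k q b : ℕ) (L : Set (Bool × ℕ × Set V)) (C : ℕ → Set V), Fcs G →
  Bas G B f w p k q → Hy1 G B f r₁ → Hy2 G r₀ → MC G (M * (r₀ + 1) ^ p) b → L.ncard ≤ M →
  SysL G B f b L n C → ∃ l, l ∉ L ∧ ∃ C' : ℕ → Set V, SysL G B f b (insert l L) n' C'

/-- **Bd** (100 lines).  There are few labels.

Proof. `L` is finite: every label of `L` is attained (`att`, `n ≥ 1`).  The labels of `L` are `(false, c, ∅)` with `c < p` (`Bas.fA`), or `(true, a, N)` with `a < w`.  For every `a < w` there are less than `r₁` labels `(true, a, N)` in `L`: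
otherwise take `r₁` different ones, `l i`, `i < r₁`, and `x i ∈ C i` with the label `l i` (`n ≥ r₁`), legs `z i` (`legK`): as in `Hy1` (`Sys.tp`).  So `|L| ≤ p + w * r₁`. -/
def S_Bd : Prop := ∀ (V : Type) [Finite V] (G : SimpleGraph V) (B : Set V) (f : V → ℕ)
  (w p k q b n r₁ : ℕ) (L : Set (Bool × ℕ × Set V)) (C : ℕ → Set V), Bas G B f w p k q →
  Hy1 G B f r₁ → SysL G B f b L n C → r₁ + 1 ≤ n → L.Finite ∧ L.ncard ≤ p + w * r₁

/-- **Cell** (200 lines).  The cell theorem.  (Uses `S_H1`, `S_H2`, `S_Gr`, `S_Rd`, `S_Bd`.)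

Proof. `r₁` from `S_H1`, `r₀` from `S_H2`, `M = p + w * r₁`, `c₁ = M * (r₀ + 1) ^ p`.  (1) For every `d` there is `n_d` such that (for all `G`, .. as in the statement) there is no `SysL G B f b L n_d C` with `L.ncard + d = M + 1`.
`d = 0`: `n_0 = r₁ + 1` by `S_Bd`.  `d + 1`: `n` from `S_Rd` for `n' = n_d` and at least `r₁ + 1` (`SysL` for a smaller number of cells: `Sys.mono`); `L.ncard ≤ M`, `(insert l L).ncard = L.ncard + 1` (`L` finite).
(2) `n₀` = the maximum of the `n_d`, `d ≤ M + 1`, and `r₁ + 1`; `N₁ = r₁ + 2 ^ r₁ * n₀ + 1`.  Suppose `P`, `Q` are as in `Anti (nA G) .. b N₁`; `P i`, `Q i` are not empty (`Cn.two`, `b ≥ 1`).  `S_Gr` (`r = r₁`, `S i = {nB G B x | x ∈ P i}`): if there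
were `φ`, `v` with `r₁` members: `x i ∈ P (φ i)` with `nB = v i`, `z i ∈ Q (φ i)` meeting `x i` (`Cn.nbK`): as in `Hy1` (`TP`: `x i ~ z j` for `i ≠ j`, as they are anticomplete for `nA`).  (`r₁ ≥ 1`, as `Hy1 .. 0` is false.)  So there are `I`, `N` with less than `r₁`
elements, and `{nB G B x | x ∈ P i} ⊆ N` for `i ∉ I`.  There are at most `2 ^ r₁` subsets of `N`, so there are `n₀` indices `σ 0, ..` for which `{nB G B x | x ∈ P i}` is the same set `N'` (pigeonhole).  `L = {(true, a, X) | X ∈ N'} ∪ {(false, j, ∅)}`,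
`C i = P (σ i) ∪ Q (σ i)`: `SysL G B f b L n₀ C`: `kc`: `Kb` consists of vertices of the class `a` (`Bas.cl`), `zs`: `Bas.stb`, `C i ∩ B = P (σ i)`, `C i \ B = Q (σ i)`, `big`: `ncard_union_eq`.  `1 ≤ L.ncard ≤ M` (`S_Bd`): contradiction to (1)
for `d = M + 1 - L.ncard`. -/
def S_Cell : Prop := ∀ w p k q : ℕ, ∃ c₁ N₁ : ℕ, ∀ b : ℕ, 1 ≤ b → ∀ (V : Type) [Finite V]
  (G : SimpleGraph V) (B : Set V) (f : V → ℕ), Fcs G → Bas G B f w p k q → MC G c₁ b →
  ∀ a j : ℕ, ¬ Anti (nA G) {x | x ∈ B ∧ f x = a} {x | x ∉ B ∧ f x = j} b N₁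

/-! ## 4. The decomposition and the modified graph -/

/-- **Pm** (60 lines).  No long matchings, and no long co-matchings if there are no large cliques or no large stable sets.

Proof. `Rep.typed (m + k)` gives `m'`: a (co-)matching pattern of size `m'` gives `TP G (m + k) s t e a b`, so `TP G m s t e a b`.  For `e = false` this contradicts `NoPat`; for `e = true`:
if there is no stable set with `k` elements then `s = t = true` (`a i`, `i < k`, would be stable), if there is no clique with `k` elements then `s = t = false` (for `k ≥ 1`; for `k = 0` the hypothesis is false, by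
`T = ∅`); in both cases `¬ (s ≠ t ∧ e = true)`: contradiction to `NoPat`. -/
def S_Pm : Prop := ∀ m k : ℕ, ∃ m' : ℕ, ∀ (V : Type) (G : SimpleGraph V), NoPat G m →
  ¬ X2.MatP G m' ∧ (((∀ T : Finset V, R3.Stb G T → T.card < k) ∨
    ∀ T : Finset V, R3.Clq G T → T.card < k) → ¬ X2.ComP G m')

/-- **Sp** (150 lines).  The split lemma.  (Uses `S_Pm`, `R3.S_Pairs`; `W.ramC` is a theorem.)

Proof. Copy `R3/Split.lean` (`splitAux` can be used): the only use of `¬ ComP G m` is `noCo`, where `y a`, `y b` are two cliques (`h1 : ∀ a < k, G.Adj (y a 0) (y a 1)` and `hom`), so instead of `ComP` we get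
`TP G m true true true (y a) (y b)`, against `NoPat G m`.  `¬ MatP G m'` by `S_Pm` (use `max m m'` as the number `m` of `R3/Split.lean`). -/
def S_Sp : Prop := ∀ m : ℕ, ∃ k q : ℕ, ∀ (V : Type) [Finite V] (G : SimpleGraph V), NoPat G m →
  ∃ B : Finset V, (∀ T ⊆ B, R3.Stb G T → T.card < k) ∧
    ∀ K : Finset V, Disjoint K B → R3.Clq G K → K.card < q

/-- **Start** (200 lines).  The decomposition.  (Uses `S_Pm`, `S_Sp`, `R3.S_AClass`, `R3.S_BClass`, `R3.S_FF`.)

Proof. `k`, `q` and `B` from `S_Sp`.  `NoPat` is inherited by induced subgraphs (`Rep.tp_induce` of `Rep/RowX4.lean`, or directly).  Let `m'` be the number of `S_Pm` for `m` and `max k q`, `m₁` from `R3.S_FF` for `m'`.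
`G.induce B` (on the subtype of `B`): no stable set with `k` elements, so no `MatP`, `ComP` of size `m'`, and `F2` of size `m₁` (`R3.S_FF` for `G.induce B`; `R3.Facts` is inherited: or take `F2` from
`Facts`: see `R3/FF.lean`; a pattern of `F2` in `G.induce B` is one in `G`).  `R3.S_BClass` (with `max m' m₁`, for `B = univ`) gives `w`, `c`, `ρ`: the classes are cliques, and `Rk.mono` gives (Bas.ch).  `G.induce Bᶜ`: no cliques with `q` elements, so no `MatP`, `ComP`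
of size `m'`, `F1` of size `m₁`; `R3.S_AClass` gives `p`, `c`: (Bas.tw).  `f x = c x` in both cases. -/
def S_Start : Prop := ∀ m : ℕ, ∃ w p k q : ℕ, ∀ (V : Type) [Finite V] (G : SimpleGraph V),
  R3.Facts G → NoPat G m → ∃ (B : Set V) (f : V → ℕ), Bas G B f w p k q

/-- **Md** (200 lines).  The modified graph.  (Uses `S_Cell`, `S_W`.)

Proof. `c₁`, `N₁` from `S_Cell`; `T = max 1 N₁ * max 1 m`.  For every `a < w`, `j < p`: `K = {x ∈ B | f x = a}` is a clique, `Z = {x ∉ B | f x = j}` is stable, so `NP6 (nA G) K Z` (`Fcs.p6`); `¬ Anti .. b N₁`, so `¬ Anti .. b (N₁ + 1)`;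
`¬ CoM (nA G) K Z (m + 1)`: otherwise `k`, `z` restricted to `m` indices are `TP G m true false false k z` (`¬ nA` iff `i = j`; the `k i` are different, as they see different sets).  `S_W` (with `ν = N₁`, `τ = m`) gives `S a j`, `c a j`, `d a j` (choice; for other `a`, `j` anything, e.g. `R`,
`0`, `0`).  `G'`: for `x ∈ B`, `y ∉ B`: `x ~' y` iff `¬ S (f x) (f y) x y`, symmetric; otherwise `G`.  `same`: clear.  `deg`: for `x ∈ B` the set is the union over `j < p` of sets with less than `b` elements (`¬ (¬ S ↔ Adj)` iff `¬ (S ↔ nA G)`), for `x ∉ B` over `a < w`.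
`col`: `χ x` = a number for (`x ∈ B`, `f x`, the function `j ↦ c (f x) j x` on `Fin p` if `x ∈ B`, `a ↦ d a (f x) x` on `Fin w` otherwise), in a finite type whose number `N` of elements depends only on `w`, `p`, `T`; if `χ x = χ x'`, `χ y = χ y'` then a `2K_2` of `G'` is a `2K_2` of `S (f x) (f y)`
between two colours (`2K_2` is invariant under complementation: `x, x', y', y`). -/
def S_Md : Prop := ∀ m w p k q : ℕ, ∃ c₁ N : ℕ, ∀ b : ℕ, 1 ≤ b → ∀ (V : Type) [Finite V]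
  (G : SimpleGraph V) (B : Set V) (f : V → ℕ), Fcs G → NoPat G m → Bas G B f w p k q → MC G c₁ b →
  ∃ G' : SimpleGraph V, Md G G' B N (b * (w + p))

/-- **NM** (300 lines).  No long matchings, co-matchings and opposite half graphs in the modified graph.

Proof. MATCHINGS, CO-MATCHINGS.  Let `a`, `b` be a pattern of `X2.MatP G' m'` or `X2.ComP G' m'`.  `W.ramC` for the colours (of `i < j`) (`a i ∈ B`, `b i ∈ B`, `a i ~' a j`, `b i ~' b j`): `m₂ + 1` indices, drop the last one.  If the `a i` and `b i` are all in `B`, or all are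
outside `B`: a pattern `TP G m s t e` (`Md.same`), with `s = t = true` in the first case (`Bas.ns`, `m₂ ≥ k`), `s = t = false` in the second one (`Bas.nc`): contradiction to `NoPat`, for `e = false` and `e = true`.  If `a i ∈ B`, `b i ∉ B` for all `i`: there are more than
`N ^ 2` indices, so there are `i ≠ j` with `χ (a i) = χ (a j)`, `χ (b i) = χ (b j)`: `Md.col` for `a i, a j, b i, b j` (matching) or `a i, a j, b j, b i` (co-matching).  The case `a i ∉ B`, `b i ∈ B`: exchange `a` and `b`.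
F2.  Let `x`, `u`, `v` be a pattern of `R3.F2 G' m'` (`u i ~' x j` iff `j ≤ i`, `v i ~' x j` iff `i ≤ j`, `x` is a clique).  `W.ramC` for the rails `v, x, u` (colours of `i < j`: the membership in `B` and the adjacencies in `G` and `G'` between the rails at `i` and at `j`): `M0 + b + q + 2`
indices.  `x i ∈ B` for all `i`: otherwise the `x i` are a clique outside `B` (also in `G`, `Md.same`) with `q` elements.  `G` and `G'` agree for different indices: if `G` and `G'` differ on (rail `c` at `i`, rail `d` at `j`) for all `i < j` then the vertex of the rail `c` at `0` is in more than `b` pairs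
(`Md.deg`; the vertices of the rail `d` are different).  So `R3.Hom G 3 M0 _ E` for the rails `v, x, u` with `E 1 1 = true`, `E 0 1 = true`, `E 1 0 = false`, `E 1 2 = true`, `E 2 1 = false`: contradiction to `Facts.opK`.  (As in `R3/FF.lean`, `f2`.) -/
def S_NM : Prop := ∀ m w p k q N b : ℕ, ∃ m' : ℕ, ∀ (V : Type) [Finite V] (G G' : SimpleGraph V)
  (B : Set V) (f : V → ℕ), R3.Facts G → NoPat G m → Bas G B f w p k q → Md G G' B N b →
  ¬ X2.MatP G' m' ∧ ¬ X2.ComP G' m' ∧ R3.F2 G' m'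

/-- **F34** (150 lines).  `F3` and `F4` for `G`.

Proof. `R3/FF.lean` (`f3`, `f4`; copy, they are private there): `f3` does not use `ComP`; in `f4` the co-matching `b, b'` consists of two cliques, so it is `TP G m true true true`, against `NoPat`. -/
def S_F34 : Prop := ∀ m : ℕ, ∃ m' : ℕ, ∀ (V : Type) (G : SimpleGraph V), R3.Facts G → NoPat G m →
  R3.F3 G m' ∧ R3.F4 G m'

/-- **Sg** (350 lines).  The signs of two nested cliques at a stable set, for the modified graph.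

Proof. `nn v` = `R3.nn G' A v`, `nn' v` = `R3.nn G' B v`.  `Ex v = {y | ¬ (G'.Adj v y ↔ G.Adj v y)}` (at most `b` elements).  For `v ∈ Z` the non-neighbours (in `G'`) of `v` in `A` are the `nn v` elements of `A` with the smallest `ρ` (`Rk.mono`, `v ∉ A`).  If `nn v > b` then there is a
non-neighbour which is not in `Ex v`; let `lA v` be the one with the largest `ρ`: so the number of the elements of `A` with `ρ ≤ ρ (lA v)` is more than `nn v - b - 1` and at most `nn v`.  So (1) `w ∈ Z`, `nn w + b + 1 ≤ nn v`: `w ~' lA v`; (2) `w ∈ Z`, `nn v ≤ nn w`: not `w ~' lA v`;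
(3) not `v ~ lA v` (in `G`, as `lA v ∉ Ex v`).  The same for `B`, `lB`.
The type of `v ∈ Z`: (`min (nn v) (b + 1)`, `min (nn' v) (b + 1)`, `sgn v`), `sgn v` = `G.Adj (lA v) (lB v)`.  For `v, w` of the same type with `nn v, nn' v, nn w, nn' w > b` let `v ⊲ w` mean `nn v < nn w` and (`nn' w < nn' v` if `sgn`, `nn' v < nn' w` if not `sgn`): transitive.
CLAIM: there are no `v 0 ⊲ .. ⊲ v (M - 1)` in `Z` of the same type, `M = (b + 1) * M₁`, `M₁` the number of `W.ramC` for `m + b + 2` and the colours `Fin 4 → Bool`.  Let `v' i = v ((b + 1) * i)`, `i < M₁`: `nn (v' i) + b + 1 ≤ nn (v' j)` for `i < j`, and for `nn'` in the direction of the sign.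
`x i = lA (v' i)`, `x' i = lB (v' i)`.  By (1), (2): `v' i ~' x j` iff `i < j`; `v' i ~' x' j` iff `j < i` (`sgn`) resp. iff `i < j` (not `sgn`).  `W.ramC` for the colours (of `i < j`): `x j ∈ Ex (v' i)`, `x i ∈ Ex (v' j)`, `x' j ∈ Ex (v' i)`, `x' i ∈ Ex (v' j)`; all colours are `false`: otherwise
`v' 0` resp. `x 0`, `x' 0` is in more than `b` pairs (for the second and fourth colour use `Ex (x 0) ∋ v' j`; the `x j` are different, as the `v' i` see different sets).  So in `G`: `v' i ~ x j` iff `i < j` for `i ≠ j`, and for `i = j` by (3); the same for `x'`.  `x`, `x'` are cliques in `G`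
(`Rk.cl` for `G'` and `hAB`), `v'` is stable.  `sgn`: `R3.F3 G m` fails (`x i ~ x' i`); not `sgn`: `R3.F4 G m` fails.
Let `h v` be the largest `t < M` such that there are `v 0 ⊲ .. ⊲ v t = v` of the type of `v` in `Z` (`0` if some `nn` is `≤ b`).  `c v` = (type, `h v`), in a finite type with `(b + 2) ^ 2 * 2 * (M + 1)` elements; `σ` = `sgn`.  Let `c v = c w`, `nn v < nn w`: so `min (nn v) (b + 1) = min (nn w) (b + 1)` gives
`nn v > b`.  If `nn' v ≤ b` then `nn' v = nn' w`: clear.  Otherwise not `v ⊲ w` (otherwise `h v < h w`): if `sgn` then `nn' v ≤ nn' w`, if not `sgn` then `nn' w ≤ nn' v`.  (See `R3/Sgn.lean` for the details of the last part.) -/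
def S_Sg : Prop := ∀ m b : ℕ, ∃ q : ℕ, ∀ (V : Type) [Finite V] (G G' : SimpleGraph V)
  (Z A B : Set V) (ρ : V → ℕ), R3.F3 G m → R3.F4 G m → (∀ x ∈ Z, ∀ y ∈ Z, ¬ G.Adj x y) →
  Disjoint Z A → Disjoint Z B → Disjoint A B →
  (∀ x ∈ A ∪ B, ∀ y ∈ A ∪ B, (G'.Adj x y ↔ G.Adj x y)) →
  (∀ x, {y | ¬ (G'.Adj x y ↔ G.Adj x y)}.ncard ≤ b) → R3.Rk G' A ρ → R3.Rk G' B ρ →
  ∃ (c : V → Fin q) (σ : Fin q → Bool), ∀ v ∈ Z, ∀ w ∈ Z, c v = c w →
    R3.nn G' A v < R3.nn G' A w →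
    (σ (c v) = true → R3.nn G' B v ≤ R3.nn G' B w) ∧ (σ (c v) = false → R3.nn G' B w ≤ R3.nn G' B v)

/-- **ZC** (100 lines).  The partition of one stable class, for the modified graph.  (Uses `S_Sg`, `R3.S_Bal`.)

Proof. Copy `R3/ZClass.lean` with `S_Sg` instead of `R3.S_Sgn` (`zClassAux` can be used; `rk_empty`). -/
def S_ZC : Prop := ∀ m b w : ℕ, ∃ q : ℕ, ∀ (V : Type) [Finite V] (G G' : SimpleGraph V) (Z : Set V)
  (C : Fin w → Set V) (ρ : V → ℕ), R3.F3 G m → R3.F4 G m → (∀ x ∈ Z, ∀ y ∈ Z, ¬ G.Adj x y) →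
  (∀ a, Disjoint Z (C a)) → (∀ a b, a ≠ b → Disjoint (C a) (C b)) →
  (∀ a b, ∀ x ∈ C a, ∀ y ∈ C b, (G'.Adj x y ↔ G.Adj x y)) →
  (∀ x, {y | ¬ (G'.Adj x y ↔ G.Adj x y)}.ncard ≤ b) → (∀ a, R3.Rk G' (C a) ρ) →
  ∃ (c : V → Fin q) (t : Fin q → Fin w → Bool) (ρ' : V → ℕ), ∀ x ∈ Z, ∀ y ∈ Z, c x = c y → x ≠ y →
    ρ' x ≠ ρ' y ∧ (ρ' x < ρ' y → ∀ a, (t (c x) a = true → R3.nn G' (C a) x ≤ R3.nn G' (C a) y) ∧
      (t (c x) a = false → R3.nn G' (C a) y ≤ R3.nn G' (C a) x))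

/-- **St** (200 lines).  The staircase structure of the modified graph.  (Uses `S_NM`, `S_F34`, `S_ZC`, `R3.S_BClass`.)

Proof. `m'` from `S_NM`, `m₁` from `S_F34`; `R3.S_BClass` for `G'`, `m'`, `k` and the finset of `B`: `cB : V → Fin n`, `ρB`, nested cliques for `G'` (stable subsets of `B` for `G'` are stable for `G`, `Md.same`).  `cA x` = the number `f x` of the class (`Fin p`; `p ≥ 1` if there is a vertex outside `B`; use
`Fin (p + 1)` and `min (f x) p`): twins outside `B` for `G` and so for `G'`.  `S_ZC` (with `m₁`, `b`) for every class outside `B` and the sets `C a = {x ∈ B | cB x = a}`.  Then `R3.partAux.key` (of `R3/Part.lean`) for `G'`; it has to be copied, with the additional conclusion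
`∀ x, S.t (S.c x) = true ↔ x ∈ B` (`t` is `isLeft`, and the class of `x` is `inl` iff `x ∈ B`: `cl_B`, `cl_A`). -/
def S_St : Prop := ∀ m w p k q N b : ℕ, ∃ n : ℕ, ∀ (V : Type) [Finite V] (G G' : SimpleGraph V)
  (B : Set V) (f : V → ℕ), R3.Facts G → NoPat G m → Bas G B f w p k q → Md G G' B N b →
  ∃ S : X2.St V n, S.G = G' ∧ (∀ i, S.t i = true → ∀ j, S.s i j = true) ∧
    ∀ x, (S.t (S.c x) = true ↔ x ∈ B)

/-! ## 5. The final theorem -/

/-- **Theorem ST.**  (Assembly: `S_Fct`, `R3.facts2`, `S_Start`, `S_Md`, `S_St`, `Rep.killJ`, `Rep.killR`.) -/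
def S_ST : Prop := ∀ m : ℕ, ∀ β : ℕ → ℕ, ∃ c₀ n b : ℕ, ∀ (V : Type) [Finite V] (G : SimpleGraph V),
  Rep.Fr (KA 3 3 ![{0}, {1}, {0, 2}]) J4 G →
  NoT {(false, false, false), (true, false, false), (true, true, true)} m G → Link β c₀ G →
  ∃ S : X2.St V n, (∀ x y, ¬ (S.G.Adj x y ↔ G.Adj x y) → S.t (S.c x) ≠ S.t (S.c y)) ∧
    (∀ x, {y | ¬ (S.G.Adj x y ↔ G.Adj x y)}.ncard ≤ b) ∧ ∀ i, S.t i = true → ∀ j, S.s i j = true

end Pool.Agent.MPd439b2.ST
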